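import Mathlib.Computability.RE
import Mathlib.Computability.Primrec.List
import Mathlib.Tactic

/-! Sigma-one toolkit: `Sig p` means that `p` is the projection of a primitive recursive
predicate.  `fun_prop` proves `Primrec` and `Sig` goals. -/

namespace Pool.Agent.H10

attribute [fun_prop] Primrec

section PR
variable {α β γ σ : Type*} [Primcodable α] [Primcodable β] [Primcodable γ] [Primcodable σ]

@[fun_prop] theorem pr_id : Primrec (fun a : α => a) := Primrec.id
@[fun_prop] theorem pr_const (x : σ) : Primrec (fun _ : α => x) := Primrec.const x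
@[fun_prop] theorem pr_comp {f : β → σ} {g : α → β} (hf : Primrec f) (hg : Primrec g) :
    Primrec (fun a => f (g a)) := hf.comp hg
@[fun_prop] theorem pr_fst {f : α → β × γ} (hf : Primrec f) : Primrec (fun a => (f a).1) :=
  Primrec.fst.comp hf
@[fun_prop] theorem pr_snd {f : α → β × γ} (hf : Primrec f) : Primrec (fun a => (f a).2) :=
  Primrec.snd.comp hf
@[fun_prop] theorem pr_pair {f : α → β} {g : α → γ} (hf : Primrec f) (hg : Primrec g) :
    Primrec (fun a => (f a, g a)) := hf.pair hg
@[fun_prop] theorem pr_cons {f : α → β} {g : α → List β} (hf : Primrec f) (hg : Primrec g) :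
    Primrec (fun a => f a :: g a) := Primrec.list_cons.comp hf hg
@[fun_prop] theorem pr_append {f g : α → List β} (hf : Primrec f) (hg : Primrec g) :
    Primrec (fun a => f a ++ g a) := Primrec.list_append.comp hf hg
@[fun_prop] theorem pr_reverse {f : α → List β} (hf : Primrec f) :
    Primrec (fun a => (f a).reverse) := Primrec.list_reverse.comp hf
@[fun_prop] theorem pr_length {f : α → List β} (hf : Primrec f) :
    Primrec (fun a => (f a).length) := Primrec.list_length.comp hf
@[fun_prop] theorem pr_map {f : α → List β} {g : α → β → σ} (hf : Primrec f)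
    (hg : Primrec fun x : α × β => g x.1 x.2) :
    Primrec (fun a => (f a).map (g a)) := Primrec.list_map hf hg
@[fun_prop] theorem pr_flatMap {f : α → List β} {g : α → β → List σ} (hf : Primrec f)
    (hg : Primrec fun x : α × β => g x.1 x.2) :
    Primrec (fun a => (f a).flatMap (g a)) := Primrec.list_flatMap hf hg
@[fun_prop] theorem pr_take {f : α → List β} {n : α → ℕ} (hn : Primrec n) (hf : Primrec f) :
    Primrec (fun a => (f a).take (n a)) := Primrec.list_take.comp hn hf
@[fun_prop] theorem pr_drop {f : α → List β} {n : α → ℕ} (hn : Primrec n) (hf : Primrec f) :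
    Primrec (fun a => (f a).drop (n a)) := Primrec.list_drop.comp hn hf
@[fun_prop] theorem pr_range {n : α → ℕ} (hn : Primrec n) :
    Primrec (fun a => List.range (n a)) := Primrec.list_range.comp hn
@[fun_prop] theorem pr_getElem? {f : α → List β} {n : α → ℕ} (hf : Primrec f) (hn : Primrec n) :
    Primrec (fun a => (f a)[n a]?) := Primrec.list_getElem?.comp hf hn
@[fun_prop] theorem pr_some {f : α → β} (hf : Primrec f) : Primrec (fun a => some (f a)) :=
  Primrec.option_some.comp hf
@[fun_prop] theorem pr_inl {f : α → β} (hf : Primrec f) :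
    Primrec (fun a => (Sum.inl (f a) : β ⊕ γ)) := Primrec.sumInl.comp hf
@[fun_prop] theorem pr_inr {f : α → γ} (hf : Primrec f) :
    Primrec (fun a => (Sum.inr (f a) : β ⊕ γ)) := Primrec.sumInr.comp hf
@[fun_prop] theorem pr_add {f g : α → ℕ} (hf : Primrec f) (hg : Primrec g) :
    Primrec (fun a => f a + g a) := Primrec.nat_add.comp hf hg
@[fun_prop] theorem pr_mul {f g : α → ℕ} (hf : Primrec f) (hg : Primrec g) :
    Primrec (fun a => f a * g a) := Primrec.nat_mul.comp hf hg
@[fun_prop] theorem pr_sub {f g : α → ℕ} (hf : Primrec f) (hg : Primrec g) :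
    Primrec (fun a => f a - g a) := Primrec.nat_sub.comp hf hg
@[fun_prop] theorem pr_not {f : α → Bool} (hf : Primrec f) : Primrec (fun a => !f a) :=
  Primrec.not.comp hf
@[fun_prop] theorem pr_cond {c : α → Bool} {f g : α → σ} (hc : Primrec c) (hf : Primrec f)
    (hg : Primrec g) : Primrec (fun a => bif c a then f a else g a) := Primrec.cond hc hf hg
theorem pr_fin [Finite β] (f : β → σ) : Primrec f := Primrec.dom_finite f

end PR

/-- Sigma-one predicates. -/
@[fun_prop] def Sig {α : Type*} [Primcodable α] (p : α → Prop) : Prop :=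
  ∃ q : α × ℕ → Prop, PrimrecPred q ∧ ∀ a, p a ↔ ∃ n, q (a, n)

/-- Bounded universal quantifier over a list. -/
def BAll {β : Type*} (l : List β) (p : β → Prop) : Prop := ∀ b ∈ l, p b

section Sig
variable {α β γ : Type*} [Primcodable α] [Primcodable β] [Primcodable γ]

theorem Sig.of_eq {p q : α → Prop} (hp : Sig p) (h : ∀ a, p a ↔ q a) : Sig q :=
  (funext fun a => propext (h a) : p = q) ▸ hp

theorem Sig.of_pr {p : α → Prop} (hp : PrimrecPred p) : Sig p :=
  ⟨fun x => p x.1, hp.comp Primrec.fst, fun _ => ⟨fun h => ⟨0, h⟩, fun ⟨_, h⟩ => h⟩⟩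

@[fun_prop] theorem Sig.comp {p : β → Prop} {f : α → β} (hp : Sig p) (hf : Primrec f) :
    Sig (fun a => p (f a)) := by
  obtain ⟨q, hq, h⟩ := hp
  exact ⟨fun x => q (f x.1, x.2), hq.comp (by fun_prop), fun a => h (f a)⟩

@[fun_prop] theorem Sig.const (c : Prop) : Sig (fun _ : α => c) := by
  classical
  exact Sig.of_pr (Primrec.primrecPred (Primrec.const (decide c)))

theorem Sig.fin [Finite α] (p : α → Prop) : Sig p := by
  classical
  exact Sig.of_pr (Primrec.primrecPred (Primrec.dom_finite _))

@[fun_prop] theorem Sig.eq {f g : α → β} (hf : Primrec f) (hg : Primrec g) :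
    Sig (fun a => f a = g a) := Sig.of_pr (Primrec.eq.comp hf hg)

@[fun_prop] theorem Sig.ne {f g : α → β} (hf : Primrec f) (hg : Primrec g) :
    Sig (fun a => f a ≠ g a) := Sig.of_pr (Primrec.eq.comp hf hg).not

@[fun_prop] theorem Sig.le {f g : α → ℕ} (hf : Primrec f) (hg : Primrec g) :
    Sig (fun a => f a ≤ g a) := Sig.of_pr (Primrec.nat_le.comp hf hg)

@[fun_prop] theorem Sig.lt {f g : α → ℕ} (hf : Primrec f) (hg : Primrec g) :
    Sig (fun a => f a < g a) := Sig.of_pr (Primrec.nat_lt.comp hf hg)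

theorem prp_mem : PrimrecPred (fun x : β × List β => x.1 ∈ x.2) := by
  have h := PrimrecRel.exists_mem_list (R := fun a b : β => a = b) Primrec.eq
  refine PrimrecPred.of_eq (PrimrecRel.comp h Primrec.snd Primrec.fst) ?_
  intro x; simp

@[fun_prop] theorem Sig.mem {f : α → β} {g : α → List β} (hf : Primrec f) (hg : Primrec g) :
    Sig (fun a => f a ∈ g a) :=
  Sig.of_pr (prp_mem.comp (f := fun a => (f a, g a)) (by fun_prop))

theorem Sig.notMem {f : α → β} {g : α → List β} (hf : Primrec f) (hg : Primrec g) :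
    Sig (fun a => f a ∉ g a) :=
  Sig.of_pr (prp_mem.comp (f := fun a => (f a, g a)) (by fun_prop)).not

@[fun_prop] theorem Sig.or {p q : α → Prop} (hp : Sig p) (hq : Sig q) :
    Sig (fun a => p a ∨ q a) := by
  obtain ⟨p', hp', h1⟩ := hp
  obtain ⟨q', hq', h2⟩ := hq
  refine ⟨fun x => p' x ∨ q' x, hp'.or hq', fun a => ?_⟩
  simp only [h1, h2, exists_or]

@[fun_prop] theorem Sig.ex {p : α → β → Prop} (hp : Sig fun x : α × β => p x.1 x.2) :
    Sig (fun a => ∃ b, p a b) := by
  obtain ⟨q, hq, h⟩ := hp
  have h1 : PrimrecRel (fun (y : β × ℕ) (a : α) => q ((a, y.1), y.2)) :=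
    PrimrecPred.primrecRel (p := fun z : (β × ℕ) × α => q ((z.2, z.1.1), z.1.2))
      (hq.comp (by fun_prop))
  have h2 := PrimrecRel.exists_mem_list h1
  have h3 : Primrec (fun x : α × ℕ => (Encodable.decode (α := β × ℕ) x.2).toList) :=
    Primrec.optionToList.comp (Primrec.decode.comp Primrec.snd)
  refine ⟨_, PrimrecRel.comp h2 h3 Primrec.fst, fun a => ?_⟩
  constructor
  · rintro ⟨b, hb⟩
    obtain ⟨n, hn⟩ := (h (a, b)).1 hb
    exact ⟨Encodable.encode (b, n), (b, n), by simp, hn⟩
  · rintro ⟨n, y, -, hy⟩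
    exact ⟨y.1, (h (a, y.1)).2 ⟨y.2, hy⟩⟩

@[fun_prop] theorem Sig.ball {p : α → β → Prop} {f : α → List β} (hf : Primrec f)
    (hp : Sig fun x : α × β => p x.1 x.2) : Sig (fun a => BAll (f a) (p a)) := by
  obtain ⟨q, hq, h⟩ := hp
  have h1 : PrimrecRel (fun (m : ℕ) (z : α × β) => q (z, m)) :=
    PrimrecPred.primrecRel (p := fun z : ℕ × (α × β) => q (z.2, z.1)) (hq.comp (by fun_prop))
  have h2 := PrimrecRel.exists_mem_list h1
  have h3 : PrimrecRel (fun (b : β) (x : α × ℕ) => ∃ m < x.2, q ((x.1, b), m)) :=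
    PrimrecPred.primrecRel (p := fun z : β × (α × ℕ) => ∃ m < z.2.2, q ((z.2.1, z.1), m))
      ((PrimrecRel.comp h2 (f := fun z : β × (α × ℕ) => List.range z.2.2)
        (g := fun z : β × (α × ℕ) => (z.2.1, z.1)) (by fun_prop) (by fun_prop)).of_eq (by simp))
  have h4 := PrimrecRel.forall_mem_list h3
  refine ⟨_, PrimrecRel.comp h4 (f := fun x : α × ℕ => f x.1) (by fun_prop) Primrec.id,
    fun a => ?_⟩
  constructor
  · intro hb
    have : ∀ l : List β, (∀ b ∈ l, p a b) → ∃ n, ∀ b ∈ l, ∃ m < n, q ((a, b), m) := by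
      intro l
      induction l with
      | nil => intro _; exact ⟨0, by simp⟩
      | cons b l ih =>
        intro hl
        obtain ⟨n, hn⟩ := ih (fun c hc => hl c (List.mem_cons_of_mem _ hc))
        obtain ⟨m, hm⟩ := (h (a, b)).1 (hl b List.mem_cons_self)
        refine ⟨n + m + 1, fun c hc => ?_⟩
        rcases List.mem_cons.1 hc with rfl | hc
        · exact ⟨m, by omega, hm⟩
        · obtain ⟨k, hk, hk'⟩ := hn c hc
          exact ⟨k, by omega, hk'⟩
    exact this _ hb
  · rintro ⟨n, hn⟩ b hb
    obtain ⟨m, -, hm⟩ := hn b hb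
    exact (h (a, b)).2 ⟨m, hm⟩

@[fun_prop] theorem Sig.and {p q : α → Prop} (hp : Sig p) (hq : Sig q) :
    Sig (fun a => p a ∧ q a) := by
  have h : Sig (fun x : α × Bool => (x.2 = true ∧ p x.1) ∨ (x.2 = false ∧ q x.1)) := by
    obtain ⟨p', hp', h1⟩ := hp
    obtain ⟨q', hq', h2⟩ := hq
    refine ⟨fun x => (x.1.2 = true ∧ p' (x.1.1, x.2)) ∨ (x.1.2 = false ∧ q' (x.1.1, x.2)), ?_,
      fun a => ?_⟩
    · exact ((Primrec.eq.comp (by fun_prop) (by fun_prop)).and (hp'.comp (by fun_prop))).or
        ((Primrec.eq.comp (by fun_prop) (by fun_prop)).and (hq'.comp (by fun_prop)))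
    · simp only [h1, h2]; simp [exists_or]
  refine (Sig.ball (f := fun _ => [true, false]) (by fun_prop)
    (p := fun a b => (b = true ∧ p a) ∨ (b = false ∧ q a)) h).of_eq ?_
  intro a; simp [BAll, and_comm]

/-- universal quantifier over a finite type -/
theorem Sig.all_fin [Finite β] {p : α → β → Prop} (hp : Sig fun x : α × β => p x.1 x.2) :
    Sig (fun a => ∀ b, p a b) := by
  classical
  have := Fintype.ofFinite β
  refine (Sig.ball (f := fun _ => (Finset.univ : Finset β).toList) (by fun_prop) hp).of_eq ?_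
  intro a; simp [BAll]

/-- a family indexed by a finite type -/
theorem Sig.fam [Finite β] {p : β → α → Prop} (hp : ∀ b, Sig (p b)) :
    Sig (fun x : α × β => p x.2 x.1) := by
  classical
  have := Fintype.ofFinite β
  have : ∀ l : List β, Sig (fun x : α × β => x.2 ∈ l ∧ p x.2 x.1) := by
    intro l
    induction l with
    | nil => exact (Sig.const False).of_eq (by simp)
    | cons b l ih =>
      have h1 : Sig (fun x : α × β => x.2 = b ∧ p b x.1) := by
        have := hp b
        fun_prop
      refine (h1.or ih).of_eq ?_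
      rintro ⟨a, c⟩
      simp only [List.mem_cons]
      constructor
      · rintro (⟨rfl, h⟩ | ⟨h1, h2⟩)
        · exact ⟨Or.inl rfl, h⟩
        · exact ⟨Or.inr h1, h2⟩
      · rintro ⟨rfl | h1, h2⟩
        · exact Or.inl ⟨rfl, h2⟩
        · exact Or.inr ⟨h1, h2⟩
  exact (this (Finset.univ : Finset β).toList).of_eq (by simp)

theorem Sig.re {p : α → Prop} (hp : Sig p) : REPred p := by
  classical
  obtain ⟨q, hq, h⟩ := hp
  have h1 : Partrec (fun a : α => Nat.rfind fun n => Part.some (decide (q (a, n)))) :=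
    Partrec.rfind (hq.decide.to_comp.partrec)
  refine h1.dom_re.of_eq fun a => ?_
  rw [h, Nat.rfind_dom]
  simp

theorem computablePred_of_sig {p : α → Prop} (h1 : Sig p) (h2 : Sig fun a => ¬ p a) :
    ComputablePred p := ComputablePred.computable_iff_re_compl_re'.2 ⟨h1.re, h2.re⟩

/-- Inductive closure of a finitary rule. -/
inductive Gen {J : Type*} (R : List J → J → Prop) : J → Prop
  | mk (l : List J) (j : J) : (∀ i ∈ l, Gen R i) → R l j → Gen R j

/-- A derivation list: every entry follows from later entries. -/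
def Der {J : Type*} (R : List J → J → Prop) : List J → Prop
  | [] => True
  | j :: L => (∃ l, R l j ∧ ∀ i ∈ l, i ∈ L) ∧ Der R L

theorem Der.append {J : Type*} {R : List J → J → Prop} {L L' : List J} (h : Der R L)
    (h' : Der R L') : Der R (L ++ L') := by
  induction L with
  | nil => simpa using h'
  | cons j L ih =>
    obtain ⟨⟨l, hl, hm⟩, h2⟩ := h
    exact ⟨⟨l, hl, fun i hi => List.mem_append_left _ (hm i hi)⟩, ih h2⟩

theorem gen_iff {J : Type*} {R : List J → J → Prop} {j : J} :
    Gen R j ↔ ∃ L, Der R L ∧ j ∈ L := by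
  constructor
  · intro h
    induction h with
    | mk l j _ hR ih =>
      have : ∀ l' : List J, (∀ i ∈ l', i ∈ l) → ∃ L, Der R L ∧ ∀ i ∈ l', i ∈ L := by
        intro l'
        induction l' with
        | nil => intro _; exact ⟨[], trivial, by simp⟩
        | cons a l' ih' =>
          intro hl
          obtain ⟨L, hL, hm⟩ := ih' (fun i hi => hl i (List.mem_cons_of_mem _ hi))
          obtain ⟨L1, hL1, hm1⟩ := ih a (hl a List.mem_cons_self)
          refine ⟨L1 ++ L, hL1.append hL, fun i hi => ?_⟩
          rcases List.mem_cons.1 hi with rfl | hi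
          · exact List.mem_append_left _ hm1
          · exact List.mem_append_right _ (hm i hi)
      obtain ⟨L, hL, hm⟩ := this l (fun _ h => h)
      exact ⟨j :: L, ⟨⟨l, hR, hm⟩, hL⟩, List.mem_cons_self⟩
  · rintro ⟨L, hL, hj⟩
    induction L generalizing j with
    | nil => simp at hj
    | cons a L ih =>
      obtain ⟨⟨l, hl, hm⟩, h2⟩ := hL
      rcases List.mem_cons.1 hj with rfl | hj
      · exact Gen.mk l j (fun i hi => ih h2 (hm i hi)) hl
      · exact ih h2 hj

theorem der_iff {J : Type*} {R : List J → J → Prop} {L : List J} :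
    Der R L ↔ BAll (List.range L.length) (fun k => ∃ j l, L[k]? = some j ∧ R l j ∧
      BAll l (fun i => i ∈ L.drop (k + 1))) := by
  induction L with
  | nil => simp [Der, BAll]
  | cons a L ih =>
    simp only [Der, ih, BAll, List.length_cons, List.mem_range]
    constructor
    · rintro ⟨⟨l, hl, hm⟩, h2⟩ k hk
      cases k with
      | zero => exact ⟨a, l, by simp, hl, by simpa using hm⟩
      | succ k => simpa using h2 k (by omega)
    · intro h
      refine ⟨?_, fun k hk => by simpa using h (k + 1) (by omega)⟩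
      obtain ⟨j, l, h1, h2, h3⟩ := h 0 (by omega)
      simp only [List.getElem?_cons_zero, Option.some.injEq] at h1
      subst h1
      exact ⟨l, h2, by simpa using h3⟩

theorem Sig.gen {J : Type*} [Primcodable J] {R : List J → J → Prop}
    (hR : Sig fun x : List J × J => R x.1 x.2) : Sig (Gen R) := by
  have h : Sig (fun j : J => ∃ L : List J, BAll (List.range L.length)
      (fun k => ∃ j l, L[k]? = some j ∧ R l j ∧ BAll l (fun i => i ∈ L.drop (k + 1))) ∧ j ∈ L) := by
    fun_prop
  refine h.of_eq fun j => ?_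
  rw [gen_iff]; simp only [der_iff]

end Sig

end Pool.Agent.H10
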