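import Pool.Agent.Lib.helper10.Base

/-! The induction. -/

set_option linter.unusedSectionVars false

namespace Pool.Agent.H10

universe u

/-- labels of a triple -/
def m3 (p q r : ℕ) (i j : Fin 3) : ℕ := ![![1, p, r], ![p, 1, q], ![r, q, 1]] i j

instance (p q r : ℕ) : Decidable (NSph p q r) := by unfold NSph; infer_instance

theorem chk3 : ∀ p < 6, ∀ q < 6, ∀ r < 6, p < 2 ∨ q < 2 ∨ r < 2 ∨ NSph p q r ∨
    ((cpl (m3 p q r) 60 [0] [1]).bind fun x => cpl (m3 p q r) 60 (0 :: x) [2]).isSome := by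
  decide +kernel

variable {B : Type u} {M : CoxeterMatrix B} [Fintype B] [DecidableEq B] [Primcodable B]
variable {U : Set B}

theorem dv_alt {a b : B} (h : M a b ≠ 0) :
    Dv M [a] (alt a b (M a b)) ∧ Dv M [b] (alt a b (M a b)) :=
  ⟨alt_M h ▸ Dv.append [a] _, (Dv.append [b] _).trans (alt_M h ▸ (braid_cons h).symm.dv)⟩

theorem sph2 {a b : B} (h : M a b ≠ 0) : Sph M {a, b} := sph_of_dv (V := alt a b (M a b)) (by
  rintro s (rfl | rfl)
  exacts [(dv_alt h).1, (dv_alt h).2])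

theorem sph21 {a b c : B} (h : M a b ≠ 0) (h1 : M a c = 2) (h2 : M b c = 2) :
    Sph M {a, b, c} := by
  have k : ∀ s, M s c = 2 → Dv M [s] (alt a b (M a b)) → Dv M [s] (c :: alt a b (M a b)) :=
    fun s e d => Dv.trans ⟨[c], by simpa [e, alt] using BE.braid (M := M) s c⟩ (d.cons c)
  refine sph_of_dv (V := c :: alt a b (M a b)) ?_
  rintro s (rfl | rfl | rfl)
  exacts [k _ h1 (dv_alt h).1, k _ h2 (dv_alt h).2, Dv.append [_] _]

theorem sph3 {a b c : B} (h1 : M a b ≠ 0) (h2 : M b c ≠ 0) (h3 : M a c ≠ 0)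
    (h : a ≠ b → b ≠ c → a ≠ c → ¬ NSph (M a b) (M b c) (M a c)) : Sph M {a, b, c} := by
  by_cases e1 : a = b
  · exact (sph2 h2).mono (by simp [e1])
  by_cases e2 : b = c
  · exact (sph2 h1).mono (by simp [e2])
  by_cases e3 : a = c
  · exact (sph2 h1).mono (by simp [← e3, Set.insert_subset_iff])
  have h := h e1 e2 e3
  have o1 := M.off_diagonal a b e1
  have o2 := M.off_diagonal b c e2
  have o3 := M.off_diagonal a c e3
  have s1 := M.symmetric a b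
  have s2 := M.symmetric b c
  have s3 := M.symmetric a c
  by_cases k1 : 6 ≤ M a b
  · unfold NSph at h; exact sph21 h1 (by omega) (by omega)
  by_cases k2 : 6 ≤ M b c
  · unfold NSph at h
    exact (sph21 (c := a) h2 (by omega) (by omega)).mono (by simp [Set.insert_subset_iff])
  by_cases k3 : 6 ≤ M a c
  · unfold NSph at h
    exact (sph21 (c := b) h3 (by omega) (by omega)).mono (by simp [Set.insert_subset_iff])
  obtain ⟨y, hy⟩ := Option.isSome_iff_exists.1 (((((chk3 _ (by omega) _ (by omega) _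
    (by omega)).resolve_left (by omega)).resolve_left (by omega)).resolve_left
    (by omega)).resolve_left h)
  obtain ⟨x, a1, a2⟩ := Option.bind_eq_some_iff.1 hy
  have hf : ∀ i j, M (![a, b, c] i) (![a, b, c] j) = m3 (M a b) (M b c) (M a c) i j := by
    intro i j; fin_cases i <;> fin_cases j <;> simp [m3, *]
  have b1 := (cpl_sound hf a1).2
  have b2 := (cpl_sound hf a2).2
  refine sph_of_dv (V := ((0 :: x) ++ y).map ![a, b, c]) ?_
  rintro s (rfl | rfl | rfl)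
  · exact Dv.append [_] _
  · rw [List.map_append]; exact b1.trans (Dv.append _ _)
  · exact b2

/-- sphericity is decided on triples -/
def Hyp (M : CoxeterMatrix B) : Prop :=
  ∀ T : Set B, (∀ i ∈ T, ∀ j ∈ T, ∀ k ∈ T, Sph M {i, j, k}) → Sph M T

theorem Hyp.sph (H : Hyp M) (hT : TB M U) (h6 : ∀ a ∈ U, ∀ b ∈ U, ¬ Ge M 6 a b)
    (h4 : ∀ a ∈ U, ∀ b ∈ U, ∀ c ∈ U, Ge M 4 a b → Ge M 4 b c → a = c) : Sph M U := by
  have h0 : ∀ a ∈ U, ∀ b ∈ U, M a b ≠ 0 := fun a ha b hb e =>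
    h6 a ha b hb ⟨by rintro rfl; simp at e, Or.inl e⟩
  refine H U fun i hi j hj k hk => sph3 (h0 i hi j hj) (h0 j hj k hk) (h0 i hi k hk)
    fun e1 e2 e3 => ?_
  have a1 := hT.1 i hi j hj k hk
  have a2 := h6 i hi j hj
  have a3 := h6 j hj k hk
  have a4 := h6 i hi k hk
  have a5 := h4 i hi j hj k hk
  have a6 := fun a b => h4 j hj k hk i hi a (Ge.symm b)
  have a7 := fun a b => h4 j hj i hi k hk (Ge.symm a) b
  simp only [Ge, ne_eq, e1, e2, e3, Ne.symm e1, not_false_eq_true, true_and, imp_false] at *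
  unfold NSph; omega

theorem Hyp.uniq (H : Hyp M) (hc : ∀ y ∈ U, ∀ z ∈ U, (gr M U).Reachable y z) (hT : TB M U)
    (h6 : ∀ a ∈ U, ∀ b ∈ U, ¬ Ge M 6 a b) {y z : B} (hy : y ∈ U) (hz : z ∈ U) (h4 : Ge M 4 y z)
    (na : ∀ s, ∀ t ∈ U, Ge M 4 s t → s = y ∨ s = z → t = y ∨ t = z) {s t : B} (hs : s ∈ U)
    (ht : t ∈ U) (hst : Ge M 4 s t) : s = y ∨ s = z := by
  classical
  by_contra k
  obtain ⟨n, f, a1, ⟨a2, a2', e1, c1, c2⟩, a3, a4, a5, a6⟩ := exists_min_path (S := {y, z})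
    (O := {p | p ∈ U ∧ ¬ (p = y ∨ p = z) ∧ ∃ q ∈ U, Ge M 4 p q}) (Or.inl rfl) ⟨hs, k, t, ht, hst⟩
    (hc y hy s hs)
  obtain ⟨e0, b1, b2⟩ : ∃ e0, (e0 = y ∨ e0 = z) ∧ Ge M 4 (f 0) e0 := by
    rcases a1 with e | e
    exacts [⟨z, Or.inr rfl, e ▸ h4⟩, ⟨y, Or.inl rfl, e ▸ h4.symm⟩]
  have hn : 1 ≤ n := Nat.pos_of_ne_zero fun e => a2' (e ▸ a1)
  have c3 : ¬ (e1 = y ∨ e1 = z) := fun e => a2' (na _ _ a2 c2.symm e)
  have d0 : ∀ i ≤ n, f i ≠ e0 := fun i hi e => b2.1 (a5 i hi (e ▸ b1) ▸ e)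
  have d1 : ∀ i ≤ n, f i ≠ e1 := fun i hi e =>
    c2.1 (a6 i hi (e ▸ ⟨c1, c3, _, a2, c2.symm⟩) ▸ e)
  have d2 : e1 ≠ e0 := fun e => c3 (e ▸ b1)
  have hU : {x | x = e0 ∨ x = e1 ∨ ∃ i ≤ n, x = f i} ⊆ U := by
    rintro _ (rfl | rfl | ⟨i, hi, rfl⟩)
    · rcases b1 with rfl | rfl <;> assumption
    · exact c1
    · by_cases e : i = n
      exacts [e ▸ a2, (a3 i (by omega)).2.1]
  have k0 := kc_nonneg (M := M) b2.1
  have k1 := kc_nonneg (M := M) c2.1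
  have k2 := kc_nonneg (M := M) d2
  have hv : ∀ i ≤ n, (if f i = e0 then kc M (f 0) e0 else if f i = e1 then kc M (f n) e1 else
      if ∃ j ≤ n, f i = f j then 1 else 0) = 1 := fun i hi => by
    rw [if_neg (d0 i hi), if_neg (d1 i hi), if_pos ⟨i, hi, rfl⟩]
  refine not_sph_path (e0 := e0) (e1 := e1) (v := fun x => if x = e0 then kc M (f 0) e0 else
    if x = e1 then kc M (f n) e1 else if ∃ i ≤ n, x = f i then 1 else 0) hn (fun i hi => (a3 i hi).1)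
    a4 (fun x => by split_ifs <;> simp [*]) (fun j hj => ?_) hv b2.1.symm (d0 1 hn).symm ?_
    c2.1.symm (d1 _ (by omega)).symm ?_ (fun x => ?_) (H.sph (hT.mono hU)
      (fun a ha b hb => h6 a (hU ha) b (hU hb)) fun a ha b hb c hc k1 k2 => ?_)
  · simp only [Set.mem_ofPred_eq, not_or] at hj
    rw [if_neg hj.1, if_neg hj.2.1, if_neg hj.2.2]
  · rw [if_pos rfl, ← sq]; exact kc_sq_four b2.2
  · rw [if_neg d2, if_pos rfl, ← sq]; exact kc_sq_four c2.2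
  · by_cases e : x = e0
    · subst e
      refine Or.inr (Or.inr ⟨f 0, e1, d1 0 (by omega), b2.1, d2, ?_⟩)
      rw [hv 0 (by omega), if_pos rfl, if_neg d2, if_pos rfl, kc_symm M x, kc_symm M x]
      linarith [mul_nonneg k2 k1]
    by_cases e' : x = e1
    · subst e'
      refine Or.inr (Or.inr ⟨f n, e0, d0 n le_rfl, c2.1, d2.symm, ?_⟩)
      rw [hv n le_rfl, if_neg e, if_pos rfl, if_pos rfl, kc_symm M x (f n)]
      linarith [mul_nonneg k2 k0]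
    by_cases e'' : ∃ i ≤ n, x = f i
    exacts [Or.inr (Or.inl e''), Or.inl (by rw [if_neg e, if_neg e', if_neg e''])]
  · have w : ∀ a ∈ {x | x = e0 ∨ x = e1 ∨ ∃ i ≤ n, x = f i}, ∀ b ∈ U, Ge M 4 a b →
        ¬ (a = y ∨ a = z) → a = e1 ∨ a = f n := by
      rintro a ha b hb e k
      rcases ha with rfl | rfl | ⟨i, hi, rfl⟩
      exacts [(k b1).elim, Or.inl rfl, Or.inr (by
        rw [a6 i hi ⟨hU (Or.inr (Or.inr ⟨i, hi, rfl⟩)), k, b, hb, e⟩])]
    have := k1.1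
    have := k2.1
    by_cases e : b = y ∨ b = z
    · have := na _ _ (hU ha) k1.symm e
      have := na _ _ (hU hc) k2 e
      grind
    · have := w a ha b (hU hb) k1 fun k => e (na _ _ (hU hb) k1 k)
      have := w b hb c (hU hc) k2 e
      have := w c hc b (hU hb) k2.symm fun k => e (na _ _ (hU hb) k2.symm k)
      grind

theorem mk_tc (IH : ∀ V ⊂ U, Inv M V) (τ : Fin 3) {a b c : B} (ha : a ∈ U) (hb : b ∈ U)
    (hc : c ∈ U) (h0 : Ge M (mu (gN τ) 0) b c) (h1 : Ge M (mu (gN τ) 1) c a)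
    (h2 : Ge M (mu (gN τ) 2) a b) (hT : τ = 1 → TB M U) :
    ∃ C : TC M U, C.τ = τ ∧ C.x = ![a, b, c] := by
  have inj : Function.Injective ![a, b, c] := by
    have := h0.1; have := h1.1; have := h2.1
    intro i j; fin_cases i <;> fin_cases j <;> simp <;> grind
  have mem : ∀ r, ![a, b, c] r ∈ U := fun r => by fin_cases r <;> simpa
  have inv : ∀ r, Inv M (U \ {![a, b, c] r}) := fun r => IH _ (Set.sdiff_singleton_ssubset.2 (mem r))
  refine ⟨⟨τ, _, inj, mem, fun r p h => (inv r).linkOK ?_, inv⟩, rfl, rfl⟩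
  have g : Ge M (mu (gN τ) r) (![a, b, c] (th r p)) (![a, b, c] p) := by
    fin_cases r <;> fin_cases p
    exacts [(h rfl).elim, h0.symm, h0, h1, (h rfl).elim, h1.symm, h2.symm, h2, (h rfl).elim]
  have : mu (gN τ) r = 2 ∨ mu (gN τ) r = 3 ∨ mu (gN τ) r = 6 ∨ mu (gN τ) r = 4 ∧ τ = 1 := by
    rw [mu_gN]; clear * -; revert τ r; decide
  exact this.imp (⟨·, g.1⟩) fun k => ⟨g, ⟨mem _, fun e => th_ne_left h.symm (inj e)⟩,
    ⟨mem _, fun e => h (inj e)⟩, k.imp_right (Or.imp_right fun k =>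
      ⟨k.1, (hT k.2).mono Set.sdiff_subset⟩)⟩

theorem TC.edge (C : TC M U) {p r : Fin 3} {y z : B} {μ : ℕ} (h : p ≠ r) (h1 : C.x p = y)
    (h2 : C.x (th r p) = z) (h3 : mu (gN C.τ) r = μ) : AGP M U y z μ ∧ CV M U y z (μ - 1) :=
  h1 ▸ h2 ▸ h3 ▸ ⟨C.agp h, C.cv h⟩

theorem Hyp.conn (H : Hyp M) (IH : ∀ V ⊂ U, Inv M V)
    (hc : ∀ y ∈ U, ∀ z ∈ U, (gr M U).Reachable y z) : Inv M U := by
  by_cases hd : ∃ a b, Ge M 6 a b ∧ U = {a, b}
  · obtain ⟨a, b, h, rfl⟩ := hd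
    refine dih_inv h ?_
    by_cases e : M a b = 0
    exacts [wp_free e, (sph2 e).wp]
  have nb : ∀ y ∈ U, ∀ z ∈ U, Ge M 6 y z → ∃ c ∈ U, c ≠ y ∧ c ≠ z ∧ (Ge M 3 y c ∨ Ge M 3 z c) := by
    intro y hy z hz h
    obtain ⟨c, a1, a2⟩ : ∃ c ∈ U, c ∉ ({y, z} : Set B) := by
      by_contra! k
      exact hd ⟨y, z, h, Set.Subset.antisymm k (by rintro _ (rfl | rfl) <;> assumption)⟩
    obtain ⟨n, f, b1, b2, b3, -, b5, -⟩ := exists_min_path (S := {y, z}) (O := {y, z}ᶜ)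
      (Or.inl rfl) a2 (hc y hy c a1)
    have hn : 0 < n := Nat.pos_of_ne_zero fun e => b2 (e ▸ b1)
    have := mt (b5 1 hn) (by omega)
    exact ⟨f 1, (b3 0 hn).2.2, fun e => this (Or.inl e), fun e => this (Or.inr e),
      Or.imp (fun e : f 0 = y => e ▸ (b3 0 hn).1) (fun e : f 0 = z => e ▸ (b3 0 hn).1) b1⟩
  have t6 : ∀ y ∈ U, ∀ z ∈ U, Ge M 6 y z →
      ∃ C : TC M U, C.τ = 2 ∧ ∃ t ≠ 0, C.x t = y ∧ C.x (th 0 t) = z := by
    intro y hy z hz h
    obtain ⟨c, a1, a2, a3, a4 | a4⟩ := nb y hy z hz h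
    · obtain ⟨C, b1, b2⟩ := mk_tc IH 2 a1 hz hy h.symm a4
        ⟨a3, by have := M.off_diagonal c z a3; rw [mu_gN]; simp; omega⟩ (by simp)
      exact ⟨C, b1, 2, by decide, by rw [b2]; rfl, by rw [b2]; rfl⟩
    · obtain ⟨C, b1, b2⟩ := mk_tc IH 2 a1 hy hz h a4
        ⟨a2, by have := M.off_diagonal c y a2; rw [mu_gN]; simp; omega⟩ (by simp)
      exact ⟨C, b1, 1, by decide, by rw [b2]; rfl, by rw [b2]; rfl⟩
  have t4 : TB M U → ∀ a ∈ U, ∀ b ∈ U, ∀ c ∈ U, Ge M 4 a b → Ge M 4 b c → a ≠ c →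
      ∃ C : TC M U, C.τ = 1 ∧ C.x = ![a, b, c] := fun hT a ha b hb c hc h1 h2 e =>
    mk_tc IH 1 ha hb hc h2 ⟨e.symm, by have := M.off_diagonal c a e.symm; rw [mu_gN]; simp; omega⟩
      h1 fun _ => hT
  have n6 : TB M U → ∀ a ∈ U, ∀ b ∈ U, ¬ Ge M 6 a b := fun hT a ha b hb h => by
    obtain ⟨c, a1, a2, a3, a4 | a4⟩ := nb a ha b hb h
    exacts [a3 (hT.2 b hb a ha c a1 h.symm a4), a2 (hT.2 a ha b hb c a1 h a4)]
  have alt : Nonempty (TC M U) ∨ Sph M U := by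
    by_contra! k
    have k6 : ∀ a ∈ U, ∀ b ∈ U, ¬ Ge M 6 a b := fun a ha b hb h => k.1.false (t6 a ha b hb h).choose
    have hT : TB M U := ⟨fun a ha b hb c hc h1 h2 h3 =>
      k.1.false (mk_tc IH 0 ha hb hc h2 h3.symm h1 (by simp)).choose,
      fun a ha b hb _ _ h => (k6 a ha b hb h).elim⟩
    exact k.2 (H.sph hT k6 fun a ha b hb c hc h1 h2 => by_contra fun e =>
      k.1.false (t4 hT a ha b hb c hc h1 h2 e).choose)
  refine ⟨alt.elim (fun ⟨C⟩ => C.wp) Sph.wp, fun y z μ ⟨h, hy, hz, e⟩ => ?_,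
    fun y z ⟨h, hy, hz, _⟩ => ?_⟩
  swap
  · obtain ⟨C, b1, t, b2, rfl, rfl⟩ := t6 y hy z hz h
    exact C.six b1 b2
  rcases e with rfl | rfl | ⟨rfl, hT⟩
  · rcases alt with ⟨⟨C⟩⟩ | k
    · exact ⟨C.agp3 h, C.five.cv C.g3 h⟩
    · exact ⟨k.agp3 (h.2.resolve_left (k.ge hy hz)), k.cv hy hz le_rfl h (k.g3 _ _ h)⟩
  · obtain ⟨C, b1, t, b2, b3, b4⟩ := t6 y hy z hz h
    exact C.edge b2 b3 b4 (by rw [b1]; rfl)
  by_cases na : ∀ s, ∀ t ∈ U, Ge M 4 s t → s = y ∨ s = z → t = y ∨ t = z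
  · have un := fun s hs t ht => H.uniq hc hT (n6 hT) hy hz h na (s := s) (t := t) hs ht
    have k := H.sph hT (n6 hT) fun a ha b hb c hc h1 h2 => by
      have := un a ha b hb h1; have := un b hb c hc h2; have := un c hc b hb h2.symm
      have := h1.1; have := h2.1; grind
    have k' := k.four hy hz h (n6 hT y hy z hz) fun s hs t ht e => by
      have := un s hs t ht e; have := un t ht s hs e.symm; have := e.1; grind
    exact ⟨k', k.cv hy hz (by omega) h k'.1⟩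
  push Not at na
  obtain ⟨s, t, ht, a1, rfl | rfl, a2, a3⟩ := na
  · obtain ⟨C, b1, b2⟩ := t4 hT t ht s hy z hz a1.symm h a3
    exact C.edge (p := 1) (r := 0) (by decide) (by rw [b2]; rfl) (by rw [b2]; rfl) (by rw [b1]; rfl)
  · obtain ⟨C, b1, b2⟩ := t4 hT t ht s hz y hy a1.symm h.symm a2
    exact C.edge (p := 2) (r := 0) (by decide) (by rw [b2]; rfl) (by rw [b2]; rfl) (by rw [b1]; rfl)

theorem Hyp.inv (H : Hyp M) (U : Set B) : Inv M U := by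
  induction U using WellFoundedLT.induction with
  | _ U IH =>
  by_cases hc : ∀ y ∈ U, ∀ z ∈ U, (gr M U).Reachable y z
  · exact H.conn IH hc
  push Not at hc
  obtain ⟨y, hy, z, hz, h⟩ := hc
  refine Dec.inv (K := {x | x ∈ U ∧ (gr M U).Reachable y x})
    (K' := {x | x ∈ U ∧ ¬ (gr M U).Reachable y x}) ⟨fun a ha b hb => not_ge ?_ fun k => ?_,
      fun x hx => by by_cases e : (gr M U).Reachable y x <;> simp [hx, e], fun _ k => k.1,
      fun _ k => k.1, fun _ k k' => k'.2 k.2⟩ (IH _ ⟨fun _ k => k.1, fun k => h (k hz).2⟩)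
    (IH _ ⟨fun _ k => k.1, fun k => (k hy).2 .rfl⟩)
  · rintro rfl; exact hb.2 ha.2
  · exact hb.2 (ha.2.trans (SimpleGraph.Adj.reachable ⟨k, ha.1, hb.1⟩))

theorem Hyp.computable (H : Hyp M) :
    ComputablePred fun w : List (B × Bool) => evalW M w = 1 :=
  computablePred_of_sig (effA M).eq_one
    (Sig.of_eq (H.inv Set.univ).wp fun w => by simp [apar_univ, effA_ev])

end Pool.Agent.H10
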