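import Mathlib.GroupTheory.Coxeter.Basic
import Mathlib.GroupTheory.PresentedGroup

/-! Artin groups: definitions. -/

namespace Pool.Agent.H10

/-- alternating word `a b a ...` of length `n` starting with `a` -/
def alt {B : Type*} (a b : B) : ℕ → List B
  | 0 => []
  | n + 1 => a :: alt b a n

/-- braid relators (the matrix entry `0` stands for infinity) -/
def artinRel {B : Type*} (M : CoxeterMatrix B) : Set (FreeGroup B) :=
  {r | ∃ s t, s ≠ t ∧ M s t ≠ 0 ∧
    r = ((alt s t (M s t)).map FreeGroup.of).prod * (((alt t s (M s t)).map FreeGroup.of).prod)⁻¹}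

/-- the Artin group -/
abbrev Artin {B : Type*} (M : CoxeterMatrix B) := PresentedGroup (artinRel M)

/-- the element of the Artin group represented by a word in the generators and inverses -/
def evalW {B : Type*} (M : CoxeterMatrix B) (w : List (B × Bool)) : Artin M :=
  PresentedGroup.mk (artinRel M) (FreeGroup.mk w)

/-- `T` generates a finite subgroup of the Coxeter group -/
def Sph {B : Type*} (M : CoxeterMatrix B) (T : Set B) : Prop :=
  (Subgroup.closure (M.simple '' T) : Set M.Group).Finite

end Pool.Agent.H10
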