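import Pool.Agent.Lib.helper10.D3a

/-! Certificates for non-membership in triple products. -/

set_option linter.unusedSectionVars false

namespace Pool.Agent.H10

universe u

theorem RW.append {G ι : Type*} [Group G] {F : Subgroup G} {K : ι → Subgroup G}
    {Gd : ι → G → Prop} {s t y z a b : ι} {σ τ c : G} {n m : ℕ} (hy : F ≤ K y) (hz : F ≤ K z)
    (h : RW F K Tv s σ y z n t τ) (ha : a = y ∨ a = z) (hb : b = y ∨ b = z)
    (h' : PP F K Gd t τ m a b c) : RW F K Tv s σ y z (n + m) a c := by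
  have k : ∀ m a b c, (a = y ∨ a = z) → (b = y ∨ b = z) → EP F K Gd t τ m a b c →
      RW F K Tv s σ y z (n + m + 1) a c := by
    intro m
    induction m with
    | zero =>
      rintro a b c ha - ⟨rfl, e⟩
      exact (RW.congr h e).step vinv_tv hy hz (Or.inr trivial) ha
    | succ m ih =>
      rintro a b c ha hb ⟨-, c', e, -, e'⟩
      exact (RW.congr (ih _ _ _ hb ha e') e).step vinv_tv hy hz (Or.inr trivial) ha
  cases m with
  | zero => obtain ⟨rfl, e⟩ := h'; exact RW.congr h e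
  | succ m => obtain ⟨c', e, e'⟩ := h'; exact RW.congr (k _ _ _ _ ha hb e') e

variable {B : Type u} {M : CoxeterMatrix B} [Fintype B] [DecidableEq B] [Primcodable B]
variable {U : Set B}

attribute [local irreducible] effA

/-- two vertices of the same component which are not adjacent -/
def NM (U : Set B) (p q : Vx M) : Prop := p.2⁻¹ * q.2 ∈ apar M U ∧ ¬ Mt U p q

theorem mt_iff' {p q : Vx M} :
    Mt U p q ↔ ∃ k ∈ Kv M U p.1, k⁻¹ * (p.2⁻¹ * q.2) ∈ Kv M U q.1 :=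
  ⟨fun ⟨x, a, b⟩ => ⟨_, a, by simpa [mul_assoc] using mem_symm b⟩,
    fun ⟨k, a, b⟩ => ⟨p.2 * k, by simpa [In] using a, mem_symm (by simpa [mul_assoc] using b)⟩⟩

theorem WP.nm (h : WP M U) (s t : B) : RE2 (effA M) fun x y => NM U (s, x) (t, y) :=
  ((h.not_mem_mul (U \ {s}) (U \ {t})).sig (φ := fun x : List (B × Bool) × List (B × Bool) =>
    ((effA M).ev x.1)⁻¹ * (effA M).ev x.2) (by fun_prop)).of_eq fun _ =>
      and_congr_right fun _ => not_congr (mt_iff' (p := (s, _)) (q := (t, _))).symm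

theorem re_mt (U : Set B) (s t : B) : RE2 (effA M) fun x y => Mt U (s, x) (t, y) :=
  Sig.exG (effA M) (p := fun x : List (B × Bool) × List (B × Bool) => fun z =>
    ((effA M).ev x.1)⁻¹ * z ∈ apar M (U \ {s}) ∧ ((effA M).ev x.2)⁻¹ * z ∈ apar M (U \ {t}))
    (Sig.and ((re_apar _).sig (by fun_prop)) ((re_apar _).sig (by fun_prop)))

theorem pr3_iff {a b : B} {x y : Artin M} :
    Pr (Fv M U a b) 3 (Kv M U a) (Kv M U b) (x⁻¹ * y) ↔
      ∃ v, Mt U (b, v) (a, y) ∧ Mt U (b, v) (a, x) := by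
  rw [pr_three (fa_le U a b) (fb_le U a b)]
  constructor
  · rintro ⟨p, h1, q, h2, h3⟩
    exact ⟨x * p, ⟨x * p * q, by simpa [In, mul_assoc] using h2,
      mem_symm (by simpa [mul_assoc] using h3)⟩, ⟨x * p, In.self _, by simpa [In] using h1⟩⟩
  · rintro ⟨v, ⟨z, a1, a2⟩, ⟨w, b1, b2⟩⟩
    exact ⟨_, b2, _, b1.div a1, by simpa [mul_assoc] using mem_symm a2⟩

namespace TC

variable (C : TC M U) (a b : B) (r : Fin 3)

/-- heights based at an interior point of a panel -/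
noncomputable def gi : (C.tri 0).Geo := C.geo (base_gB' C.τ 0)

theorem gi_pos (q : Fin 3) (h : q ≠ (C.tri 0).c) : 0 < C.gi.Z 1 q :=
  (congrFun (geo_Z (base_gB' C.τ 0)) q).symm ▸ gB'_pos _ _ _ h

/-- panels which do not descend inside the shadow -/
def Good (g : Artin M) (p : Fin 3) (c : Artin M) : Prop :=
  g ∈ apar M U ∧ c ∈ apar M U ∧ p ≠ r ∧ (¬ C.Lb (a, g) p c ∨ ¬ C.gi.Gd r p c)

/-- certificate of local minimality at one anchor -/
def LM (y : Fin 3) (g π k : Artin M) : Prop :=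
  ∀ p, p = r ∨ (k⁻¹ * π ∈ Kv M U (C.x r) ∧
    ¬ Pr C.F (mu (gN C.τ) r) (C.H p) (C.H (th r p)) (k⁻¹ * π)) ∨
    WG C.H (C.Good a r g) y k (mu (gN C.τ) r) p π

/-- certificate in the link -/
def C3 (h h1 : Artin M) : Prop :=
  (h1⁻¹ * h ∈ Kv M U (C.x r) ∧ ¬ Pr (Fv M (U \ {C.x r}) a b) 3 (Kv M (U \ {C.x r}) a)
    (Kv M (U \ {C.x r}) b) (h1⁻¹ * h)) ∨
  ∃ v, Mt (U \ {C.x r}) (b, v) (a, h) ∧ Mt (U \ {C.x r}) (b, v) (a, h1) ∧ NM U (b, v) (a, (1 : Artin M))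

/-- the second part of the certificate -/
def C2 (y : Fin 3) (g h k : Artin M) : Prop :=
  (k⁻¹ * g ∈ apar M U ∧ ¬ C.Lb (a, g) y k) ∧ (k⁻¹ * 1 ∈ apar M U ∧ ¬ C.Lb (a, 1) y k) ∧
    (NM U (b, rt ((U \ {C.x r}) \ {C.x (th r y)}) k h) (a, g) ∨
      NM U (b, rt ((U \ {C.x r}) \ {C.x (th r y)}) k h) (a, 1)) ∧
    C.C3 a b r h (rt ((U \ {C.x r}) \ {C.x (th r y)}) k h)

/-- the certificate -/
def Cert (kd : Option (Fin 3)) (g h k : Artin M) : Prop :=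
  g⁻¹ * h ∈ Kv M U a ∧
    (∀ y, (y = r ∨ (kd ≠ none ∧ kd ≠ some y)) ∨
      C.LM a r y g (rt ((U \ {C.x r}) \ {a}) h k) k) ∧
    ((∃ h1, h1 ∈ Kv M U a ∧ h⁻¹ * h1 ∈ Kv M U (C.x r) ∧ C.C3 a b r h h1) ∨
      ∃ y, (y ≠ r ∧ (kd = none ∨ kd = some y)) ∧ C.C2 a b r y g h k)

variable {C a b r} {g h k c : Artin M} {p y : Fin 3}

theorem vinv_good : VInv C.H (C.Good a r g) := fun p _ _ e ⟨h1, h2, h3, h4⟩ =>
  ⟨h1, by simpa using mul_mem h2 (kv_le _ _ (HV h3 e)), h3,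
    h4.imp (mt (vinv_lb _ _ _ _ (mem_symm e))) (mt (Tri.Geo.vinv_gd r _ _ _ (mem_symm e)))⟩

theorem pp_glob {u : Vx M} {s : Fin 3} {σ y0 : Artin M} {m : ℕ} (hr : p ≠ r) (hu : In U u y0)
    (h : PP (Fv M (U \ {C.x r}) (C.x (th r p)) (C.x p)) (Kv M (U \ {C.x r}))
      (fun s c => Mt (U \ {C.x r}) (s, c) (u.1, y0)) (C.x (th r s)) σ m (C.x (th r p)) (C.x p) c) :
    PP C.F C.H (C.Lb u) s σ m p (th r p) c := by
  have e := Function.leftInverse_invFun C.inj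
  have := h.map (K' := C.H) (Gd' := C.Lb u) (fun b => th r (Function.invFun C.x b))
    (by rw [e, th_th, H_eq hr]) (by rw [e, H_eq (th_ne_left hr.symm), th_th])
    (fun x k => by rw [e, th_th]; exact lb_glob hr hu k)
    (fun x k => by rw [e]; exact lb_glob (th_ne_left hr.symm) hu (by rwa [th_th]))
  simp only [e _, th_th] at this
  rwa [F_eq hr]

theorem anc_H (hU : h ∈ apar M U) {k' : Artin M}
    (hk : k ∈ (C.tri 0).nK (((C.tri 0).pa h).2 r)) (hk' : k' ∈ (C.tri 0).nK (((C.tri 0).pa h).2 r))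
    (hy : (C.tri 0).nk (((C.tri 0).pa h).2 r) = none ∨
      (C.tri 0).nk (((C.tri 0).pa h).2 r) = some y) : k⁻¹ * k' ∈ C.H y := by
  have := ((Tri.pa_valid hU r).mem_iff hk k').1 hk'
  rcases hy with e | e <;> rw [e] at this
  · exact (C.tri 0).FH y this
  · exact this

theorem no_bad (hh : In U (a, g) h) (hU : h ∈ apar M U)
    (hk : k ∈ (C.tri 0).nK (((C.tri 0).pa h).2 r))
    (hL : ∀ y, y ≠ r → ((C.tri 0).nk (((C.tri 0).pa h).2 r) = none ∨
      (C.tri 0).nk (((C.tri 0).pa h).2 r) = some y) →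
      C.LM a r y g (rt ((U \ {C.x r}) \ {a}) h k) k)
    (e : c⁻¹ * h ∈ Kv M U (C.x r)) (h1 : C.Lb (a, g) p c) (h2 : C.gi.Gd r p c) : False := by
  obtain ⟨k', hk', y, d, hy, ln, hd, kind⟩ := Tri.Geo.toAnchor hU (mem_symm e) h2.lw
  replace kind := (kind.imp_right And.left).symm
  have hp : p ≠ r := h2.2.1
  have ek := anc_H hU hk' hk kind
  have gE : C.gi.Gd r y k := Tri.Geo.vinv_gd r _ _ _ ek (ln.1.elim
    (fun ⟨_, a, b⟩ => a ▸ Tri.Geo.vinv_gd r _ _ _ (mem_symm b) h2) id)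
  obtain ⟨m1, b1, b2⟩ := Tri.Geo.Wk.pp (ln.2.2 y k 0
    (RW.congr (RW.zero (Tri.Geo.two_of_ne hy)) (mem_symm ek)) (Or.inl rfl))
  obtain ⟨m, b3, b4⟩ := (ln.2.1 p c 0 (RW.zero (Tri.Geo.two_of_ne hp)) (Or.inl rfl)).pp
  obtain ⟨x0, a1, a2⟩ := h1.loc hp hh e
  obtain ⟨_, m2, b5, b6⟩ := rt_pp (by
    rcases Nat.eq_zero_or_pos m with h | h
    · exact Or.inl h
    · exact Or.inr ((C.lk r y hy).2.1.mono (show m + 2 ≤ mu (C.tri 0).N r by omega)))
    (pp_loc hy (b4.congr ek)) a1 a2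
  rw [← rt_eq (show h⁻¹ * x0 ∈ Kv M (U \ {C.x r}) a from a2)] at b6
  have pin : In U (a, g) (rt ((U \ {C.x r}) \ {a}) h k) :=
    hh.mul (kv_mono Set.sdiff_subset _ (rt_mem _ _ _))
  replace hL := hL y hy kind
  generalize rt ((U \ {C.x r}) \ {a}) h k = π at *
  obtain ⟨q, hq, b7⟩ : ∃ q, q ≠ r ∧ PP C.F C.H (C.Lb (a, g)) p c m2 q (th r q) π := by
    rcases b6 with ⟨-, b6⟩ | ⟨-, b6⟩
    · exact ⟨y, hy, pp_glob hy hh b6⟩
    · refine ⟨_, th_ne_left hy.symm, pp_glob (th_ne_left hy.symm) hh ?_⟩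
      rwa [th_th, fv_comm]
  have hq' : ∀ s, s ≠ r → s = q ∨ s = th r q := fun s hs =>
    (fin3_cases hq.symm s).resolve_left hs
  have FH := (C.tri 0).FH
  rcases hL q with f | ⟨-, f⟩ | f
  · exact hq f
  · obtain ⟨m3, f1, f2⟩ := (((RW.zero (hq' y hy)).append (FH q) (FH _) (hq' p hp)
      (hq' _ (th_ne_left hp.symm)) b2).append (FH q) (FH _) (Or.inl rfl) (Or.inr rfl) b7).pp
      (th_ne_right hq.symm).symm
    exact f ((f2.pr (FH _) (FH _)).mono (FH _) (FH _)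
      (show m3 + 1 ≤ mu (C.tri 0).N r by omega))
  · obtain ⟨f1, f2, f3⟩ := f.rw (F := C.F) vinv_good (FH q) (FH _) fun s _ hs => hq' s hs.2.2.1
    obtain ⟨m3, f4, f5⟩ := f3.pp (th_ne_right hq.symm).symm
    refine tripod (Tri.Geo.vinv_gd r) vinv_good (vinv_lb _) (FH q) (FH _)
      (th_ne_right hq.symm).symm ((C.tri 0).girth q r hq)
      (fun s x a1 a2 a3 => a2.2.2.2.elim (· a3) (· a1)) gE f1 h2 h1 (m3 := m1) ?_ f5 b7 f2
      (lb_in pin _) (show m3 + m2 + m1 < 2 * mu (C.tri 0).N r by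
        have : mu (C.tri 0).N r = mu (gN C.τ) r := rfl
        omega)
    rintro _ _ (⟨rfl, rfl⟩ | ⟨rfl, rfl⟩) rfl
    · exact b2
    · simpa only [th_th] using b2

theorem C3.sound {h1 v : Artin M} (hab : Ge M 3 a b) (hc : C.C3 a b r h h1)
    (a1 : Mt (U \ {C.x r}) (b, v) (a, h)) (a2 : Mt (U \ {C.x r}) (b, v) (a, h1))
    (a3 : Mt U (b, v) (a, 1)) (a4 : ¬ Mt (U \ {C.x r}) (a, h) (a, h1)) : False := by
  rcases hc with ⟨-, hc⟩ | ⟨v', b1, b2, b3⟩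
  · exact hc (pr3_iff.2 ⟨v, a1, a2⟩)
  · exact b3.2 (((((C.inv r).g3.P (c1 := (a, h)) (c2 := (a, h1)) rfl hab a1.symm a2.symm b1.symm
      b2.symm).resolve_left a4).glob Set.sdiff_subset).trans_eq rfl a3)

theorem c3_of {h1 : Artin M} (hh : In U (a, g) h) (hU : h ∈ apar M U)
    (e : h1⁻¹ * h ∈ Kv M U (C.x r)) (hn : ∀ v, Mt U (b, v) (a, g) → ¬ Mt U (b, v) (a, 1)) :
    C.C3 a b r h h1 := by
  rw [C3, or_iff_not_imp_left, not_and, not_not]
  intro k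
  obtain ⟨v, a1, a2⟩ := pr3_iff.1 (k e)
  refine ⟨v, a1, a2, ?_, hn v (a1.glob' Set.sdiff_subset hh)⟩
  simpa using mul_mem (kv_le _ _ a1.co) (inv_mem hU)

theorem Cert.sound (hab : Ge M 3 a b) (hU : h ∈ apar M U) (hg : g ∉ Kv M U a)
    (hk : k ∈ (C.tri 0).nK (((C.tri 0).pa h).2 r))
    (hc : C.Cert a b r ((C.tri 0).nk (((C.tri 0).pa h).2 r)) g h k) {v : Artin M}
    (h2 : Mt U (b, v) (a, g)) (h1 : Mt U (b, v) (a, 1)) : False := by
  obtain ⟨c1, c2, c3⟩ := hc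
  replace c1 : In U (a, g) h := c1
  have n12 : ¬ Mt U (a, 1) (a, g) := fun k => hg (by
    simpa [In] using k.symm.in_of rfl (In.self _))
  have ht : TPc U (a, 1) (b, v) (a, g) := ⟨rfl, hab, h1.symm, h2, n12⟩
  have i1 : In U (a, (1 : Artin M)) 1 := In.self _
  have qv : Mt U (C.x r, h) (b, v) :=
    (mg2 (X := C.gi) ht (i1.mt _) (Or.inr (lb_in i1 _)) (c1.mt _)).resolve_right
      fun ⟨p, c, d1, d2, d3⟩ => no_bad c1 hU hk (fun y hy hd => (c2 y).resolve_left (by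
        rintro (h | h)
        · exact hy h
        · exact hd.elim h.1 h.2)) d1 d2 d3
  obtain ⟨y0, q1, q2⟩ := id qv
  have l2 : Mt (U \ {C.x r}) (b, y0) (a, h) := h2.loc q2 c1 (mem_symm q1)
  have l1 : Mt U (b, y0) (a, 1) := h1.cg q2
  rcases c3 with ⟨h', d1, d2, d3⟩ | ⟨y, ⟨d1, d2⟩, ⟨-, d3⟩, ⟨-, d4⟩, d5, d6⟩
  · have i2 : In U (a, 1) h' := by simpa [In] using d1
    exact d3.sound hab l2 (h1.loc q2 i2 (mem_trans (mem_symm q1) d2)) l1
      fun k => n12 (unloc Set.sdiff_subset c1 i2 k).symm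
  have ek := (Tri.Geo.anc_pa hU hk).1
  obtain ⟨z, z1, z2⟩ := (((su C.gi h1.symm (Or.inr hab) (i1.mt _) (Or.inr (lb_in i1 _))
    (Or.inr qv)).ess C.gi_pos y k (Tri.Geo.essA_of_int C.gi_pos hU hk d1 d2)).resolve_left
      d4).loc d1 q2 (mem_trans (mem_symm ek) q1)
  obtain ⟨c', w1, w2⟩ := id l2
  have p1 : In (U \ {C.x r}) (C.x (th r y), k) (rt ((U \ {C.x r}) \ {C.x (th r y)}) k h) :=
    rt_mem _ _ _
  have p2 := rt_pr (Y := (U \ {C.x r}) \ {C.x (th r y)}) (n := 1) hab.symm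
    ((pr_one (fa_le _ _ _)).2 (z2.div w1)) (mem_symm w2)
  have p3 := rt_in (Y := (U \ {C.x r}) \ {C.x (th r y)}) z2 w1
  rw [← rt_eq (z := h) z1] at p2
  generalize rt ((U \ {C.x r}) \ {C.x (th r y)}) k h = π at *
  rcases p2 with p2 | p2
  · have : y0⁻¹ * π ∈ Kv M U b := kv_mono Set.sdiff_subset _ (p3.mul p2)
    have l3 : Mt U (b, y0) (a, g) := h2.cg q2
    exact d5.elim (fun k => k.2 (l3.cg this)) fun k => k.2 (l1.cg this)
  · have p4 : In (U \ {C.x r}) (a, π) _ := mem_symm p2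
    exact d6.sound hab l2 ⟨_, p3, p4⟩ l1 fun k => d3 (lb_glob d1 c1
      ⟨π, p1, k.symm.in_of rfl (In.self _)⟩)

theorem exists_cert (hU : g ∈ apar M U) (hn : ∀ v, Mt U (b, v) (a, g) → ¬ Mt U (b, v) (a, 1)) :
    ∃ r h, h ∈ apar M U ∧ ∀ k ∈ (C.tri 0).nK (((C.tri 0).pa h).2 r),
      C.Cert a b r ((C.tri 0).nk (((C.tri 0).pa h).2 r)) g h k := by
  obtain ⟨r, q, -, ⟨h, a1, a2⟩, -, a3⟩ := low C.gi (Mt.refl (a, g)) hU
  have hh : h ∈ apar M U := by simpa using mul_mem hU (kv_le _ _ a2)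
  have good : ∀ p c, p ≠ r → h⁻¹ * c ∈ Kv M U (C.x r) → C.Good a r g p c := fun p c hp e =>
    ⟨hU, by simpa using mul_mem hh (kv_le _ _ e), hp, not_and_or.1 fun ⟨b1, b2⟩ =>
      a3 p c (mem_trans a1 e) b2 (b1.down b2) (b1.down b2)⟩
  refine ⟨r, h, hh, fun k hk => ⟨a2, fun y => ?_, ?_⟩⟩
  · by_cases hy : y = r
    · exact Or.inl (Or.inl hy)
    have ek : h⁻¹ * k ∈ Kv M U (C.x r) := (Tri.Geo.anc_pa hh hk).1
    refine Or.inr fun p => ?_
    by_cases hp : p = r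
    · exact Or.inl hp
    rw [or_iff_right hp, or_iff_not_imp_left, not_and, not_not]
    intro f
    obtain ⟨n, hn⟩ : ∃ n, mu (gN C.τ) r = n + 1 := ⟨_, (Nat.succ_pred_eq_of_pos
      (lt_of_lt_of_le two_pos (two_le_mu (gN_ne _) r))).symm⟩
    rw [hn] at f ⊢
    refine wg_of_pr (V := Kv M U (C.x r)) ((C.tri 0).FH y) (Tri.FV (T := C.tri 0) r) (HV hp)
      (HV (th_ne_left (Ne.symm hp))) (fun s x hs e => good s x ?_ (mem_trans ek e))
      (f (mem_trans (mem_symm ek) (kv_le _ _ (rt_mem _ _ _))))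
    rcases hs with rfl | rfl | rfl
    exacts [hy, hp, th_ne_left (Ne.symm hp)]
  by_cases hq : Mt U (C.x r, h) (a, 1)
  · obtain ⟨h1, b1, b2⟩ := hq
    exact Or.inl ⟨h1, by simpa [In] using b2, b1, c3_of a2 hh (mem_symm b1) hn⟩
  obtain ⟨ek, hkU, -⟩ := Tri.Geo.anc_pa hh hk
  replace hkU : k ∈ apar M U := hkU
  rcases Tri.Geo.exists_low (X := C.gi) (r := r) hh with ⟨rfl, b⟩ | ⟨y, k', b1, b2⟩
  · exact absurd ⟨1, by simpa [In] using show h ∈ Kv M U _ from b, In.self _⟩ hq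
  have kind := (b1.2.2.imp_right And.left).symm
  have hy := b1.2.1
  have b3 := Tri.Geo.vinv_gd r _ _ _ (anc_H hh b1.1 hk kind) b2
  have p1 := rt_mem ((U \ {C.x r}) \ {C.x (th r y)}) k h
  have p2 : rt ((U \ {C.x r}) \ {C.x (th r y)}) k h ∈ apar M U := by
    simpa using mul_mem hkU (kv_le _ _ (kv_le _ _ p1))
  refine Or.inr ⟨y, ⟨hy, kind⟩, ⟨mul_mem (inv_mem hkU) hU,
    fun f => (good y k hy ek).2.2.2.elim (· f) (· b3)⟩, ⟨by simpa using hkU,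
    fun f => hq ((f.mt hy).cg (mem_symm ek))⟩, ?_,
    c3_of a2 hh (mem_symm (mem_trans ek (kv_le _ _ p1))) hn⟩
  by_cases f : Mt U (b, rt ((U \ {C.x r}) \ {C.x (th r y)}) k h) (a, g)
  · exact Or.inr ⟨by simpa using p2, hn _ f⟩
  · exact Or.inl ⟨mul_mem (inv_mem p2) hU, f⟩

theorem re_nlb (C : TC M U) (a : B) (p : Fin 3) :
    RE2 (effA M) fun g c => c⁻¹ * g ∈ apar M U ∧ ¬ C.Lb (a, g) p c :=
  ((C.wp.not_mem_mul (U \ C.x '' {q | q ≠ p}) (U \ {a})).sig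
    (φ := fun x : List (B × Bool) × List (B × Bool) =>
    ((effA M).ev x.2)⁻¹ * (effA M).ev x.1) (by fun_prop)).of_eq fun x => by
      refine and_congr_right fun _ => not_congr ⟨fun ⟨k, h1, h2⟩ => ⟨(effA M).ev x.2 * k,
        by rwa [inv_mul_cancel_left], mem_symm (by simpa [mul_assoc] using h2)⟩,
        fun ⟨k, h1, h2⟩ => ⟨_, h1, by simpa [mul_assoc] using mem_symm h2⟩⟩

theorem sig_gen (C : TC M U) : Sig (Gen ((C.tri 0).TRule (effA M))) :=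
  Tri.sig_trule (fun _ => re_apar _) (fun _ => re_apar _) (C.gp 0)

theorem re_ngd (C : TC M U) (hp : p ≠ r) :
    RE (effA M) fun c => c ∈ apar M U ∧ ¬ C.gi.Gd r p c := by
  have : Sig fun w : List (B × Bool) => ∃ j : Tri.JC (List (B × Bool)),
      Gen ((C.tri 0).TRule (effA M)) j ∧ (effA M).ev j.1 = (effA M).ev w ∧
        gD C.τ r p (zw C.τ (gB' C.τ 0) j.2.1) ≤ 0 :=
    Sig.ex (Sig.and (C.sig_gen.comp (by fun_prop)) (Sig.and
      (EC.sig_eq (E := effA M) (by fun_prop) (by fun_prop))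
      ((sig_gD _ _ _ (base_gB' C.τ 0).nonneg).comp (by fun_prop))))
  have key : ∀ j w, Gen ((C.tri 0).TRule (effA M)) j → (effA M).ev j.1 = w → w ∈ apar M U ∧
      (C.gi.Gd r p w ↔ 0 < gD C.τ r p (zw C.τ (gB' C.τ 0) j.2.1)) := by
    rintro j _ h rfl
    obtain ⟨β, b1, -⟩ := Tri.trule_sound h
    refine ⟨b1.mem, (Tri.Geo.gd_iff b1.mem hp).trans ?_⟩
    rw [b1.pa_eq, ← zz_word]; rfl
  refine this.of_eq fun w => ⟨fun ⟨j, a, b, d⟩ => ⟨(key j _ a b).1,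
    fun h => d.not_gt ((key j _ a b).2.1 h)⟩, fun ⟨a, b⟩ => ?_⟩
  obtain ⟨j, e, hj⟩ := Tri.trule_complete (E := effA M) (Tri.ch_pa (T := C.tri 0) a)
  exact ⟨j, hj, e, not_lt.1 (mt (key j _ hj e).2.2 b)⟩

theorem re_good (C : TC M U) (a : B) (r p : Fin 3) :
    RE2 (effA M) fun g c => C.Good a r g p c := by
  by_cases hp : p = r
  · exact (Sig.const False).of_eq fun _ => by simp [Good, hp]
  refine (Sig.and ((re_apar U).sig (φ := fun x : List (B × Bool) × List (B × Bool) =>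
    (effA M).ev x.1) (by fun_prop)) (Sig.and ((re_apar U).sig (φ := fun x => (effA M).ev x.2)
    (by fun_prop)) (Sig.or (C.re_nlb a p) ((C.re_ngd hp).sig (φ := fun x => (effA M).ev x.2)
    (by fun_prop))))).of_eq fun x => ?_
  exact and_congr_right fun h1 => and_congr_right fun h2 => by
    simp only [h2, mul_mem (inv_mem h2) h1, true_and, ne_eq, hp, not_false_eq_true]

theorem re_lm (C : TC M U) (a : B) (r y : Fin 3) : RE3 (effA M) (C.LM a r y) := by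
  refine Sig.allF fun p => ?_
  by_cases hp : p = r
  · exact (Sig.const True).of_eq fun _ => by simp [hp]
  exact Sig.or (Sig.const _) (Sig.or (((C.gp 0 p r hp).2 _ le_rfl).1.sig (by fun_prop))
    ((re_wg (fun _ => re_apar _) (C.re_good a r) y _ p).sig (by fun_prop) (by fun_prop)
      (by fun_prop)))

theorem re_c3 (C : TC M U) (hab : Ge M 3 a b) (r : Fin 3) : RE2 (effA M) (C.C3 a b r) :=
  Sig.or ((((C.inv r).agp3 hab).2 3 le_rfl).1.sig (by fun_prop)) (Sig.exG (effA M)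
    (Sig.and ((re_mt _ _ _).sig (by fun_prop) (by fun_prop))
    (Sig.and ((re_mt _ _ _).sig (by fun_prop) (by fun_prop))
      ((C.wp.nm _ _).sig (by fun_prop) (by fun_prop)))))

theorem re_c2 (C : TC M U) (hab : Ge M 3 a b) (r y : Fin 3) : RE3 (effA M) (C.C2 a b r y) :=
  Sig.and ((C.re_nlb a y).sig (by fun_prop) (by fun_prop))
    (Sig.and ((C.re_nlb a y).sig (by fun_prop) (by fun_prop))
    (sig_retr _ (φ := fun x : List (B × Bool) × List (B × Bool) × List (B × Bool) =>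
      ((effA M).ev x.2.2)⁻¹ * (effA M).ev x.2.1) (by fun_prop)
      (p := fun x ρ => (NM U (b, (effA M).ev x.2.2 * ρ) (a, (effA M).ev x.1) ∨
        NM U (b, (effA M).ev x.2.2 * ρ) (a, 1)) ∧
        C.C3 a b r ((effA M).ev x.2.1) ((effA M).ev x.2.2 * ρ))
      (Sig.and (Sig.or ((C.wp.nm _ _).sig (by fun_prop) (by fun_prop))
        ((C.wp.nm _ _).sig (by fun_prop) (by fun_prop)))
        ((C.re_c3 hab r).sig (by fun_prop) (by fun_prop)))))

theorem re_cert (C : TC M U) (hab : Ge M 3 a b) (r : Fin 3) (kd : Option (Fin 3)) :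
    RE3 (effA M) (C.Cert a b r kd) :=
  Sig.and ((re_apar _).sig (by fun_prop)) (Sig.and (Sig.allF fun y => Sig.or (Sig.const _)
    (sig_retr _ (φ := fun x : List (B × Bool) × List (B × Bool) × List (B × Bool) =>
      ((effA M).ev x.2.1)⁻¹ * (effA M).ev x.2.2) (by fun_prop)
      (p := fun x ρ => C.LM a r y ((effA M).ev x.1) ((effA M).ev x.2.1 * ρ) ((effA M).ev x.2.2))
      ((C.re_lm a r y).sig (by fun_prop) (by fun_prop) (by fun_prop))))
    (Sig.or (Sig.exG (effA M) (Sig.and ((re_apar _).sig (by fun_prop))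
      (Sig.and ((re_apar _).sig (by fun_prop)) ((C.re_c3 hab r).sig (by fun_prop) (by fun_prop)))))
      (Sig.exF fun y => Sig.and (Sig.const _) (C.re_c2 hab r y))))

theorem re_pr3 (C : TC M U) (hab : Ge M 3 a b) : RE (effA M) fun g => g ∈ apar M U ∧
    ¬ Pr (Fv M U a b) 3 (Kv M U a) (Kv M U b) g := by
  have : Sig fun w : List (B × Bool) => ((effA M).ev w ∈ apar M U ∧ (effA M).ev w ∉ Kv M U a) ∧
      ∃ r kd, ∃ j : Tri.JC (List (B × Bool)), Gen ((C.tri 0).TRule (effA M)) j ∧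
        (app3 j.2.2 r).2.1 = kd ∧ C.Cert a b r kd ((effA M).ev w) ((effA M).ev j.1)
          ((effA M).ev (app3 j.2.2 r).1) :=
    Sig.and (C.wp.not_mem _) (Sig.exF fun r => Sig.exF fun kd => Sig.ex (Sig.and
      (C.sig_gen.comp (by fun_prop)) (Sig.and (by fun_prop)
      ((C.re_cert hab r kd).sig (by fun_prop) (by fun_prop) (by fun_prop)))))
  have e : ∀ g, Pr (Fv M U a b) 3 (Kv M U a) (Kv M U b) g ↔
      ∃ v, Mt U (b, v) (a, g) ∧ Mt U (b, v) (a, 1) := fun g => by rw [← pr3_iff]; simp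
  refine this.of_eq fun w => ?_
  beta_reduce
  rw [e]
  constructor
  · rintro ⟨⟨a1, a2⟩, r, _, j, a3, rfl, a4⟩
    obtain ⟨β, b1, b2⟩ := Tri.trule_sound a3
    refine ⟨a1, fun ⟨v, c1, c2⟩ => Cert.sound (C := C) hab b1.mem a2 (k := (effA M).ev (j.2.2 r).1)
      (r := r) ?_ ?_ c1 c2⟩ <;> rw [b1.pa_eq]
    · exact (b2 r).1
    · exact (b2 r).2.1 ▸ a4
  · rintro ⟨a1, a2⟩
    obtain ⟨r, h, b1, b2⟩ := exists_cert (C := C) a1 fun v c1 c2 => a2 ⟨v, c1, c2⟩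
    obtain ⟨j, rfl, hj⟩ := Tri.trule_complete (E := effA M) (Tri.ch_pa (T := C.tri 0) b1)
    obtain ⟨β, c1, c2⟩ := Tri.trule_sound hj
    rw [c1.pa_eq] at b2
    exact ⟨⟨a1, fun k => a2 ⟨1, ⟨1, In.self _, by simpa [In] using k⟩, mt_same _ _ _⟩⟩, r, _, j,
      hj, rfl, (c2 r).2.1 ▸ b2 _ (c2 r).1⟩

theorem agp3 (C : TC M U) (hab : Ge M 3 a b) : AGP M U a b 3 := by
  refine ⟨C.g3 a b hab, fun k hk => ?_⟩
  by_cases hk2 : k ≤ 2
  · exact ⟨C.wp.re_pr a b hk2, by rw [Set.pair_comm]; exact C.wp.re_pr b a hk2⟩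
  · obtain rfl : k = 3 := by omega
    exact ⟨C.re_pr3 hab, by rw [Set.pair_comm]; exact C.re_pr3 hab.symm⟩

end TC

end Pool.Agent.H10
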