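import Pool.Agent.Lib.helper10.Fold
import Pool.Agent.Lib.helper10.D3b
import Mathlib.Combinatorics.SimpleGraph.Connectivity.Connected

/-! Diagram combinatorics and the spherical case. -/

set_option linter.unusedSectionVars false

namespace Pool.Agent.H10

theorem exists_min_path {V : Type*} [DecidableEq V] {G : SimpleGraph V} {S O : Set V} {s o : V}
    (hs : s ∈ S) (ho : o ∈ O) (h : G.Reachable s o) : ∃ (n : ℕ) (f : ℕ → V), f 0 ∈ S ∧ f n ∈ O ∧
      (∀ i < n, G.Adj (f i) (f (i + 1))) ∧ (∀ i ≤ n, ∀ j ≤ n, f i = f j → i = j) ∧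
      (∀ i ≤ n, f i ∈ S → i = 0) ∧ ∀ i ≤ n, f i ∈ O → i = n := by
  classical
  have ex : ∃ n, ∃ s ∈ S, ∃ o ∈ O, ∃ w : G.Walk s o, w.length = n :=
    h.elim fun w => ⟨_, s, hs, o, ho, w, rfl⟩
  obtain ⟨s, hs, o, ho, w, e⟩ := Nat.find_spec ex
  have mn : ∀ s ∈ S, ∀ o ∈ O, ∀ w' : G.Walk s o, w.bypass.length ≤ w'.length :=
    fun s a o b w' => w.length_bypass_le_length.trans (e ▸ Nat.find_min' ex ⟨s, a, o, b, w', rfl⟩)
  refine ⟨w.bypass.length, w.bypass.getVert, by simpa, by simpa,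
    fun i => w.bypass.adj_getVert_succ, fun i a j b => w.bypass_isPath.getVert_injOn a b,
    fun i a b => ?_, fun i a b => ?_⟩
  · have := mn _ b _ ho (w.bypass.drop i)
    rw [SimpleGraph.Walk.drop_length] at this; omega
  · have := mn _ hs _ b (w.bypass.take i)
    rw [SimpleGraph.Walk.take_length] at this; omega

variable {B : Type*} {M : CoxeterMatrix B} [Fintype B] [DecidableEq B] [Primcodable B]
variable {U : Set B}

theorem not_sph_vec {v : B → ℝ} (hv : ∀ x, 0 ≤ v x) (hs : ∀ j, j ∉ U → v j = 0) (hne : v ≠ 0)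
    (h : ∀ x, v x = 0 ∨ ∃ y z, y ≠ z ∧ y ≠ x ∧ z ≠ x ∧
      v x ≤ kc M x y * v y + kc M x z * v z) : ¬ Sph M U := by
  rw [sph_iff]
  refine not_finite_of_vec (cx M) hv hs hne fun x _ => ?_
  have k : ∀ S : Finset B, x ∉ S → ∑ j ∈ S, -kc M x j * v j ≤ 0 := fun S hS =>
    Finset.sum_nonpos fun j hj => by
      have := mul_nonneg (kc_nonneg (M := M) (i := x) (j := j) fun e => hS (e ▸ hj)) (hv j)
      linarith
  change ∑ j, -kc M x j * v j ≤ 0
  rw [← Finset.add_sum_erase _ _ (Finset.mem_univ x), kc_self]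
  rcases h x with h | ⟨y, z, h1, h2, h3, h4⟩
  · have := k (Finset.univ.erase x) (by simp)
    rw [h]; linarith
  · rw [← Finset.add_sum_erase _ _ (show y ∈ Finset.univ.erase x by simp [h2]),
      ← Finset.add_sum_erase _ _ (show z ∈ (Finset.univ.erase x).erase y by simp [h3, h1.symm])]
    have := k (((Finset.univ.erase x).erase y).erase z) (by simp)
    linarith

/-- the Dynkin diagram -/
def gr (M : CoxeterMatrix B) (U : Set B) : SimpleGraph B where
  Adj a b := Ge M 3 a b ∧ a ∈ U ∧ b ∈ U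
  symm := ⟨fun _ _ h => ⟨h.1.symm, h.2.2, h.2.1⟩⟩
  loopless := ⟨fun _ h => h.1.1 rfl⟩

theorem Ge.half {a b : B} (h : Ge M 3 a b) : 1 / 2 ≤ kc M a b := kc_ge_half h.2

theorem not_ge {a b : B} (h : a ≠ b) (h' : ¬ Ge M 3 a b) : M a b = 2 := by
  have := M.off_diagonal a b h
  simp only [Ge, h, ne_eq, not_false_eq_true, true_and] at h'
  omega

theorem not_sph_path {n : ℕ} {f : ℕ → B} {e0 e1 : B} {v : B → ℝ} (hn : 1 ≤ n)
    (h1 : ∀ i < n, Ge M 3 (f i) (f (i + 1))) (h2 : ∀ i ≤ n, ∀ j ≤ n, f i = f j → i = j)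
    (hv : ∀ x, 0 ≤ v x) (hs : ∀ j, j ∉ U → v j = 0) (h3 : ∀ i ≤ n, v (f i) = 1)
    (a0 : e0 ≠ f 0) (a1 : e0 ≠ f 1) (a2 : 1 / 2 ≤ kc M (f 0) e0 * v e0)
    (b0 : e1 ≠ f n) (b1 : e1 ≠ f (n - 1)) (b2 : 1 / 2 ≤ kc M (f n) e1 * v e1)
    (h : ∀ x, v x = 0 ∨ (∃ i ≤ n, x = f i) ∨ ∃ y z, y ≠ z ∧ y ≠ x ∧ z ≠ x ∧
      v x ≤ kc M x y * v y + kc M x z * v z) : ¬ Sph M U := by
  refine not_sph_vec hv hs (fun e => by simpa [e] using h3 0 (by omega)) fun x => ?_
  rcases h x with h | ⟨i, hi, rfl⟩ | h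
  · exact Or.inl h
  swap
  · exact Or.inr h
  right
  by_cases e : i = 0
  · subst e
    have := h1 0 hn
    exact ⟨e0, f 1, a1, a0, this.1.symm, by rw [h3 0 hi, h3 1 hn]; linarith [this.half]⟩
  obtain ⟨i, rfl⟩ := Nat.exists_eq_succ_of_ne_zero e
  have c := h1 i hi
  by_cases e : i + 1 = n
  · subst e
    exact ⟨e1, f i, b1, b0, c.1, by rw [h3 _ hi, h3 i (by omega)]; linarith [c.symm.half]⟩
  · have c' := h1 (i + 1) (by omega)
    exact ⟨f i, f (i + 2), fun k => by have := h2 _ (by omega) _ (by omega) k; omega, c.1,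
      c'.1.symm, by
        rw [h3 _ hi, h3 i (by omega), h3 (i + 2) (by omega)]; linarith [c.symm.half, c'.half]⟩

/-- the two sides of an edge -/
def Sd (M : CoxeterMatrix B) (U : Set B) (s t : B) (sd : B → Bool) : Prop :=
  ∀ a ∈ U, ∀ b ∈ U, Ge M 3 a b → sd a = sd b ∨ (a = s ∧ b = t) ∨ (a = t ∧ b = s)

theorem Sph.sides (h : Sph M U) {s t : B} (hs : s ∈ U) (ht : t ∈ U) (hst : Ge M 3 s t) :
    ∃ sd, sd s = false ∧ sd t = true ∧ Sd M U s t sd := by
  classical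
  let G := (gr M U).deleteEdges {s(s, t)}
  refine ⟨fun x => decide (G.Reachable t x), ?_, by simp, fun a ha b hb hab => ?_⟩
  · refine decide_eq_false fun k => ?_
    obtain ⟨n, f, (a1 : f 0 = t), (a2 : f n = s), a3, a4, -⟩ :=
      exists_min_path (S := {t}) (O := {s}) rfl rfl k
    simp only [G, SimpleGraph.deleteEdges_adj, Set.mem_singleton_iff] at a3
    have hn : 1 ≤ n := Nat.pos_of_ne_zero fun e => hst.1 (by rw [← a1, ← a2, e])
    have h2 : n ≠ 1 := fun e => (a3 0 hn).2 (by rw [a1, zero_add, ← e, a2, Sym2.eq_swap])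
    have hU : ∀ i ≤ n, f i ∈ U := fun i hi => by
      by_cases e : i = n
      exacts [e ▸ a2 ▸ hs, (a3 i (by omega)).1.2.1]
    refine not_sph_path (e0 := f n) (e1 := f 0) (v := fun x => if ∃ i ≤ n, x = f i then 1 else 0)
      hn (fun i hi => (a3 i hi).1.1) a4 (fun x => by split_ifs <;> simp)
      (fun j hj => if_neg fun ⟨i, c, e⟩ => hj (e ▸ hU i c)) (fun i hi => if_pos ⟨i, hi, rfl⟩)
      (fun e => ?_) (fun e => ?_) ?_ (fun e => ?_) (fun e => ?_) ?_ (fun x => ?_) h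
    · have := a4 _ le_rfl _ (by omega) e; omega
    · have := a4 _ le_rfl _ (by omega) e; omega
    · rw [if_pos ⟨n, le_rfl, rfl⟩, a1, a2, mul_one]; exact hst.symm.half
    · have := a4 _ (by omega) _ le_rfl e; omega
    · have := a4 _ (by omega) _ (by omega) e; omega
    · rw [if_pos ⟨0, by omega, rfl⟩, a1, a2, mul_one]; exact hst.half
    · by_cases e : ∃ i ≤ n, x = f i
      exacts [Or.inr (Or.inl e), Or.inl (if_neg e)]
  · by_contra k
    simp only [not_or] at k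
    have : G.Adj a b := by
      simp only [G, SimpleGraph.deleteEdges_adj, Set.mem_singleton_iff, Sym2.eq_iff]
      exact ⟨⟨hab, ha, hb⟩, by tauto⟩
    exact k.1 (decide_eq_decide.2 ⟨fun e => e.trans this.reachable,
      fun e => e.trans this.symm.reachable⟩)

theorem Sd.symm {s t : B} {sd : B → Bool} (h : Sd M U s t sd) : Sd M U t s sd :=
  fun a ha b hb hab => (h a ha b hb hab).imp_right Or.symm

theorem Sd.mt {sd : B → Bool} {p u v : Vx M} (h : Sd M U u.1 v.1 sd) (hne : sd u.1 ≠ sd v.1)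
    (hp : sd p.1 = sd u.1) (h1 : Mt U p u) (h2 : Mt U v u) : Mt U p v := by
  refine mt_sep (K := {x | x ∈ U ∧ sd x = sd v.1}) (K' := {x | x ∈ U ∧ sd x = sd u.1 ∧ x ≠ u.1})
    (fun a ha b hb => not_ge ?_ fun k => ?_) (fun x hx => ?_) (fun k => hne (hp ▸ k.2))
    (fun k => hne k.2.1.symm) h1 h2
  · rintro rfl; exact hne (hb.2.1 ▸ ha.2)
  · rcases h a ha.1 b hb.1 k with k | k | k
    · exact hne (hb.2.1 ▸ k ▸ ha.2)
    · exact hne (k.1 ▸ ha.2)
    · exact hb.2.2 k.2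
  · by_cases e : sd x = sd v.1
    · exact Or.inl ⟨hx.1, e⟩
    · exact Or.inr ⟨hx.1, by revert e hne; cases sd x <;> cases sd u.1 <;> simp, hx.2⟩

theorem Sph.ge (h : Sph M U) {a b : B} (ha : a ∈ U) (hb : b ∈ U) : M a b ≠ 0 := by
  obtain ⟨δ, hδ⟩ := h.exists_del
  have k : ∀ s ∈ U, Dv M [s] δ := fun s hs =>
    hδ.red_dv (by simpa [Ov] using hs) (by simp [CoxeterSystem.IsReduced])
  exact (dv_braid (k a ha) (k b hb)).1

theorem Sph.g3 (h : Sph M U) : G3 M U :=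
  g3_of fun _ hy _ hz e => (h.agp3 (e.2.resolve_left (h.ge hy hz))).1

theorem Sph.cv (h : Sph M U) {y z : B} {μ : ℕ} (hy : y ∈ U) (hz : z ∈ U) (h3 : 3 ≤ μ)
    (hge : Ge M μ y z) (hg : AG M U y z μ) : CV M U y z (μ - 1) := by
  intro u v huv hm
  by_cases hu : u.1 ∈ U
  swap
  · exact os_out (Or.inl hu) hm _
  by_cases hv : v.1 ∈ U
  swap
  · exact os_out (Or.inr hv) hm _
  rcases huv with e | e
  · exact fun s σ m c _ _ _ k => Or.inl (hm.trans_eq e k.symm).symm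
  obtain ⟨sd, a1, a2, a3⟩ := h.sides hu hv e
  have ne : sd u.1 ≠ sd v.1 := by simp [a1, a2]
  rcases a3 y hy z hz (hge.mono h3) with k | k
  swap
  · exact os_walk h.g3 (hge.mono h3) hg (by omega) (by tauto) (by tauto) hm
  intro s σ m c e1 e2 e3 e4
  by_cases k' : sd y = sd u.1
  · exact Or.inl (a3.mt ne k' e4 hm.symm)
  refine Or.inr (conv hge hg e1 (by omega) (a3.symm.mt ne.symm ?_ e3 hm) e4)
  rw [a1] at k'
  rcases e1.start with rfl | rfl <;> simpa [a2, k] using k'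

theorem Sph.four (h : Sph M U) {y z : B} (hy : y ∈ U) (hz : z ∈ U) (h4 : Ge M 4 y z)
    (h6 : ¬ Ge M 6 y z) (ho : ∀ s ∈ U, ∀ t ∈ U, Ge M 4 s t → (s = y ∧ t = z) ∨ (s = z ∧ t = y)) :
    AGP M U y z 4 := by
  obtain ⟨sd, a1, a2, a3⟩ := h.sides hy hz (h4.mono (by omega))
  refine FD.agp4 ⟨h, hy, hz, a1, a2, ?_, fun s hs t ht e k1 k2 => ?_⟩
  · simp only [Ge, h4.1, ne_eq, not_false_eq_true, true_and] at h4 h6; omega
  by_cases k : Ge M 3 s t
  · have := mt (ho s hs t ht) (by tauto)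
    refine Or.inr ⟨?_, ((a3 s hs t ht k).resolve_right (by tauto))⟩
    simp only [Ge, e, ne_eq, not_false_eq_true, true_and] at k this; omega
  · exact Or.inl (not_ge e k)

end Pool.Agent.H10
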