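import Mathlib.GroupTheory.Coxeter.Inversion
import Mathlib.Analysis.SpecialFunctions.Trigonometric.Basic
import Mathlib.Tactic

/-! Geometric representation of a Coxeter group and positivity of roots. -/

namespace Pool.Agent.H10

open CoxeterSystem

variable {B : Type*} [Fintype B] [DecidableEq B] (M : CoxeterMatrix B)

/-- cosine attached to a pair of generators -/
noncomputable def kc (i j : B) : ℝ := Real.cos (Real.pi / (M i j : ℝ))

/-- `bf M i v` is the value of the bilinear form on the simple root `i` and `v`. -/
noncomputable def bf (i : B) : (B → ℝ) →ₗ[ℝ] ℝ where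
  toFun v := ∑ j, -kc M i j * v j
  map_add' u v := by simp [mul_add, Finset.sum_add_distrib]
  map_smul' c v := by simp [Finset.mul_sum, mul_left_comm]

/-- simple root -/
def ee (i : B) : B → ℝ := Pi.single i 1

omit [Fintype B] [DecidableEq B] in
theorem kc_symm (i j : B) : kc M i j = kc M j i := by simp [kc, M.symmetric i j]

omit [Fintype B] [DecidableEq B] in
@[simp] theorem kc_self (i : B) : kc M i i = -1 := by simp [kc]

@[simp] theorem bf_ee (i j : B) : bf M i (ee j) = -kc M i j := by
  simp [bf, ee, Pi.single_apply]

/-- simple reflection -/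
noncomputable def sref (i : B) : Module.End ℝ (B → ℝ) :=
  LinearMap.id - (2 : ℝ) • (bf M i).smulRight (ee i)

theorem sref_apply (i : B) (v : B → ℝ) : sref M i v = v - (2 * bf M i v) • ee i := by
  simp [sref, smul_smul]

theorem sref_ee (i j : B) : sref M i (ee j) = ee j + (2 * kc M i j) • ee i := by
  rw [sref_apply, bf_ee]; simp [sub_eq_add_neg]

@[simp] theorem sref_ee_self (i : B) : sref M i (ee i) = - ee i := by
  rw [sref_ee]; simp; module

/-- Chebyshev-like sequence -/
noncomputable def UU (k : ℝ) : ℕ → ℝ
  | 0 => 0
  | 1 => 1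
  | n + 2 => 2 * k * UU k (n + 1) - UU k n

theorem UU_cos (θ : ℝ) (n : ℕ) : UU (Real.cos θ) n * Real.sin θ = Real.sin (n * θ) := by
  induction n using Nat.strong_induction_on with
  | _ n ih =>
    match n with
    | 0 => simp [UU]
    | 1 => simp [UU]
    | n + 2 =>
      have h1 := ih (n + 1) (by omega)
      have h2 := ih n (by omega)
      rw [UU, sub_mul, mul_assoc, h1, h2]
      have e1 : ((n + 2 : ℕ) : ℝ) * θ = ((n + 1 : ℕ) : ℝ) * θ + θ := by push_cast; ring
      have e2 : (n : ℝ) * θ = ((n + 1 : ℕ) : ℝ) * θ - θ := by push_cast; ring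
      rw [e1, e2, Real.sin_add, Real.sin_sub]; ring

theorem UU_one (n : ℕ) : UU 1 n = n := by
  induction n using Nat.strong_induction_on with
  | _ n ih =>
    match n with
    | 0 => simp [UU]
    | 1 => simp [UU]
    | n + 2 => rw [UU, ih (n + 1) (by omega), ih n (by omega)]; push_cast; ring

theorem sin_pos_of (m : ℕ) (hm : 2 ≤ m) : 0 < Real.sin (Real.pi / m) := by
  have h : (2 : ℝ) ≤ m := by exact_mod_cast hm
  apply Real.sin_pos_of_pos_of_lt_pi
  · positivity
  · rw [div_lt_iff₀ (by linarith)]; nlinarith [Real.pi_pos]

omit [Fintype B] [DecidableEq B] in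
theorem two_le_M {i j : B} (hij : i ≠ j) (h0 : M i j ≠ 0) : 2 ≤ M i j := by
  have := M.off_diagonal i j hij; omega

omit [Fintype B] [DecidableEq B] in
theorem UU_nonneg {i j : B} (hij : i ≠ j) {n : ℕ} (hn : M i j = 0 ∨ n ≤ M i j) :
    0 ≤ UU (kc M i j) n := by
  by_cases h0 : M i j = 0
  · simp [kc, h0, UU_one]
  · have hn' := hn.resolve_left h0
    have h2 := two_le_M M hij h0
    have hs := sin_pos_of _ h2
    have h := UU_cos (Real.pi / (M i j : ℝ)) n
    have hm : (0 : ℝ) < M i j := by positivity
    have : 0 ≤ Real.sin (n * (Real.pi / (M i j : ℝ))) := by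
      apply Real.sin_nonneg_of_nonneg_of_le_pi
      · positivity
      · have : (n : ℝ) ≤ M i j := by exact_mod_cast hn'
        rw [← mul_div_assoc, div_le_iff₀ hm]; nlinarith [Real.pi_pos]
    rw [← h] at this
    exact nonneg_of_mul_nonneg_left this hs

/-- action of a word -/
noncomputable def wact (l : List B) : Module.End ℝ (B → ℝ) := (l.map (sref M)).prod

theorem wact_alt {i j : B} (n : ℕ) :
    wact M (alternatingWord i j n) (ee i) =
      if Even n then UU (kc M i j) (n + 1) • ee i + UU (kc M i j) n • ee j
      else UU (kc M i j) n • ee i + UU (kc M i j) (n + 1) • ee j := by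
  induction n with
  | zero => simp [wact, alternatingWord, UU]
  | succ n ih =>
    rw [alternatingWord_succ']
    have : wact M ((if Even n then j else i) :: alternatingWord i j n) (ee i) =
        sref M (if Even n then j else i) (wact M (alternatingWord i j n) (ee i)) := by
      simp [wact]
    rw [this, ih]
    by_cases hn : Even n
    · have : ¬ Even (n + 1) := by simp [Nat.even_add_one, hn]
      simp only [hn, this, if_true, if_false, map_add, map_smul, sref_ee_self, sref_ee, UU,
        kc_symm M j i]
      module
    · have : Even (n + 1) := by simp [Nat.even_add_one, hn]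
      simp only [hn, this, if_true, if_false, map_add, map_smul, sref_ee_self, sref_ee, UU]
      module

theorem wact_alt_even (i j : B) (n : ℕ) :
    wact M (alternatingWord i j (2 * n)) = (sref M i * sref M j) ^ n := by
  induction n with
  | zero => simp [wact, alternatingWord]
  | succ n ih =>
    rw [show 2 * (n + 1) = (2 * n + 1) + 1 by ring, alternatingWord_succ', alternatingWord_succ']
    have h1 : ¬ Even (2 * n + 1) := by simp
    have h2 : Even (2 * n) := by simp
    simp only [h1, h2, if_true, if_false]
    rw [pow_succ', ← ih]; simp [wact, mul_assoc]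

theorem sref_sq (i : B) : sref M i * sref M i = 1 := by
  refine LinearMap.ext fun v => ?_
  simp only [Module.End.mul_apply, sref_apply, map_sub, map_smul, bf_ee, kc_self,
    Module.End.one_apply]
  module

theorem sref_liftable : M.IsLiftable (sref M) := by
  intro i j
  by_cases hij : i = j
  · subst hij; simp [sref_sq]
  by_cases h0 : M i j = 0
  · simp [h0]
  have h2 := two_le_M M hij h0
  have hs := sin_pos_of _ h2
  have hm : (M i j : ℝ) ≠ 0 := by positivity
  have key : ∀ a b : B, M a b = M i j →
      ((sref M a * sref M b) ^ M i j) (ee a) = ee a := by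
    intro a b hab
    rw [← wact_alt_even, wact_alt]
    have hk : kc M a b = Real.cos (Real.pi / (M i j : ℝ)) := by simp [kc, hab]
    have u0 : UU (kc M a b) (2 * M i j) = 0 := by
      have := UU_cos (Real.pi / (M i j : ℝ)) (2 * M i j)
      rw [show ((2 * M i j : ℕ) : ℝ) * (Real.pi / (M i j : ℝ)) = 2 * Real.pi by
        push_cast; field_simp, Real.sin_two_pi] at this
      rw [hk]; exact (mul_eq_zero.1 this).resolve_right hs.ne'
    have u1 : UU (kc M a b) (2 * M i j + 1) = 1 := by
      have := UU_cos (Real.pi / (M i j : ℝ)) (2 * M i j + 1)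
      rw [show ((2 * M i j + 1 : ℕ) : ℝ) * (Real.pi / (M i j : ℝ)) =
        Real.pi / (M i j : ℝ) + 2 * Real.pi by push_cast; field_simp; ring,
        Real.sin_add_two_pi] at this
      rw [hk]; exact mul_right_cancel₀ hs.ne' (by rw [this, one_mul])
    simp [u0, u1]
  have hi := key i j rfl
  have hj' := key j i (M.symmetric j i)
  have hinv : (sref M i * sref M j) ^ M i j * (sref M j * sref M i) ^ M i j = 1 := by
    have : (sref M i * sref M j) * (sref M j * sref M i) = 1 := by
      rw [mul_assoc, ← mul_assoc (sref M j), sref_sq, one_mul, sref_sq]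
    have hc : Commute (sref M i * sref M j) (sref M j * sref M i) := by
      unfold Commute SemiconjBy
      rw [this, mul_assoc, ← mul_assoc (sref M i), sref_sq, one_mul, sref_sq]
    rw [← hc.mul_pow, this, one_pow]
  have hj : ((sref M i * sref M j) ^ M i j) (ee j) = ee j := by
    conv_lhs => rw [← hj']
    rw [← Module.End.mul_apply, hinv]; rfl
  have hk : 1 - kc M i j ^ 2 ≠ 0 := by
    have := Real.sin_sq_add_cos_sq (Real.pi / (M i j : ℝ))
    have : 1 - kc M i j ^ 2 = Real.sin (Real.pi / (M i j : ℝ)) ^ 2 := by
      simp only [kc]; linarith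
    rw [this]; positivity
  refine LinearMap.ext fun v => ?_
  set a := bf M i v
  set b := bf M j v
  set k := kc M i j with hkd
  set p := (a + k * b) / (1 - k ^ 2)
  set q := (b + k * a) / (1 - k ^ 2)
  have hu : ∀ n : ℕ, ((sref M i * sref M j) ^ n) (v - p • ee i - q • ee j) =
      v - p • ee i - q • ee j := by
    intro n
    have h1 : bf M i (v - p • ee i - q • ee j) = 0 := by
      simp only [map_sub, map_smul, bf_ee, kc_self, smul_eq_mul, ← hkd]
      change a - p * _ - q * _ = 0
      simp only [p, q]; field_simp; ring
    have h2 : bf M j (v - p • ee i - q • ee j) = 0 := by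
      simp only [map_sub, map_smul, bf_ee, kc_self, smul_eq_mul, kc_symm M j i, ← hkd]
      change b - p * _ - q * _ = 0
      simp only [p, q]; field_simp; ring
    induction n with
    | zero => simp
    | succ n ih =>
      rw [pow_succ, Module.End.mul_apply, Module.End.mul_apply, sref_apply M j, h2]
      simp only [mul_zero, zero_smul, sub_zero]
      rw [sref_apply M i, h1]
      simpa using ih
  have := hu (M i j)
  rw [map_sub, map_sub, map_smul, map_smul, hi, hj] at this
  simpa using this

variable {M} {W : Type*} [Group W] (cs : CoxeterSystem M W)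

/-- the geometric representation -/
noncomputable def rho : W →* Module.End ℝ (B → ℝ) := cs.lift ⟨sref M, sref_liftable M⟩

@[simp] theorem rho_simple (i : B) : rho cs (cs.simple i) = sref M i :=
  cs.lift_apply_simple _ i

theorem rho_wordProd (l : List B) : rho cs (cs.wordProd l) = wact M l := by
  induction l with
  | nil => simp [wact]
  | cons a l ih => rw [cs.wordProd_cons, map_mul, ih]; simp [wact]

theorem rho_ee_ne (w : W) (i : B) : rho cs w (ee i) ≠ 0 := by
  intro h
  have : rho cs w⁻¹ (rho cs w (ee i)) = ee i := by
    rw [← Module.End.mul_apply, ← map_mul]; simp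
  rw [h, map_zero] at this
  have := congrFun this i
  simp [ee] at this

omit [Fintype B] [DecidableEq B] in
theorem red_left {v : W} {l : List B} (h : cs.length (v * cs.wordProd l) = cs.length v + l.length) :
    cs.IsReduced l := by
  have h1 := cs.length_mul_le v (cs.wordProd l)
  have h2 := cs.length_wordProd_le l
  unfold CoxeterSystem.IsReduced; omega

omit [Fintype B] [DecidableEq B] in
theorem len_split {v : W} {l l' : List B}
    (h : cs.length (v * cs.wordProd (l ++ l')) = cs.length v + (l ++ l').length) :
    cs.length (v * cs.wordProd l) = cs.length v + l.length := by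
  rw [cs.wordProd_append, ← mul_assoc, List.length_append] at h
  have h1 := cs.length_mul_le (v * cs.wordProd l) (cs.wordProd l')
  have h2 := cs.length_wordProd_le l
  have h3 := cs.length_wordProd_le l'
  have h4 := cs.length_mul_le v (cs.wordProd l)
  omega

omit [Fintype B] [DecidableEq B] in
/-- dihedral decomposition -/
theorem dihedral_decomp {w : W} {j : B} (i : B) (hj : cs.IsRightDescent w j) :
    ∃ n v, 1 ≤ n ∧ w = v * cs.wordProd (alternatingWord i j n) ∧
      cs.length w = cs.length v + n ∧ ¬ cs.IsRightDescent v i ∧ ¬ cs.IsRightDescent v j := by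
  have key : ∀ k n v, cs.length v ≤ k → 1 ≤ n → w = v * cs.wordProd (alternatingWord i j n) →
      cs.length w = cs.length v + n →
      ∃ n v, 1 ≤ n ∧ w = v * cs.wordProd (alternatingWord i j n) ∧
      cs.length w = cs.length v + n ∧ ¬ cs.IsRightDescent v i ∧ ¬ cs.IsRightDescent v j := by
    intro k
    induction k with
    | zero =>
      intro n v hv hn h1 h2
      have : v = 1 := cs.length_eq_zero_iff.1 (by omega)
      subst this
      exact ⟨n, 1, hn, h1, h2, cs.not_isRightDescent_one _, cs.not_isRightDescent_one _⟩
    | succ k ih =>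
      intro n v hv hn h1 h2
      obtain ⟨n, rfl⟩ : ∃ n', n = n' + 1 := ⟨n - 1, by omega⟩
      have hx : ¬ cs.IsRightDescent v (if Even n then j else i) := by
        rw [cs.not_isRightDescent_iff]
        have h3 := h2
        rw [h1, alternatingWord_succ'] at h3
        have := len_split cs (v := v) (l := [if Even n then j else i])
          (l' := alternatingWord i j n) (by simpa using h3)
        simpa using this
      by_cases hy : cs.IsRightDescent v (if Even (n + 1) then j else i)
      · have h4 := cs.isRightDescent_iff.1 hy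
        refine ih (n + 2) (v * cs.simple (if Even (n + 1) then j else i)) (by omega) (by omega)
          ?_ (by omega)
        rw [alternatingWord_succ', cs.wordProd_cons, mul_assoc, cs.simple_mul_simple_cancel_left]
        exact h1
      · refine ⟨n + 1, v, hn, h1, h2, ?_, ?_⟩
        · by_cases he : Even n
          · simpa [Nat.even_add_one, he] using hy
          · simpa [he] using hx
        · by_cases he : Even n
          · simpa [he] using hx
          · simpa [Nat.even_add_one, he] using hy
  have h4 := cs.isRightDescent_iff.1 hj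
  refine key _ 1 (w * cs.simple j) le_rfl le_rfl ?_ (by omega)
  simp [alternatingWord]

omit [Fintype B] [DecidableEq B] in
theorem descent_of_braid {w v : W} {i j : B} (h0 : M i j ≠ 0)
    (h1 : w = v * cs.wordProd (alternatingWord i j (M i j)))
    (h2 : cs.length w = cs.length v + M i j) : cs.IsRightDescent w i := by
  have hb := cs.wordProd_braidWord_eq i j
  simp only [braidWord] at hb
  rw [hb, M.symmetric j i] at h1
  obtain ⟨n, hn⟩ : ∃ n, M i j = n + 1 := ⟨M i j - 1, by omega⟩
  rw [hn, alternatingWord_succ, cs.wordProd_concat] at h1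
  unfold IsRightDescent
  have h5 : w * cs.simple i = v * cs.wordProd (alternatingWord i j n) := by
    rw [h1, ← mul_assoc, cs.simple_mul_simple_cancel_right]
  have h3 := cs.length_mul_le v (cs.wordProd (alternatingWord i j n))
  have h4 := cs.length_wordProd_le (alternatingWord i j n)
  rw [length_alternatingWord] at h4
  rw [h5]
  omega

omit [Fintype B] [DecidableEq B] in
theorem le_M_of_red {i j : B} {n : ℕ} (h : cs.IsReduced (alternatingWord i j n)) :
    M i j = 0 ∨ n ≤ M i j := by
  by_contra hc
  push Not at hc
  exact cs.not_isReduced_alternatingWord i j hc.1 hc.2 h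

theorem rho_alt_nonneg {v : W} {i j : B} (hij : i ≠ j) {n : ℕ} (hn : M i j = 0 ∨ n < M i j)
    (hi : 0 ≤ rho cs v (ee i)) (hj : 0 ≤ rho cs v (ee j)) :
    0 ≤ rho cs (v * cs.wordProd (alternatingWord i j n)) (ee i) := by
  rw [map_mul, Module.End.mul_apply, rho_wordProd, wact_alt]
  have u1 := UU_nonneg M hij (n := n) (by omega)
  have u2 := UU_nonneg M hij (n := n + 1) (by omega)
  split_ifs
  · rw [map_add, map_smul, map_smul]
    exact add_nonneg (smul_nonneg u2 hi) (smul_nonneg u1 hj)
  · rw [map_add, map_smul, map_smul]
    exact add_nonneg (smul_nonneg u1 hi) (smul_nonneg u2 hj)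

/-- Positivity of roots. -/
theorem rho_nonneg {w : W} {i : B} (hi : ¬ cs.IsRightDescent w i) : 0 ≤ rho cs w (ee i) := by
  induction h : cs.length w using Nat.strong_induction_on generalizing w i with
  | _ k ih =>
    by_cases hw : w = 1
    · subst hw
      intro j
      simp only [map_one, Module.End.one_apply, ee, Pi.single_apply, Pi.zero_apply]
      split_ifs <;> norm_num
    obtain ⟨j, hj⟩ := cs.exists_rightDescent_of_ne_one hw
    have hij : i ≠ j := fun e => hi (e ▸ hj)
    obtain ⟨n, v, hn, h1, h2, h3, h4⟩ := dihedral_decomp cs i hj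
    have hred : cs.IsReduced (alternatingWord i j n) :=
      red_left cs (v := v) (by rw [← h1, h2, length_alternatingWord])
    have hle := le_M_of_red cs hred
    have hlt : M i j = 0 ∨ n < M i j := by
      by_cases h0 : M i j = 0
      · exact Or.inl h0
      · right
        refine lt_of_le_of_ne (hle.resolve_left h0) fun e => hi ?_
        exact descent_of_braid cs h0 (e ▸ h1) (e ▸ h2)
    rw [h1]
    exact rho_alt_nonneg cs hij hlt (ih _ (by omega) h3 rfl) (ih _ (by omega) h4 rfl)

theorem rho_nonpos {w : W} {i : B} (hi : cs.IsRightDescent w i) : rho cs w (ee i) ≤ 0 := by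
  have h := rho_nonneg cs (cs.isRightDescent_iff_not_isRightDescent_mul.1 hi)
  rw [map_mul, Module.End.mul_apply, rho_simple, sref_ee_self, map_neg] at h
  exact neg_nonneg.1 h

theorem not_descent_iff {w : W} {i : B} : ¬ cs.IsRightDescent w i ↔ 0 ≤ rho cs w (ee i) :=
  ⟨rho_nonneg cs, fun h hd => rho_ee_ne cs w i (le_antisymm (rho_nonpos cs hd) h)⟩

theorem descent_iff {w : W} {i : B} : cs.IsRightDescent w i ↔ rho cs w (ee i) ≤ 0 :=
  ⟨rho_nonpos cs, fun h => by
    by_contra hd; exact rho_ee_ne cs w i (le_antisymm h (rho_nonneg cs hd))⟩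

theorem rho_injective : Function.Injective (rho cs) := by
  rw [injective_iff_map_eq_one]
  intro w hw
  by_contra h
  obtain ⟨j, hj⟩ := cs.exists_rightDescent_of_ne_one h
  have := rho_nonpos cs hj j
  simp [hw, ee] at this
  linarith

theorem simple_inj {i j : B} (h : cs.simple i = cs.simple j) : i = j := by
  by_contra hij
  have h1 : sref M i (ee j) j = sref M j (ee j) j := by rw [← rho_simple cs, h, rho_simple]
  rw [sref_ee, sref_ee_self] at h1
  simp [ee, Ne.symm hij] at h1
  linarith

end Pool.Agent.H10
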