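import Pool.Agent.Lib.helper10.TriB

/-! Tools for certificates: tripods, certified walks and heights. -/

set_option linter.unusedSectionVars false

namespace Pool.Agent.H10

section paths

variable {G : Type*} [Group G] {ι : Type*} {F : Subgroup G} {K : ι → Subgroup G}
  {G1 G2 G3 Gd : ι → G → Prop} {s s2 t t' : ι} {σ σ2 c τ : G}

theorem tri_step {m : ℕ} (v1 : VInv K G1) (hF : F ≤ K t) (h0 : G1 s σ)
    (h : PP F K G1 s σ m t' t c) :
    (G1 t c ∧ ∃ m' ≤ m, PP F K G1 s σ m' t t' c) ∨ EP F K Tv s σ m t t' c := by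
  cases m with
  | zero => exact Or.inr h
  | succ m =>
    obtain ⟨c0, a, b⟩ := h
    by_cases e : c0⁻¹ * c ∈ F
    · obtain ⟨d1, d2⟩ := (b.congr v1 hF e).prev
      refine Or.inl ⟨?_, m, by omega, d1⟩
      rcases d2 with rfl | d2
      · obtain ⟨rfl, d⟩ := d1; exact v1 _ _ _ d h0
      · exact d2
    · exact Or.inr ⟨trivial, c0, a, e, b.tv⟩

theorem tri_ext {n m3 : ℕ} (v1 : VInv K G1) (hF : ∀ a, a = t ∨ a = t' → F ≤ K a) (h0 : G1 s σ)
    (h3 : ∀ a b, (a = t ∧ b = t') ∨ (a = t' ∧ b = t) → s2 = a → PP F K G1 s σ m3 a b σ2)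
    (h : EP F K Gd s2 σ2 n t t' c) : (G1 t c ∧ ∃ m ≤ m3 + n, PP F K G1 s σ m t t' c) ∨
      ∃ m ≤ m3 + n, EP F K Tv s σ m t t' c := by
  induction n generalizing t t' c with
  | zero =>
    exact (tri_step v1 (hF _ (Or.inl rfl)) h0 ((h3 _ _ (Or.inr ⟨rfl, rfl⟩) h.1).congr h.2)).imp id
      fun k => ⟨_, le_rfl, k⟩
  | succ n ih =>
    obtain ⟨-, c', b1, b2, b3⟩ := h
    rcases ih (fun a h => hF a h.symm) (fun a b h => h3 a b h.symm) b3 with
      ⟨-, m, d1, d2⟩ | ⟨m, d1, d2⟩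
    · exact (tri_step v1 (hF _ (Or.inl rfl)) h0 (d2.congr b1)).imp
        (fun ⟨k1, m', k2, k3⟩ => ⟨k1, m', by omega, k3⟩) fun k => ⟨m, by omega, k⟩
    · exact Or.inr ⟨m + 1, by omega, trivial, c', b1, b2, d2⟩

/-- the centre of a tripod lies on all three sides -/
theorem tripod {μ m1 m2 m3 : ℕ} (v1 : VInv K G1) (v2 : VInv K G2) (v3 : VInv K G3)
    (hF : F ≤ K t) (hF' : F ≤ K t') (hne : t ≠ t') (hg : Girth F (K t) (K t') μ)
    (hx : ∀ a x, G1 a x → G2 a x → G3 a x → False) (e1 : G1 s σ) (e2 : G2 s σ) (c1 : G1 s2 σ2)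
    (c3 : G3 s2 σ2)
    (h3 : ∀ a b, (a = t ∧ b = t') ∨ (a = t' ∧ b = t) → s2 = a → PP F K G1 s σ m3 a b σ2)
    (h1 : PP F K G2 s σ m1 t t' τ) (h2 : PP F K G3 s2 σ2 m2 t t' τ) (p2 : G2 t τ) (p3 : G3 t τ)
    (hm : m1 + m2 + m3 < 2 * μ) : False := by
  induction m2 generalizing t t' τ m1 with
  | zero => obtain ⟨rfl, e⟩ := h2; exact hx _ _ (v1 _ _ _ e c1) p2 p3
  | succ m2 ih =>
    obtain ⟨c, a, b⟩ := h2
    rcases tri_ext v1 (by rintro _ (rfl | rfl); exacts [hF, hF']) e1 h3 b with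
      ⟨d, -⟩ | ⟨m, d1, d2⟩
    · exact hx _ _ (v1 _ _ _ a d) p2 p3
    obtain ⟨rfl, d3⟩ := d2.uniq v2 hF hF' hne hg (h1.congr (mem_symm a)) (by omega)
    obtain ⟨f1, f2⟩ := (d3.mono fun _ _ h => h.2).prev
    obtain ⟨g1, g2⟩ := b.prev
    refine ih hF' hF hne.symm hg.symm (fun a b h => h3 a b h.symm) f1 g1 ?_ ?_ (by omega)
    · rcases f2 with rfl | f2
      · obtain ⟨rfl, d⟩ := f1; exact v2 _ _ _ d e2
      · exact f2
    · rcases g2 with rfl | g2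
      · obtain ⟨rfl, d⟩ := g1; exact v3 _ _ _ d c3
      · exact g2

/-- walks through good vertices -/
def WG (K : ι → Subgroup G) (Gd : ι → G → Prop) (s : ι) (σ : G) : ℕ → ι → G → Prop
  | 0, t, τ => t = s ∧ σ⁻¹ * τ ∈ K t ∧ Gd t τ
  | n + 1, t, τ => ∃ t' c, WG K Gd s σ n t' c ∧ c⁻¹ * τ ∈ K t ∧ Gd t τ

theorem WG.rw {y z : ι} {n : ℕ} (hG : VInv K Gd) (hy : F ≤ K y) (hz : F ≤ K z)
    (hyz : ∀ a x, Gd a x → a = y ∨ a = z) (h : WG K Gd s σ n t τ) :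
    Gd s σ ∧ Gd t τ ∧ RW F K Gd s σ y z n t τ := by
  induction n generalizing t τ with
  | zero =>
    obtain ⟨rfl, a, b⟩ := h
    exact ⟨hG _ _ _ (mem_symm a) b, b, RW.congr (RW.zero (hyz _ _ b)) a⟩
  | succ n ih =>
    obtain ⟨t', c, a, b, d⟩ := h
    obtain ⟨e1, e2, e3⟩ := ih a
    exact ⟨e1, d, RW.congr (e3.step hG hy hz (Or.inr e2) (hyz _ _ d)) b⟩

theorem wg_of_pr {V : Subgroup G} {n : ℕ} (hF : F ≤ K s) (hF' : F ≤ V) (h1 : K t ≤ V)
    (h2 : K t' ≤ V) (hG : ∀ a x, a = s ∨ a = t ∨ a = t' → σ⁻¹ * x ∈ V → Gd a x)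
    (h : Pr F (n + 1) (K t) (K t') (σ⁻¹ * τ)) : WG K Gd s σ (n + 1) t τ := by
  induction n generalizing t t' τ with
  | zero =>
    obtain ⟨k, a, b⟩ := id h
    exact ⟨s, τ * k⁻¹, ⟨rfl, hF (by rwa [← mul_assoc]), hG _ _ (Or.inl rfl)
      (hF' (by rwa [← mul_assoc]))⟩, by simpa using a,
      hG _ _ (Or.inr (Or.inl rfl)) (h.mem hF' h1 h2)⟩
  | succ n ih =>
    obtain ⟨k, a, b⟩ := id h
    exact ⟨t', τ * k⁻¹, ih h2 h1 (fun a x e => hG a x (e.imp_right Or.symm))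
      (by rwa [← mul_assoc]), by simpa using a, hG _ _ (Or.inr (Or.inl rfl)) (h.mem hF' h1 h2)⟩

theorem PP.pr {m : ℕ} (hF : F ≤ K t) (hF' : F ≤ K t') (h : PP F K Gd s σ m t t' τ) :
    Pr F (m + 1) (K t) (K t') (σ⁻¹ * τ) := by
  cases m with
  | zero => exact (pr_one hF).2 h.2
  | succ m =>
    obtain ⟨c, a, b⟩ := h
    exact ⟨_, a, by simpa [mul_assoc] using b.pr hF hF' (x := σ) (by simp)⟩

end paths

section eff

variable {G α β γ : Type*} [Group G] [Primcodable α] [Primcodable β] [Primcodable γ]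
  {E : Eff G α}

theorem Sig.exF [Finite β] {p : β → γ → Prop} (h : ∀ b, Sig (p b)) : Sig fun x => ∃ b, p b x :=
  Sig.ex (Sig.fam h)

theorem Sig.allF [Finite β] {p : β → γ → Prop} (h : ∀ b, Sig (p b)) : Sig fun x => ∀ b, p b x :=
  Sig.all_fin (Sig.fam h)

/-- semidecidable relations -/
def RE2 (E : Eff G α) (P : G → G → Prop) : Prop := Sig fun x : α × α => P (E.ev x.1) (E.ev x.2)

/-- semidecidable ternary relations -/
def RE3 (E : Eff G α) (P : G → G → G → Prop) : Prop :=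
  Sig fun x : α × α × α => P (E.ev x.1) (E.ev x.2.1) (E.ev x.2.2)

theorem RE2.sig {P : G → G → Prop} {φ ψ : β → G} (h : RE2 E P) (h1 : EC E φ) (h2 : EC E ψ) :
    Sig fun x => P (φ x) (ψ x) := by
  obtain ⟨f, hf, e⟩ := h1
  obtain ⟨g, hg, e'⟩ := h2
  exact (Sig.comp h (f := fun x => (f x, g x)) (by fun_prop)).of_eq fun x => by simp [e, e']

theorem RE3.sig {P : G → G → G → Prop} {φ ψ χ : β → G} (h : RE3 E P) (h1 : EC E φ) (h2 : EC E ψ)
    (h3 : EC E χ) : Sig fun x => P (φ x) (ψ x) (χ x) := by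
  obtain ⟨f, hf, e⟩ := h1
  obtain ⟨g, hg, e'⟩ := h2
  obtain ⟨k, hk, e''⟩ := h3
  exact (Sig.comp h (f := fun x => (f x, g x, k x)) (by fun_prop)).of_eq
    fun x => by simp [e, e', e'']

theorem re_wg {ι : Type*} [Primcodable ι] [Finite ι] {K : ι → Subgroup G} {Gd : G → ι → G → Prop}
    (hK : ∀ t, RE E (· ∈ K t)) (hG : ∀ t, RE2 E fun g c => Gd g t c) (s : ι) (n : ℕ) (t : ι) :
    RE3 E fun g σ τ => WG K (Gd g) s σ n t τ := by
  induction n generalizing t with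
  | zero =>
    exact Sig.and (Sig.const _) (Sig.and ((hK t).sig (by fun_prop))
      ((hG t).sig (by fun_prop) (by fun_prop)))
  | succ n ih =>
    exact Sig.exF fun t' => Sig.exG E (Sig.and ((ih t').sig (by fun_prop) (by fun_prop)
      (by fun_prop)) (Sig.and ((hK t).sig (by fun_prop)) ((hG t).sig (by fun_prop) (by fun_prop))))

end eff

/-- rule computing heights with pairs of natural numbers -/
def ZR (τ : Fin 3) (z : Fin 3 → ℕ) (prem : List (List (Fin 3) × (Fin 3 → ℕ) × (Fin 3 → ℕ)))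
    (j : List (Fin 3) × (Fin 3 → ℕ) × (Fin 3 → ℕ)) : Prop :=
  (j.1 = [] ∧ ∀ q, app3 j.2.1 q = z q ∧ app3 j.2.2 q = 0) ∨
  ∃ (j0 : List (Fin 3) × (Fin 3 → ℕ) × (Fin 3 → ℕ)) (p : Fin 3), j0 ∈ prem ∧ j.1 = j0.1 ++ [p] ∧
    ∀ q, (q = p ∧ app3 j.2.1 q = app3 j0.2.2 p ∧ app3 j.2.2 q = app3 j0.2.1 p) ∨
      (q ≠ p ∧ app3 j.2.1 q = app3 j0.2.1 q + gk τ p q * app3 j0.2.1 p ∧
        app3 j.2.2 q = app3 j0.2.2 q + gk τ p q * app3 j0.2.2 p)

theorem sig_gD (τ r p : Fin 3) {z : Fin 3 → ℤ} (hz : ∀ q, 0 ≤ z q) :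
    Sig fun l : List (Fin 3) => gD τ r p (zw τ z l) ≤ 0 := by
  have h1 : Sig (Gen (ZR τ fun q => (z q).toNat)) := by
    refine Sig.gen (Sig.or (Sig.and (by fun_prop) (Sig.allF fun q => by fun_prop))
      (Sig.ex (Sig.exF fun p => Sig.and (by fun_prop) (Sig.and (by fun_prop)
        (Sig.allF fun q => by fun_prop)))))
  have sound : ∀ j, Gen (ZR τ fun q => (z q).toNat) j →
      ∀ q, zw τ z j.1 q = (j.2.1 q : ℤ) - j.2.2 q := by
    intro j h
    induction h with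
    | mk l j _ hR ih =>
      intro q
      rcases hR with ⟨a, b⟩ | ⟨j0, p, a, b, c⟩
      · have := b q
        simp only [app3] at this
        simp [a, zw, this, hz]
      · have e : zw τ z j.1 = rf τ p (zw τ z j0.1) := by simp [b, zw]
        rw [e, rf]
        rcases c q with ⟨rfl, c⟩ | ⟨hq, c⟩ <;> simp only [app3] at c
        · simp [c, ih j0 a]
        · simp only [hq, if_false, c, ih j0 a]; push_cast; ring
  have compl : ∀ l : List (Fin 3), ∃ a b, Gen (ZR τ fun q => (z q).toNat) (l, a, b) := by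
    intro l
    induction l using List.reverseRecOn with
    | nil => exact ⟨_, fun _ => 0, .mk [] _ (by simp) (Or.inl ⟨rfl, fun q => ⟨rfl, rfl⟩⟩)⟩
    | append_singleton l p ih =>
      obtain ⟨a, b, h⟩ := ih
      refine ⟨fun q => if q = p then b p else a q + gk τ p q * a p,
        fun q => if q = p then a p else b q + gk τ p q * b p, .mk [(l, a, b)] _ (by simpa)
        (Or.inr ⟨(l, a, b), p, by simp, rfl, fun q => ?_⟩)⟩
      by_cases hq : q = p <;> simp [app3, hq]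
  set c : Fin 3 → ℤ := fun q => gc τ r q - gc τ (th r p) q with hc
  have h2 : Sig fun l : List (Fin 3) => ∃ j : List (Fin 3) × (Fin 3 → ℕ) × (Fin 3 → ℕ),
      Gen (ZR τ fun q => (z q).toNat) j ∧ j.1 = l ∧
      (c 0).toNat * app3 j.2.1 0 + (-c 0).toNat * app3 j.2.2 0 + ((c 1).toNat * app3 j.2.1 1 +
        (-c 1).toNat * app3 j.2.2 1) + ((c 2).toNat * app3 j.2.1 2 + (-c 2).toNat * app3 j.2.2 2) ≤
      (c 0).toNat * app3 j.2.2 0 + (-c 0).toNat * app3 j.2.1 0 + ((c 1).toNat * app3 j.2.2 1 +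
        (-c 1).toNat * app3 j.2.1 1) +
        ((c 2).toNat * app3 j.2.2 2 + (-c 2).toNat * app3 j.2.1 2) :=
    Sig.ex (Sig.and (h1.comp (by fun_prop)) (by fun_prop))
  have key : ∀ (w : Fin 3 → ℤ) (a b : Fin 3 → ℕ), (∀ q, w q = (a q : ℤ) - b q) → (gD τ r p w ≤ 0 ↔
      (c 0).toNat * a 0 + (-c 0).toNat * b 0 + ((c 1).toNat * a 1 +
        (-c 1).toNat * b 1) + ((c 2).toNat * a 2 + (-c 2).toNat * b 2) ≤
      (c 0).toNat * b 0 + (-c 0).toNat * a 0 + ((c 1).toNat * b 1 +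
        (-c 1).toNat * a 1) + ((c 2).toNat * b 2 + (-c 2).toNat * a 2)) := by
    intro w a b h
    have e : gD τ r p w = c 0 * w 0 + c 1 * w 1 + c 2 * w 2 := by simp only [gD, gl, hc]; ring
    have k := fun q => (c q).toNat_sub_toNat_neg
    rw [e, h, h, h, ← k 0, ← k 1, ← k 2, ← Nat.cast_le (α := ℤ)]
    simp only [k]
    push_cast
    rw [← sub_nonneg, ← sub_nonneg (b := _ + _)]
    refine iff_of_eq (congrArg _ ?_)
    linear_combination (b 0 - a 0 : ℤ) * (-k 0) + (b 1 - a 1 : ℤ) * (-k 1) +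
      (b 2 - a 2 : ℤ) * (-k 2)
  refine h2.of_eq fun l => ⟨?_, fun h => ?_⟩
  · rintro ⟨j, a, rfl, b⟩
    exact (key _ _ _ (sound j a)).2 b
  · obtain ⟨a, b, k⟩ := compl l
    exact ⟨_, k, rfl, (key _ _ _ (sound _ k)).1 h⟩

variable {B : Type*} {M : CoxeterMatrix B} [Fintype B] [DecidableEq B] {U : Set B}

theorem rt_pp {y z s : B} {σ τ x : Artin M} {m : ℕ} {Gd : B → Artin M → Prop} {u : Vx M}
    (hge : m = 0 ∨ Ge M (m + 2) y z) (h : PP (Fv M U y z) (Kv M U) Gd s σ m y z τ)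
    (h1 : In U (s, σ) x) (h2 : In U u x) :
    ∃ a, RW (Fv M U y z) (Kv M U) (fun s c => Mt U (s, c) u) s σ y z m a (rt (U \ {u.1}) x τ) := by
  cases m with
  | zero =>
    obtain ⟨rfl, e⟩ := h
    have e : In U (s, σ) (rt (U \ {u.1}) x τ) := rt_in h1 e
    exact ⟨s, RW.congr (RW.zero (Or.inl rfl)) e⟩
  | succ m =>
    obtain ⟨c, e, h⟩ := h
    replace hge := hge.resolve_left (by omega)
    by_cases hf : c⁻¹ * τ ∈ Fv M U y z
    · obtain ⟨a, k⟩ := rt_walk (m := m) (hge.mono (by omega)) (Or.inl ⟨rfl, rfl⟩)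
        (EP.congr (K := Kv M U) vinv_tv (fb_le U y z) h.tv hf) h1 h2
      exact ⟨a, k.mono (by omega)⟩
    · exact rt_walk (Gd := Tv) hge (Or.inr ⟨rfl, rfl⟩) ⟨trivial, c, e, hf, h.tv⟩ h1 h2

end Pool.Agent.H10
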