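import Pool.Agent.Lib.helper10.D3a

/-! Dihedral Artin groups with label at least six. -/

set_option linter.unusedSectionVars false

namespace Pool.Agent.H10

/-- alternating product of powers -/
def Wd {G : Type*} [Group G] (f : Bool → G) : Bool → List ℤ → G
  | _, [] => 1
  | t, n :: l => f t ^ n * Wd f (!t) l

theorem wd_snoc {G : Type*} [Group G] (f : Bool → G) (t : Bool) (l : List ℤ) (n : ℤ) :
    Wd f t (l ++ [n]) = Wd f t l * f (if Even l.length then t else !t) ^ n := by
  induction l generalizing t with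
  | nil => simp [Wd]
  | cons a l ih =>
    simp only [List.cons_append, Wd, ih, mul_assoc, List.length_cons, Nat.even_add_one]
    by_cases h : Even l.length <;> simp [h]

theorem wd_rot {G : Type*} [Group G] {f : Bool → G} {l : List ℤ} (he : Even l.length) (i : ℕ)
    {t : Bool} (h : Wd f t l = 1) : ∃ t', Wd f t' (l.rotate i) = 1 := by
  induction i generalizing l t with
  | zero => exact ⟨t, by simpa⟩
  | succ i ih =>
    cases l with
    | nil => exact ⟨t, by simpa⟩
    | cons n l =>
      rw [List.rotate_cons_succ]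
      refine ih (by simpa using he) (t := !t) ?_
      rw [wd_snoc, if_neg (by simpa [Nat.even_add_one] using he), Bool.not_not]
      exact mul_eq_one_comm.1 h

/-- shears -/
def shr (c : ℝ) : Bool → Multiplicative ℝ →* Equiv.Perm (ℝ × ℝ)
  | true => MonoidHom.mk' (fun n => ⟨fun v => (v.1, v.2 + n.toAdd * c * v.1),
      fun v => (v.1, v.2 - n.toAdd * c * v.1), fun v => by simp, fun v => by simp⟩)
      fun n m => by ext v <;> simp; ring
  | false => MonoidHom.mk' (fun n => ⟨fun v => (v.1 - n.toAdd * c * v.2, v.2),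
      fun v => (v.1 + n.toAdd * c * v.2, v.2), fun v => by simp, fun v => by simp⟩)
      fun n m => by ext v <;> simp; ring

/-- images of the generators -/
def sh1 (c : ℝ) (t : Bool) : Equiv.Perm (ℝ × ℝ) := shr c t (Multiplicative.ofAdd 1)

theorem sh1_zpow (c : ℝ) (t : Bool) (n : ℤ) (v : ℝ × ℝ) : (sh1 c t ^ n) v =
    bif t then (v.1, v.2 + n * c * v.1) else (v.1 - n * c * v.2, v.2) := by
  rw [sh1, ← map_zpow, ← ofAdd_zsmul]
  cases t <;> simp [shr]

/-- change of coordinates -/
def vw (t : Bool) (v : ℝ × ℝ) : ℝ × ℝ := bif t then (v.1, -v.2) else (v.2, v.1)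

/-- continuants -/
def KT (c : ℝ) (l : List ℤ) (v : ℝ × ℝ) : ℝ × ℝ := 
  l.foldr (fun (n : ℤ) w => (n * c * w.1 - w.2, w.1)) v

/-- signs -/
def sgW : Bool → ℕ → ℝ
  | _, 0 => 1
  | t, k + 1 => (bif t then 1 else -1) * sgW (!t) k

theorem vw_wd (c : ℝ) (t : Bool) (l : List ℤ) (v : ℝ × ℝ) : vw (!t) (Wd (sh1 c) t l v) =
    sgW t l.length • KT c l (vw (if Even l.length then !t else t) v) := by
  induction l generalizing t with
  | nil => simp [Wd, sgW, KT]
  | cons n l ih =>
    have := ih (!t)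
    have e : (if Even (l.length + 1) then !t else t) = if Even l.length then !!t else !t := by
      by_cases h : Even l.length <;> simp [h, Nat.even_add_one]
    rw [Wd, Equiv.Perm.mul_apply, sh1_zpow, List.length_cons, e, KT, List.foldr_cons, ← KT, sgW]
    generalize KT c l _ = w at *
    generalize Wd (sh1 c) (!t) l v = u at *
    cases t <;> simp only [vw, Bool.not_false, Bool.not_true, cond_true, cond_false, Prod.ext_iff,
      Prod.smul_fst, Prod.smul_snd, smul_eq_mul] at this ⊢
    · exact ⟨by linear_combination this.2 - n * c * this.1, by linear_combination -this.1⟩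
    · exact ⟨by linear_combination -this.2 + n * c * this.1, by linear_combination this.1⟩

theorem sgW_spec (k : ℕ) : sgW false k = (if Even k then 1 else -1) * sgW true k ∧
    ∀ t, |sgW t k| = 1 := by
  induction k with
  | zero => simp [sgW]
  | succ k ih =>
    refine ⟨?_, fun t => by cases t <;> simp [sgW, ih.2]⟩
    by_cases h : Even k <;> simp [sgW, ih.1, h, Nat.even_add_one]

theorem KT_one (k : ℝ) (n : ℕ) (v : ℝ × ℝ) : KT (2 * k) (List.replicate (n + 1) 1) v =
    (UU k (n + 2) * v.1 - UU k (n + 1) * v.2, UU k (n + 1) * v.1 - UU k n * v.2) := by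
  induction n with
  | zero => simp [KT, UU]
  | succ n ih =>
    rw [List.replicate_succ, KT, List.foldr_cons, ← KT, ih]
    simp only [UU, Prod.mk.injEq, and_true]
    push_cast; ring

theorem wd_braid {m : ℕ} (hm : 2 ≤ m) :
    Wd (sh1 (2 * Real.cos (Real.pi / m))) true (List.replicate m 1) =
      Wd (sh1 (2 * Real.cos (Real.pi / m))) false (List.replicate m 1) := by
  have hs := sin_pos_of _ hm
  obtain ⟨n, rfl⟩ : ∃ n, m = n + 1 := ⟨m - 1, by omega⟩
  have h0 : ((n + 1 : ℕ) : ℝ) ≠ 0 := by positivity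
  set θ := Real.pi / ((n + 1 : ℕ) : ℝ) with hθ
  have e : ((n + 1 : ℕ) : ℝ) * θ = Real.pi := by rw [hθ]; field_simp
  have u1 : UU (Real.cos θ) (n + 1) = 0 := by
    have := UU_cos θ (n + 1)
    rw [e, Real.sin_pi] at this
    exact (mul_eq_zero.1 this).resolve_right hs.ne'
  have u0 : UU (Real.cos θ) n = 1 := by
    have := UU_cos θ n
    rw [show (n : ℝ) * θ = Real.pi - θ by rw [← e]; push_cast; ring, Real.sin_pi_sub] at this
    exact mul_right_cancel₀ hs.ne' (by rw [this, one_mul])
  have u2 : UU (Real.cos θ) (n + 2) = -1 := by rw [UU, u1, u0]; ring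
  ext1 v
  have a1 := vw_wd (2 * Real.cos θ) true (List.replicate (n + 1) 1) v
  have a2 := vw_wd (2 * Real.cos θ) false (List.replicate (n + 1) 1) v
  rw [KT_one, u0, u1, u2, List.length_replicate] at a1 a2
  rw [(sgW_spec _).1] at a2
  by_cases h : Even (n + 1) <;> simp [h, vw, Prod.ext_iff] at a1 a2 <;>
    exact Prod.ext (by rw [a1.2, a2.1]) (by linarith [a1.1, a2.2])

/-- bounds for the ratios -/
noncomputable def gam : ℕ → ℝ
  | 0 => 0
  | 1 => 1 / 3
  | 2 => 1 / 2
  | 3 => 2 / 3
  | _ => 1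

/-- automaton for sign patterns -/
def okS : List Bool → Option (ℕ × Bool)
  | [] => some (0, false)
  | s :: l => (okS l).bind fun q => if l.head? = some (!s) then some (1, true) else
      if q.1 ≤ 3 ∨ (q.2 ∧ q.1 = 4) then some (q.1 + 1, q.2) else none

/-- all lists of a given length -/
def allL : ℕ → (List Bool → Bool) → Bool
  | 0, p => p []
  | n + 1, p => allL n (fun l => p (true :: l)) && allL n fun l => p (false :: l)

theorem allL_spec {n : ℕ} {p : List Bool → Bool} (h : allL n p = true) (l : List Bool)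
    (hl : l.length = n) : p l = true := by
  induction n generalizing p l with
  | zero => obtain rfl := List.length_eq_zero_iff.1 hl; exact h
  | succ n ih =>
    obtain ⟨s, l, rfl⟩ := List.exists_cons_of_length_eq_add_one hl
    simp only [allL, Bool.and_eq_true] at h
    cases s
    exacts [ih h.2 l (by simpa using hl), ih h.1 l (by simpa using hl)]

theorem okS_rot (l : List Bool) (h : l.length ≤ 10) (h1 : true ∈ l) (h2 : false ∈ l) :
    ∃ i, (okS (l.rotate i).tail).isSome := by
  have : ∀ n ≤ 10, allL n (fun l => !l.contains true || !l.contains false ||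
      (List.range 10).any fun i => (okS (l.rotate i).tail).isSome) = true := by decide +kernel
  have := allL_spec (this _ h) l rfl
  simp only [List.contains_eq_mem, h1, h2, decide_true, Bool.not_true, Bool.false_or,
    List.any_eq_true] at this
  exact let ⟨i, _, k⟩ := this; ⟨i, k⟩

section
variable {c : ℝ} (hc : 3 ≤ c ^ 2) (hc0 : 0 < c)
include hc hc0

theorem step_r {x r : ℝ} {n : ℤ} (hd : (n : ℝ) - r ≠ 0) :
    x = c * (1 / (c ^ 2 * (n - r))) * (n * c * x - c * r * x) := by
  field_simp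

theorem gam_step {d : ℝ} {j : ℕ} (hj : j ≤ 3) :
    (1 - gam j ≤ d → 0 < d ∧ 1 / (c ^ 2 * d) ≤ gam (j + 1)) ∧
      (1 - gam j < d → 1 / (c ^ 2 * d) < gam (j + 1)) := by
  have k : 0 < 1 - gam j ∧ 3 * (1 - gam j) * gam (j + 1) = 1 := by
    interval_cases j <;> norm_num [gam]
  have g : 0 < gam (j + 1) := by interval_cases j <;> norm_num [gam]
  constructor <;> intro h
  · refine ⟨by linarith, ?_⟩
    rw [div_le_iff₀ (by nlinarith)]
    nlinarith [mul_nonneg (sub_nonneg.2 hc) (by nlinarith : 0 ≤ d * gam (j + 1)),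
      mul_nonneg (sub_nonneg.2 h) g.le]
  · rw [div_lt_iff₀ (by nlinarith)]
    nlinarith [mul_nonneg (sub_nonneg.2 hc) (by nlinarith : 0 ≤ d * gam (j + 1)),
      mul_pos (sub_pos.2 h) g]

theorem okS_spec {l : List ℤ} (hl : ∀ n ∈ l, n ≠ 0) {j : ℕ} {st : Bool}
    (h : okS (l.map fun n => decide (0 < n)) = some (j, st)) :
    (KT c l (1, 0)).1 ≠ 0 ∧ ∃ r, (KT c l (1, 0)).2 = c * r * (KT c l (1, 0)).1 ∧
      (∀ n, l.head? = some n → 0 < r * n) ∧ (j ≤ 4 → |r| ≤ gam j ∧ (st → |r| < gam j)) := by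
  induction l generalizing j st with
  | nil =>
    simp only [List.map_nil, okS, Option.some.injEq, Prod.mk.injEq] at h
    obtain ⟨rfl, rfl⟩ := h
    exact ⟨by simp [KT], 0, by simp [KT, gam]⟩
  | cons n l ih =>
    obtain ⟨⟨j', st'⟩, a1, a2⟩ := Option.bind_eq_some_iff.1 h
    obtain ⟨b1, r, b2, b3, b4⟩ := ih (fun n hn => hl n (by simp [hn])) a1
    have hn := hl n (by simp)
    obtain ⟨ε, e1, e2, e3⟩ : ∃ ε : ℝ, |ε| = 1 ∧ ε * ε = 1 ∧ 1 ≤ ε * n := by
      rcases lt_or_gt_of_ne hn with h | h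
      · exact ⟨-1, by simp, by simp, by
          have : (n : ℝ) ≤ -1 := by exact_mod_cast (by omega : n ≤ -1)
          linarith⟩
      · exact ⟨1, by simp, by simp, by rw [one_mul]; exact_mod_cast h⟩
    have key : 0 < ε * (n - r) ∧ (j ≤ 4 → 1 / (c ^ 2 * (ε * (n - r))) ≤ gam j ∧
        (st → 1 / (c ^ 2 * (ε * (n - r))) < gam j)) := by
      have e4 : ε * r ≤ |r| := by simpa [abs_mul, e1] using le_abs_self (ε * r)
      split_ifs at a2 with h1 h2
      · obtain ⟨rfl, rfl⟩ : 1 = j ∧ true = st := by simpa using a2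
        obtain ⟨n', h3, h4⟩ : ∃ n', l.head? = some n' ∧ decide (0 < n') = !decide (0 < n) := by
          simpa only [List.head?_map, Option.map_eq_some_iff] using h1
        have h5 := b3 n' h3
        have h6 : (n : ℝ) * n' < 0 := by
          have := hl n' (List.mem_cons_of_mem _ (List.mem_of_mem_head? h3))
          have : n * n' < 0 := by
            rcases lt_or_gt_of_ne hn with h | h
            · exact mul_neg_of_neg_of_pos h (by simpa [h.not_gt] using h4)
            · exact mul_neg_of_pos_of_neg h (by simp [h] at h4; omega)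
          exact_mod_cast this
        have h7 : ε * r < 0 := by
          by_contra h8
          nlinarith [mul_nonneg (not_lt.1 h8) (by linarith : 0 ≤ ε * n), mul_pos h5 (neg_pos.2 h6),
            mul_self_nonneg (n' : ℝ)]
        have := (gam_step hc hc0 (d := ε * (n - r)) (j := 0) (by omega)).2 (by
          simp only [gam]; linarith)
        exact ⟨by linarith, fun _ => ⟨this.le, fun _ => this⟩⟩
      · obtain ⟨rfl, rfl⟩ : j' + 1 = j ∧ st' = st := by simpa using a2
        by_cases h3 : j' ≤ 3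
        · have := gam_step hc hc0 (d := ε * (n - r)) h3
          have b5 := b4 (by omega)
          exact ⟨(this.1 (by linarith)).1, fun _ => ⟨(this.1 (by linarith)).2,
            fun h => this.2 (by linarith [b5.2 h])⟩⟩
        · obtain ⟨h4, rfl⟩ := h2.resolve_left h3
          have := (b4 le_rfl).2 h4
          simp only [gam] at this
          exact ⟨by linarith, fun h => by omega⟩
    have hd : (n : ℝ) - r ≠ 0 := fun h => by simp [h] at key
    have e5 : 1 / (c ^ 2 * (n - r)) = ε * (1 / (c ^ 2 * (ε * (n - r)))) := by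
      have : ε ≠ 0 := fun h => by simp [h] at e2
      field_simp
    have e6 : 0 < 1 / (c ^ 2 * (ε * (n - r))) := by have := key.1; positivity
    rw [KT, List.foldr_cons, ← KT, b2]
    refine ⟨?_, 1 / (c ^ 2 * (n - r)), step_r hc hc0 hd, ?_, ?_⟩
    · rw [show (n * c * (KT c l (1, 0)).1 - c * r * (KT c l (1, 0)).1, (KT c l (1, 0)).1).1 =
        c * (n - r) * (KT c l (1, 0)).1 by ring]
      positivity
    · rintro _ ⟨⟩
      rw [e5]; nlinarith
    · rw [e5, abs_mul, e1, one_mul, abs_of_pos e6]; exact key.2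

theorem KT_low {l : List ℤ} (hl : ∀ n ∈ l, n ≠ 0) (h : l.length ≤ 4) :
    (1 / 2) ^ l.length ≤ |(KT c l (1, 0)).1| ∧ ∃ r, (KT c l (1, 0)).2 = c * r * (KT c l (1, 0)).1 ∧
      |r| ≤ gam l.length := by
  induction l with
  | nil => exact ⟨by simp [KT], 0, by simp [KT, gam]⟩
  | cons n l ih =>
    obtain ⟨b1, r, b2, b3⟩ := ih (fun n hn => hl n (by simp [hn])) (by simp at h; omega)
    have h3 : l.length ≤ 3 := by simp at h; omega
    have hn : (1 : ℝ) ≤ |(n : ℝ)| := by exact_mod_cast Int.one_le_abs (hl n (by simp))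
    have e1 : 1 - gam l.length ≤ |n - r| := by linarith [abs_sub_abs_le_abs_sub (n : ℝ) r]
    have := (gam_step hc hc0 h3).1 e1
    have g : gam l.length ≤ 2 / 3 := by
      generalize l.length = j at h3; interval_cases j <;> norm_num [gam]
    rw [KT, List.foldr_cons, ← KT, b2]
    refine ⟨?_, 1 / (c ^ 2 * (n - r)), step_r hc hc0 (abs_pos.1 this.1), ?_⟩
    · rw [show (n * c * (KT c l (1, 0)).1 - c * r * (KT c l (1, 0)).1, (KT c l (1, 0)).1).1 =
        c * (n - r) * (KT c l (1, 0)).1 by ring, abs_mul, abs_mul, abs_of_pos hc0,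
        List.length_cons, pow_succ']
      exact mul_le_mul (by nlinarith) b1 (by positivity) (by positivity)
    · simpa [abs_mul] using this.2

theorem KT_exp {l : List ℤ} (hl : ∀ n ∈ l, n ≠ 0) (h : l.length ≤ 4) (n : ℤ) :
    |(n : ℝ)| ≤ 16 * |(KT c (n :: l) (1, 0)).1| + 1 := by
  obtain ⟨b1, r, b2, b3⟩ := KT_low hc hc0 hl h
  have g : gam l.length ≤ 1 ∧ (1 / 16 : ℝ) ≤ (1 / 2) ^ l.length := by
    generalize l.length = j at h; interval_cases j <;> norm_num [gam]
  rw [KT, List.foldr_cons, ← KT, b2,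
    show (n * c * (KT c l (1, 0)).1 - c * r * (KT c l (1, 0)).1, (KT c l (1, 0)).1).1 =
        c * (n - r) * (KT c l (1, 0)).1 by ring, abs_mul, abs_mul, abs_of_pos hc0]
  have := abs_sub_abs_le_abs_sub (n : ℝ) r
  have h1 : |n - r| ≤ c * |n - r| := le_mul_of_one_le_left (abs_nonneg _) (by nlinarith)
  nlinarith [mul_le_mul_of_nonneg_left (g.2.trans b1) ((abs_nonneg _).trans h1)]

end

theorem wd_fix (c : ℝ) (t : Bool) (l : List ℤ) (n : ℤ) :
    ∃ v : ℝ × ℝ, ‖v‖ = 1 ∧ |(vw (!t) (Wd (sh1 c) t (l ++ [n]) v)).1| = |(KT c l (1, 0)).1| ∧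
      ∀ k : ℤ, Odd l.length → (vw (!t) ((sh1 c (!t) ^ k) v)).1 = 0 := by
  have := vw_wd c t l
  by_cases h : Even l.length
  · refine ⟨bif t then (0, 1) else (1, 0), by cases t <;> simp, ?_,
      fun _ h' => absurd h (Nat.not_even_iff_odd.2 h')⟩
    rw [wd_snoc, Equiv.Perm.mul_apply, this, sh1_zpow]
    cases t <;> simp [h, vw, abs_mul, (sgW_spec _).2]
  · refine ⟨bif t then (1, 0) else (0, 1), by cases t <;> simp, ?_,
      fun _ _ => by cases t <;> simp [vw, sh1_zpow]⟩
    rw [wd_snoc, Equiv.Perm.mul_apply, this, sh1_zpow]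
    cases t <;> simp [h, vw, abs_mul, (sgW_spec _).2]

theorem sh1_norm {c : ℝ} (h0 : 0 ≤ c) (h2 : c ≤ 2) (t : Bool) {n : ℤ} (hn : |(n : ℝ)| = 1)
    (v : ℝ × ℝ) : ‖(sh1 c t ^ n) v‖ ≤ 3 * ‖v‖ := by
  have a1 : |v.1| ≤ ‖v‖ := norm_fst_le v
  have a2 : |v.2| ≤ ‖v‖ := norm_snd_le v
  have k : ∀ x : ℝ, |x| ≤ ‖v‖ → |n * c * x| ≤ 2 * ‖v‖ := fun x hx => by
    rw [abs_mul, abs_mul, hn, abs_of_nonneg h0, one_mul]
    exact mul_le_mul h2 hx (abs_nonneg _) two_pos.le
  rw [sh1_zpow]
  generalize ‖v‖ = N at *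
  cases t <;> simp only [cond_true, cond_false, Prod.norm_def, Real.norm_eq_abs, max_le_iff]
  · exact ⟨by linarith [abs_sub v.1 (n * c * v.2), k _ a2], by linarith [abs_nonneg v.2]⟩
  · exact ⟨by linarith [abs_nonneg v.1], by linarith [abs_add_le v.2 (n * c * v.1), k _ a1]⟩

variable {B : Type*} {M : CoxeterMatrix B} [Fintype B] [DecidableEq B] [Primcodable B] {a b : B}

theorem brOn_sh (hab : a ≠ b) :
    BrOn M {a, b} fun s => sh1 (2 * kc M a b) (decide (s = a)) := by
  have e : ∀ (n : ℕ) (t : Bool), ((alt (bif t then a else b) (bif t then b else a) n).map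
      fun s => sh1 (2 * kc M a b) (decide (s = a))).prod =
      Wd (sh1 (2 * kc M a b)) t (List.replicate n 1) := by
    intro n
    induction n with
    | zero => intro t; rfl
    | succ n ih => intro t; have := ih (!t); cases t <;> simp_all [alt, Wd, List.replicate_succ,
        hab.symm]
  have k := e (M a b)
  have k1 : ((alt a b (M a b)).map fun s => sh1 (2 * kc M a b) (decide (s = a))).prod =
      ((alt b a (M a b)).map fun s => sh1 (2 * kc M a b) (decide (s = a))).prod := by
    by_cases h : M a b = 0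
    · simp [h, alt]
    · exact (k true).trans ((wd_braid (two_le_M M hab h)).trans (k false).symm)
  rintro i (rfl | rfl) j (rfl | rfl)
  · rfl
  · exact k1
  · rw [M.symmetric]; exact k1.symm
  · rfl

variable (M a b) in
/-- the two generators -/
def gn (t : Bool) : Artin M := gen M (bif t then a else b)

variable (M a b) in
/-- the two cyclic subgroups -/
def Pc (t : Bool) : Subgroup (Artin M) := Kv M {a, b} (bif t then b else a)

theorem gn_mem (t : Bool) : gn M a b t ∈ apar M {a, b} := gen_mem_apar (by cases t <;> simp)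

theorem gn_pc (hab : a ≠ b) (t : Bool) : gn M a b t ∈ Pc M a b t :=
  gen_mem_apar (by cases t; exacts [by simp [hab.symm], by simp [hab]])

theorem wd_mem (t : Bool) (l : List ℤ) : Wd (gn M a b) t l ∈ apar M {a, b} := by
  induction l generalizing t with
  | nil => exact one_mem _
  | cons n l ih => exact mul_mem (zpow_mem (gn_mem t) n) (ih _)

theorem rext_zpow (hab : a ≠ b) (t : Bool) (n : ℤ) :
    rext (brOn_sh hab) (gn M a b t ^ n) = sh1 (2 * kc M a b) t ^ n := by
  have := (parLift (brOn_sh (M := M) hab)).map_zpow ⟨_, gn_mem t⟩ n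
  refine this.trans (congrArg (· ^ n) ((rext_gen _ (by cases t <;> simp)).trans ?_))
  cases t <;> simp [hab.symm]

theorem rext_wd (hab : a ≠ b) (t : Bool) (l : List ℤ) :
    rext (brOn_sh hab) (Wd (gn M a b) t l) = Wd (sh1 (2 * kc M a b)) t l := by
  induction l generalizing t with
  | nil => exact rext_one _
  | cons n l ih => rw [Wd, rext_mul _ (zpow_mem (gn_mem t) n), rext_zpow hab, ih, Wd]

theorem fv_one {g : Artin M} (h : g ∈ Fv M {a, b} a b) : g = 1 := by simpa [Fv, apar] using h

theorem fv_le (t : Bool) : Fv M {a, b} a b ≤ Pc M a b t := fun _ h => fv_one h ▸ one_mem _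

theorem AltZ.wd {k : ℕ} {t : Bool} {g : Artin M}
    (h : AltZ (Fv M {a, b} a b) k (Pc M a b t) (Pc M a b (!t)) g) :
    ∃ l : List ℤ, l.length = k ∧ (∀ n ∈ l, n ≠ 0) ∧ g⁻¹ = Wd (gn M a b) t l := by
  induction k generalizing t g with
  | zero => exact ⟨[], rfl, by simp, by rw [fv_one h]; simp [Wd]⟩
  | succ k ih =>
    obtain ⟨x, a1, a2, a3⟩ := h
    obtain ⟨l, b1, b2, b3⟩ := ih (t := !t) (by rwa [Bool.not_not])
    have : x ∈ Subgroup.closure {gn M a b t} := by
      refine Subgroup.closure_mono ?_ a1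
      rintro _ ⟨s, ⟨hs, hs'⟩, rfl⟩
      cases t <;> rcases hs with rfl | rfl <;> first | rfl | exact absurd rfl hs'
    obtain ⟨n, rfl⟩ := Subgroup.mem_closure_singleton.1 this
    refine ⟨-n :: l, by simp [b1], ?_, by rw [Wd, ← b3]; group⟩
    simp only [List.mem_cons, forall_eq_or_imp, ne_eq, neg_eq_zero]
    exact ⟨by rintro rfl; exact a2 (by simp), b2⟩

theorem pr_wd (hab : a ≠ b) (t : Bool) (l : List ℤ) :
    Pr (Fv M {a, b} a b) l.length (Pc M a b t) (Pc M a b (!t)) (Wd (gn M a b) t l)⁻¹ := by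
  induction l generalizing t with
  | nil => simp [Wd, Pr]
  | cons n l ih => exact ⟨(gn M a b t ^ n)⁻¹, inv_mem (zpow_mem (gn_pc hab t) n),
      by simpa [Wd] using ih (!t)⟩

theorem expo_wd (t : Bool) (l : List ℤ) :
    expo M (Wd (gn M a b) t l) = Multiplicative.ofAdd l.sum := by
  induction l generalizing t with
  | nil => simp [Wd]
  | cons n l ih =>
    rw [Wd, map_mul, ih, List.sum_cons, ofAdd_add]; simp [gn, expo, ← ofAdd_zsmul]

theorem Ge.c_bound (h : Ge M 6 a b) : 3 ≤ (2 * kc M a b) ^ 2 ∧ 0 < 2 * kc M a b ∧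
    2 * kc M a b ≤ 2 := by
  have h1 := kc_sq_six h.2
  have h2 := kc_ge_half (M := M) (i := a) (j := b) (h.2.imp id (by omega))
  exact ⟨by linarith, by linarith, by linarith [show kc M a b ≤ 1 from Real.cos_le_one _]⟩

theorem wd_ne (h : Ge M 6 a b) {l : List ℤ} (h1 : l ≠ []) (h2 : l.length ≤ 11)
    (hl : ∀ n ∈ l, n ≠ 0) (t : Bool) : Wd (gn M a b) t l ≠ 1 := by
  induction hk : l.length using Nat.strong_induction_on generalizing l t with
  | _ k ih =>
  subst hk
  intro e
  have s0 : l.sum = 0 := by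
    have := expo_wd (M := M) (a := a) (b := b) t l
    rw [e, map_one] at this
    exact ofAdd_eq_one.1 this.symm
  by_cases he : Even l.length
  · have m : ∀ s : Bool, s ∈ l.map fun n => decide (0 < n) := by
      intro s
      by_contra hn
      simp only [List.mem_map, not_exists, not_and] at hn
      cases s
      · exact (List.sum_pos l (fun n k => by simpa using hn n k) h1).ne' s0
      · have := List.sum_pos (l.map Neg.neg) (fun n k => by
          obtain ⟨n, k', rfl⟩ := List.mem_map.1 k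
          have h3 : ¬ 0 < n := by simpa using hn n k'
          have := hl n k'
          omega) (by simpa)
        rw [← List.sum_neg] at this; omega
    obtain ⟨i, hi⟩ := okS_rot _ (by rw [List.length_map]; obtain ⟨r, hr⟩ := he; omega) (m _) (m _)
    obtain ⟨t', e'⟩ := wd_rot he i e
    rw [← List.map_rotate, ← List.map_tail] at hi
    have a1 : ∀ n ∈ l.rotate i, n ≠ 0 := fun n k => hl n (List.mem_rotate.1 k)
    have a2 : Even (l.rotate i).length := by rwa [List.length_rotate]
    have a3 : l.rotate i ≠ [] := by simpa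
    generalize l.rotate i = l at *
    obtain ⟨n, l, rfl⟩ := List.exists_cons_of_ne_nil a3
    obtain ⟨⟨j, st⟩, hj⟩ := Option.isSome_iff_exists.1 hi
    obtain ⟨v, -, b1, b2⟩ := wd_fix (2 * kc M a b) (!t') l 0
    have b3 : Wd (gn M a b) (!t') l = gn M a b t' ^ (-n) := by
      rw [zpow_neg]; exact eq_inv_of_mul_eq_one_right e'
    rw [wd_snoc, zpow_zero, mul_one, ← rext_wd h.1, b3, rext_zpow h.1] at b1
    have b4 := b2 (-n) (by simpa [Nat.even_add_one] using a2)
    simp only [Bool.not_not] at b1 b4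
    rw [b4, abs_zero, eq_comm, abs_eq_zero] at b1
    exact (okS_spec h.c_bound.1 h.c_bound.2.1 (fun n k => a1 n (List.mem_of_mem_tail k)) hj).1 b1
  obtain ⟨n, l, rfl⟩ := List.exists_cons_of_ne_nil h1
  rcases List.eq_nil_or_concat l with rfl | ⟨l, n', rfl⟩
  · exact hl n (by simp) (by simpa using s0)
  simp only [List.concat_eq_append, List.length_cons, List.length_append, List.length_nil,
    Nat.even_add_one, not_not, zero_add] at *
  rw [Wd, wd_snoc, if_neg he, Bool.not_not, ← mul_assoc, mul_eq_one_comm, ← mul_assoc,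
    ← zpow_add] at e
  have hl' : ∀ n ∈ l, n ≠ 0 := fun n k => hl n (by simp [k])
  by_cases h0 : n' + n = 0
  · rw [h0, zpow_zero, one_mul] at e
    exact ih _ (by omega) (by rintro rfl; simp at he) (by omega) hl' _ rfl e
  · exact ih _ (by simp) (l := (n' + n) :: l) (by simp) (by simp; omega) (by simpa [h0] using hl')
      t rfl e

theorem dih_ag (h : Ge M 6 a b) : AG M {a, b} a b 6 := by
  have k : ∀ t k g, 1 ≤ k → k < 12 → AltZ (Fv M {a, b} a b) k (Pc M a b t) (Pc M a b (!t)) g →
      g ∈ Fv M {a, b} a b → False := by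
    intro t k g h1 h2 h3 h4
    obtain ⟨l, rfl, b2, b3⟩ := h3.wd
    exact wd_ne h (by rintro rfl; simp at h1) (by omega) b2 t (by rw [← b3, fv_one h4, inv_one])
  exact girth_of_split (fun _ => 0) (fun _ => Nat.zero_le _) fun j g h1 h2 =>
    ⟨k false j g h1 h2, k true j g h1 h2⟩

theorem rext_norm (h : Ge M 6 a b) {w : List (B × Bool)} (hw : ∀ c ∈ w, c.1 ∈ ({a, b} : Set B))
    (v : ℝ × ℝ) : ‖rext (brOn_sh h.1) (evalW M w)⁻¹ v‖ ≤ 3 ^ w.length * ‖v‖ := by
  induction w generalizing v with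
  | nil => simp
  | cons c w ih =>
    have h1 : ∀ c ∈ w, c.1 ∈ ({a, b} : Set B) := fun c hc => hw c (by simp [hc])
    obtain ⟨t, n, e1, e2⟩ : ∃ t, ∃ n : ℤ, |(n : ℝ)| = 1 ∧ (evalW M [c])⁻¹ = gn M a b t ^ n := by
      obtain ⟨s, e⟩ := c
      obtain ⟨t, ht⟩ : ∃ t, gen M s = gn M a b t := by
        rcases hw (s, e) (by simp) with rfl | rfl
        exacts [⟨true, rfl⟩, ⟨false, rfl⟩]
      cases e
      exacts [⟨t, 1, by simp, by simp [ht]⟩, ⟨t, -1, by simp, by simp [ht]⟩]
    rw [← List.singleton_append, evalW_append, mul_inv_rev, rext_mul _ (inv_mem (evalW_mem h1)),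
      e2, rext_zpow h.1, Equiv.Perm.mul_apply]
    refine (ih h1 _).trans ?_
    rw [List.singleton_append, List.length_cons, pow_succ, mul_assoc]
    exact mul_le_mul_of_nonneg_left (sh1_norm h.c_bound.2.1.le h.c_bound.2.2 t e1 v)
      (by positivity)

theorem pr_bound (h : Ge M 6 a b) {w : List (B × Bool)} (hw : ∀ c ∈ w, c.1 ∈ ({a, b} : Set B))
    {k : ℕ} (h2 : 2 ≤ k) (h5 : k ≤ 5) {t : Bool}
    (hp : Pr (Fv M {a, b} a b) (k + 1) (Pc M a b t) (Pc M a b (!t)) (evalW M w)) :
    ∃ n : ℤ, n.natAbs < 16 * 3 ^ w.length + 2 ∧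
      Pr (Fv M {a, b} a b) k (Pc M a b (!t)) (Pc M a b t) (evalW M w * gn M a b t ^ n) := by
  rcases hp.red (fv_le _) (fv_le _) with ⟨i, a1, a2⟩ | ⟨i, a1, a2⟩
  swap
  · exact ⟨0, by simp, by simpa using a2.pr.mono (fv_le _) (fv_le _) (by omega)⟩
  by_cases hi : i ≤ 1
  · exact ⟨0, by simp, by simpa using ((a2.pr.mono (fv_le _) (fv_le _) hi).succ_swap.mono
      (fv_le _) (fv_le _) h2)⟩
  obtain ⟨l, rfl, b2, b3⟩ := a2.wd
  obtain ⟨n, l, rfl⟩ := List.exists_cons_of_length_pos (by omega : 0 < l.length)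
  rcases List.eq_nil_or_concat l with rfl | ⟨l, n', rfl⟩
  · simp at hi
  simp only [List.concat_eq_append, List.length_cons, List.length_append, List.length_nil] at *
  refine ⟨n, ?_, ?_⟩
  · obtain ⟨v, c1, c2, -⟩ := wd_fix (2 * kc M a b) t (n :: l) n'
    have c3 := KT_exp h.c_bound.1 h.c_bound.2.1 (l := l) (fun n k => b2 n (by simp [k]))
      (by omega) n
    have c4 := rext_norm h hw v
    rw [b3, rext_wd h.1, c1, mul_one] at c4
    rw [← c2, List.cons_append] at c3
    have c5 : ∀ u : ℝ × ℝ, |(vw (!t) u).1| ≤ ‖u‖ := fun u => by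
      cases t
      exacts [norm_fst_le u, norm_snd_le u]
    have c6 : ((n.natAbs : ℕ) : ℝ) < 16 * 3 ^ w.length + 2 := by
      rw [Nat.cast_natAbs, Int.cast_abs]; linarith [c5 (Wd (sh1 (2 * kc M a b)) t (n :: (l ++ [n'])) v)]
    exact_mod_cast c6
  · have := pr_wd (M := M) h.1 (!t) (l ++ [n'])
    rw [Bool.not_not] at this
    rw [← inv_inv (evalW M w), b3, Wd, mul_inv_rev, inv_mul_cancel_right]
    exact this.mono (fv_le _) (fv_le _) (by simp; omega)

@[fun_prop] theorem pr_pow {β : Type*} [Primcodable β] {f g : β → ℕ} (hf : Primrec f)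
    (hg : Primrec g) : Primrec fun x => f x ^ g x :=
  (Primrec₂.unpaired'.1 Nat.Primrec.pow).comp hf hg

attribute [local irreducible] effA

theorem dih_re (h : Ge M 6 a b) (hw : WP M {a, b}) {k : ℕ} (hk : k ≤ 6) (t : Bool) :
    RE (effA M) fun g => g ∈ apar M {a, b} ∧
      ¬ Pr (Fv M {a, b} a b) k (Pc M a b t) (Pc M a b (!t)) g := by
  induction k generalizing t with
  | zero => cases t; exacts [hw.re_pr a b (k := 0) (by omega), hw.re_pr a b (k := 0) (by omega)]
  | succ k ih =>
    by_cases h2 : k + 1 ≤ 2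
    · cases t
      · exact hw.re_pr a b h2
      · rw [fv_comm]; exact hw.re_pr b a h2
    have h0 := ih (by omega) (!t)
    rw [Bool.not_not] at h0
    have e : ∀ n : ℕ, pos M ((List.range n).map fun _ => bif t then a else b) = gn M a b t ^ n :=
      fun n => by simp [pos, gn]
    have : Sig fun w : List (B × Bool) => ∃ w' : List (B × Bool),
        BAll w' (fun c => c.1 ∈ ({a, b} : Set B)) ∧ evalW M w' = (effA M).ev w ∧
        BAll (List.range (16 * 3 ^ w'.length + 2)) fun n =>
          (evalW M w' * pos M ((List.range n).map fun _ => bif t then a else b) ∈ apar M {a, b} ∧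
            ¬ Pr (Fv M {a, b} a b) k (Pc M a b (!t)) (Pc M a b t)
              (evalW M w' * pos M ((List.range n).map fun _ => bif t then a else b))) ∧
          (evalW M w' * (pos M ((List.range n).map fun _ => bif t then a else b))⁻¹ ∈
            apar M {a, b} ∧ ¬ Pr (Fv M {a, b} a b) k (Pc M a b (!t)) (Pc M a b t)
              (evalW M w' * (pos M ((List.range n).map fun _ => bif t then a else b))⁻¹)) :=
      Sig.ex (Sig.and (Sig.ball (by fun_prop) (sig_memSet _ (by fun_prop))) (Sig.and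
        (EC.sig_eq (E := effA M) (by fun_prop) (by fun_prop)) (Sig.ball (by fun_prop)
        (Sig.and (h0.sig (by fun_prop)) (h0.sig (by fun_prop))))))
    refine this.of_eq fun w => ⟨fun ⟨w', a1, a2, a3⟩ => ?_, fun ⟨a1, a2⟩ => ?_⟩
    · rw [← a2]
      refine ⟨evalW_mem a1, fun hp => ?_⟩
      obtain ⟨n, b1, b2⟩ := pr_bound h a1 (by omega) (by omega) hp
      have := a3 _ (List.mem_range.2 b1)
      simp only [e] at this
      rcases Int.natAbs_eq n with e' | e' <;> rw [e'] at b2
      · exact this.1.2 (by rwa [zpow_natCast] at b2)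
      · exact this.2.2 (by rwa [zpow_neg, zpow_natCast] at b2)
    · obtain ⟨w', b1, b2⟩ := exists_evalW a1
      refine ⟨w', b1, b2.symm, fun n _ => ?_⟩
      have m := pow_mem (gn_pc (M := M) h.1 t) n
      simp only [e, ← b2]
      exact ⟨⟨mul_mem a1 (pow_mem (gn_mem t) n), fun k => a2 ⟨_, inv_mem m, by simpa using k⟩⟩,
        mul_mem a1 (inv_mem (pow_mem (gn_mem t) n)), fun k => a2 ⟨_, m, k⟩⟩

theorem dih_agp (h : Ge M 6 a b) (hw : WP M {a, b}) : AGP M {a, b} a b 6 :=
  ⟨dih_ag h, fun _ hk => ⟨dih_re h hw hk false, dih_re h hw hk true⟩⟩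

theorem wp_free (h : M a b = 0) : WP M {a, b} := by
  have hφ : BrOn M {a, b} (FreeGroup.of : B → FreeGroup B) := by
    rintro i (rfl | rfl) j (rfl | rfl)
    · rfl
    · simp [h, alt]
    · simp [M.symmetric i j, h, alt]
    · rfl
  have e : ∀ w : List (B × Bool), (∀ c ∈ w, c.1 ∈ ({a, b} : Set B)) →
      rext hφ (evalW M w) = FreeGroup.mk w := by
    intro w
    induction w with
    | nil => intro _; rw [evalW_nil, rext_one]; rfl
    | cons c w ih =>
      intro hw
      have h1 := hw c (by simp)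
      rw [← List.singleton_append, evalW_append, rext_mul _ (evalW_mem (by simpa using h1)),
        ih fun c hc => hw c (by simp [hc]), ← FreeGroup.mul_mk]
      obtain ⟨s, _ | _⟩ := c
      · rw [evalW_false, rext_inv _ (gen_mem_apar h1), rext_gen _ h1]; rfl
      · rw [evalW_true, rext_gen _ h1]; rfl
  have : Sig fun w : List (B × Bool) => ∃ w' : List (B × Bool),
      BAll w' (fun c => c.1 ∈ ({a, b} : Set B)) ∧ evalW M w' = (effA M).ev w ∧ w' ≠ [] ∧
      BAll (List.range w'.length) fun i => ∀ x y : B × Bool,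
        w'[i]? ≠ some x ∨ w'[i + 1]? ≠ some y ∨ (x.1 = y.1 → x.2 = y.2) :=
    Sig.ex (Sig.and (Sig.ball (by fun_prop) (sig_memSet _ (by fun_prop))) (Sig.and
      (EC.sig_eq (E := effA M) (by fun_prop) (by fun_prop)) (Sig.and (by fun_prop)
      (Sig.ball (by fun_prop) (Sig.allF fun x => Sig.allF fun y => by fun_prop)))))
  have red : ∀ w : List (B × Bool), FreeGroup.IsReduced w ↔ BAll (List.range w.length)
      fun i => ∀ x y : B × Bool,
        w[i]? ≠ some x ∨ w[i + 1]? ≠ some y ∨ (x.1 = y.1 → x.2 = y.2) := fun w => by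
    rw [FreeGroup.IsReduced, List.isChain_iff_getElem]
    refine ⟨fun h i _ x y => ?_, fun h i hi => ?_⟩
    · by_contra hn
      push Not at hn
      obtain ⟨a1, rfl⟩ := List.getElem?_eq_some_iff.1 hn.1
      obtain ⟨a2, rfl⟩ := List.getElem?_eq_some_iff.1 hn.2.1
      exact hn.2.2.2 (h i a2 hn.2.2.1)
    · simpa [hi, (by omega : i < w.length)] using
        h i (List.mem_range.2 (by omega)) (w[i]'(by omega)) w[i + 1]
  refine this.of_eq fun w => ⟨fun ⟨w', a1, a2, a3, a4⟩ => ?_, fun ⟨a1, a2⟩ => ?_⟩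
  · rw [← a2]
    refine ⟨evalW_mem a1, fun k => a3 ?_⟩
    have := e w' a1
    rw [k, rext_one] at this
    rw [← ((red w').2 a4).reduce_eq, ← FreeGroup.toWord_mk, ← this, FreeGroup.toWord_one]
  · obtain ⟨w', b1, b2⟩ := exists_evalW a1
    have b3 : evalW M (FreeGroup.reduce w') = (effA M).ev w := by
      rw [b2, evalW, FreeGroup.reduce.self, evalW]
    exact ⟨FreeGroup.reduce w', fun c hc => b1 c (FreeGroup.reduce.red.sublist.subset hc), b3,
      fun k => a2 (by rw [← b3, k, evalW_nil]), (red _).1 (FreeGroup.IsReduced.of_reduce_eq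
        FreeGroup.reduce.idem)⟩

end Pool.Agent.H10
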