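import Pool.Agent.Lib.helper10.Sig
import Mathlib.GroupTheory.PresentedGroup
import Mathlib.GroupTheory.FreeGroup.Reduce

/-! Recursively presented groups: codes, r.e. subsets, finite presentations. -/

set_option linter.unusedSectionVars false

namespace Pool.Agent.H10

/-- a group with a system of codes in which equality is r.e. -/
structure Eff (G α : Type*) [Group G] [Primcodable α] where
  ev : α → G
  surj : Function.Surjective ev
  mul : α → α → α
  pr_mul : Primrec fun x : α × α => mul x.1 x.2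
  ev_mul : ∀ a b, ev (mul a b) = ev a * ev b
  inv : α → α
  pr_inv : Primrec inv
  ev_inv : ∀ a, ev (inv a) = (ev a)⁻¹
  eq_one : Sig fun a => ev a = 1

section
variable {G α β γ : Type*} [Group G] [Primcodable α] [Primcodable β] [Primcodable γ]

/-- computable group valued functions -/
@[fun_prop] def EC (E : Eff G α) (φ : β → G) : Prop := ∃ f : β → α, Primrec f ∧ ∀ x, E.ev (f x) = φ x

/-- r.e. subsets -/
@[fun_prop] def RE (E : Eff G α) (p : G → Prop) : Prop := Sig fun a => p (E.ev a)

variable {E : Eff G α}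

@[fun_prop] theorem EC.const (g : G) : EC E (fun _ : β => g) := by
  obtain ⟨a, rfl⟩ := E.surj g
  exact ⟨fun _ => a, Primrec.const _, fun _ => rfl⟩

@[fun_prop] theorem EC.comp {φ : γ → G} {f : β → γ} (h : EC E φ) (hf : Primrec f) :
    EC E (fun x => φ (f x)) := by
  obtain ⟨g, hg, e⟩ := h
  exact ⟨fun x => g (f x), hg.comp hf, fun x => e _⟩

@[fun_prop] theorem EC.ev {f : β → α} (hf : Primrec f) : EC E (fun x => E.ev (f x)) :=
  ⟨f, hf, fun _ => rfl⟩

@[fun_prop] theorem EC.mul {φ ψ : β → G} (h : EC E φ) (h' : EC E ψ) : EC E (fun x => φ x * ψ x) := by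
  obtain ⟨g, hg, e⟩ := h
  obtain ⟨g', hg', e'⟩ := h'
  exact ⟨fun x => E.mul (g x) (g' x), E.pr_mul.comp (hg.pair hg'), fun x => by
    rw [E.ev_mul, e, e']⟩

@[fun_prop] theorem EC.inv {φ : β → G} (h : EC E φ) : EC E (fun x => (φ x)⁻¹) := by
  obtain ⟨g, hg, e⟩ := h
  exact ⟨fun x => E.inv (g x), E.pr_inv.comp hg, fun x => by rw [E.ev_inv, e]⟩

theorem EC.fin [Finite γ] (φ : γ → G) : EC E φ := by
  choose f hf using fun c => E.surj (φ c)
  exact ⟨f, Primrec.dom_finite f, hf⟩

theorem RE.sig {p : G → Prop} {φ : β → G} (hp : RE E p) (h : EC E φ) : Sig (fun x => p (φ x)) := by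
  obtain ⟨g, hg, e⟩ := h
  exact (Sig.comp hp hg).of_eq fun x => by rw [e]

theorem EC.sig_eq {φ ψ : β → G} (h : EC E φ) (h' : EC E ψ) : Sig (fun x => φ x = ψ x) := by
  have h1 : RE E (fun g => g = 1) := E.eq_one
  exact (h1.sig (h.mul h'.inv)).of_eq fun x => mul_inv_eq_one

theorem RE.of_eq {p q : G → Prop} (hp : RE E p) (h : ∀ g, p g ↔ q g) : RE E q :=
  Sig.of_eq hp fun _ => h _

/-- a family of r.e. sets indexed by a finite type -/
theorem RE.fam [Finite γ] {p : γ → G → Prop} (hp : ∀ c, RE E (p c)) {c : β → γ} {φ : β → G}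
    (hc : Primrec c) (h : EC E φ) : Sig (fun x => p (c x) (φ x)) := by
  obtain ⟨g, hg, e⟩ := h
  have := Sig.fam (p := fun c a => p c (E.ev a)) hp
  exact (this.comp (f := fun x => (g x, c x)) (by fun_prop)).of_eq fun x => by simp [e]

/-- existential quantification over the group -/
theorem Sig.exG (E : Eff G α) {p : β → G → Prop} (h : Sig fun x : β × α => p x.1 (E.ev x.2)) :
    Sig fun x => ∃ g, p x g :=
  (Sig.ex (p := fun x a => p x (E.ev a)) h).of_eq fun _ =>
    ⟨fun ⟨_, h⟩ => ⟨_, h⟩, fun ⟨g, h⟩ => by obtain ⟨a, rfl⟩ := E.surj g; exact ⟨a, h⟩⟩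

end

section presented
variable {B : Type*} [Primcodable B] [Finite B]

@[fun_prop] theorem pr_invRev {β : Type*} [Primcodable β] {f : β → List (B × Bool)}
    (hf : Primrec f) : Primrec (fun x => FreeGroup.invRev (f x)) := by
  unfold FreeGroup.invRev; fun_prop

/-- insertion and deletion of words of a list -/
def InsDel (L : List (List (B × Bool))) (prem : List (List (B × Bool))) (w : List (B × Bool)) :
    Prop :=
  w = [] ∨ ∃ x y r : List (B × Bool), r ∈ L ∧
    ((x ++ y ∈ prem ∧ w = x ++ r ++ y) ∨ (x ++ r ++ y ∈ prem ∧ w = x ++ y))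

omit [Primcodable B] [Finite B] in
theorem insDel_ctx {L : List (List (B × Bool))} {w : List (B × Bool)} (h : Gen (InsDel L) w)
    (x y : List (B × Bool)) : Gen (InsDel L) (x ++ w ++ y) ↔ Gen (InsDel L) (x ++ y) := by
  have ins : ∀ x y r, r ∈ L → (Gen (InsDel L) (x ++ r ++ y) ↔ Gen (InsDel L) (x ++ y)) := by
    intro x y r hr
    exact ⟨fun h => Gen.mk [x ++ r ++ y] _ (by simpa using h)
        (Or.inr ⟨x, y, r, hr, Or.inr ⟨by simp, rfl⟩⟩),
      fun h => Gen.mk [x ++ y] _ (by simpa using h) (Or.inr ⟨x, y, r, hr, Or.inl ⟨by simp, rfl⟩⟩)⟩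
  induction h with
  | mk l j _ hR ih =>
    rcases hR with rfl | ⟨a, b, r, hr, ⟨h1, rfl⟩ | ⟨h1, rfl⟩⟩
    · simp
    · refine Iff.trans ?_ (ih _ h1)
      simpa using ins (x ++ a) (b ++ y) r hr
    · refine Iff.trans ?_ (ih _ h1)
      simpa using (ins (x ++ a) (b ++ y) r hr).symm

theorem sig_presented {R : Set (FreeGroup B)} (hR : R.Finite) :
    Sig fun w : List (B × Bool) => PresentedGroup.mk R (FreeGroup.mk w) = 1 := by
  classical
  have := Fintype.ofFinite B
  let L : List (List (B × Bool)) := hR.toFinset.toList.map FreeGroup.toWord ++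
    (Finset.univ : Finset (B × Bool)).toList.map fun p => [p, (p.1, !p.2)]
  have h1 : Sig (Gen (InsDel L)) := Sig.gen (by unfold InsDel; fun_prop)
  refine h1.of_eq fun w => ⟨fun h => ?_, fun h => ?_⟩
  · have hL : ∀ r ∈ L, PresentedGroup.mk R (FreeGroup.mk r) = 1 := by
      intro r hr
      simp only [L, List.mem_append, List.mem_map, Finset.mem_toList, Set.Finite.mem_toFinset,
        Finset.mem_univ, true_and] at hr
      rcases hr with ⟨a, ha, rfl⟩ | ⟨⟨a, b⟩, rfl⟩
      · rw [FreeGroup.mk_toWord]; exact PresentedGroup.one_of_mem ha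
      · have : FreeGroup.mk [(a, b), (a, !b)] = FreeGroup.mk [] :=
          Quot.sound FreeGroup.Red.Step.cons_not
        rw [this, ← FreeGroup.one_eq_mk, map_one]
    induction h with
    | mk l j _ hR ih =>
      rcases hR with rfl | ⟨a, b, r, hr, ⟨h1, rfl⟩ | ⟨h1, rfl⟩⟩
      · rw [← FreeGroup.one_eq_mk, map_one]
      · have := ih _ h1
        simp only [← FreeGroup.mul_mk, map_mul, hL r hr, mul_one] at this ⊢
        exact this
      · have := ih _ h1
        simp only [← FreeGroup.mul_mk, map_mul, hL r hr, mul_one] at this ⊢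
        exact this
  · have h0 : Gen (InsDel L) [] := Gen.mk [] _ (by simp) (Or.inl rfl)
    have hr : ∀ r ∈ L, Gen (InsDel L) r := fun r hr =>
      Gen.mk [[]] _ (by simpa using h0) (Or.inr ⟨[], [], r, hr, Or.inl ⟨by simp, by simp⟩⟩)
    have hfree : ∀ w w' : List (B × Bool), FreeGroup.mk w = FreeGroup.mk w' →
        (Gen (InsDel L) w ↔ Gen (InsDel L) w') := by
      intro w w' e
      have e' := Quot.eqvGen_exact e
      clear e
      induction e' with
      | rel a b h =>
        obtain @⟨x, y, c, d⟩ := h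
        have := insDel_ctx (hr [(c, d), (c, !d)] (by simp [L])) x y
        simpa using this
      | refl => rfl
      | symm _ _ _ ih => exact ih.symm
      | trans _ _ _ _ _ ih1 ih2 => exact ih1.trans ih2
    let N : Subgroup (FreeGroup B) :=
      { carrier := {g | ∃ w, FreeGroup.mk w = g ∧ Gen (InsDel L) w}
        mul_mem' := by
          rintro _ _ ⟨a, rfl, ha⟩ ⟨b, rfl, hb⟩
          exact ⟨a ++ b, rfl, by simpa using (insDel_ctx ha [] b).2 (by simpa using hb)⟩
        one_mem' := ⟨[], rfl, h0⟩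
        inv_mem' := by
          rintro _ ⟨a, rfl, ha⟩
          refine ⟨FreeGroup.invRev a, rfl, ?_⟩
          have := (insDel_ctx ha (FreeGroup.invRev a) []).1 ((hfree [] _ (by
            simp [← FreeGroup.mul_mk, ← FreeGroup.inv_mk, ← FreeGroup.one_eq_mk])).1 h0)
          simpa using this }
    have hN : N.Normal := ⟨by
      rintro _ ⟨a, rfl, ha⟩ ⟨g⟩
      refine ⟨g ++ a ++ FreeGroup.invRev g, rfl, (insDel_ctx ha _ _).2 ((hfree [] _ ?_).1 h0)⟩
      simp [← FreeGroup.mul_mk, ← FreeGroup.inv_mk, ← FreeGroup.one_eq_mk]⟩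
    have hle : Subgroup.normalClosure R ≤ N := Subgroup.normalClosure_le_normal fun r hr' =>
      ⟨r.toWord, FreeGroup.mk_toWord, hr _ (List.mem_append_left _
        (List.mem_map.2 ⟨r, by simpa using hr', rfl⟩))⟩
    obtain ⟨a, e, ha⟩ := hle (PresentedGroup.mk_eq_one_iff.1 h)
    exact (hfree _ _ e).1 ha

/-- codes for a finitely presented group -/
def effP {R : Set (FreeGroup B)} (hR : R.Finite) : Eff (PresentedGroup R) (List (B × Bool)) where
  ev w := PresentedGroup.mk R (FreeGroup.mk w)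
  surj g := by
    obtain ⟨⟨w⟩, rfl⟩ := PresentedGroup.mk_surjective R g
    exact ⟨w, rfl⟩
  mul a b := a ++ b
  pr_mul := by fun_prop
  ev_mul a b := by rw [← FreeGroup.mul_mk, map_mul]
  inv := FreeGroup.invRev
  pr_inv := by fun_prop
  ev_inv a := by rw [← FreeGroup.inv_mk, map_inv]
  eq_one := sig_presented hR

end presented

end Pool.Agent.H10
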