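import Pool.Agent.Lib.helper10.Eff
import Pool.Agent.Lib.helper10.Retract

/-! Effectivity of Coxeter groups and of the retraction. -/

set_option linter.unusedSectionVars false

namespace Pool.Agent.H10

open CoxeterSystem

variable {B : Type*} [Primcodable B] [Fintype B] [DecidableEq B] (M : CoxeterMatrix B)
variable {β : Type*} [Primcodable β]

theorem alt_eq_map (a b : B) (n : ℕ) :
    alt a b n = (List.range n).map fun i => bif i.bodd then b else a := by
  induction n with
  | zero => rfl
  | succ n ih =>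
    rw [alt_succ', ih, List.range_succ, List.map_append]
    congr 1
    have h2 := Nat.mod_two_of_bodd n
    by_cases h : Even n
    · have : n.bodd = false := by
        rw [Nat.even_iff] at h; revert h2; cases n.bodd <;> simp; omega
      simp [h, this]
    · have : n.bodd = true := by
        rw [Nat.even_iff] at h; revert h2; cases n.bodd <;> simp; omega
      simp [h, this]

@[fun_prop] theorem pr_bodd {f : β → ℕ} (hf : Primrec f) : Primrec fun x => (f x).bodd :=
  Primrec.nat_bodd.comp hf

@[fun_prop] theorem pr_alt {a b : β → B} {n : β → ℕ} (ha : Primrec a) (hb : Primrec b)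
    (hn : Primrec n) : Primrec fun x => alt (a x) (b x) (n x) := by
  simp only [alt_eq_map]; fun_prop

@[fun_prop] theorem pr_M {a b : β → B} (ha : Primrec a) (hb : Primrec b) :
    Primrec fun x => M (a x) (b x) :=
  (Primrec.dom_finite (fun p : B × B => M p.1 p.2)).comp (ha.pair hb)

theorem wordProd_eq_mk (l : List B) : (cx M).wordProd l =
    PresentedGroup.mk M.relationsSet (FreeGroup.mk (l.map fun s => (s, true))) := by
  induction l with
  | nil => simp [← FreeGroup.one_eq_mk]; rfl
  | cons a l ih =>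
    rw [wordProd_cons, ih, List.map_cons, ← List.singleton_append, ← FreeGroup.mul_mk, map_mul]
    rfl

/-- codes for the Coxeter group -/
def effW : Eff M.Group (List B) where
  ev := (cx M).wordProd
  surj := (cx M).wordProd_surjective
  mul a b := a ++ b
  pr_mul := by fun_prop
  ev_mul := (cx M).wordProd_append
  inv := List.reverse
  pr_inv := by fun_prop
  ev_inv := (cx M).wordProd_reverse
  eq_one := by
    have := sig_presented (R := M.relationsSet) (Set.finite_range _)
    refine (this.comp (f := fun l : List B => l.map fun s => (s, true)) (by fun_prop)).of_eq ?_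
    intro l; rw [wordProd_eq_mk]; rfl

@[fun_prop] theorem EC.wordProd {f : β → List B} (hf : Primrec f) :
    EC (effW M) (fun x => (cx M).wordProd (f x)) := EC.ev hf

@[fun_prop] theorem EC.simple {f : β → B} (hf : Primrec f) :
    EC (effW M) (fun x => (cx M).simple (f x)) := (EC.fin _).comp hf

/-- rule generating non-descents -/
def NDRule (prem : List (List B × B)) (x : List B × B) : Prop :=
  (cx M).wordProd x.1 = 1 ∨ ∃ (v : List B) (j : B) (n : ℕ), (v, x.2) ∈ prem ∧ (v, j) ∈ prem ∧
    x.2 ≠ j ∧ (M x.2 j = 0 ∨ n < M x.2 j) ∧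
      (cx M).wordProd x.1 = (cx M).wordProd (v ++ (alt j x.2 n).reverse)

theorem sig_not_rdesc :
    Sig fun x : List B × B => ¬ (cx M).IsRightDescent ((cx M).wordProd x.1) x.2 := by
  have h : Sig (Gen (NDRule M)) := by
    refine Sig.gen (Sig.or (EC.sig_eq (E := effW M) (by fun_prop) (by fun_prop))
      (Sig.ex (Sig.ex (Sig.ex ?_))))
    refine Sig.and (by fun_prop) (Sig.and (by fun_prop) (Sig.and (by fun_prop)
      (Sig.and (by fun_prop) (EC.sig_eq (E := effW M) (by fun_prop) (by fun_prop)))))
  refine h.of_eq fun x => ⟨fun h => ?_, fun h => ?_⟩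
  · induction h with
    | mk l x _ hR ih =>
      rcases hR with h | ⟨v, j, n, h1, h2, h3, h4, h5⟩
      · rw [h]; exact (cx M).not_isRightDescent_one _
      · rw [h5, not_descent_iff, wordProd_append, alt_eq_reverse, List.reverse_reverse]
        exact rho_alt_nonneg _ h3 h4 (rho_nonneg _ (ih _ h1)) (rho_nonneg _ (ih _ h2))
  · obtain ⟨l, s⟩ := x
    induction hk : (cx M).length ((cx M).wordProd l) using Nat.strong_induction_on
      generalizing l s with
    | _ k ih =>
      by_cases hw : (cx M).wordProd l = 1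
      · exact Gen.mk [] _ (by simp) (Or.inl hw)
      obtain ⟨j, hj⟩ := (cx M).exists_rightDescent_of_ne_one hw
      have hij : s ≠ j := fun e => h (e ▸ hj)
      obtain ⟨n, v, hn, h1, h2, h3, h4⟩ := dihedral_decomp (cx M) s hj
      have hred : (cx M).IsReduced (alternatingWord s j n) :=
        red_left (cx M) (v := v) (by rw [← h1, h2, length_alternatingWord])
      have hle := le_M_of_red (cx M) hred
      have hlt : M s j = 0 ∨ n < M s j := by
        by_cases h0 : M s j = 0
        · exact Or.inl h0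
        · right
          refine lt_of_le_of_ne (hle.resolve_left h0) fun e => h ?_
          exact descent_of_braid (cx M) h0 (e ▸ h1) (e ▸ h2)
      obtain ⟨v, rfl⟩ := (cx M).wordProd_surjective v
      refine Gen.mk [(v, s), (v, j)] _ ?_ (Or.inr ⟨v, j, n, by simp, by simp, hij, hlt, ?_⟩)
      · intro i hi
        simp only [List.mem_cons, List.not_mem_nil, or_false] at hi
        rcases hi with rfl | rfl
        · exact ih _ (by omega) _ _ h3 rfl
        · exact ih _ (by omega) _ _ h4 rfl
      · rw [wordProd_append, alt_eq_reverse, List.reverse_reverse]; exact h1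

variable {M}

theorem sig_nrd {φ : β → M.Group} {s : β → B} (h : EC (effW M) φ) (hs : Primrec s) :
    Sig fun x => ¬ (cx M).IsRightDescent (φ x) (s x) := by
  obtain ⟨g, hg, e⟩ := h
  exact ((sig_not_rdesc M).comp (hg.pair hs)).of_eq fun x => by rw [← e]; rfl

theorem sig_rd {φ : β → M.Group} {s : β → B} (h : EC (effW M) φ) (hs : Primrec s) :
    Sig fun x => (cx M).IsRightDescent (φ x) (s x) :=
  (sig_nrd (φ := fun x => φ x * (cx M).simple (s x)) (by fun_prop) hs).of_eq fun _ =>
    (cx M).isRightDescent_iff_not_isRightDescent_mul.symm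

theorem sig_neW {φ ψ : β → M.Group} (h : EC (effW M) φ) (h' : EC (effW M) ψ) :
    Sig fun x => φ x ≠ ψ x := by
  have : Sig fun x => ∃ s : B, (cx M).IsRightDescent (φ x * (ψ x)⁻¹) s :=
    Sig.ex (sig_rd (by fun_prop) (by fun_prop))
  refine this.of_eq fun x => ⟨?_, fun hx => (cx M).exists_rightDescent_of_ne_one ?_⟩
  · rintro ⟨s, hs⟩ e
    rw [e, mul_inv_cancel] at hs
    exact (cx M).not_isRightDescent_one _ hs
  · rwa [Ne, mul_inv_eq_one]

theorem sig_length {φ : β → M.Group} {n : β → ℕ} (h : EC (effW M) φ) (hn : Primrec n) :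
    Sig fun x => (cx M).length (φ x) = n x := by
  have h1 : Sig fun x => ∃ l : List B, l.length = n x ∧ φ x = (cx M).wordProd l ∧
      BAll (List.range l.length) fun i => ∃ s, l[i]? = some s ∧
        ¬ (cx M).IsRightDescent ((cx M).wordProd (l.take i)) s :=
    Sig.ex (Sig.and (by fun_prop) (Sig.and (EC.sig_eq (E := effW M) (by fun_prop) (by fun_prop))
      (Sig.ball (by fun_prop) (Sig.ex (Sig.and (by fun_prop)
        (sig_nrd (by fun_prop) (by fun_prop)))))))
  refine h1.of_eq fun x => ⟨?_, fun hx => ?_⟩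
  · rintro ⟨l, h1, h2, h3⟩
    rw [h2, ← h1]
    have : ∀ i ≤ l.length, (cx M).length ((cx M).wordProd (l.take i)) = i := by
      intro i hi
      induction i with
      | zero => simp
      | succ i ih =>
        obtain ⟨s, hs, hd⟩ := h3 i (List.mem_range.2 (by omega))
        rw [List.take_add_one, hs, wordProd_append]
        simpa [ih (by omega)] using (cx M).not_isRightDescent_iff.1 hd
    simpa using this l.length le_rfl
  · obtain ⟨l, hl, e⟩ := (cx M).exists_isReduced (φ x)
    refine ⟨l, by rw [← hl.eq, ← e, hx], e, fun i hi => ?_⟩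
    have hi := List.mem_range.1 hi
    refine ⟨l[i], by simp, ?_⟩
    have h1 := (hl.take (i + 1)).eq
    have h2 := (hl.take i).eq
    rw [List.take_add_one, List.getElem?_eq_getElem hi, wordProd_append] at h1
    rw [(cx M).not_isRightDescent_iff, h2]
    simp only [Option.toList_some, wordProd_singleton, List.length_append, List.length_cons,
      List.length_nil] at h1
    exact h1

variable (M)

theorem artinRel_finite : (artinRel M).Finite := by
  refine (Set.finite_range fun p : B × B => ((alt p.1 p.2 (M p.1 p.2)).map FreeGroup.of).prod *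
    (((alt p.2 p.1 (M p.1 p.2)).map FreeGroup.of).prod)⁻¹).subset ?_
  rintro r ⟨s, t, -, -, rfl⟩
  exact ⟨(s, t), rfl⟩

/-- codes for the Artin group -/
def effA : Eff (Artin M) (List (B × Bool)) := effP (artinRel_finite M)

theorem effA_ev (w : List (B × Bool)) : (effA M).ev w = evalW M w := rfl

variable {M}

omit [Primcodable B] [Fintype B] [DecidableEq B] in
theorem evalW_append (a b : List (B × Bool)) : evalW M (a ++ b) = evalW M a * evalW M b := by
  rw [evalW, ← FreeGroup.mul_mk, map_mul]; rfl

omit [Primcodable B] [Fintype B] [DecidableEq B] in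
@[simp] theorem evalW_nil : evalW M [] = 1 := by rw [evalW, ← FreeGroup.one_eq_mk, map_one]

omit [Primcodable B] [Fintype B] [DecidableEq B] in
@[simp] theorem evalW_true (s : B) : evalW M [(s, true)] = gen M s := rfl

omit [Primcodable B] [Fintype B] [DecidableEq B] in
@[simp] theorem evalW_false (s : B) : evalW M [(s, false)] = (gen M s)⁻¹ := by
  rw [← evalW_true, evalW, evalW, ← map_inv, FreeGroup.inv_mk]; rfl

omit [Primcodable B] [Fintype B] [DecidableEq B] in
theorem evalW_pos (l : List B) : evalW M (l.map fun s => (s, true)) = pos M l := by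
  induction l with
  | nil => simp
  | cons a l ih => rw [List.map_cons, ← List.singleton_append, evalW_append, ih, pos_cons]; rfl

@[fun_prop] theorem EC.evalW {f : β → List (B × Bool)} (hf : Primrec f) :
    EC (effA M) (fun x => evalW M (f x)) := EC.ev hf

@[fun_prop] theorem EC.pos {f : β → List B} (hf : Primrec f) :
    EC (effA M) (fun x => pos M (f x)) :=
  ⟨fun x => (f x).map fun s => (s, true), by fun_prop, fun _ => evalW_pos _⟩

@[fun_prop] theorem EC.gen {f : β → B} (hf : Primrec f) :
    EC (effA M) (fun x => gen M (f x)) := (EC.fin _).comp hf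

omit [Primcodable B] [Fintype B] [DecidableEq B] in
theorem evalW_mem {T : Set B} {w : List (B × Bool)} (h : ∀ c ∈ w, c.1 ∈ T) :
    evalW M w ∈ apar M T := by
  induction w with
  | nil => simp
  | cons a w ih =>
    rw [← List.singleton_append, evalW_append]
    refine mul_mem ?_ (ih fun c hc => h c (by simp [hc]))
    obtain ⟨s, b⟩ := a
    have := gen_mem_apar (M := M) (h (s, b) (by simp))
    cases b
    · simpa using this
    · simpa using this

omit [Primcodable B] [Fintype B] [DecidableEq B] in
theorem exists_evalW {T : Set B} {g : Artin M} (h : g ∈ apar M T) :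
    ∃ w : List (B × Bool), (∀ c ∈ w, c.1 ∈ T) ∧ g = evalW M w := by
  refine apar_induction (P := fun g => ∃ w : List (B × Bool), (∀ c ∈ w, c.1 ∈ T) ∧ g = evalW M w)
    h ⟨[], by simp, by simp⟩ ?_ ?_
  · rintro g - i hi ⟨w, h1, rfl⟩
    refine ⟨w ++ [(i, true)], fun c hc => ?_, by simp [evalW_append]⟩
    rcases List.mem_append.1 hc with hc | hc
    · exact h1 c hc
    · rw [List.mem_singleton.1 hc]; exact hi
  · rintro g - i hi ⟨w, h1, rfl⟩
    refine ⟨w ++ [(i, false)], fun c hc => ?_, by simp [evalW_append]⟩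
    rcases List.mem_append.1 hc with hc | hc
    · exact h1 c hc
    · rw [List.mem_singleton.1 hc]; exact hi

theorem sig_memSet (T : Set B) {f : β → B} (hf : Primrec f) : Sig fun x => f x ∈ T :=
  (Sig.fin (· ∈ T)).comp hf

theorem re_apar (T : Set B) : RE (effA M) (· ∈ apar M T) := by
  have : Sig fun a : List (B × Bool) => ∃ w : List (B × Bool), BAll w (fun c => c.1 ∈ T) ∧
      evalW M a = evalW M w :=
    Sig.ex (Sig.and (Sig.ball (by fun_prop) (sig_memSet T (by fun_prop)))
      (EC.sig_eq (E := effA M) (by fun_prop) (by fun_prop)))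
  refine this.of_eq fun a => ⟨?_, fun h => exists_evalW h⟩
  rintro ⟨w, h1, h2⟩
  change evalW M a ∈ _
  rw [h2]; exact evalW_mem h1

/-- rule computing the retraction -/
def RRule (M : CoxeterMatrix B) (T : Set B) (prem : List (List (B × Bool) × List (B × Bool) × List B))
    (x : List (B × Bool) × List (B × Bool) × List B) : Prop :=
  x = ([], [], []) ∨ ∃ (y : List (B × Bool) × List (B × Bool) × List B) (s : B) (b : Bool),
    y ∈ prem ∧ x.1 = y.1 ++ [(s, b)] ∧
    ((∃ t, (t ∈ T ∧ (cx M).wordProd y.2.2 * (cx M).simple s =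
        (cx M).simple t * (cx M).wordProd y.2.2) ∧ x.2 = (y.2.1 ++ [(t, b)], y.2.2)) ∨
     ((∀ t, t ∉ T ∨ (cx M).wordProd y.2.2 * (cx M).simple s ≠
        (cx M).simple t * (cx M).wordProd y.2.2) ∧ x.2 = (y.2.1, y.2.2 ++ [s])))

theorem ract_snoc (T : Set B) (w : List (B × Bool)) (s : B) (b : Bool) :
    ract (brOn_gen' T) rinit (evalW M (w ++ [(s, b)])) =
      rstep M T (fun t => evalW M [(t, b)]) s (ract (brOn_gen' T) rinit (evalW M w)) := by
  rw [evalW_append, ract_mul]
  cases b
  · simp [ract_gen_inv]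
  · rw [evalW_true, ract_gen]; rfl

theorem sig_retr_aux (T : Set B) : Sig fun x : List (B × Bool) × List (B × Bool) =>
    retr T (evalW M x.1) = evalW M x.2 := by
  have h : Sig (Gen (RRule M T)) := by
    refine Sig.gen (Sig.or (by fun_prop) (Sig.ex (Sig.ex (Sig.ex (Sig.and (by fun_prop)
      (Sig.and (by fun_prop) (Sig.or (Sig.ex (Sig.and (Sig.and (sig_memSet T (by fun_prop))
        (EC.sig_eq (E := effW M) (by fun_prop) (by fun_prop))) (by fun_prop)))
        (Sig.and (Sig.all_fin (Sig.or (sig_memSet Tᶜ (by fun_prop))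
          (sig_neW (by fun_prop) (by fun_prop)))) (by fun_prop)))))))))
  have h2 : Sig fun x : List (B × Bool) × List (B × Bool) =>
      ∃ y : List (B × Bool) × List B, Gen (RRule M T) (x.1, y) ∧ evalW M y.1 = evalW M x.2 :=
    Sig.ex (Sig.and (h.comp (by fun_prop)) (EC.sig_eq (E := effA M) (by fun_prop) (by fun_prop)))
  have sound : ∀ x, Gen (RRule M T) x →
      (ract (brOn_gen' T) rinit (evalW M x.1)).1 = evalW M x.2.1 ∧
      (ract (brOn_gen' T) rinit (evalW M x.1)).2.1 = (cx M).wordProd x.2.2 := by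
    intro x hx
    induction hx with
    | mk l x _ hR ih =>
      rcases hR with rfl | ⟨y, s, b, hy, h1, ⟨t, ht, h2⟩ | ⟨ht, h2⟩⟩
      · simp [rinit]
      · obtain ⟨e1, e2⟩ := ih y hy
        rw [h1, h2, ract_snoc, rstep_em (t := t) (by rw [e2]; exact ht)]
        simp [evalW_append, e1, e2]
      · obtain ⟨e1, e2⟩ := ih y hy
        rw [h1, h2, ract_snoc, rstep_not (by
          rw [e2]; rintro ⟨t, h3, h4⟩; exact (ht t).elim (· h3) (· h4))]
        simp [wordProd_append, e1, e2]
  have comp : ∀ w, ∃ y, Gen (RRule M T) (w, y) := by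
    intro w
    induction w using List.reverseRecOn with
    | nil => exact ⟨_, Gen.mk [] _ (by simp) (Or.inl rfl)⟩
    | append_singleton w a ih =>
      obtain ⟨y, hy⟩ := ih
      obtain ⟨s, b⟩ := a
      by_cases h : ∃ t, t ∈ T ∧ (cx M).wordProd y.2 * (cx M).simple s =
        (cx M).simple t * (cx M).wordProd y.2
      · obtain ⟨t, ht⟩ := h
        exact ⟨_, Gen.mk [(w, y)] _ (by simpa using hy)
          (Or.inr ⟨(w, y), s, b, by simp, rfl, Or.inl ⟨t, ht, rfl⟩⟩)⟩
      · refine ⟨_, Gen.mk [(w, y)] _ (by simpa using hy)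
          (Or.inr ⟨(w, y), s, b, by simp, rfl, Or.inr ⟨fun t => ?_, rfl⟩⟩)⟩
        by_contra hc
        push Not at hc
        exact h ⟨t, hc⟩
  refine h2.of_eq fun x => ⟨?_, fun h => ?_⟩
  · rintro ⟨y, h1, h2⟩
    rw [← h2]; exact (sound _ h1).1
  · obtain ⟨y, hy⟩ := comp x.1
    exact ⟨y, hy, (sound _ hy).1.symm.trans h⟩

/-- a property of `retr T g` and `g` -/
theorem sig_retr (T : Set B) {φ : β → Artin M} (hφ : EC (effA M) φ) {p : β → Artin M → Prop}
    (hp : Sig fun x : β × List (B × Bool) => p x.1 (evalW M x.2)) :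
    Sig fun x => p x (retr T (φ x)) := by
  obtain ⟨g, hg, e⟩ := hφ
  have : Sig fun x => ∃ w : List (B × Bool), retr T (evalW M (g x)) = evalW M w ∧
      p x (evalW M w) :=
    Sig.ex (Sig.and ((sig_retr_aux T).comp (f := fun y : β × List (B × Bool) => (g y.1, y.2))
      (by fun_prop)) hp)
  refine this.of_eq fun x => ⟨?_, fun h => ?_⟩
  · rintro ⟨w, h1, h2⟩
    rwa [← e, effA_ev, h1]
  · obtain ⟨w, hw⟩ := (effA M).surj (retr T (φ x))
    rw [← e] at h hw
    simp only [effA_ev] at h hw
    exact ⟨w, hw.symm, by rwa [hw]⟩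

/-- the word problem of `apar U` -/
def WP (M : CoxeterMatrix B) (U : Set B) : Prop := RE (effA M) fun g => g ∈ apar M U ∧ g ≠ 1

theorem WP.mono {U T : Set B} (h : WP M U) (hT : T ⊆ U) : WP M T :=
  (Sig.and (re_apar T) h).of_eq fun _ =>
    ⟨fun h => ⟨h.1, h.2.2⟩, fun h => ⟨h.1, apar_mono hT h.1, h.2⟩⟩

theorem WP.not_mem {U : Set B} (h : WP M U) (T : Set B) :
    RE (effA M) fun g => g ∈ apar M U ∧ g ∉ apar M T := by
  have := sig_retr T (φ := fun w : List (B × Bool) => evalW M w) (by fun_prop)
    (p := fun w r => evalW M w ∈ apar M U ∧ (r⁻¹ * evalW M w ∈ apar M U ∧ r⁻¹ * evalW M w ≠ 1))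
    (Sig.and ((re_apar U).sig (by fun_prop)) (RE.sig h (by fun_prop)))
  refine this.of_eq fun w => ?_
  rw [effA_ev]
  constructor
  · rintro ⟨h1, -, h3⟩
    exact ⟨h1, fun h => h3 (by rw [retr_of_mem h, inv_mul_cancel])⟩
  · rintro ⟨h1, h2⟩
    refine ⟨h1, mul_mem (inv_mem (apar_mono Set.inter_subset_right (retr_mem h1))) h1, fun h => h2 ?_⟩
    rw [inv_mul_eq_one] at h
    rw [← h]; exact retr_mem' _ _

theorem WP.not_mem_mul {U : Set B} (h : WP M U) (P Q : Set B) :
    RE (effA M) fun g => g ∈ apar M U ∧ ¬ ∃ p ∈ apar M P, p⁻¹ * g ∈ apar M Q := by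
  have := sig_retr P (φ := fun w : List (B × Bool) => evalW M w) (by fun_prop)
    (p := fun w r => evalW M w ∈ apar M U ∧
      (r⁻¹ * evalW M w ∈ apar M U ∧ r⁻¹ * evalW M w ∉ apar M Q))
    (Sig.and ((re_apar U).sig (by fun_prop)) (RE.sig (h.not_mem Q) (by fun_prop)))
  refine this.of_eq fun w => ?_
  simp only [effA_ev, mem_mul_iff_retr]
  exact ⟨fun h => ⟨h.1, h.2.2⟩, fun h => ⟨h.1,
    mul_mem (inv_mem (apar_mono Set.inter_subset_right (retr_mem h.1))) h.1, h.2⟩⟩

end Pool.Agent.H10
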