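import Pool.Agent.Lib.helper10.Prod

/-! Unfolding an edge with label four or five in a spherical diagram. -/

set_option linter.unusedSectionVars false

namespace Pool.Agent.H10

/-- right complement by word reversing -/
def cpl {ι : Type} (m : ι → ι → ℕ) : ℕ → List ι → List ι → Option (List ι)
  | 0, _, _ => none
  | _ + 1, [], v => some v
  | _ + 1, _ :: _, [] => some []
  | n + 1, s :: u, t :: v => if m s t = 0 then none else
      (cpl m n (alt s t (m s t - 1)) v).bind fun r => cpl m n u (alt t s (m s t - 1) ++ r)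

theorem cpl_sound {ι : Type} {B : Type*} [Fintype B] [DecidableEq B] {M : CoxeterMatrix B}
    {m : ι → ι → ℕ} {f : ι → B} (hf : ∀ i j, M (f i) (f j) = m i j) {n : ℕ} {u v r : List ι}
    (h : cpl m n u v = some r) : (∀ c, Dv M (u.map f) c → Dv M (v.map f) c →
      Dv M ((u ++ r).map f) c) ∧ Dv M (v.map f) ((u ++ r).map f) := by
  induction n generalizing u v r with
  | zero => simp [cpl] at h
  | succ n ih =>
    rcases u with _ | ⟨s, u⟩
    · obtain rfl : v = r := by simpa [cpl] using h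
      exact ⟨fun _ _ h => h, Dv.refl _⟩
    rcases v with _ | ⟨t, v⟩
    · obtain rfl : r = [] := by simpa [cpl, eq_comm] using h
      exact ⟨fun _ h _ => by simpa using h, Dv.nil _⟩
    rw [cpl] at h
    split_ifs at h with h0
    obtain ⟨r1, a1, a2⟩ := Option.bind_eq_some_iff.1 h
    obtain ⟨b1, b2⟩ := ih a1
    obtain ⟨c1, c2⟩ := ih a2
    rw [← hf] at h0
    have br := braid_cons h0
    simp only [List.map_append, alt_map, ← hf, List.map_cons, List.cons_append] at *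
    refine ⟨fun c d1 d2 => ?_, (b2.cons _).trans ((br.symm.append (BE.refl _)).dv.trans
      (c2.cons _))⟩
    obtain ⟨c', e⟩ := (dv_braid d1.head d2.head).2
    rw [alt_M h0] at e
    have e' := (br.symm.append (BE.refl c')).trans e
    have f1 := b1 _ (Dv.append _ c') (Dv.cancel (p := [f t]) (d2.trans e'.symm.dv))
    rw [← List.append_nil (alt _ _ _ ++ _), List.append_assoc] at f1
    have f2 := (Dv.cancel f1).left (alt (f t) (f s) (M (f s) (f t) - 1))
    rw [List.append_nil] at f2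
    exact ((c1 _ (Dv.cancel (p := [f s]) (d1.trans e.symm.dv)) f2).cons _).trans e.dv

/-- labels of the unfolded pair -/
def tb (L : Bool → Bool → ℕ) (x y : Bool × Bool) : ℕ :=
  if x.1 = y.1 then (if x.2 = y.2 then 1 else 2) else if x.1 then L y.2 x.2 else L x.2 y.2

/-- image of a generator -/
def dw {ι : Type*} (d : Bool) (e : ι) : List (ι × Bool) :=
  bif d then [(e, false), (e, true)] else [(e, false)]

/-- the finite check -/
def chk (L : Bool → Bool → ℕ) (d d' : Bool) (k : ℕ) : Bool :=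
  let w := fun e => dw (bif e then d' else d) e
  ((cpl (tb L) 60 (w false) (w true)).bind fun r =>
    cpl (tb L) 60 (w false ++ r) ((alt false true k).flatMap w)) == some [] &&
  cpl (tb L) 60 ((alt true false k).flatMap w) ((alt false true k).flatMap w) == some [] &&
  ((alt true false k).flatMap w).length == ((alt false true k).flatMap w).length

/-- the unfolded edge -/
def lab (i j : Bool) : ℕ := if i = true ∧ j = false then 2 else 3

theorem chk_all : (∀ d d', chk (fun _ _ => 2) d d' 2) ∧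
    (∀ d, chk (fun i j => if i = j then 3 else 2) d d 3) ∧ chk lab false true 4 ∧
    chk lab true true 5 ∧ chk (fun i j => lab j i) true false 4 ∧
    chk (fun i j => lab j i) true true 5 := by decide +kernel

variable {B : Type*} {M : CoxeterMatrix B} [Fintype B] [DecidableEq B] [Primcodable B]

theorem chk_sound {M' : CoxeterMatrix (B × Bool)} {D : B → Bool} {s t : B} {k : ℕ}
    {L : Bool → Bool → ℕ} (h1 : ∀ s i j, i ≠ j → M' (s, i) (s, j) = 2)
    (h2 : ∀ i j, M' (s, i) (t, j) = L i j) (h : chk L (D s) (D t) k) :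
    BE M' ((alt s t k).flatMap fun s => dw (D s) s) ((alt t s k).flatMap fun s => dw (D s) s) ∧
    ∀ c, Dv M' (dw (D s) s) c → Dv M' (dw (D t) t) c →
      Dv M' ((alt s t k).flatMap fun s => dw (D s) s) c := by
  let f : Bool × Bool → B × Bool := fun x => (bif x.1 then t else s, x.2)
  have hf : ∀ i j, M' (f i) (f j) = tb L i j := by
    rintro ⟨_ | _, i⟩ ⟨_ | _, j⟩ <;> by_cases e : i = j <;>
      simp [f, tb, e, h1, h2, M'.symmetric (t, _) (s, _)]
  have e0 : ∀ e, (dw (bif e then D t else D s) e).map f =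
      dw (D (bif e then t else s)) (bif e then t else s) := by
    intro e; cases e <;> simp only [dw, cond_true, cond_false]
    · cases D s <;> rfl
    · cases D t <;> rfl
  have e1 : ∀ l : List Bool, (l.flatMap fun e => dw (bif e then D t else D s) e).map f =
      (l.map fun e => bif e then t else s).flatMap fun s => dw (D s) s := by
    intro l; simp only [List.map_flatMap, e0, List.flatMap_map]
  simp only [chk, Bool.and_eq_true, beq_iff_eq] at h
  obtain ⟨⟨a1, a2⟩, a3⟩ := h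
  obtain ⟨r, a4, a5⟩ := Option.bind_eq_some_iff.1 a1
  have b1 := (cpl_sound hf a4).1
  have b2 := (cpl_sound hf a5).2
  obtain ⟨c, b3⟩ := (cpl_sound hf a2).2
  have b4 := b3.length_eq
  rw [List.append_nil] at b2 b3
  obtain rfl : c = [] := by simpa [a3] using b4
  rw [e0, e0] at b1
  simp only [List.append_nil, e1, alt_map, cond_true, cond_false] at b1 b2 b3
  exact ⟨b3, fun c d1 d2 => b2.trans (b1 c d1 d2)⟩

/-- an edge with label four or five separating a diagram with small labels -/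
structure FD (M : CoxeterMatrix B) (U : Set B) (a b : B) (sd : B → Bool) : Prop where
  sph : Sph M U
  ha : a ∈ U
  hb : b ∈ U
  sa : sd a = false
  sb : sd b = true
  lab : M a b = 4 ∨ M a b = 5
  oth : ∀ s ∈ U, ∀ t ∈ U, s ≠ t → ¬ (s = a ∧ t = b) → ¬ (s = b ∧ t = a) →
    M s t = 2 ∨ (M s t = 3 ∧ sd s = sd t)

/-- the unfolded matrix -/
def ufM (M : CoxeterMatrix B) (a b : B) : CoxeterMatrix (B × Bool) where
  M := Matrix.of fun x y => if x = y then 1 else if x.1 = y.1 then 2 else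
    if x.1 = a ∧ y.1 = b then lab x.2 y.2 else
    if x.1 = b ∧ y.1 = a then lab y.2 x.2 else if x.2 = y.2 ∧ M x.1 y.1 = 3 then 3 else 2
  isSymm := by
    ext x y
    have := M.symmetric x.1 y.1
    simp only [Matrix.transpose_apply, Matrix.of_apply]
    grind
  diagonal := by simp
  off_diagonal x y h := by simp only [Matrix.of_apply, h, lab]; grind

theorem ufM_apply (a b : B) (x y : B × Bool) : ufM M a b x y = if x = y then 1 else
    if x.1 = y.1 then 2 else if x.1 = a ∧ y.1 = b then lab x.2 y.2 else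
    if x.1 = b ∧ y.1 = a then lab y.2 x.2 else if x.2 = y.2 ∧ M x.1 y.1 = 3 then 3 else 2 := rfl

attribute [local irreducible] effA

namespace FD

variable {U : Set B} {a b : B} {sd : B → Bool}

variable (M a b sd) in
/-- the unfolding map on generators -/
def ph (s : B) : List (B × Bool) := dw (sd s || M a b == 5) s

variable (M U a b sd) in
/-- the unfolded generating set -/
def uf : Set (B × Bool) := {x | x.1 ∈ U ∧ x ∈ ph M a b sd x.1}

theorem ph_fst {s : B} {x : B × Bool} (h : x ∈ ph M a b sd s) : x.1 = s := by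
  rw [ph, dw] at h; revert h; cases (sd s || M a b == 5) <;> simp <;> rintro (rfl | rfl) <;> rfl

theorem ph_zero (s : B) : (s, false) ∈ ph M a b sd s := by
  rw [ph, dw]; cases (sd s || M a b == 5) <;> simp

theorem ov_ph {T : Set B} {T' : Set (B × Bool)} (h : ∀ x ∈ uf M U a b sd, x.1 ∈ T → x ∈ T')
    (hT : T ⊆ U) {l : List B} (hl : Ov T l) : Ov T' (l.flatMap (ph M a b sd)) := by
  intro x hx
  obtain ⟨s, h1, h2⟩ := List.mem_flatMap.1 hx
  obtain rfl := ph_fst h2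
  exact h x ⟨hT (hl _ h1), h2⟩ (hl _ h1)

theorem ov_ph' {l : List B} (hl : Ov U l) : Ov (uf M U a b sd) (l.flatMap (ph M a b sd)) :=
  ov_ph (fun _ h _ => h) subset_rfl hl

theorem pos_ph (l : List B) : pos (ufM M a b) (l.flatMap (ph M a b sd)) =
    (l.map fun s => pos (ufM M a b) (ph M a b sd s)).prod := by
  induction l with
  | nil => rfl
  | cons s l ih => simp [pos_append, ih]

variable (h : FD M U a b sd)
include h

theorem ne : a ≠ b := fun e => by have := h.sa; rw [e, h.sb] at this; cases this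

theorem b1 : (b, true) ∈ ph M a b sd b := by simp [ph, dw, h.sb]

theorem pair {s t : B} (hs : s ∈ U) (ht : t ∈ U) : M s t ≠ 0 ∧
    BE (ufM M a b) ((alt s t (M s t)).flatMap (ph M a b sd))
      ((alt t s (M s t)).flatMap (ph M a b sd)) ∧
    ∀ c, Dv (ufM M a b) (ph M a b sd s) c → Dv (ufM M a b) (ph M a b sd t) c →
      Dv (ufM M a b) ((alt s t (M s t)).flatMap (ph M a b sd)) c := by
  by_cases e : s = t
  · subst e; exact ⟨by simp, BE.refl _, fun c k _ => by simpa [alt] using k⟩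
  have h1 : ∀ s i j, i ≠ j → ufM M a b (s, i) (s, j) = 2 := fun s i j k => by simp [ufM_apply, k]
  have k := fun {L} => chk_sound (D := fun s => sd s || M a b == 5) (s := s) (t := t)
    (k := M s t) (L := L) h1
  obtain ⟨c1, c2, c3, c4, c5, c6⟩ := chk_all
  have := h.ne
  by_cases e1 : s = a ∧ t = b
  · obtain ⟨rfl, rfl⟩ := e1
    rcases h.lab with m | m
    · exact ⟨by omega, k (L := H10.lab) (by simp [ufM_apply, e]) (by simpa [m, h.sa, h.sb])⟩
    · exact ⟨by omega, k (L := H10.lab) (by simp [ufM_apply, e]) (by simpa [m, h.sa, h.sb])⟩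
  by_cases e2 : s = b ∧ t = a
  · obtain ⟨rfl, rfl⟩ := e2
    have m' := M.symmetric s t
    rcases h.lab with m | m
    · exact ⟨by omega, k (L := fun i j => H10.lab j i) (by simp [ufM_apply, e])
        (by simpa [m, m', h.sa, h.sb])⟩
    · exact ⟨by omega, k (L := fun i j => H10.lab j i) (by simp [ufM_apply, e])
        (by simpa [m, m', h.sa, h.sb])⟩
  rcases h.oth s hs t ht e e1 e2 with m | ⟨m, m'⟩
  · exact ⟨by omega, k (L := fun _ _ => 2) (by simp [ufM_apply, e, e1, e2, m]) (m ▸ c1 _ _)⟩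
  · exact ⟨by omega, k (L := fun i j => if i = j then 3 else 2)
      (by simp [ufM_apply, e, e1, e2, m]) (by rw [m, m']; exact c2 _)⟩

theorem be {x y : List B} (hx : ∀ c ∈ x, c ∈ U) (e : BE M x y) :
    BE (ufM M a b) (x.flatMap (ph M a b sd)) (y.flatMap (ph M a b sd)) := by
  refine (e.inv (P := fun l => (∀ c ∈ l, c ∈ U) ∧ BE (ufM M a b) (x.flatMap (ph M a b sd))
    (l.flatMap (ph M a b sd))) ?_ ⟨hx, BE.refl _⟩).2
  rintro p q i j ⟨h1, h2⟩
  refine ⟨fun c hc => h1 c (((BE.braid i j).ctx p q).symm.mem hc), h2.trans ?_⟩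
  by_cases h0 : M i j = 0
  · simp [h0, alt, BE.refl]
  have hi := left_mem_alt i j (Nat.one_le_iff_ne_zero.2 h0)
  have hj := left_mem_alt j i (Nat.one_le_iff_ne_zero.2 h0)
  simp only [List.flatMap_append]
  exact (h.pair (h1 i (by simp [hi])) (h1 j (by simp [(BE.braid i j).symm.mem hj]))).2.1.ctx _ _

theorem sph' : Sph (ufM M a b) (uf M U a b sd) := by
  obtain ⟨δ, hδ⟩ := h.sph.exists_del
  refine sph_of_dv (V := δ.flatMap (ph M a b sd)) ?_
  rintro ⟨s, i⟩ ⟨h1, h2⟩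
  obtain ⟨c, e⟩ := hδ.red_dv (p := [s]) (by simpa [Ov] using h1) 
    (by simp [CoxeterSystem.IsReduced])
  have := h.be (fun x hx => hδ.1 x (e.mem hx)) e
  rw [List.flatMap_append] at this
  refine Dv.trans ?_ ⟨_, this⟩
  simp only [List.flatMap_cons, List.flatMap_nil, List.append_nil, ph, dw] at h2 ⊢
  revert h2
  cases (sd s || M a b == 5) <;> cases i <;> simp
  · exact Dv.refl _
  · exact Dv.append [_] [_]
  · exact ⟨[(s, false)], by
      simpa [ufM_apply, alt] using BE.braid (M := ufM M a b) (s, true) (s, false)⟩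

theorem brOn : BrOn M U fun s => pos (ufM M a b) (ph M a b sd s) := fun i hi j hj => by
  rw [← pos_ph, ← pos_ph, (h.pair hi hj).2.1.pos_eq]

/-- the unfolding homomorphism -/
noncomputable def ps (g : Artin M) : Artin (ufM M a b) := rext h.brOn g

theorem ps_pos {l : List B} (hl : Ov U l) :
    h.ps (pos M l) = pos (ufM M a b) (l.flatMap (ph M a b sd)) := by
  rw [ps, rext_pos _ hl, pos_ph]

theorem ps_div {x : Artin M} (hx : x ∈ apar M U) (y : Artin M) :
    h.ps (x⁻¹ * y) = (h.ps x)⁻¹ * h.ps y := by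
  rw [ps, rext_mul _ (inv_mem hx), rext_inv _ hx]; rfl

theorem fwd {s : B} (i : Bool) {x y : Artin M} (hx : x ∈ apar M U) (e : x⁻¹ * y ∈ Kv M U s) :
    (h.ps x)⁻¹ * h.ps y ∈ Kv (ufM M a b) (uf M U a b sd) (s, i) := by
  obtain ⟨u, v, h1, h2, h3⟩ := (h.sph.mono Set.sdiff_subset).exists_frac_left e
  have k : ∀ x ∈ uf M U a b sd, x.1 ∈ U \ {s} → x ∈ uf M U a b sd \ {(s, i)} :=
    fun x a b => ⟨a, fun e => b.2 (congrArg Prod.fst e)⟩
  rw [← h.ps_div hx, h3, h.ps_div (pos_mem_apar (h1.mono Set.sdiff_subset)),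
    h.ps_pos (h1.mono Set.sdiff_subset), h.ps_pos (h2.mono Set.sdiff_subset)]
  exact mul_mem (inv_mem (pos_mem_apar (ov_ph k Set.sdiff_subset h1)))
    (pos_mem_apar (ov_ph k Set.sdiff_subset h2))

theorem pull {g : Artin M} (hg : g ∈ apar M U) {l1 l2 : List (B × Bool)}
    (h1 : Ov (uf M U a b sd) l1) (h2 : Ov (uf M U a b sd) l2)
    (e : h.ps g = pos _ l1 * (pos _ l2)⁻¹) : ∃ u v, Ov U u ∧ Ov U v ∧ g = pos M u * (pos M v)⁻¹ ∧
      (∀ s ∈ u, ∀ j ∈ ph M a b sd s, j ∈ l1) ∧ ∀ s ∈ v, ∀ j ∈ ph M a b sd s, j ∈ l2 := by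
  obtain ⟨u, v, a1, a2, rfl⟩ := h.sph.exists_frac_left hg
  rw [h.ps_div (pos_mem_apar a1), h.ps_pos a1, h.ps_pos a2] at e
  have e' := h.sph'.be_of_pos_eq (ov_append.2 ⟨ov_ph' a2, h2⟩) (ov_append.2 ⟨ov_ph' a1, h1⟩) (by
    rw [pos_append, pos_append, ← inv_mul_eq_iff_eq_mul, ← mul_assoc, e]; group)
  obtain ⟨l, b1, ⟨u', b2⟩, ⟨v', b3⟩, b4⟩ := exists_lcm_map (ph M a b sd)
    (fun s _ => List.ne_nil_of_mem (ph_zero s)) (fun _ _ => h.be)
    (fun s hs t ht c d1 d2 => ⟨(h.pair hs ht).1, (h.pair hs ht).2.2 c d1 d2⟩) a1 a2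
    (Dv.append _ l1) ⟨_, e'⟩
  have c1 := Ov.be b1 b2
  have c2 := Ov.be b1 b3
  have d := b4 _ (Dv.append _ l1) ⟨_, e'⟩
  have d1 := (h.be c1 b2).dv.trans d
  have d2 := ((h.be c2 b3).dv.trans d).trans e'.symm.dv
  rw [List.flatMap_append] at d1 d2
  refine ⟨u', v', (ov_append.1 c1).2, (ov_append.1 c2).2, ?_,
    fun s hs j hj => d1.cancel.mem (List.mem_flatMap.2 ⟨s, hs, hj⟩),
    fun s hs j hj => d2.cancel.mem (List.mem_flatMap.2 ⟨s, hs, hj⟩)⟩
  have := (b2.trans b3.symm).pos_eq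
  rw [pos_append, pos_append] at this
  rw [inv_mul_eq_iff_eq_mul, ← mul_assoc, this]; group

theorem bwd {s : B} {j : B × Bool} (hj : j ∈ ph M a b sd s) {x y : Artin M} (hx : x ∈ apar M U)
    (hy : y ∈ apar M U) (e : (h.ps x)⁻¹ * h.ps y ∈ Kv (ufM M a b) (uf M U a b sd) j) :
    x⁻¹ * y ∈ Kv M U s := by
  obtain ⟨l1, l2, a1, a2, a3⟩ := (h.sph'.mono Set.sdiff_subset).exists_frac e
  obtain ⟨u, v, b1, b2, b3, b4, b5⟩ := h.pull (mul_mem (inv_mem hx) hy)
    (a1.mono Set.sdiff_subset) (a2.mono Set.sdiff_subset) ((h.ps_div hx y).trans a3)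
  rw [b3]
  exact mul_mem (pos_mem_apar fun c hc => ⟨b1 c hc, fun e => a1.notMem (b4 c hc j (e ▸ hj))⟩)
    (inv_mem (pos_mem_apar fun c hc => ⟨b2 c hc, fun e => a2.notMem (b5 c hc j (e ▸ hj))⟩))

theorem ge (i : Bool) : 3 ≤ ufM M a b (a, false) (b, i) := by simp [ufM_apply, h.ne, H10.lab]

theorem g3' : G3 (ufM M a b) (uf M U a b sd) := fun x y e => (h.sph'.agp3 (e.2.resolve_left (by
  rw [ufM_apply, H10.lab, H10.lab]; grind))).1

theorem sep {x y z : Artin (ufM M a b)} (h1 : Mt (uf M U a b sd) ((b, false), x) ((a, false), y))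
    (h2 : Mt (uf M U a b sd) ((b, true), z) ((a, false), y)) :
    Mt (uf M U a b sd) ((b, false), x) ((b, true), z) := by
  refine mt_sep (K := {j | j ∈ uf M U a b sd ∧ j ≠ (a, false) ∧ ¬ (sd j.1 = true ∧ j.2 = false)})
    (K' := {j | j ∈ uf M U a b sd ∧ sd j.1 = true ∧ j.2 = false}) ?_
    (fun j hj => by by_cases e : sd j.1 = true ∧ j.2 = false
                    exacts [Or.inr ⟨hj.1, e⟩, Or.inl ⟨hj.1, hj.2, e⟩])
    (fun k => k.2.2 ⟨h.sb, rfl⟩) (fun k => by simpa using k.2.2) h1 h2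
  rintro ⟨s, i⟩ ⟨a1, a2, a3⟩ ⟨t, j⟩ ⟨b1, b2, rfl⟩
  have := h.oth s a1.1 t b1.1
  have := h.sa
  rw [ufM_apply, H10.lab]; grind

theorem quad {x1 x2 x3 y : Artin M} (h1 : x1 ∈ apar M U) (e1 : x1⁻¹ * x2 ∈ Kv M U b)
    (e2 : x2⁻¹ * x3 ∈ Kv M U a) (e3 : x3⁻¹ * y ∈ Kv M U b)
    (e : Mt (uf M U a b sd) ((a, false), h.ps x1) ((b, true), h.ps y)) :
    x1⁻¹ * x2 ∈ Kv M U a ∨ x1⁻¹ * y ∈ Kv M U b := by
  have h2 : x2 ∈ apar M U := by simpa using mul_mem h1 (kv_le _ _ e1)
  have h3 : x3 ∈ apar M U := by simpa using mul_mem h2 (kv_le _ _ e2)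
  have h4 : y ∈ apar M U := by simpa using mul_mem h3 (kv_le _ _ e3)
  refine (h.g3'.P (c1 := ((a, false), h.ps x1)) (c2 := ((a, false), h.ps x2))
    (w := ((b, true), h.ps x1)) (w' := ((b, true), h.ps y)) rfl
    ⟨by simp, Or.inr (h.ge _)⟩ (mt_same _ _ _) ⟨_, In.self _, h.fwd _ h1 e1⟩ e
    ⟨_, h.fwd _ h2 e2, mem_symm (h.fwd _ h3 e3)⟩).imp (fun k => ?_) fun k => ?_
  · exact h.bwd (ph_zero a) h1 h2 (k.symm.in_of rfl (In.self _))
  · exact h.bwd h.b1 h1 h4 (k.symm.in_of rfl (In.self _))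

theorem hex {g : Artin M} (h1 : Pr (Fv M U a b) 3 (Kv M U a) (Kv M U b) g)
    (h2 : Pr (Fv M U a b) 3 (Kv M U b) (Kv M U a) g) :
    Pr (Fv M U a b) 2 (Kv M U a) (Kv M U b) g ∨ Pr (Fv M U a b) 2 (Kv M U b) (Kv M U a) g := by
  have hg := h1.mem (apar_mono Set.sdiff_subset) (kv_le _ _) (kv_le _ _)
  obtain ⟨p, a1, q, a2, a3⟩ := (pr_three (fa_le U a b) (fb_le U a b)).1 h1
  obtain ⟨q', b1, p', b2, b3⟩ := (pr_three (fb_le U a b) (fa_le U a b)).1 h2
  rw [pr_two (fa_le U a b) (fb_le U a b), pr_two (fb_le U a b) (fa_le U a b)]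
  have m1 := kv_le _ _ a1
  have m2 := mul_mem m1 (kv_le _ _ a2)
  have m3 := kv_le _ _ b1
  have c1 : p⁻¹ * (p * q) ∈ Kv M U b := by simpa
  have c2 : (p * q)⁻¹ * g ∈ Kv M U a := by simpa [mul_assoc]
  have c3 : p⁻¹ * 1 ∈ Kv M U a := by simpa
  have c4 : (1 : Artin M)⁻¹ * q' ∈ Kv M U b := by simpa
  have c5 : q'⁻¹ * (q' * p') ∈ Kv M U a := by simpa
  have c6 : g⁻¹ * (q' * p') ∈ Kv M U b := mem_symm (by simpa [mul_assoc])
  rcases h.g3'.P (c1 := ((b, false), h.ps p)) (c2 := ((b, false), h.ps g))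
    (w := ((a, false), h.ps g)) (w' := ((b, true), h.ps q')) rfl
    (Ge.symm ⟨by simp [h.ne], Or.inr (h.ge _)⟩) ⟨_, h.fwd _ m1 c1, mem_symm (h.fwd _ m2 c2)⟩
    (mt_same _ _ _) (h.sep (mt_same _ _ _) ⟨_, mem_symm (h.fwd _ (one_mem _) c4), h.fwd _ m1 c3⟩)
    (h.sep ⟨_, h.fwd _ hg c6, h.fwd _ m3 c5⟩ (mt_same _ _ _)) with k | k
  · exact Or.inr ⟨p, a1, h.bwd (ph_zero b) m1 hg (k.symm.in_of rfl (In.self _))⟩
  · rcases h.quad m2 (mem_symm c1) c3 c4 (k.cg (mem_symm (h.fwd _ m2 c2))) with k | k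
    · exact Or.inl ⟨1, one_mem _, by simpa using mul_mem a1 (mem_trans (mem_symm k) c2)⟩
    · have : p ∈ Kv M U b := by simpa using mul_mem b1 (mem_symm (mem_trans c1 k))
      exact Or.inl ⟨p * q, mul_mem this a2, c2⟩

theorem fwd_le (i : Bool) {t x y : Artin M} (ht : t ∈ apar M U) (e : Le M U t x)
    (e' : x⁻¹ * y ∈ Kv M U a ∧ i = false ∨ x⁻¹ * y ∈ Kv M U b ∧ i = true) :
    Bel (ufM M a b) (uf M U a b sd) (uf M U a b sd \ {(bif i then b else a, i)}) (h.ps t)
      (h.ps y) := by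
  have hx : x ∈ apar M U := by simpa using mul_mem ht e.mem
  obtain ⟨l, a1, rfl⟩ := e
  refine ⟨_, mem_symm ?_, l.flatMap (ph M a b sd), ov_ph' a1, rfl⟩
  rw [← h.ps_pos a1, ps, ps, ← rext_mul _ ht]
  rcases e' with ⟨e, rfl⟩ | ⟨e, rfl⟩
  exacts [h.fwd _ hx e, h.fwd _ hx e]

theorem re4 : RE (effA M) fun g => g ∈ apar M U ∧
    ¬ Pr (Fv M U a b) 4 (Kv M U b) (Kv M U a) g := by
  have f1 := fa_le (M := M) U a b
  have f2 := fb_le (M := M) U a b
  have h3 := (h.sph.agp3 (a := a) (b := b) (by have := h.lab; omega)).2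
  have := h.sph.bsearch (P := U \ {a}) (Q := U \ {b}) Set.sdiff_subset
    (Z := Pr (Fv M U a b) 3 (Kv M U b) (Kv M U a)) (q := Pr (Fv M U a b) 2 (Kv M U b) (Kv M U a))
    (fun g k => k.iota) (fun g k => k.iota) (fun g y hy k => k.mul_left (by simpa using hy) f2 f1)
    (h3 3 le_rfl).2 (h3 2 (by omega)).2
    (fun g hg => ⟨1, one_mem _, by simpa using hg.succ f2 f1⟩) ?_
  · exact this.of_eq fun g => by rw [pr_succ_left f2 f1, if_neg (by decide)]
  intro g hg p hp hZ hq t t1 t2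
  obtain ⟨q, a1, p', a2, a3⟩ := (pr_three f2 f1).1 hZ
  have ht : t ∈ apar M U := by simpa using t1.mem
  have m1 := kv_le _ _ hp
  have m2 := mul_mem m1 (kv_le _ _ a1)
  have c1 : p⁻¹ * (p * q) ∈ Kv M U b := by simpa
  have c2 : (p * q)⁻¹ * (p * q * p') ∈ Kv M U a := by rwa [inv_mul_cancel_left]
  have c3 : (p * q * p')⁻¹ * g ∈ Kv M U b := by simpa [mul_assoc]
  obtain ⟨x, d1, d2⟩ := h.sep (x := h.ps p) (y := h.ps (p * q)) (z := h.ps g)
    ⟨_, h.fwd _ m1 c1, In.self _⟩ ⟨_, h.fwd _ hg (mem_symm c3), h.fwd _ m2 c2⟩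
  have g1 := h.ge false
  have g2 := h.ge true
  rcases h.sph'.j4 (a := (a, false)) (b1 := (b, false)) (b2 := (b, true))
    ((ufM M a b).symmetric _ _ ▸ g1) g2 (by simp) d1
    (h.fwd_le false ht t1 (Or.inl ⟨by simpa, rfl⟩))
    ((h.fwd_le true ht t2 (Or.inr ⟨by simp, rfl⟩)).congr d2) with ⟨y, k1, l, k2, rfl⟩ | ⟨z, k1, k2⟩
  · obtain ⟨r1, r2, k3, k4, k5⟩ := (h.sph'.mono Set.sdiff_subset).exists_frac k1
    obtain ⟨u, v, b1, b2, b3, -, b5⟩ := h.pull (mul_mem (inv_mem ht) m1)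
      (ov_append.2 ⟨k2, k4.mono Set.sdiff_subset⟩) (k3.mono Set.sdiff_subset) (by
        rw [h.ps_div ht, pos_append, eq_mul_inv_iff_mul_eq, ← mul_inv_eq_iff_eq_mul, mul_assoc,
          ← k5]
        group)
    refine ⟨p * pos M v, rl_pos _ fun c hc => ⟨b2 c hc, fun e => k3.notMem
      (b5 c hc _ (e ▸ ph_zero c))⟩, u, b1, ?_⟩
    rw [← inv_mul_eq_iff_eq_mul, ← mul_assoc, b3]; simp
  · refine (hq ((pr_two f2 f1).2 ?_)).elim
    rcases h.quad m1 c1 c2 c3 ⟨z, k1, mem_trans d2 k2⟩ with k | k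
    · exact ⟨_, by simpa using mul_mem hp (mem_trans k c2), c3⟩
    · exact ⟨p, hp, k⟩

theorem agp4 : AGP M U a b 4 := by
  have f1 := fa_le (M := M) U a b
  have f2 := fb_le (M := M) U a b
  have h3 := h.sph.agp3 (a := a) (b := b) (by have := h.lab; omega)
  have key : ∀ {F P Q : Subgroup (Artin M)}, F ≤ P → F ≤ Q → Girth F P Q 3 → ∀ i j g, 1 ≤ i →
      i + j < 6 → AltZ F i P Q g → (Pr F j Q P g ∧ j ≤ i ∨ Pr F j P Q g ∧ j < i) → False := by
    intro F P Q hP hQ hG i j g k0 k1 k2 k3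
    rcases k3 with ⟨k, k'⟩ | ⟨k, k'⟩
    · rcases k.red hQ hP with ⟨n, k4, k5⟩ | ⟨n, k4, k5⟩
      · exact hG i n g (by omega) (by omega) k2 k5
      · have := hG.unique_same hP hQ (by omega) k2 k5; omega
    · rcases k.red hP hQ with ⟨n, k4, k5⟩ | ⟨n, k4, k5⟩
      · have := hG.unique_same hP hQ (by omega) k2 k5; omega
      · exact hG i n g (by omega) (by omega) k2 k5
  refine ⟨girth_of_star f1 f2 fun i g h1 h2 => ?_, fun k hk => ?_⟩
  · by_cases e : i = 3
    · subst e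
      exact ⟨fun x y => key f1 f2 h3.1 3 2 g h1 (by omega) x
          ((h.hex x.pr y).symm.imp (⟨·, by omega⟩) (⟨·, by omega⟩)),
        fun x y => key f2 f1 h3.1.symm 3 2 g h1 (by omega) x
          ((h.hex y x.pr).imp (⟨·, by omega⟩) (⟨·, by omega⟩))⟩
    · exact ⟨fun x y => key f1 f2 h3.1 i i g h1 (by omega) x (Or.inl ⟨y, le_rfl⟩),
        fun x y => key f2 f1 h3.1.symm i i g h1 (by omega) x (Or.inl ⟨y, le_rfl⟩)⟩
  by_cases e : k ≤ 3
  · exact h3.2 k e
  obtain rfl : k = 4 := by omega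
  refine ⟨(h.re4.sig (φ := fun w => ((effA M).ev w)⁻¹) (by fun_prop)).of_eq fun w => ?_, h.re4⟩
  rw [inv_mem_iff]
  have e4 : Even 4 := by decide
  exact and_congr_right fun _ => not_congr ⟨fun k => by simpa [e4] using k.inv f2 f1,
    fun k => by simpa [e4] using k.inv f1 f2⟩

end FD

end Pool.Agent.H10
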