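import Pool.Agent.Lib.helper10.Eff

/-! Alternating products in a pair of subgroups, girth, and the property `GP`. -/

namespace Pool.Agent.H10

variable {G : Type*} [Group G]

/-- reduced alternating products of `k` factors, the last one in `P` -/
def AltZ (F : Subgroup G) : ℕ → Subgroup G → Subgroup G → G → Prop
  | 0, _, _, g => g ∈ F
  | k + 1, P, Q, g => ∃ h ∈ P, h ∉ F ∧ AltZ F k Q P (g * h⁻¹)

/-- alternating products of `k` factors, the last one in `P` -/
def Pr (F : Subgroup G) : ℕ → Subgroup G → Subgroup G → G → Prop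
  | 0, _, _, g => g ∈ F
  | k + 1, P, Q, g => ∃ h ∈ P, Pr F k Q P (g * h⁻¹)

/-- the coset graph has girth at least `2 μ` -/
def Girth (F P Q : Subgroup G) (μ : ℕ) : Prop :=
  ∀ i j g, 1 ≤ i + j → i + j < 2 * μ → AltZ F i P Q g → AltZ F j Q P g → False

variable {F P Q : Subgroup G}

theorem Girth.symm {μ : ℕ} (h : Girth F P Q μ) : Girth F Q P μ :=
  fun i j g h1 h2 h3 h4 => h j i g (by omega) (by omega) h4 h3

theorem Girth.mono {μ ν : ℕ} (h : Girth F P Q μ) (hν : ν ≤ μ) : Girth F P Q ν :=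
  fun i j g h1 h2 h3 h4 => h i j g h1 (by omega) h3 h4

theorem AltZ.shift {i j : ℕ} {g : G} (h1 : AltZ F (i + 1) P Q g) (h2 : AltZ F j Q P g) :
    ∃ g', AltZ F i Q P g' ∧ AltZ F (j + 1) P Q g' := by
  obtain ⟨h, a1, a2, a3⟩ := h1
  exact ⟨_, a3, h⁻¹, inv_mem a1, by simpa using a2, by simpa using h2⟩

/-- it is enough to check one splitting of each length -/
theorem girth_of_split {μ : ℕ} (s : ℕ → ℕ) (hs : ∀ k, s k ≤ k)
    (h : ∀ k g, 1 ≤ k → k < 2 * μ →
      (AltZ F (k - s k) P Q g → AltZ F (s k) Q P g → False) ∧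
      (AltZ F (k - s k) Q P g → AltZ F (s k) P Q g → False)) : Girth F P Q μ := by
  have down : ∀ d i j (P Q : Subgroup G) g, AltZ F (i + d) P Q g → AltZ F j Q P g →
      ∃ g', (AltZ F i P Q g' ∧ AltZ F (j + d) Q P g') ∨
        (AltZ F i Q P g' ∧ AltZ F (j + d) P Q g') := by
    intro d
    induction d with
    | zero => intro i j P Q g h1 h2; exact ⟨g, Or.inl ⟨h1, h2⟩⟩
    | succ d ih =>
      intro i j P Q g h1 h2
      obtain ⟨g', a1, a2⟩ := AltZ.shift (i := i + d) h1 h2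
      obtain ⟨g'', a3⟩ := ih i (j + 1) Q P g' a1 a2
      rw [show j + 1 + d = j + (d + 1) by ring] at a3
      exact ⟨g'', a3.symm⟩
  intro i j g h1 h2 h3 h4
  have := hs (i + j)
  rcases le_total j (s (i + j)) with hj | hj
  · obtain ⟨d, hd⟩ := Nat.exists_eq_add_of_le hj
    obtain ⟨g', a⟩ := down d (i + j - s (i + j)) j P Q g (by rwa [show i + j - s (i + j) + d = i by omega]) h4
    rw [← hd] at a
    rcases a with a | a
    · exact (h _ g' h1 h2).1 a.1 a.2
    · exact (h _ g' h1 h2).2 a.1 a.2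
  · obtain ⟨d, hd⟩ := Nat.exists_eq_add_of_le hj
    obtain ⟨g', a⟩ := down d (s (i + j)) i Q P g (by rwa [← hd]) h3
    rw [show i + d = i + j - s (i + j) by omega] at a
    rcases a with a | a
    · exact (h _ g' h1 h2).1 a.2 a.1
    · exact (h _ g' h1 h2).2 a.2 a.1

theorem AltZ.mul_left {k : ℕ} {g f : G} (h : AltZ F k P Q g) (hf : f ∈ F) :
    AltZ F k P Q (f * g) := by
  induction k generalizing P Q g with
  | zero => exact mul_mem hf h
  | succ k ih =>
    obtain ⟨h, a1, a2, a3⟩ := h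
    exact ⟨h, a1, a2, by rw [mul_assoc]; exact ih a3⟩

theorem AltZ.mul_right (hP : F ≤ P) {k : ℕ} {g f : G} (h : AltZ F k P Q g) (hf : f ∈ F) :
    AltZ F k P Q (g * f) := by
  cases k with
  | zero => exact mul_mem h hf
  | succ k =>
    obtain ⟨h, a1, a2, a3⟩ := h
    refine ⟨h * f, mul_mem a1 (hP hf), fun hc => a2 ?_, by simpa [mul_assoc] using a3⟩
    simpa using mul_mem hc (inv_mem hf)

theorem AltZ.cons (hP : F ≤ P) (hQ : F ≤ Q) {k : ℕ} {g κ : G} (h : AltZ F k P Q g)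
    (h1 : κ ∈ (if Even k then P else Q)) (h2 : κ ∉ F) : AltZ F (k + 1) P Q (κ * g) := by
  induction k generalizing P Q g with
  | zero =>
    simp only [Even.zero, if_true] at h1
    refine ⟨κ * g, mul_mem h1 (hP h), fun hc => h2 ?_, by simp [AltZ]⟩
    simpa using mul_mem hc (inv_mem h)
  | succ k ih =>
    obtain ⟨h, a1, a2, a3⟩ := h
    refine ⟨h, a1, a2, ?_⟩
    rw [mul_assoc]
    refine ih hQ hP a3 ?_
    by_cases he : Even k <;> simpa [Nat.even_add_one, he] using h1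

theorem Girth.unique_same (hP : F ≤ P) (hQ : F ≤ Q) {μ : ℕ} (hG : Girth F P Q μ) {i j : ℕ} {g : G}
    (hij : i + j < 2 * μ) (h1 : AltZ F i P Q g) (h2 : AltZ F j P Q g) : i = j := by
  induction i generalizing j P Q g with
  | zero =>
    by_contra hne
    exact hG j 0 g (by omega) (by omega) h2 h1
  | succ i ih =>
    cases j with
    | zero => exact (hG (i + 1) 0 g (by omega) (by omega) h1 h2).elim
    | succ j =>
      obtain ⟨h, a1, a2, a3⟩ := h1
      obtain ⟨h', b1, b2, b3⟩ := h2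
      by_cases hη : h * h'⁻¹ ∈ F
      · have := a3.mul_right hQ hη
        rw [show g * h⁻¹ * (h * h'⁻¹) = g * h'⁻¹ by group] at this
        rw [ih hQ hP hG.symm (by omega) this b3]
      · exact (hG (i + 1) j (g * h'⁻¹) (by omega) (by omega)
          ⟨h * h'⁻¹, mul_mem a1 (inv_mem b1), hη, by
            rwa [show g * h'⁻¹ * (h * h'⁻¹)⁻¹ = g * h⁻¹ by group]⟩ b3).elim

theorem AltZ.pr {k : ℕ} {g : G} (h : AltZ F k P Q g) : Pr F k P Q g := by
  induction k generalizing P Q g with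
  | zero => exact h
  | succ k ih => obtain ⟨h, a1, -, a3⟩ := h; exact ⟨h, a1, ih a3⟩

theorem Pr.succ_swap {k : ℕ} {g : G} (h : Pr F k P Q g) : Pr F (k + 1) Q P g :=
  ⟨1, one_mem _, by simpa using h⟩

theorem Pr.succ (hP : F ≤ P) (hQ : F ≤ Q) {k : ℕ} {g : G} (h : Pr F k P Q g) :
    Pr F (k + 1) P Q g := by
  induction k generalizing P Q g with
  | zero => exact ⟨g, hP h, by simp [Pr]⟩
  | succ k ih => obtain ⟨h, a1, a3⟩ := h; exact ⟨h, a1, ih hQ hP a3⟩

theorem Pr.mono (hP : F ≤ P) (hQ : F ≤ Q) {k k' : ℕ} {g : G} (h : Pr F k P Q g) (hk : k ≤ k') :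
    Pr F k' P Q g := by
  induction hk with
  | refl => exact h
  | step _ ih => exact ih.succ hP hQ

theorem Pr.mul_right {k : ℕ} {g f : G} (h : Pr F (k + 1) P Q g) (hf : f ∈ P) :
    Pr F (k + 1) P Q (g * f) := by
  obtain ⟨h, a1, a3⟩ := h
  exact ⟨h * f, mul_mem a1 hf, by simpa [mul_assoc] using a3⟩

theorem Pr.mul_right' (hP : F ≤ P) {k : ℕ} {g f : G} (h : Pr F k P Q g) (hf : f ∈ F) :
    Pr F k P Q (g * f) := by
  cases k with
  | zero => exact mul_mem h hf
  | succ k => exact h.mul_right (hP hf)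

theorem Pr.mul_left {k : ℕ} {g f : G} (h : Pr F (k + 1) P Q g)
    (hf : f ∈ (if Even k then P else Q)) (hP : F ≤ P) (hQ : F ≤ Q) :
    Pr F (k + 1) P Q (f * g) := by
  induction k generalizing P Q g with
  | zero =>
    simp only [Even.zero, if_true] at hf
    obtain ⟨h, a1, a2⟩ := h
    refine ⟨f * g, ?_, by simp [Pr]⟩
    have : g = g * h⁻¹ * h := by simp
    rw [this]
    exact mul_mem hf (mul_mem (hP a2) a1)
  | succ k ih =>
    obtain ⟨h, a1, a3⟩ := h
    refine ⟨h, a1, ?_⟩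
    rw [mul_assoc]
    refine ih a3 ?_ hQ hP
    by_cases he : Even k <;> simpa [Nat.even_add_one, he] using hf

theorem Pr.mul_left' {k : ℕ} {g f : G} (h : Pr F k P Q g) (hf : f ∈ F) : Pr F k P Q (f * g) := by
  induction k generalizing P Q g with
  | zero => exact mul_mem hf h
  | succ k ih =>
    obtain ⟨h, a1, a3⟩ := h
    exact ⟨h, a1, by rw [mul_assoc]; exact ih a3⟩

theorem Pr.red (hP : F ≤ P) (hQ : F ≤ Q) {k : ℕ} {g : G} (h : Pr F k P Q g) :
    (∃ i ≤ k, AltZ F i P Q g) ∨ (∃ i < k, AltZ F i Q P g) := by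
  induction k generalizing P Q g with
  | zero => exact Or.inl ⟨0, le_rfl, h⟩
  | succ k ih =>
    obtain ⟨h, a1, a3⟩ := h
    have e : g = g * h⁻¹ * h := by simp
    rcases ih hQ hP a3 with ⟨i, hi, b⟩ | ⟨i, hi, b⟩
    · by_cases hF : h ∈ F
      · exact Or.inr ⟨i, by omega, e ▸ b.mul_right hQ hF⟩
      · exact Or.inl ⟨i + 1, by omega, h, a1, hF, b⟩
    · cases i with
      | zero =>
        by_cases hF : g ∈ F
        · exact Or.inl ⟨0, by omega, hF⟩
        · exact Or.inl ⟨1, by omega, g, e ▸ mul_mem (hP b) a1, hF, by simp [AltZ]⟩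
      | succ i =>
        obtain ⟨h', b1, b2, b3⟩ := b
        by_cases hF : h' * h ∈ F
        · refine Or.inr ⟨i, by omega, ?_⟩
          have := b3.mul_right hQ hF
          rwa [show g * h⁻¹ * h'⁻¹ * (h' * h) = g by group] at this
        · exact Or.inl ⟨i + 1, by omega, h' * h, mul_mem b1 a1, hF, by
            rwa [show g * (h' * h)⁻¹ = g * h⁻¹ * h'⁻¹ by group]⟩

theorem Pr.mem {U : Subgroup G} (hF : F ≤ U) (hP : P ≤ U) (hQ : Q ≤ U) {k : ℕ} {g : G}
    (h : Pr F k P Q g) : g ∈ U := by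
  induction k generalizing P Q g with
  | zero => exact hF h
  | succ k ih =>
    obtain ⟨h, a1, a3⟩ := h
    simpa using mul_mem (ih hQ hP a3) (hP a1)

variable {α : Type*} [Primcodable α]

/-- girth at least `2 μ`, and the complements of the products of at most `μ` factors are r.e. -/
def GP (E : Eff G α) (U F P Q : Subgroup G) (μ : ℕ) : Prop :=
  Girth F P Q μ ∧ ∀ k ≤ μ, RE E (fun g => g ∈ U ∧ ¬ Pr F k P Q g) ∧
    RE E (fun g => g ∈ U ∧ ¬ Pr F k Q P g)

theorem GP.symm {E : Eff G α} {U : Subgroup G} {μ : ℕ} (h : GP E U F P Q μ) : GP E U F Q P μ :=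
  ⟨h.1.symm, fun k hk => (h.2 k hk).symm⟩

theorem GP.mono {E : Eff G α} {U : Subgroup G} {μ ν : ℕ} (h : GP E U F P Q μ) (hν : ν ≤ μ) :
    GP E U F P Q ν := ⟨h.1.mono hν, fun k hk => h.2 k (hk.trans hν)⟩

end Pool.Agent.H10
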