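import Pool.Agent.Lib.helper10.Cox2

/-! Subword patterns that are invariant under braid moves. -/

namespace Pool.Agent.H10

open List

variable {B : Type*} {M : CoxeterMatrix B}

theorem short_sublist {i j : B} {s : List B} (h : s <+ alt i j (M i j)) (hs : s.length ≤ 1) :
    s <+ alt j i (M i j) := by
  match s, hs with
  | [], _ => exact nil_sublist _
  | [a], _ => rw [singleton_sublist] at h ⊢; exact mem_alt_braid h

theorem pair_of_sublist {i j u v : B} {n : ℕ} {s : List B} (h : u :: v :: s <+ alt i j n)
    (huv : u ≠ v) : (u = i ∧ v = j) ∨ (u = j ∧ v = i) := by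
  have h1 := mem_alt (h.subset (show u ∈ u :: v :: s by simp))
  have h2 := mem_alt (h.subset (show v ∈ u :: v :: s by simp))
  rcases h1 with rfl | rfl <;> rcases h2 with rfl | rfl <;> simp_all

theorem sublist_split {P x m y : List B} (h : P <+ x ++ m ++ y) :
    ∃ s1 s2 s3, P = s1 ++ s2 ++ s3 ∧ s1 <+ x ∧ s2 <+ m ∧ s3 <+ y := by
  obtain ⟨a, s3, rfl, h1, h3⟩ := sublist_append_iff.1 h
  obtain ⟨s1, s2, rfl, h1, h2⟩ := sublist_append_iff.1 h1
  exact ⟨s1, s2, s3, rfl, h1, h2, h3⟩

theorem pair_sublist_alt (u v : B) {n : ℕ} (hn : 3 ≤ n) :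
    [u, v] <+ alt u v n ∧ [u, v] <+ alt v u n := by
  obtain ⟨n, rfl⟩ : ∃ k, n = k + 3 := ⟨n - 3, by omega⟩
  simp [alt]

theorem BE.pattern {P a b : List B} (h : BE M a b) (hn : P.Nodup)
    (hc : P.IsChain fun x y => 3 ≤ M x y) (ha : P <+ a) : P <+ b := by
  refine h.inv (P := fun l => P <+ l) ?_ ha
  intro x y i j h
  obtain ⟨s1, s2, s3, rfl, h1, h2, h3⟩ := sublist_split h
  refine (h1.append ?_).append h3
  have hn2 : s2.Nodup := hn.of_append_left.of_append_right
  have hc2 : s2.IsChain fun x y => 3 ≤ M x y := hc.left_of_append.right_of_append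
  match s2, h2, hn2, hc2 with
  | [], h2, _, _ => exact short_sublist h2 (by simp)
  | [_], h2, _, _ => exact short_sublist h2 (by simp)
  | [u, v], h2, hn2, hc2 =>
    have huv : u ≠ v := by simpa using hn2
    have h3 : 3 ≤ M u v := by simpa using hc2
    rcases pair_of_sublist h2 huv with ⟨rfl, rfl⟩ | ⟨rfl, rfl⟩
    · exact (pair_sublist_alt u v h3).2
    · exact (pair_sublist_alt u v (M.symmetric u v ▸ h3)).1
  | u :: v :: w :: s, h2, hn2, _ =>
    exfalso
    have a1 := mem_alt (h2.subset (show u ∈ u :: v :: w :: s by simp))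
    have a2 := mem_alt (h2.subset (show v ∈ u :: v :: w :: s by simp))
    have a3 := mem_alt (h2.subset (show w ∈ u :: v :: w :: s by simp))
    simp only [nodup_cons, mem_cons, not_or] at hn2
    rcases a1 with rfl | rfl <;> rcases a2 with rfl | rfl <;> rcases a3 with rfl | rfl <;> simp_all

theorem isChain_alt {a b : B} (h : a ≠ b) (n : ℕ) : (alt a b n).IsChain (· ≠ ·) := by
  induction n generalizing a b with
  | zero => simp [alt]
  | succ n ih =>
    cases n with
    | zero => simp [alt]
    | succ n =>
      have := ih h.symm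
      simp only [alt] at this ⊢
      exact IsChain.cons_cons h this

/-- the word contains an alternating subword of length `k` -/
def HasAlt (a b : B) (k : ℕ) (l : List B) : Prop := alt a b k <+ l ∨ alt b a k <+ l

theorem HasAlt.symm {a b : B} {k : ℕ} {l : List B} (h : HasAlt a b k l) : HasAlt b a k l := Or.symm h

theorem HasAlt.mono {a b : B} {k k' : ℕ} {l : List B} (h : HasAlt a b k l) (hk : k' ≤ k) :
    HasAlt a b k' l := by
  obtain ⟨d, rfl⟩ := Nat.exists_eq_add_of_le hk
  rcases h with h | h <;> rw [alt_add] at h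
  · exact Or.inl ((sublist_append_left _ _).trans h)
  · exact Or.inr ((sublist_append_left _ _).trans h)

theorem BE.hasAlt {a b : B} (hab : a ≠ b) {l l' : List B} (h : BE M l l')
    (hl : HasAlt a b (M a b) l) : HasAlt a b (M a b) l' := by
  refine h.inv (P := HasAlt a b (M a b)) ?_ hl
  have key : ∀ a b : B, a ≠ b → ∀ x y i j, alt a b (M a b) <+ x ++ alt i j (M i j) ++ y →
      HasAlt a b (M a b) (x ++ alt j i (M i j) ++ y) := by
    intro a b hab x y i j h
    obtain ⟨s1, s2, s3, e, h1, h2, h3⟩ := sublist_split h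
    by_cases hs : s2.length ≤ 1
    · exact Or.inl (e ▸ (h1.append (short_sublist h2 hs)).append h3)
    · have hc : s2.IsChain (· ≠ ·) := (e ▸ isChain_alt hab (M a b)).left_of_append.right_of_append
      match s2, hs, hc, e, h2 with
      | [], hs, _, _, _ => simp at hs
      | [_], hs, _, _, _ => simp at hs
      | u :: v :: s, _, hc, e, h2 =>
        have huv : u ≠ v := (isChain_cons_cons.1 hc).1
        have a1 : u = a ∨ u = b := mem_alt (n := M a b) (by rw [e]; simp)
        have a2 : v = a ∨ v = b := mem_alt (n := M a b) (by rw [e]; simp)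
        have sub : alt j i (M i j) <+ x ++ alt j i (M i j) ++ y :=
          (sublist_append_right _ _).trans (sublist_append_left _ _)
        have : (i = a ∧ j = b) ∨ (i = b ∧ j = a) := by
          rcases pair_of_sublist h2 huv with ⟨rfl, rfl⟩ | ⟨rfl, rfl⟩ <;>
          rcases a1 with rfl | rfl <;> rcases a2 with rfl | rfl <;> simp_all
        rcases this with ⟨rfl, rfl⟩ | ⟨rfl, rfl⟩
        · exact Or.inr sub
        · rw [M.symmetric j i]; exact Or.inl sub
  intro x y i j h
  rcases h with h | h
  · exact key a b hab x y i j h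
  · rw [M.symmetric a b] at h ⊢
    exact (key b a hab.symm x y i j h).symm

theorem not_hasAlt_append {a b : B} (hab : a ≠ b) {k : ℕ} {l m : List B} (hl : ¬ HasAlt a b k l)
    (hm : a ∉ m) : ¬ HasAlt a b (k + 1) (l ++ m) := by
  have key : ∀ x y : B, x ≠ y → (x ∉ m ∨ y ∉ m) → alt x y (k + 1) <+ l ++ m → alt x y k <+ l := by
    intro x y hxy hm h
    obtain ⟨s1, s2, e, h1, h2⟩ := sublist_append_iff.1 h
    have hc : s2.IsChain (· ≠ ·) := (e ▸ isChain_alt hxy (k + 1)).right_of_append
    have hs : s2.length ≤ 1 := by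
      match s2, hc, e, h2 with
      | [], _, _, _ => simp
      | [_], _, _, _ => simp
      | u :: v :: s, hc, e, h2 =>
        exfalso
        have huv : u ≠ v := (isChain_cons_cons.1 hc).1
        have a1 : u = x ∨ u = y := mem_alt (n := k + 1) (by rw [e]; simp)
        have a2 : v = x ∨ v = y := mem_alt (n := k + 1) (by rw [e]; simp)
        have b1 : u ∈ m := h2.subset (by simp)
        have b2 : v ∈ m := h2.subset (by simp)
        rcases a1 with rfl | rfl <;> rcases a2 with rfl | rfl <;> simp_all
    have hlen := congrArg List.length e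
    simp only [length_alt, length_append] at hlen
    have e1 : alt x y k = s1.take k := by
      have := congrArg (List.take k) e
      rw [alt_succ', take_append_of_le_length (by simp), take_of_length_le (by simp),
        take_append_of_le_length (by omega)] at this
      exact this
    rw [e1]; exact (take_sublist _ _).trans h1
  rintro (h | h)
  · exact hl (Or.inl (key a b hab (Or.inl hm) h))
  · exact hl (Or.inr (key b a hab.symm (Or.inr hm) h))

end Pool.Agent.H10
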