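import Pool.Agent.Lib.helper10.Tri1
import Pool.Agent.Lib.helper10.GP

/-! Non-positively curved triangles of groups: canonical positions of chambers. -/

set_option linter.unusedSectionVars false

namespace Pool.Agent.H10

open CoxeterSystem

universe u

/-- data of a non-spherical triangle of groups inside a group -/
structure Tri (G : Type u) [Group G] where
  N : CoxeterMatrix (Fin 3)
  hN : ∀ i j, N i j ≠ 0
  no3 : ∀ w, ∃ x, ¬ RD N w x
  F : Subgroup G
  H : Fin 3 → Subgroup G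
  V : Fin 3 → Subgroup G
  U : Subgroup G
  c : Fin 3
  FH : ∀ p, F ≤ H p
  HV : ∀ p r, p ≠ r → H p ≤ V r
  VU : ∀ r, V r ≤ U
  gen : U ≤ Subgroup.closure (⋃ r, (V r : Set G))
  girth : ∀ p r, p ≠ r → Girth F (H p) (H (th r p)) (mu N r)
  univ : ∀ (Ω : Type u) (ρ : ∀ r, V r →* Equiv.Perm Ω),
    (∀ p q s (hq : p ≠ q) (hs : p ≠ s) h (hh : h ∈ H p),
      ρ q ⟨h, HV p q hq hh⟩ = ρ s ⟨h, HV p s hs hh⟩) →
    ∃ Φ : U →* Equiv.Perm Ω, ∀ r (v : V r), Φ ⟨v, VU r v.2⟩ = ρ r v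

/-- histories of vertices -/
inductive Node (G : Type u) (W : Type) : Type u
  | root : Node G W
  | real : Set G → W → Node G W → Node G W → Node G W
  | virt : Set G → Fin 3 → W → Node G W → Node G W

variable {G : Type u} [Group G]

/-- left coset -/
def cos (g : G) (K : Subgroup G) : Set G := {x | g⁻¹ * x ∈ K}

theorem mem_cos_self (g : G) (K : Subgroup G) : g ∈ cos g K := by simp [cos]

theorem cos_eq {g g' : G} {K : Subgroup G} (h : g⁻¹ * g' ∈ K) : cos g K = cos g' K := by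
  ext x
  simp only [cos, Set.mem_ofPred_eq]
  constructor
  · intro hx
    have := mul_mem (inv_mem h) hx
    rwa [show (g⁻¹ * g')⁻¹ * (g⁻¹ * x) = g'⁻¹ * x by group] at this
  · intro hx
    have := mul_mem h hx
    rwa [show g⁻¹ * g' * (g'⁻¹ * x) = g⁻¹ * x by group] at this

theorem mem_symm {g g' : G} {K : Subgroup G} (h : g⁻¹ * g' ∈ K) : g'⁻¹ * g ∈ K := by
  simpa using inv_mem h

theorem mem_trans {a b c : G} {K : Subgroup G} (h : a⁻¹ * b ∈ K) (h' : b⁻¹ * c ∈ K) :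
    a⁻¹ * c ∈ K := by
  have := mul_mem h h'
  rwa [show a⁻¹ * b * (b⁻¹ * c) = a⁻¹ * c by group] at this

namespace Tri

variable (T : Tri G)

/-- nodes -/
abbrev Nd := Node G T.N.Group

/-- subgroup attached to a kind -/
def sb : Option (Fin 3) → Subgroup G
  | none => T.F
  | some p => T.H p

/-- anchor -/
def nK : T.Nd → Set G
  | .root => cos 1 (T.H T.c)
  | .real K _ _ _ => K
  | .virt K _ _ _ => K

/-- kind of the anchor -/
def nk : T.Nd → Option (Fin 3)
  | .root => some T.c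
  | .real _ _ _ _ => none
  | .virt _ p _ _ => some p

/-- position of the anchor -/
def nu : T.Nd → T.N.Group
  | .root => sg T.N T.c
  | .real _ u _ _ => u
  | .virt _ _ u _ => u

/-- well-formed nodes -/
def Valid (r : Fin 3) (n : T.Nd) : Prop :=
  (∃ g1, T.nK n = cos g1 (T.sb (T.nk n))) ∧ (T.nk n = none → ∀ x, x ≠ r → ¬ RD T.N (T.nu n) x) ∧
    ∀ p, T.nk n = some p → p ≠ r ∧ RD T.N (T.nu n) p ∧ ¬ Top T.N r (T.nu n)

/-- ascending paths from the anchor -/
inductive RPath (r : Fin 3) (n : T.Nd) : G → T.N.Group → Prop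
  | base (g : G) : g ∈ T.nK n → RPath r n g (T.nu n)
  | step (g : G) (w : T.N.Group) (x : Fin 3) (h : G) : RPath r n g w → x ≠ r → ¬ RD T.N w x →
      h ∈ T.H x → h ∉ T.F → RPath r n (g * h) (w * sg T.N x)

/-- non-terminal chambers -/
def NT (r : Fin 3) (n : T.Nd) (g : G) (w : T.N.Group) : Prop := T.RPath r n g w ∧ ¬ Top T.N r w

/-- terminal chambers -/
def Term (r : Fin 3) (n : T.Nd) (g : G) : Prop := ¬ ∃ w, T.NT r n g w

/-- local position -/
def Pos (r : Fin 3) (n : T.Nd) (g : G) (w : T.N.Group) : Prop :=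
  T.NT r n g w ∨ (T.Term r n g ∧ IsTop T.N r (T.nu n) w)

/-- the panel of type `p` of `g` has a non-terminal gate -/
def Near (r : Fin 3) (n : T.Nd) (p : Fin 3) (g : G) : Prop :=
  ∃ g' w', T.NT r n g' w' ∧ ¬ RD T.N w' p ∧ g'⁻¹ * g ∈ T.H p

/-- `g` lies in the coset of the node -/
def In (r : Fin 3) (n : T.Nd) (g : G) : Prop := ∀ k ∈ T.nK n, k⁻¹ * g ∈ T.V r

variable {T}

theorem FV (r : Fin 3) : T.F ≤ T.V r := (T.FH (r + 1)).trans (T.HV _ _ (succ_ne3 r))

theorem F_le_sb (k : Option (Fin 3)) : T.F ≤ T.sb k := by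
  cases k
  · exact le_rfl
  · exact T.FH _

variable {r : Fin 3} {n : T.Nd}

theorem Valid.not_top (hv : T.Valid r n) : ¬ Top T.N r (T.nu n) := by
  cases h : T.nk n with
  | none => exact fun ht => hv.2.1 h _ (succ_ne3 r) (ht _ (succ_ne3 r))
  | some p => exact (hv.2.2 p h).2.2

theorem Valid.mem_iff (hv : T.Valid r n) {k : G} (hk : k ∈ T.nK n) (k' : G) :
    k' ∈ T.nK n ↔ k⁻¹ * k' ∈ T.sb (T.nk n) := by
  obtain ⟨g1, h⟩ := hv.1
  rw [h] at hk ⊢
  rw [cos_eq hk]; rfl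

theorem Valid.nonempty (hv : T.Valid r n) : ∃ k, k ∈ T.nK n := by
  obtain ⟨g1, h⟩ := hv.1
  exact ⟨g1, h ▸ mem_cos_self _ _⟩

theorem Valid.sb_le (hv : T.Valid r n) : T.sb (T.nk n) ≤ T.V r := by
  cases h : T.nk n with
  | none => exact FV r
  | some p => exact T.HV _ _ (hv.2.2 p h).1

theorem RPath.mem_res {g : G} {w : T.N.Group} (h : T.RPath r n g w) :
    (T.nu n)⁻¹ * w ∈ res T.N r := by
  induction h with
  | base => simp
  | step g w x h _ hx _ _ _ ih => rw [← mul_assoc]; exact mul_mem ih (sg_mem_res hx)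

theorem RPath.mul_F (hv : T.Valid r n) {g f : G} {w : T.N.Group} (h : T.RPath r n g w)
    (hf : f ∈ T.F) : T.RPath r n (g * f) w := by
  cases h with
  | base g hg => exact RPath.base _ ((hv.mem_iff hg _).2 (by simpa using F_le_sb _ hf))
  | step g w x h h1 h2 h3 h4 h5 =>
    rw [mul_assoc]
    exact RPath.step g w x _ h1 h2 h3 (mul_mem h4 (T.FH _ hf))
      fun hc => h5 (by simpa using mul_mem hc (inv_mem hf))

theorem RPath.conv (hv : T.Valid r n) {g : G} {w : T.N.Group} (h : T.RPath r n g w) :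
    ∃ g0 ∈ T.nK n, ∃ k x, x ≠ r ∧ w = T.nu n * (cx T.N).wordProd (alternatingWord (th r x) x k) ∧
      ln T.N w = ln T.N (T.nu n) + k ∧ (1 ≤ k → RD T.N w x) ∧
      AltZ T.F k (T.H x) (T.H (th r x)) (g0⁻¹ * g) ∧
      ∀ p, T.nk n = some p → x = if Even k then p else th r p := by
  induction h with
  | base g hg =>
    cases hk : T.nk n with
    | none => exact ⟨g, hg, 0, r + 1, succ_ne3 r, by simp [alternatingWord], rfl, by simp,
        by simp [AltZ], by simp⟩
    | some p => exact ⟨g, hg, 0, p, (hv.2.2 p hk).1, by simp [alternatingWord], rfl, by simp,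
        by simp [AltZ], by simp⟩
  | step g w z h _ hz hd h1 h2 ih =>
    obtain ⟨g0, hg0, k, x, a1, a2, a3, a4, a5, a6⟩ := ih
    have hl := ln_mul hd
    by_cases hc : k = 0 ∧ T.nk n = none
    · obtain ⟨rfl, hn⟩ := hc
      refine ⟨g0, hg0, 1, z, hz, by simp [a2, alternatingWord], by omega, fun _ => rd_mul_self hd,
        ⟨h, h1, h2, by simpa [AltZ, mul_assoc] using a5⟩, by simp [hn]⟩
    · have hx : RD T.N w x := by
        by_cases hk : k = 0
        · subst hk
          cases hn : T.nk n with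
          | none => exact absurd ⟨rfl, hn⟩ hc
          | some p =>
            have := a6 p hn
            simp only [Even.zero, if_true] at this
            rw [a2, this]
            simpa [alternatingWord] using (hv.2.2 p hn).2.1
        · exact a4 (by omega)
      have hzx : z = th r x := eq_th a1.symm hz fun e => hd (e ▸ hx)
      have hxz : th r z = x := by rw [hzx, th_th]
      refine ⟨g0, hg0, k + 1, z, hz, ?_, by omega, fun _ => rd_mul_self hd, ⟨h, h1, h2, ?_⟩, ?_⟩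
      · rw [alternatingWord_succ, wordProd_concat, hxz, ← mul_assoc, a2, ← hzx]
      · rw [hxz, hzx]; simpa [mul_assoc] using a5
      · intro p hp
        rw [hzx, a6 p hp]
        by_cases he : Even k <;> simp [Nat.even_add_one, he, th_th]

theorem RPath.unique (hv : T.Valid r n) {g g' : G} {w w' : T.N.Group} (h : T.RPath r n g w)
    (h' : T.RPath r n g' w') (hg : g⁻¹ * g' ∈ T.F) (ht : ¬ Top T.N r w') : w = w' := by
  have hp := h.mul_F hv hg
  rw [mul_inv_cancel_left] at hp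
  obtain ⟨g0, hg0, k, x, a1, a2, a3, -, a5, a6⟩ := hp.conv hv
  obtain ⟨g0', hg0', k', x', b1, b2, b3, -, b5, b6⟩ := h'.conv hv
  have l1 := loc_add h.mem_res
  have l2 := loc_add h'.mem_res
  have l3 := (loc_spec T.hN r w).1
  have l4 := loc_spec T.hN r w'
  have l5 : loc T.N r w' < mu T.N r := lt_of_le_of_ne l4.1 (mt l4.2.2 ht)
  have hκ := (hv.mem_iff hg0 _).1 hg0'
  have key : ∀ j, k + j < 2 * mu T.N r → AltZ T.F j (T.H x') (T.H (th r x')) (g0⁻¹ * g') →
      k = j ∧ (k = 0 ∨ x = x') := by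
    intro j hj hA
    by_cases hx : x = x'
    · subst hx
      exact ⟨(T.girth x r a1).unique_same (T.FH _) (T.FH _) hj a5 hA, Or.inr rfl⟩
    · have e : x' = th r x := eq_th a1.symm b1 (Ne.symm hx)
      rw [e, th_th] at hA
      have : ¬ 1 ≤ k + j := fun h1 => T.girth x r a1 k j _ h1 hj a5 hA
      exact ⟨by omega, Or.inl (by omega)⟩
  by_cases hF : g0⁻¹ * g0' ∈ T.F
  · have := b5.mul_left hF
    rw [show g0⁻¹ * g0' * (g0'⁻¹ * g') = g0⁻¹ * g' by group] at this
    obtain ⟨rfl, rfl | rfl⟩ := key k' (by omega) this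
    · rw [a2, b2]; rfl
    · rw [a2, b2]
  · exfalso
    cases hn : T.nk n with
    | none => rw [hn] at hκ; exact hF hκ
    | some p =>
      rw [hn] at hκ
      have l6 := one_le_loc (hv.2.2 p hn).1 (hv.2.2 p hn).2.1
      have := b5.cons (T.FH _) (T.FH _) (κ := g0⁻¹ * g0') (by
        rw [b6 p hn]
        by_cases he : Even k' <;> simpa [he, th_th, sb] using hκ) hF
      rw [show g0⁻¹ * g0' * (g0'⁻¹ * g') = g0⁻¹ * g' by group] at this
      obtain ⟨rfl, h0 | h0⟩ := key (k' + 1) (by omega) this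
      · omega
      · rw [a6 p hn, b6 p hn] at h0
        have := th_ne_right (hv.2.2 p hn).1.symm
        by_cases he : Even k' <;> simp [Nat.even_add_one, he] at h0
        · exact this h0
        · exact this h0.symm

theorem Term.mul_F (hv : T.Valid r n) {g g' : G} (h : T.Term r n g) (hg : g⁻¹ * g' ∈ T.F) :
    T.Term r n g' := by
  rintro ⟨w, h1, h2⟩
  have := h1.mul_F hv (mem_symm hg)
  rw [mul_inv_cancel_left] at this
  exact h ⟨w, this, h2⟩

theorem Pos.unique (hv : T.Valid r n) {g g' : G} {w w' : T.N.Group} (h : T.Pos r n g w)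
    (h' : T.Pos r n g' w') (hg : g⁻¹ * g' ∈ T.F) : w = w' := by
  rcases h with h | h <;> rcases h' with h' | h'
  · exact h.1.unique hv h'.1 hg h'.2
  · exact absurd ⟨w, h⟩ (h'.1.mul_F hv (mem_symm hg))
  · exact absurd ⟨w', h'⟩ (h.1.mul_F hv hg)
  · exact h.2.unique h'.2

theorem Pos.nt {g : G} {w : T.N.Group} (h : T.Pos r n g w) {p : Fin 3} (hp : p ≠ r)
    (hd : ¬ RD T.N w p) : T.NT r n g w :=
  h.resolve_right fun h => hd (h.2.2 p hp)

theorem RPath.pos (hv : T.Valid r n) {g : G} {w : T.N.Group} (h : T.RPath r n g w) :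
    T.Pos r n g w := by
  by_cases ht : Top T.N r w
  · refine Or.inr ⟨?_, h.mem_res, ht⟩
    rintro ⟨w', h1, h2⟩
    exact h2 (h.unique hv h1 (by simp) h2 ▸ ht)
  · exact Or.inl ⟨h, ht⟩

theorem Pos.ext (hv : T.Valid r n) {g g' : G} {w : T.N.Group} (h : T.Pos r n g w) {p : Fin 3}
    (hp : p ≠ r) (hd : ¬ RD T.N w p) (h1 : g⁻¹ * g' ∈ T.H p) (h2 : g⁻¹ * g' ∉ T.F) :
    T.Pos r n g' (w * sg T.N p) := by
  have := RPath.step _ _ p _ (h.nt hp hd).1 hp hd h1 h2
  rw [mul_inv_cancel_left] at this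
  exact this.pos hv

theorem Pos.gate (hv : T.Valid r n) {g g' : G} {w w' : T.N.Group} (h : T.Pos r n g w)
    (h' : T.Pos r n g' w') {p : Fin 3} (hp : p ≠ r) (hd : ¬ RD T.N w p) (hd' : ¬ RD T.N w' p)
    (h1 : g⁻¹ * g' ∈ T.H p) : g⁻¹ * g' ∈ T.F := by
  by_contra h2
  have := (h.ext hv hp hd h1 h2).unique hv h' (by simp)
  exact hd' (this ▸ rd_mul_self hd)

theorem exists_pos (r : Fin 3) (n : T.Nd) (g : G) : ∃ w, T.Pos r n g w := by
  by_cases h : T.Term r n g
  · obtain ⟨w, hw⟩ := exists_isTop T.hN r (T.nu n)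
    exact ⟨w, Or.inr ⟨h, hw⟩⟩
  · obtain ⟨w, hw⟩ := not_not.1 h
    exact ⟨w, Or.inl hw⟩

theorem NT.desc_unique {g : G} {w : T.N.Group} (h : T.NT r n g w) {x y : Fin 3} (hx : x ≠ r)
    (hy : y ≠ r) (h1 : RD T.N w x) (h2 : RD T.N w y) : x = y := by
  by_contra hne
  refine h.2 fun z hz => ?_
  rcases fin3_cases hne z with rfl | rfl | rfl
  · exact h1
  · exact h2
  · exact absurd (eq_th hne hx.symm hy.symm).symm hz

/-- all chambers of a far panel are terminal -/
theorem far_term (hv : T.Valid r n) {g g' : G} {p : Fin 3} (hp : p ≠ r) (h : T.Term r n g)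
    (hf : ¬ T.Near r n p g) (hg : g⁻¹ * g' ∈ T.H p) : T.Term r n g' := by
  rintro ⟨w, hw⟩
  by_cases hd : RD T.N w p
  · obtain ⟨h1, h2⟩ := hw
    cases h1 with
    | base g' hg' =>
      cases hn : T.nk n with
      | none => exact hv.2.1 hn p hp hd
      | some p' =>
        have e : p' = p := NT.desc_unique ⟨RPath.base _ hg', h2⟩ (hv.2.2 p' hn).1 hp
          (hv.2.2 p' hn).2.1 hd
        refine h ⟨_, RPath.base g ((hv.mem_iff hg' _).2 ?_), h2⟩
        rw [hn, e]; exact mem_symm hg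
    | step g1 w1 x h1 a1 a2 a3 a4 a5 =>
      have e : x = p := NT.desc_unique ⟨RPath.step _ _ _ _ a1 a2 a3 a4 a5, h2⟩ a2 hp
        (rd_mul_self a3) hd
      subst e
      refine hf ⟨g1, w1, ⟨a1, fun ht => a3 (ht _ a2)⟩, a3, ?_⟩
      exact mem_trans (by simpa using a4) (mem_symm hg)
  · exact hf ⟨g', w, hw, hd, mem_symm hg⟩

theorem near_spec (hv : T.Valid r n) {g g' : G} {w w' : T.N.Group} {p : Fin 3} (hp : p ≠ r)
    (h : T.Term r n g) (ht : IsTop T.N r (T.nu n) w) (h' : T.Pos r n g' w') (hd : ¬ RD T.N w' p)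
    (hg : g'⁻¹ * g ∈ T.H p) : g'⁻¹ * g ∉ T.F ∧ w = w' * sg T.N p := by
  have h1 : g'⁻¹ * g ∉ T.F := fun hF => (h.mul_F hv (mem_symm hF)) ⟨_, h'.nt hp hd⟩
  exact ⟨h1, Pos.unique hv (Or.inr ⟨h, ht⟩) (h'.ext hv hp hd hg h1) (by simp)⟩

theorem Near.congr {g g' : G} {p : Fin 3} (hg : g⁻¹ * g' ∈ T.H p) :
    T.Near r n p g ↔ T.Near r n p g' :=
  ⟨fun ⟨a, b, h1, h2, h3⟩ => ⟨a, b, h1, h2, mem_trans h3 hg⟩,
    fun ⟨a, b, h1, h2, h3⟩ => ⟨a, b, h1, h2, mem_trans h3 (mem_symm hg)⟩⟩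

theorem In.mul {g g' : G} (h : T.In r n g) (hg : g⁻¹ * g' ∈ T.V r) : T.In r n g' :=
  fun k hk => mem_trans (h k hk) hg

theorem In.rel (hv : T.Valid r n) {g g' : G} (h : T.In r n g) (h' : T.In r n g') :
    g⁻¹ * g' ∈ T.V r := by
  obtain ⟨k, hk⟩ := hv.nonempty
  exact mem_trans (mem_symm (h k hk)) (h' k hk)

theorem Valid.in_of_mem (hv : T.Valid r n) {g : G} (h : g ∈ T.nK n) : T.In r n g :=
  fun _ hk => hv.sb_le ((hv.mem_iff hk _).1 h)

theorem top_not_third {w : T.N.Group} (h : Top T.N r w) : ¬ RD T.N w r := by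
  intro hr
  obtain ⟨x, hx⟩ := T.no3 w
  by_cases e : x = r
  · exact hx (e ▸ hr)
  · exact hx (h x e)

theorem top_unique {r' : Fin 3} {w : T.N.Group} (h : Top T.N r w) (h' : Top T.N r' w) : r = r' := by
  by_contra hne
  exact top_not_third h (h' r hne)

end Tri

end Pool.Agent.H10
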