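import Pool.Agent.Lib.helper10.Mon2
import Pool.Agent.Lib.helper10.Pattern
import Pool.Agent.Lib.helper10.Tri2

/-! Lattice arguments in spherical Artin groups: climbing, girth six, bounded search. -/

set_option linter.unusedSectionVars false

namespace Pool.Agent.H10

open CoxeterSystem List

variable {B : Type*} {M : CoxeterMatrix B} [Fintype B] [DecidableEq B]

theorem wclimb {Q P1 P2 : Set B} {b : B} (hP : ∀ c ∈ P1, c ∈ Q ∨ c = b) {l u1 p1 u2 p2 : List B}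
    (a1 : Ov Q u1) (a2 : Ov Q u2) (a3 : Ov P1 p1) (a4 : Ov P2 p2) (h1 : Dv M l (u1 ++ p1))
    (h2 : Dv M l (u2 ++ p2)) : Ov Q l ∨ ∃ l0 v1 v2 q1 q2 d1 d2, Ov Q l0 ∧ Ov Q v1 ∧ Ov Q v2 ∧
      Ov P1 d1 ∧ Ov P2 d2 ∧ Ov P1 q1 ∧ Ov P2 q2 ∧ BE M (l0 ++ v1) (u1 ++ d1) ∧
      BE M (l0 ++ v2) (u2 ++ d2) ∧ Dv M [b] (v1 ++ q1) ∧ Dv M [b] (v2 ++ q2) := by
  induction l generalizing u1 p1 u2 p2 with
  | nil => exact Or.inl Ov.nil
  | cons s l ih =>
    by_cases hs : s ∈ Q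
    · have key : ∀ {P : Set B} {u p : List B}, Ov Q u → Ov P p → Dv M (s :: l) (u ++ p) →
          ∃ u' d p', Ov Q u' ∧ Ov P d ∧ Ov P p' ∧ BE M (s :: u') (u ++ d) ∧ Dv M l (u' ++ p') := by
        intro P u p b1 b2 h
        obtain ⟨m, m0, ⟨u', m1⟩, ⟨d, m2⟩, m3⟩ := exists_lcm (T := Q) (u := [s]) (v := u)
          (by simpa using hs) b1 h.head (Dv.append _ _)
        obtain ⟨p', hp'⟩ := (m2.dv.trans (m3 _ h.head (Dv.append _ _))).cancel
        have o := ov_append.1 (b2.be hp')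
        refine ⟨u', d, p', (ov_append.1 (Ov.be m0 m1)).2, o.1, o.2, m1.trans m2.symm, ?_⟩
        refine Dv.cancel (p := [s]) (h.trans (BE.dv ?_))
        refine ((BE.refl u).append hp'.symm).trans ?_
        rw [← List.append_assoc, ← List.append_assoc]
        exact (m2.trans m1.symm).append (BE.refl _)
      obtain ⟨u1', e1, p1', b1, b2, b3, b4, b5⟩ := key a1 a3 h1
      obtain ⟨u2', e2, p2', c1, c2, c3, c4, c5⟩ := key a2 a4 h2
      rcases ih b1 c1 b3 c3 b5 c5 with h | ⟨l0, v1, v2, q1, q2, d1, d2, f0, f1, f2, f3, f4, f5, f6,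
        f7, f8, f9, f10⟩
      · exact Or.inl (ov_cons.2 ⟨hs, h⟩)
      · refine Or.inr ⟨s :: l0, v1, v2, q1, q2, e1 ++ d1, e2 ++ d2, ov_cons.2 ⟨hs, f0⟩, f1, f2,
          ov_append.2 ⟨b2, f3⟩, ov_append.2 ⟨c2, f4⟩, f5, f6, (f7.cons s).trans ?_,
          (f8.cons s).trans ?_, f9, f10⟩
        · rw [← List.append_assoc]; exact b4.append (BE.refl _)
        · rw [← List.append_assoc]; exact c4.append (BE.refl _)
    · obtain rfl : s = b := by
        rcases List.mem_append.1 (h1.mem (show s ∈ s :: l by simp)) with h | h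
        · exact absurd (a1 s h) hs
        · exact (hP s (a3 s h)).resolve_left hs
      exact Or.inr ⟨[], u1, u2, p1, p2, [], [], Ov.nil, a1, a2, Ov.nil, Ov.nil, a3, a4,
        by simpa using BE.refl _, by simpa using BE.refl _, h1.head, h2.head⟩

/-- same left coset -/
abbrev Rl (M : CoxeterMatrix B) (T : Set B) (x y : Artin M) : Prop := x⁻¹ * y ∈ apar M T

theorem rl_refl {T : Set B} (x : Artin M) : Rl M T x x := by simp [Rl]

theorem rl_pos {T : Set B} (x : Artin M) {l : List B} (h : Ov T l) : Rl M T x (x * pos M l) := by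
  simpa [Rl] using pos_mem_apar h

/-- `t` is below an element of the coset of `x` -/
def Bel (M : CoxeterMatrix B) (U T : Set B) (t x : Artin M) : Prop :=
  ∃ a, Rl M T x a ∧ Le M U t a

theorem Bel.congr {U T : Set B} {t x x' : Artin M} (h : Bel M U T t x) (e : Rl M T x x') :
    Bel M U T t x' := by
  obtain ⟨a, h1, h2⟩ := h
  exact ⟨a, mem_trans (mem_symm e) h1, h2⟩

theorem Le.bel {U T : Set B} {t x : Artin M} (h : Le M U t x) : Bel M U T t x := ⟨x, rl_refl _, h⟩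

theorem le_convex {U Q : Set B} {y z z' : Artin M} (h1 : Le M U y z) (h2 : Le M U z z')
    (h : Rl M Q y z') : Rl M Q y z := by
  obtain ⟨l, -, rfl⟩ := h1
  obtain ⟨l', -, rfl⟩ := h2
  rw [Rl, mul_assoc, inv_mul_cancel_left, ← pos_append] at h
  exact rl_pos _ (ov_append.1 (mem_of_pos_mem h)).1

theorem Sph.climb {U P1 P2 : Set B} (hU : Sph M U) (hP1 : P1 ⊆ U) (hP2 : P2 ⊆ U) (b : B)
    {x1 x2 t : Artin M} (h : Rl M (U \ {b}) x1 x2) (h1 : Bel M U P1 t x1) (h2 : Bel M U P2 t x2) :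
    (∃ z, Rl M (U \ {b}) x1 z ∧ Le M U t z ∧ Bel M U P1 z x1 ∧ Bel M U P2 z x2) ∨
    ∃ y v1 v2 q1 q2, Rl M (U \ {b}) x1 y ∧ Ov (U \ {b}) v1 ∧ Ov (U \ {b}) v2 ∧ Ov P1 q1 ∧
      Ov P2 q2 ∧ Rl M P1 x1 (y * pos M v1) ∧ Rl M P2 x2 (y * pos M v2) ∧
      Dv M [b] (v1 ++ q1) ∧ Dv M [b] (v2 ++ q2) := by
  have hQ : U \ {b} ⊆ U := Set.sdiff_subset
  obtain ⟨y, u1, u2, a1, a2, rfl, rfl⟩ := (hU.mono hQ).exists_lower hQ h
  obtain ⟨c1, b1, b2⟩ := h1
  obtain ⟨c2, b3, b4⟩ := h2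
  obtain ⟨p1, p1', d1, d2, d3⟩ := (hU.mono hP1).exists_upper b1
  obtain ⟨p2, p2', e1, e2, e3⟩ := (hU.mono hP2).exists_upper b3
  have t1 : Le M U t (y * pos M u1 * pos M p1) := d3 ▸ b2.trans (le_pos _ (d2.mono hP1))
  have t2 : Le M U t (y * pos M u2 * pos M p2) := e3 ▸ b4.trans (le_pos _ (e2.mono hP2))
  have y1 : Le M U y (y * pos M u1 * pos M p1) :=
    (le_pos _ (a1.mono hQ)).trans (le_pos _ (d1.mono hP1))
  have y2 : Le M U y (y * pos M u2 * pos M p2) :=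
    (le_pos _ (a2.mono hQ)).trans (le_pos _ (e1.mono hP2))
  obtain ⟨z, ⟨l, l1, rfl⟩, z2, z3⟩ := hU.exists_join (mem_trans y1.mem (mem_symm t1.mem))
  have z4 := z3 _ y1 t1
  have z5 := z3 _ y2 t2
  have f1 := z4
  have f2 := z5
  rw [mul_assoc, ← pos_append] at f1 f2
  rw [hU.le_iff l1 (ov_append.2 ⟨a1.mono hQ, d1.mono hP1⟩)] at f1
  rw [hU.le_iff l1 (ov_append.2 ⟨a2.mono hQ, e1.mono hP2⟩)] at f2
  rcases wclimb (b := b) (fun c hc => by
    by_cases e : c = b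
    · exact Or.inr e
    · exact Or.inl ⟨hP1 hc, e⟩) a1 a2 d1 e1 f1 f2 with h |
    ⟨l0, v1, v2, q1, q2, g1, g2, f0, f1, f2, f3, f4, f5, f6, f7, f8, f9, f10⟩
  · exact Or.inl ⟨_, mem_trans (mem_symm (rl_pos y a1)) (rl_pos y h), z2,
      ⟨_, rl_pos _ d1, z4⟩, ⟨_, rl_pos _ e1, z5⟩⟩
  · refine Or.inr ⟨y * pos M l0, v1, v2, q1, q2, mem_trans (mem_symm (rl_pos y a1)) (rl_pos y f0),
      f1, f2, f5, f6, ?_, ?_, f9, f10⟩
    · rw [mul_assoc, ← pos_append, f7.pos_eq, pos_append, ← mul_assoc]; exact rl_pos _ f3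
    · rw [mul_assoc, ← pos_append, f8.pos_eq, pos_append, ← mul_assoc]; exact rl_pos _ f4

theorem lemK {a b : B} (hab : 3 ≤ M b a) {u p : List B} (hu : b ∉ u) (hp : a ∉ p)
    (h : Dv M [b] (u ++ p)) : a ∉ u := by
  intro ha
  have hne : b ≠ a := by rintro rfl; simp at hab
  obtain ⟨w, hw⟩ := h
  have h1 : a ∈ w := by simpa [hne.symm] using hw.symm.mem (List.mem_append_left _ ha)
  have h2 := hw.pattern (P := [b, a]) (by simpa using hne) (by simpa using hab) (by simpa using h1)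
  obtain ⟨s1, s2, e, c1, c2⟩ := sublist_append_iff.1 h2
  cases s1 with
  | nil => exact hp (c2.subset (by rw [List.nil_append] at e; rw [← e]; simp))
  | cons x s1 =>
    simp only [List.cons_append, List.cons.injEq] at e
    exact hu (c1.subset (by rw [e.1]; simp))

omit [Fintype B] in
theorem split_of_not_sublist {a b : B} {u : List B} (h : ¬ [a, b] <+ u) :
    ∃ u1 u2, u = u1 ++ u2 ∧ a ∉ u1 ∧ b ∉ u2 ∨ u = u1 ++ a :: u2 ∧ a ∉ u1 ∧ b ∉ u2 := by
  induction u with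
  | nil => exact ⟨[], [], by simp⟩
  | cons x u ih =>
    by_cases hx : x = a
    · subst hx
      exact ⟨[], u, Or.inr ⟨rfl, by simp, fun hb => h (by simpa using hb)⟩⟩
    · obtain ⟨u1, u2, h1 | h1⟩ := ih fun hc => h (hc.cons _)
      · exact ⟨x :: u1, u2, Or.inl ⟨by simp [h1.1], by simp [h1.2.1, Ne.symm hx], h1.2.2⟩⟩
      · exact ⟨x :: u1, u2, Or.inr ⟨by simp [h1.1], by simp [h1.2.1, Ne.symm hx], h1.2.2⟩⟩

theorem lemSub {a b1 b2 : B} (h1 : 3 ≤ M b2 a) (h2 : 3 ≤ M a b1) (h12 : b2 ≠ b1) {u q : List B}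
    (hu : b2 ∉ u) (hq : b1 ∉ q) (h : Dv M [b2] (u ++ q)) :
    ∃ u1 u2, u = u1 ++ u2 ∧ a ∉ u1 ∧ b1 ∉ u2 := by
  have n1 : b2 ≠ a := by rintro rfl; simp at h1
  have n2 : a ≠ b1 := by rintro rfl; simp at h2
  have : ¬ [a, b1] <+ u := by
    intro ha
    obtain ⟨w, hw⟩ := h
    have c1 := hw.symm.pattern (P := [a, b1]) (by simpa using n2) (by simpa using h2)
      (ha.trans (sublist_append_left _ _))
    have c2 : [a, b1] <+ w := by
      rcases sublist_cons_iff.1 c1 with c | ⟨r, c, -⟩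
      · exact c
      · simp only [List.cons.injEq] at c; exact absurd c.1.symm n1
    have c3 := hw.pattern (P := [b2, a, b1]) (by simp [n1, n2, h12]) (by simp [h1, h2])
      (by simpa using c2)
    obtain ⟨s1, s2, e, c1, c2⟩ := sublist_append_iff.1 c3
    cases s1 with
    | nil => exact hq (c2.subset (by rw [List.nil_append] at e; rw [← e]; simp))
    | cons x s1 =>
      simp only [List.cons_append, List.cons.injEq] at e
      exact hu (c1.subset (by rw [e.1]; simp))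
  obtain ⟨u1, u2, h | h⟩ := split_of_not_sublist this
  · exact ⟨u1, u2, h⟩
  · exact ⟨u1, a :: u2, h.1, h.2.1, by simp [h.2.2, n2.symm]⟩

omit [Fintype B] [DecidableEq B] in
theorem Ov.notMem {U : Set B} {b : B} {l : List B} (h : Ov (U \ {b}) l) : b ∉ l :=
  fun hb => (h b hb).2 rfl

omit [Fintype B] [DecidableEq B] in
theorem Ov.swap {U : Set B} {a b : B} {l : List B} (h : Ov (U \ {b}) l) (ha : a ∉ l) :
    Ov (U \ {a}) l := fun c hc => ⟨(h c hc).1, fun e => ha (e ▸ hc)⟩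

theorem Sph.lb3 {U : Set B} (hU : Sph M U) {a b : B} (hab : 3 ≤ M b a) {x1 x2 t : Artin M}
    (h : Rl M (U \ {b}) x1 x2) (h1 : Bel M U (U \ {a}) t x1) (h2 : Bel M U (U \ {a}) t x2) :
    (∃ z, Rl M (U \ {b}) x1 z ∧ Le M U t z ∧ Bel M U (U \ {a}) z x1 ∧ Bel M U (U \ {a}) z x2) ∨
      Rl M (U \ {a}) x1 x2 := by
  refine (hU.climb Set.sdiff_subset Set.sdiff_subset b h h1 h2).imp_right ?_
  rintro ⟨y, v1, v2, q1, q2, -, a1, a2, a3, a4, a5, a6, a7, a8⟩
  have b1 := rl_pos (M := M) y (a1.swap (lemK hab a1.notMem a3.notMem a7))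
  have b2 := rl_pos (M := M) y (a2.swap (lemK hab a2.notMem a4.notMem a8))
  exact mem_trans (mem_trans a5 (mem_symm b1)) (mem_trans b2 (mem_symm a6))

/-- no embedded four-cycles -/
theorem Sph.g6 {U : Set B} (hU : Sph M U) {a b : B} (hab : 3 ≤ M b a) {x11 x12 x21 x22 : Artin M}
    (h1 : Rl M (U \ {a}) x11 x12) (h2 : Rl M (U \ {a}) x21 x22) (h3 : Rl M (U \ {b}) x11 x21)
    (h4 : Rl M (U \ {b}) x12 x22) : Rl M (U \ {a}) x11 x21 ∨ Rl M (U \ {b}) x11 x12 := by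
  have hQ : U \ {b} ⊆ U := Set.sdiff_subset
  obtain ⟨y, u1, u2, a1, a2, rfl, rfl⟩ := (hU.mono hQ).exists_lower hQ h4
  rcases hU.lb3 hab h3 (t := y) ((le_pos y (a1.mono hQ)).bel.congr (mem_symm h1))
    ((le_pos y (a2.mono hQ)).bel.congr (mem_symm h2)) with ⟨z, b1, b2, b3, b4⟩ | h
  · rcases hU.lb3 hab h4 (b3.congr h1) (b4.congr h2) with ⟨z', c1, c2, -, -⟩ | h
    · have := le_convex b2 c2 (mem_trans (rl_pos y a1) c1)
      exact Or.inr (mem_trans b1 (mem_trans (mem_symm this) (rl_pos y a1)))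
    · exact Or.inl (mem_trans h1 (mem_trans h (mem_symm h2)))
  · exact Or.inl h

/-- a line through two distinct points of a plane lies in the plane -/
theorem Sph.l2 {U : Set B} (hU : Sph M U) {a b1 b2 : B} (h1 : 3 ≤ M b2 a) (h2 : 3 ≤ M a b1)
    (h12 : b2 ≠ b1) {x2 x3 y2 y3 : Artin M} (c2 : Rl M (U \ {b1}) x2 y2)
    (c3 : Rl M (U \ {b1}) x3 y3) (hx : Rl M (U \ {b2}) x2 x3) (hy : Rl M (U \ {a}) y2 y3) :
    Rl M (U \ {b1}) x2 x3 ∨ ∃ z, Rl M (U \ {b2}) x2 z ∧ Rl M (U \ {a}) y2 z := by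
  have hQ : U \ {a} ⊆ U := Set.sdiff_subset
  obtain ⟨y, u1, u2, a1, a2, rfl, rfl⟩ := (hU.mono hQ).exists_lower hQ hy
  rcases hU.climb Set.sdiff_subset Set.sdiff_subset b2 hx (t := y)
    ((le_pos y (a1.mono hQ)).bel.congr (mem_symm c2))
    ((le_pos y (a2.mono hQ)).bel.congr (mem_symm c3)) with ⟨z, b1, b2, b3, b4⟩ |
    ⟨y', v1, v2, q1, q2, d0, d1, d2, d3, d4, d5, d6, d7, d8⟩
  · rcases hU.lb3 h2 hy (b3.congr c2) (b4.congr c3) with ⟨z', e1, e2, -, -⟩ | h
    · have := le_convex b2 e2 (mem_trans (rl_pos y a1) e1)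
      exact Or.inr ⟨z, b1, mem_trans (mem_symm (rl_pos y a1)) this⟩
    · exact Or.inl (mem_trans c2 (mem_trans h (mem_symm c3)))
  · obtain ⟨s1, s2, rfl, f1, f2⟩ := lemSub h1 h2 h12 d1.notMem d3.notMem d7
    obtain ⟨t1, t2, rfl, g1, g2⟩ := lemSub h1 h2 h12 d2.notMem d4.notMem d8
    rw [pos_append, ← mul_assoc] at d5 d6
    have k1 := mem_trans d5 (mem_symm (rl_pos _ ((ov_append.1 d1).2.swap f2)))
    have k2 := mem_trans d6 (mem_symm (rl_pos _ ((ov_append.1 d2).2.swap g2)))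
    have k3 := rl_pos (M := M) y' ((ov_append.1 d1).1.swap f1)
    have k4 := rl_pos (M := M) y' ((ov_append.1 d2).1.swap g1)
    rcases hU.g6 h2 (mem_trans (mem_symm c2) k1) (mem_trans (mem_symm c3) k2) hy
      (mem_trans (mem_symm k3) k4) with h | h
    · exact Or.inl (mem_trans c2 (mem_trans h (mem_symm c3)))
    · exact Or.inr ⟨y', d0, mem_trans h (mem_symm k3)⟩

/-- the meet of a line and a plane -/
theorem Sph.j4 {U : Set B} (hU : Sph M U) {a b1 b2 : B} (h1 : 3 ≤ M b1 a) (h2 : 3 ≤ M a b2)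
    (h12 : b1 ≠ b2) {x1 x2 t : Artin M} (h : Rl M (U \ {b1}) x1 x2)
    (c1 : Bel M U (U \ {a}) t x1) (c2 : Bel M U (U \ {b2}) t x2) :
    Bel M U (U \ {b1}) t x1 ∨ ∃ z, Rl M (U \ {a}) x1 z ∧ Rl M (U \ {b2}) x2 z := by
  rcases hU.climb Set.sdiff_subset Set.sdiff_subset b1 h c1 c2 with ⟨z, b1, b2, -, -⟩ |
    ⟨y', v1, v2, q1, q2, -, d1, d2, d3, d4, d5, d6, d7, d8⟩
  · exact Or.inl ⟨z, b1, b2⟩
  · obtain ⟨t1, t2, rfl, g1, g2⟩ := lemSub h1 h2 h12 d2.notMem d4.notMem d8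
    rw [pos_append, ← mul_assoc] at d6
    have k1 := rl_pos (M := M) y' (d1.swap (lemK h1 d1.notMem d3.notMem d7))
    exact Or.inr ⟨_, mem_trans (mem_trans d5 (mem_symm k1))
      (rl_pos y' ((ov_append.1 d2).1.swap g1)),
      mem_trans d6 (mem_symm (rl_pos _ ((ov_append.1 d2).2.swap g2)))⟩

/-- the automorphism inverting the generators -/
noncomputable def iota (M : CoxeterMatrix B) : Artin M →* Artin M :=
  alift (fun s => (gen M s)⁻¹) (by
    intro i _ j _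
    have := (BE.braid (M := M) i j).reverse.pos_eq
    have e : ∀ l : List B, (l.map fun s => (gen M s)⁻¹).prod = (pos M l.reverse)⁻¹ := by
      intro l
      induction l with
      | nil => simp
      | cons a l ih => simp [ih, pos_append]
    rw [e, e, this])

theorem iota_pos (l : List B) : iota M (pos M l) = (pos M l.reverse)⁻¹ := by
  induction l with
  | nil => simp
  | cons a l ih => rw [pos_cons, map_mul, ih]; simp [iota, pos_append]

@[simp] theorem iota_iota (g : Artin M) : iota M (iota M g) = g := by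
  have : (iota M).comp (iota M) = MonoidHom.id _ :=
    PresentedGroup.ext fun s => by
      change iota M (iota M (gen M s)) = gen M s
      simp [iota]
  exact DFunLike.congr_fun this g

theorem iota_mem {T : Set B} {g : Artin M} (h : g ∈ apar M T) : iota M g ∈ apar M T := by
  refine apar_induction (P := fun g => iota M g ∈ apar M T) h (by simp) ?_ ?_
  · intro g _ i hi ih
    rw [map_mul]; exact mul_mem ih (by simpa [iota] using gen_mem_apar hi)
  · intro g _ i hi ih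
    rw [map_mul]; exact mul_mem ih (by simpa [iota] using gen_mem_apar hi)

theorem Le.iota {U : Set B} {x y : Artin M} (h : Le M U x y) :
    Le M U (iota M y) (iota M x) := by
  obtain ⟨l, h1, rfl⟩ := h
  exact ⟨l.reverse, h1.reverse, by rw [map_mul, iota_pos]; simp⟩

theorem Pr.iota {F P Q : Set B} {k : ℕ} {g : Artin M}
    (h : Pr (apar M F) k (apar M P) (apar M Q) g) :
    Pr (apar M F) k (apar M P) (apar M Q) (iota M g) := by
  induction k generalizing P Q g with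
  | zero => exact iota_mem h
  | succ k ih =>
    obtain ⟨h, a1, a2⟩ := h
    exact ⟨_, iota_mem a1, by simpa using ih a2⟩

theorem Sph.bounded {U Q : Set B} (hU : Sph M U) (hQ : Q ⊆ U) {t0 t1 x x' : Artin M}
    (h0 : Le M U t0 x) (h1 : Le M U x' t1) (h : Rl M Q x' x) (h01 : Le M U t0 t1) :
    ∃ z, Rl M Q x' z ∧ Le M U t0 z ∧ Le M U z t1 := by
  obtain ⟨z, z1, z2, z3⟩ := hU.exists_join (mem_trans h1.mem (mem_symm h01.mem))
  obtain ⟨a, b, a1, a2, e⟩ := (hU.mono hQ).exists_upper h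
  exact ⟨z, le_convex z1 (z3 _ (le_pos _ (a1.mono hQ)) (e ▸ h0.trans (le_pos _ (a2.mono hQ))))
    (rl_pos _ a1), z2, z3 _ h1 h01⟩

section eff
variable [Primcodable B]

/-- all words of length at most `n` -/
noncomputable def wordsLe (B : Type*) [Fintype B] (n : ℕ) : List (List B) :=
  (fun L : List (List B) => [] :: L.flatMap fun l => Finset.univ.toList.map (· :: l))^[n] [[]]

omit [DecidableEq B] [Primcodable B] in
theorem mem_wordsLe {n : ℕ} {l : List B} (h : l.length ≤ n) : l ∈ wordsLe B n := by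
  induction n generalizing l with
  | zero => simpa [wordsLe] using h
  | succ n ih =>
    rw [wordsLe, Function.iterate_succ_apply']
    cases l with
    | nil => simp
    | cons a l =>
      simp only [List.mem_cons, List.mem_flatMap, List.mem_map, Finset.mem_toList, Finset.mem_univ,
        true_and]
      exact Or.inr ⟨l, ih (by simpa using h), a, rfl⟩

@[fun_prop] theorem pr_wordsLe {β : Type*} [Primcodable β] {f : β → ℕ} (hf : Primrec f) :
    Primrec fun x => wordsLe B (f x) :=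
  Primrec.nat_iterate hf (Primrec.const _) (h := fun _ L =>
    [] :: L.flatMap fun l => Finset.univ.toList.map (· :: l)) (Primrec₂.mk (by fun_prop))

/-- bounded search -/
theorem Sph.bsearch {U P Q : Set B} (hU : Sph M U) (hQ : Q ⊆ U)
    {Z q : Artin M → Prop} (hZι : ∀ g, Z g → Z (iota M g)) (hqι : ∀ g, q g → q (iota M g))
    (hZQ : ∀ g, ∀ y ∈ apar M Q, Z g → Z (y * g))
    (hZ : RE (effA M) fun g => g ∈ apar M U ∧ ¬ Z g)
    (hq : RE (effA M) fun g => g ∈ apar M U ∧ ¬ q g)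
    (hqZ : ∀ g, q g → ∃ p ∈ apar M P, Z (p⁻¹ * g))
    (LB : ∀ g ∈ apar M U, ∀ p ∈ apar M P, Z (p⁻¹ * g) → ¬ q g → ∀ t, Le M U t 1 → Le M U t g →
      Bel M U Q t p) :
    RE (effA M) fun g => g ∈ apar M U ∧ ¬ ∃ p ∈ apar M P, Z (p⁻¹ * g) := by
  have h1 := hU.wp.not_mem_mul P Q
  have : Sig fun w : List (B × Bool) => (evalW M w ∈ apar M U ∧ ¬ q (evalW M w)) ∧
      ∃ u u' v v' : List B, Ov U u ∧ Ov U u' ∧ Ov U v ∧ Ov U v' ∧
        pos M u * evalW M w = pos M u' ∧ evalW M w * pos M v' = pos M v ∧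
        BAll (wordsLe B (u.length + v.length)) fun l => (∃ c, c ∈ l ∧ c ∈ Uᶜ) ∨
          (((pos M u)⁻¹ * pos M l ∈ apar M U ∧
            ¬ ∃ p ∈ apar M P, p⁻¹ * ((pos M u)⁻¹ * pos M l) ∈ apar M Q) ∨
          (((pos M u)⁻¹ * pos M l)⁻¹ * evalW M w ∈ apar M U ∧
            ¬ Z (((pos M u)⁻¹ * pos M l)⁻¹ * evalW M w))) :=
    Sig.and hq (Sig.ex (Sig.ex (Sig.ex (Sig.ex (Sig.and (sig_ov U (by fun_prop))
      (Sig.and (sig_ov U (by fun_prop)) (Sig.and (sig_ov U (by fun_prop))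
      (Sig.and (sig_ov U (by fun_prop))
      (Sig.and (EC.sig_eq (E := effA M) (by fun_prop) (by fun_prop))
      (Sig.and (EC.sig_eq (E := effA M) (by fun_prop) (by fun_prop))
      (Sig.ball (by fun_prop) (Sig.or (Sig.ex (Sig.and (by fun_prop) (sig_memSet _ (by fun_prop))))
        (Sig.or (h1.sig (by fun_prop)) (hZ.sig (by fun_prop)))))))))))))))
  refine this.of_eq fun w => ?_
  rw [effA_ev]
  generalize evalW M w = g
  constructor
  · rintro ⟨⟨a1, a2⟩, u, u', v, v', b1, b2, b3, b4, b5, b6, b7⟩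
    refine ⟨a1, ?_⟩
    rintro ⟨p, c1, c2⟩
    have l1 : Le M U (pos M u)⁻¹ 1 := ⟨u, b1, by simp⟩
    have l2 : Le M U (pos M u)⁻¹ g := ⟨u', b2, by rw [← b5]; simp⟩
    have l3 : Le M U 1 (pos M v) := ⟨v, b3, by simp⟩
    have l4 : Le M U g (pos M v) := ⟨v', b4, b6.symm⟩
    obtain ⟨x, d1, d2⟩ := LB g a1 p c1 c2 a2 _ l1 l2
    obtain ⟨x', e1, e2⟩ := LB _ (iota_mem a1) _ (iota_mem c1) (by simpa using hZι _ c2)
      (fun h => a2 (by simpa using hqι _ h)) _ (by simpa using l3.iota) l4.iota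
    have e3 := e2.iota
    have e4 := iota_mem e1
    simp only [iota_iota, map_mul, map_inv] at e3 e4
    obtain ⟨z, f1, ⟨l, f2, rfl⟩, ⟨l', f3, f4⟩⟩ := hU.bounded hQ d2 e3 (mem_trans (mem_symm e4) d1)
      (l1.trans l3)
    have f5 := mem_trans e4 f1
    have hl : l.length ≤ u.length + v.length := by
      have : pos M (u ++ v) = pos M (l ++ l') := by rw [pos_append, pos_append, f4]; group
      have := length_eq_of_pos_eq this
      simp at this; omega
    rcases b7 l (mem_wordsLe hl) with ⟨c, g1, g2⟩ | g1 | g1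
    · exact g2 (f2 c g1)
    · exact g1.2 ⟨p, c1, f5⟩
    · refine g1.2 ?_
      have := hZQ _ _ (inv_mem f5) c2
      rwa [show (p⁻¹ * ((pos M u)⁻¹ * pos M l))⁻¹ * (p⁻¹ * g) = ((pos M u)⁻¹ * pos M l)⁻¹ * g by
        group] at this
  · rintro ⟨a1, a2⟩
    obtain ⟨u, u', b1, b2, e1⟩ := hU.exists_frac_left a1
    obtain ⟨v, v', b3, b4, e2⟩ := hU.exists_frac a1
    refine ⟨⟨a1, fun h => a2 (hqZ g h)⟩, u, u', v, v', b1, b2, b3, b4, by rw [e1]; simp,
      by rw [e2]; simp, fun l _ => ?_⟩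
    by_cases hl : Ov U l
    · right
      have m1 := mul_mem (inv_mem (pos_mem_apar (M := M) b1)) (pos_mem_apar hl)
      by_contra hc
      simp only [not_or, not_and, not_not] at hc
      obtain ⟨p, c1, c2⟩ := hc.1 m1
      refine a2 ⟨p, c1, ?_⟩
      have := hZQ _ _ c2 (hc.2 (mul_mem (inv_mem m1) a1))
      rwa [show p⁻¹ * ((pos M u)⁻¹ * pos M l) * (((pos M u)⁻¹ * pos M l)⁻¹ * g) = p⁻¹ * g by
        group] at this
    · left
      simpa [Ov] using hl

end eff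

end Pool.Agent.H10
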