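import Pool.Agent.Lib.helper10.Gar1

/-! The property `GP` for weights two and three. -/

set_option linter.unusedSectionVars false

namespace Pool.Agent.H10

open CoxeterSystem List

section
variable {G : Type*} [Group G] {F P Q : Subgroup G}

theorem AltZ.uncons (hP : F ≤ P) (hQ : F ≤ Q) {k : ℕ} {g : G} (h : AltZ F (k + 1) P Q g) :
    ∃ κ ∈ (if Even k then P else Q), κ ∉ F ∧ AltZ F k P Q (κ⁻¹ * g) := by
  induction k generalizing P Q g with
  | zero =>
    obtain ⟨h, a1, a2, a3⟩ := h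
    refine ⟨g, by simpa using mul_mem (hP a3) a1, fun hg => a2 ?_, by simp [AltZ]⟩
    simpa using mul_mem (inv_mem a3) hg
  | succ k ih =>
    obtain ⟨h, a1, a2, a3⟩ := h
    obtain ⟨κ, b1, b2, b3⟩ := ih hQ hP a3
    refine ⟨κ, ?_, b2, h, a1, a2, by rwa [mul_assoc]⟩
    by_cases he : Even k <;> simpa [Nat.even_add_one, he] using b1

theorem pr_succ_left (hP : F ≤ P) (hQ : F ≤ Q) {k : ℕ} {g : G} : Pr F (k + 1) P Q g ↔
    ∃ κ ∈ (if Even k then P else Q), Pr F k P Q (κ⁻¹ * g) := by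
  constructor
  · intro h
    induction k generalizing P Q g with
    | zero =>
      obtain ⟨h, a1, a3⟩ := h
      exact ⟨g, by simpa using mul_mem (hP a3) a1, by simp [Pr]⟩
    | succ k ih =>
      obtain ⟨h, a1, a3⟩ := h
      obtain ⟨κ, b1, b3⟩ := ih hQ hP a3
      refine ⟨κ, ?_, h, a1, by rwa [mul_assoc]⟩
      by_cases he : Even k <;> simpa [Nat.even_add_one, he] using b1
  · rintro ⟨κ, h1, h2⟩
    simpa using (h2.succ hP hQ).mul_left h1 hP hQ

theorem girth_of_star (hP : F ≤ P) (hQ : F ≤ Q) {μ : ℕ}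
    (h : ∀ i g, 1 ≤ i → i < μ → (AltZ F i P Q g → Pr F i Q P g → False) ∧
      (AltZ F i Q P g → Pr F i P Q g → False)) : Girth F P Q μ := by
  have key : ∀ P Q : Subgroup G, F ≤ P → F ≤ Q →
      (∀ i g, 1 ≤ i → i < μ → AltZ F i P Q g → Pr F i Q P g → False) →
      ∀ k g, 1 ≤ k → k < 2 * μ → AltZ F (k - k / 2) P Q g → AltZ F (k / 2) Q P g → False := by
    intro P Q hP hQ h k g h1 h2 h3 h4
    rcases Nat.even_or_odd' k with ⟨i, rfl | rfl⟩
    · rw [show 2 * i - 2 * i / 2 = i by omega] at h3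
      rw [show 2 * i / 2 = i by omega] at h4
      exact h i g (by omega) (by omega) h3 h4.pr
    · rw [show 2 * i + 1 - (2 * i + 1) / 2 = i + 1 by omega] at h3
      rw [show (2 * i + 1) / 2 = i by omega] at h4
      obtain ⟨κ, a1, a2, a3⟩ := h3.uncons hP hQ
      cases i with
      | zero => exact a2 (by simpa using mul_mem h4 (inv_mem a3))
      | succ i =>
        refine h (i + 1) _ (by omega) (by omega) a3 (h4.pr.mul_left (inv_mem ?_) hQ hP)
        by_cases he : Even i <;> simpa [Nat.even_add_one, he] using a1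
  exact girth_of_split (· / 2) (fun k => Nat.div_le_self _ _) fun k g h1 h2 =>
    ⟨key P Q hP hQ (fun i g a b => (h i g a b).1) k g h1 h2,
      key Q P hQ hP (fun i g a b => (h i g a b).2) k g h1 h2⟩

theorem pr_one (hP : F ≤ P) {g : G} : Pr F 1 P Q g ↔ g ∈ P :=
  ⟨fun ⟨h, a1, a2⟩ => by simpa using mul_mem (hP a2) a1, fun h => ⟨g, h, by simp [Pr]⟩⟩

theorem pr_two (hP : F ≤ P) (hQ : F ≤ Q) {g : G} : Pr F 2 P Q g ↔ ∃ q ∈ Q, q⁻¹ * g ∈ P := by
  rw [pr_succ_left hP hQ]; simp [pr_one hP]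

theorem pr_three (hP : F ≤ P) (hQ : F ≤ Q) {g : G} :
    Pr F 3 P Q g ↔ ∃ p ∈ P, ∃ q ∈ Q, q⁻¹ * (p⁻¹ * g) ∈ P := by
  rw [pr_succ_left hP hQ]; simp [pr_two hP hQ]

theorem altZ_one (hP : F ≤ P) {g : G} : AltZ F 1 P Q g ↔ g ∈ P ∧ g ∉ F := by
  constructor
  · rintro ⟨h, a1, a2, a3⟩
    exact ⟨by simpa using mul_mem (hP a3) a1, fun hg => a2 (by simpa using mul_mem (inv_mem a3) hg)⟩
  · exact fun h => ⟨g, h.1, h.2, by simp [AltZ]⟩

theorem Pr.inv (hP : F ≤ P) (hQ : F ≤ Q) {k : ℕ} {g : G} (h : Pr F k P Q g) :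
    Pr F k (if Even k then Q else P) (if Even k then P else Q) g⁻¹ := by
  induction k generalizing P Q g with
  | zero => exact inv_mem h
  | succ k ih =>
    obtain ⟨h, a1, a2⟩ := h
    have := ih hQ hP a2
    by_cases he : Even k
    · simp only [he, if_true, Nat.even_add_one, not_true, if_false] at this ⊢
      exact (pr_succ_left hP hQ).2 ⟨h⁻¹, by simpa [he] using a1, by simpa using this⟩
    · simp only [he, if_false, Nat.even_add_one, not_false_iff, if_true] at this ⊢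
      exact (pr_succ_left hQ hP).2 ⟨h⁻¹, by simpa [he] using a1, by simpa using this⟩

end

variable {B : Type*} {M : CoxeterMatrix B} [Fintype B] [DecidableEq B] [Primcodable B]

/-- `GP` for an edge of an Artin group -/
def AGP (M : CoxeterMatrix B) (U : Set B) (a b : B) (μ : ℕ) : Prop :=
  GP (effA M) (apar M U) (apar M (U \ {a, b})) (apar M (U \ {a})) (apar M (U \ {b})) μ

omit [Primcodable B] in
theorem fa_le (U : Set B) (a b : B) : apar M (U \ {a, b}) ≤ apar M (U \ {a}) :=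
  apar_mono (Set.sdiff_subset_sdiff_right (by simp))

omit [Primcodable B] in
theorem fb_le (U : Set B) (a b : B) : apar M (U \ {a, b}) ≤ apar M (U \ {b}) :=
  apar_mono (Set.sdiff_subset_sdiff_right (by simp))

omit [Primcodable B] in
theorem mem_fab {U : Set B} {a b : B} {g : Artin M} (h1 : g ∈ apar M (U \ {a}))
    (h2 : g ∈ apar M (U \ {b})) : g ∈ apar M (U \ {a, b}) := by
  have := mem_apar_inter h1 h2
  rwa [show (U \ {a}) ∩ (U \ {b}) = U \ {a, b} by ext; simp; tauto] at this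

theorem AGP.symm {U : Set B} {a b : B} {μ : ℕ} (h : AGP M U a b μ) : AGP M U b a μ := by
  unfold AGP
  rw [Set.pair_comm]; exact GP.symm h

theorem AGP.mono {U : Set B} {a b : B} {μ ν : ℕ} (h : AGP M U a b μ) (hν : ν ≤ μ) :
    AGP M U a b ν := GP.mono h hν

theorem WP.re_pr {U : Set B} (h : WP M U) (a b : B) {k : ℕ} (hk : k ≤ 2) :
    RE (effA M) fun g => g ∈ apar M U ∧
      ¬ Pr (apar M (U \ {a, b})) k (apar M (U \ {a})) (apar M (U \ {b})) g := by
  interval_cases k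
  · exact h.not_mem _
  · exact (h.not_mem _).of_eq fun g => by rw [pr_one (fa_le U a b)]
  · exact (h.not_mem_mul _ _).of_eq fun g => by rw [pr_two (fa_le U a b) (fb_le U a b)]

omit [Primcodable B] in
theorem star_one {U : Set B} {a b : B} {g : Artin M}
    (h1 : AltZ (apar M (U \ {a, b})) 1 (apar M (U \ {a})) (apar M (U \ {b})) g)
    (h2 : Pr (apar M (U \ {a, b})) 1 (apar M (U \ {b})) (apar M (U \ {a})) g) : False := by
  rw [altZ_one (fa_le U a b)] at h1
  rw [pr_one (fb_le U a b)] at h2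
  exact h1.2 (mem_fab h1.1 h2)

theorem WP.agp2 {U : Set B} (h : WP M U) (a b : B) : AGP M U a b 2 := by
  refine ⟨girth_of_star (fa_le U a b) (fb_le U a b) fun i g h1 h2 => ?_, fun k hk =>
    ⟨h.re_pr a b hk, by rw [Set.pair_comm]; exact h.re_pr b a hk⟩⟩
  obtain rfl : i = 1 := by omega
  exact ⟨star_one, by rw [Set.pair_comm]; exact star_one⟩

omit [Primcodable B] in
theorem star_two {U : Set B} {a b : B}
    (g6 : ∀ x11 x12 x21 x22 : Artin M, Rl M (U \ {a}) x11 x12 → Rl M (U \ {a}) x21 x22 →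
      Rl M (U \ {b}) x11 x21 → Rl M (U \ {b}) x12 x22 →
      Rl M (U \ {a}) x11 x21 ∨ Rl M (U \ {b}) x11 x12) {g : Artin M}
    (h1 : AltZ (apar M (U \ {a, b})) 2 (apar M (U \ {a})) (apar M (U \ {b})) g)
    (h2 : Pr (apar M (U \ {a, b})) 2 (apar M (U \ {b})) (apar M (U \ {a})) g) : False := by
  obtain ⟨p, a1, a2, a3⟩ := h1
  rw [altZ_one (fb_le U a b)] at a3
  obtain ⟨p', b1, b2⟩ := (pr_two (fb_le U a b) (fa_le U a b)).1 h2
  rcases g6 (g * p⁻¹) g 1 p' (by simpa [Rl] using a1) (by simpa [Rl] using b1)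
    (by simpa [Rl] using inv_mem a3.1) (mem_symm b2) with h | h
  · exact a3.2 (mem_fab (by simpa [Rl] using inv_mem h) a3.1)
  · exact a2 (mem_fab a1 (by simpa [Rl] using h))

theorem Sph.re_pr3 {U : Set B} (hU : Sph M U) {a b : B}
    (lb : ∀ x1 x2 t : Artin M, Rl M (U \ {b}) x1 x2 → Bel M U (U \ {a}) t x1 →
      Bel M U (U \ {a}) t x2 → Bel M U (U \ {b}) t x1 ∨ Rl M (U \ {a}) x1 x2) :
    RE (effA M) fun g => g ∈ apar M U ∧
      ¬ Pr (apar M (U \ {a, b})) 3 (apar M (U \ {a})) (apar M (U \ {b})) g := by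
  have := hU.bsearch (P := U \ {a}) (Q := U \ {b}) Set.sdiff_subset
    (Z := fun g => ∃ q ∈ apar M (U \ {b}), q⁻¹ * g ∈ apar M (U \ {a}))
    (q := fun g => g ∈ apar M (U \ {a}))
    (fun g ⟨q, h1, h2⟩ => ⟨_, iota_mem h1, by simpa using iota_mem h2⟩) (fun g h => iota_mem h)
    (fun g y hy ⟨q, h1, h2⟩ => ⟨y * q, mul_mem hy h1, by simpa [mul_assoc] using h2⟩)
    (hU.wp.not_mem_mul _ _) (hU.wp.not_mem _) (fun g hg => ⟨g, hg, 1, one_mem _, by simp⟩) ?_
  · exact this.of_eq fun g => by rw [pr_three (fa_le U a b) (fb_le U a b)]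
  rintro g - p hp ⟨q, h1, h2⟩ h3 t t1 t2
  have e : Rl M (U \ {a}) (p * q) g := by simpa [Rl, mul_assoc] using h2
  rcases lb p (p * q) t (by simpa [Rl] using h1) (t1.bel.congr (by simpa [Rl] using hp))
    (t2.bel.congr (mem_symm e)) with h | h
  · exact h
  · exact absurd (by simpa using mul_mem hp (mem_trans h e)) h3

theorem Sph.agp3 {U : Set B} (hU : Sph M U) {a b : B} (hab : 3 ≤ M a b) : AGP M U a b 3 := by
  have hba : 3 ≤ M b a := M.symmetric a b ▸ hab
  have lb : ∀ a b : B, 3 ≤ M b a → ∀ x1 x2 t : Artin M, Rl M (U \ {b}) x1 x2 →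
      Bel M U (U \ {a}) t x1 → Bel M U (U \ {a}) t x2 →
      Bel M U (U \ {b}) t x1 ∨ Rl M (U \ {a}) x1 x2 := fun a b h x1 x2 t h1 h2 h3 =>
    (hU.lb3 h h1 h2 h3).imp_left fun ⟨z, c1, c2, _⟩ => ⟨z, c1, c2⟩
  refine ⟨girth_of_star (fa_le U a b) (fb_le U a b) fun i g h1 h2 => ?_, fun k hk => ?_⟩
  · interval_cases i
    · exact ⟨star_one, by rw [Set.pair_comm]; exact star_one⟩
    · exact ⟨star_two fun _ _ _ _ => hU.g6 hba,
        by rw [Set.pair_comm]; exact star_two fun _ _ _ _ => hU.g6 hab⟩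
  · by_cases hk2 : k ≤ 2
    · exact ⟨hU.wp.re_pr a b hk2, by rw [Set.pair_comm]; exact hU.wp.re_pr b a hk2⟩
    · obtain rfl : k = 3 := by omega
      exact ⟨hU.re_pr3 (lb a b hba), by rw [Set.pair_comm]; exact hU.re_pr3 (lb b a hab)⟩

end Pool.Agent.H10
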