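import Pool.Agent.Lib.helper10.Gar2

/-! Reduced paths in the coset graph of a pair of subgroups. -/

set_option linter.unusedSectionVars false

namespace Pool.Agent.H10

variable {G : Type*} [Group G] {ι : Type*}

/-- reduced path from the vertex `(s, σ)` arriving at `(t, c)` through the chamber `c`;
interior vertices satisfy `Gd` -/
def EP (F : Subgroup G) (K : ι → Subgroup G) (Gd : ι → G → Prop) (s : ι) (σ : G) :
    ℕ → ι → ι → G → Prop
  | 0, _, t', c => s = t' ∧ σ⁻¹ * c ∈ K t'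
  | m + 1, t, t', c => Gd t' c ∧ ∃ c', c'⁻¹ * c ∈ K t' ∧ c'⁻¹ * c ∉ F ∧ EP F K Gd s σ m t' t c'

/-- reduced path from the vertex `(s, σ)` to the vertex `(t, τ)` -/
def PP (F : Subgroup G) (K : ι → Subgroup G) (Gd : ι → G → Prop) (s : ι) (σ : G) :
    ℕ → ι → ι → G → Prop
  | 0, t, _, τ => s = t ∧ σ⁻¹ * τ ∈ K t
  | m + 1, t, t', τ => ∃ c, c⁻¹ * τ ∈ K t ∧ EP F K Gd s σ m t t' c

/-- invariance of a predicate on vertices -/
def VInv (K : ι → Subgroup G) (Gd : ι → G → Prop) : Prop :=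
  ∀ t c c', c⁻¹ * c' ∈ K t → Gd t c → Gd t c'

/-- the trivial predicate -/
def Tv : ι → G → Prop := fun _ _ => True

variable {F : Subgroup G} {K : ι → Subgroup G} {Gd Gd' : ι → G → Prop} {s t t' : ι} {σ c τ : G}
  {m : ℕ}

theorem vinv_tv : VInv K (Tv : ι → G → Prop) := fun _ _ _ _ h => h

theorem EP.mono (h : EP F K Gd s σ m t t' c) (hG : ∀ a x, Gd a x → Gd' a x) :
    EP F K Gd' s σ m t t' c := by
  induction m generalizing t t' c with
  | zero => exact h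
  | succ m ih => obtain ⟨a, c', b1, b2, b3⟩ := h; exact ⟨hG _ _ a, c', b1, b2, ih b3⟩

theorem EP.tv (h : EP F K Gd s σ m t t' c) : EP F K Tv s σ m t t' c := h.mono fun _ _ _ => trivial

theorem EP.congr (hG : VInv K Gd) (hF : F ≤ K t') {c2 : G} (h : EP F K Gd s σ m t t' c)
    (e : c⁻¹ * c2 ∈ F) : EP F K Gd s σ m t t' c2 := by
  cases m with
  | zero => exact ⟨h.1, mem_trans h.2 (hF e)⟩
  | succ m =>
    obtain ⟨a, c', b1, b2, b3⟩ := h
    exact ⟨hG _ _ _ (hF e) a, c', mem_trans b1 (hF e), fun h => b2 (mem_trans h (mem_symm e)), b3⟩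

theorem PP.congr {τ' : G} (h : PP F K Gd s σ m t t' τ) (e : τ⁻¹ * τ' ∈ K t) :
    PP F K Gd s σ m t t' τ' := by
  cases m with
  | zero => exact ⟨h.1, mem_trans h.2 e⟩
  | succ m => obtain ⟨c, a, b⟩ := h; exact ⟨c, mem_trans a e, b⟩

theorem EP.pp (h : EP F K Gd s σ m t t' c) : PP F K Gd s σ (m + 1) t t' c := ⟨c, by simp, h⟩

/-- the previous vertex -/
theorem EP.prev (h : EP F K Gd s σ m t t' c) :
    PP F K Gd s σ m t' t c ∧ (m = 0 ∨ Gd t' c) := by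
  cases m with
  | zero => exact ⟨h, Or.inl rfl⟩
  | succ m => obtain ⟨a, c', b1, -, b3⟩ := h; exact ⟨⟨c', b1, b3⟩, Or.inr a⟩

theorem PP.ext (hG : VInv K Gd) (hF : F ≤ K t') (h : PP F K Gd s σ m t t' c)
    (hg : m = 0 ∨ Gd t c) : ∃ m' ≤ m + 1, PP F K Gd s σ m' t' t c := by
  cases m with
  | zero => exact ⟨1, le_rfl, c, by simp, h⟩
  | succ m =>
    obtain ⟨c', a1, a2⟩ := h
    by_cases e : c'⁻¹ * c ∈ F
    · exact ⟨m, by omega, (a2.congr hG hF e).prev.1⟩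
    · exact ⟨m + 2, le_rfl, c, by simp, hg.resolve_left (by omega), c', a1, e, a2⟩

theorem EP.altZ (h : EP F K Gd s σ m t t' c) : ∃ g, σ⁻¹ * g ∈ K s ∧
    AltZ F m (K t') (K t) (g⁻¹ * c) ∧ s = if Even m then t' else t := by
  induction m generalizing t t' c with
  | zero => exact ⟨c, h.1 ▸ h.2, by simp [AltZ], h.1⟩
  | succ m ih =>
    obtain ⟨-, c', b1, b2, b3⟩ := h
    obtain ⟨g, d1, d2, d3⟩ := ih b3
    refine ⟨g, d1, ⟨_, b1, b2, by simpa [mul_assoc] using d2⟩, ?_⟩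
    rw [d3]; by_cases he : Even m <;> simp [he, Nat.even_add_one]

theorem ep_of_altZ (hF : F ≤ K t) (hF' : F ≤ K t') {g : G}
    (h : AltZ F m (K t') (K t) (g⁻¹ * c)) (hs : s = if Even m then t' else t)
    (hg : σ⁻¹ * g ∈ K s) : EP F K Tv s σ m t t' c := by
  induction m generalizing t t' c with
  | zero =>
    simp only [Even.zero, if_true] at hs
    subst hs
    exact ⟨rfl, mem_trans hg (hF' h)⟩
  | succ m ih =>
    obtain ⟨k, a1, a2, a3⟩ := h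
    refine ⟨trivial, c * k⁻¹, by simpa using a1, by simpa using a2,
      ih hF' hF (by rwa [← mul_assoc]) ?_⟩
    rw [hs]; by_cases he : Even m <;> simp [he, Nat.even_add_one]

/-- a path seen from a chamber of its initial vertex -/
theorem EP.altZ' (hF : F ≤ K t) (hF' : F ≤ K t') (h : EP F K Gd s σ m t t' c) {x : G}
    (hx : σ⁻¹ * x ∈ K s) : ∃ j, m ≤ j ∧ j ≤ m + 1 ∧ AltZ F j (K t') (K t) (x⁻¹ * c) := by
  obtain ⟨g, a1, a2, a3⟩ := h.altZ
  have b := mem_trans (mem_symm hx) a1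
  have e : x⁻¹ * c = x⁻¹ * g * (g⁻¹ * c) := by group
  by_cases hf : x⁻¹ * g ∈ F
  · exact ⟨m, le_rfl, by omega, e ▸ a2.mul_left hf⟩
  · refine ⟨m + 1, by omega, le_rfl, e ▸ a2.cons hF' hF ?_ hf⟩
    rw [a3] at b
    split_ifs at b ⊢ <;> exact b

theorem EP.not_closed {μ : ℕ} (hF : F ≤ K t) (hF' : F ≤ K t') (hne : t ≠ t')
    (hg : Girth F (K t) (K t') μ) (h : EP F K Gd s σ m t t' c) (hm : m + 1 < 2 * μ) (e : s = t)
    (hc : σ⁻¹ * c ∈ K t) : False := by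
  obtain ⟨g, a1, a2, a3⟩ := h.altZ
  subst e
  have ho : ¬ Even m := fun he => hne (by simpa [he] using a3)
  have h0 : m ≠ 0 := by rintro rfl; simp at ho
  have b := mem_trans (mem_symm a1) hc
  by_cases hf : g⁻¹ * c ∈ F
  · exact hg 0 m _ (by omega) (by omega) hf a2
  · exact hg 1 m _ (by omega) (by omega) ((altZ_one hF).2 ⟨b, hf⟩) a2

theorem EP.uniq {μ m' : ℕ} (hG : VInv K Gd') (hF : F ≤ K t) (hF' : F ≤ K t') (hne : t ≠ t')
    (hg : Girth F (K t) (K t') μ) (h : EP F K Gd s σ m t t' c) (h' : PP F K Gd' s σ m' t t' c)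
    (hm : m + 1 + m' < 2 * μ) :
    m' = m + 1 ∧ EP F K (fun a x => Gd a x ∧ Gd' a x) s σ m t t' c := by
  induction m generalizing t t' c m' with
  | zero =>
    cases m' with
    | zero => exact (h.not_closed hF hF' hne hg (by omega) h'.1 h'.2).elim
    | succ m' =>
      refine ⟨?_, h⟩
      obtain ⟨c2, a1, a2⟩ := h'
      by_contra hc
      by_cases e : c2⁻¹ * c ∈ F
      · obtain ⟨m', rfl⟩ : ∃ k, m' = k + 1 := ⟨m' - 1, by omega⟩
        obtain ⟨-, c3, b1, -, b3⟩ := a2.congr hG hF' e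
        exact b3.not_closed hF' hF hne.symm hg.symm (by omega) h.1
          (mem_trans h.2 (mem_symm b1))
      · have : EP F K Tv s σ (m' + 1) t' t c := ⟨trivial, c2, a1, e, a2.tv⟩
        exact this.not_closed hF' hF hne.symm hg.symm (by omega) h.1 h.2
  | succ m ih =>
    cases m' with
    | zero => exact (h.not_closed hF hF' hne hg (by omega) h'.1 h'.2).elim
    | succ m' =>
      obtain ⟨c2, a1, a2⟩ := h'
      by_cases e : c2⁻¹ * c ∈ F
      · obtain ⟨b0, c3, b1, b2, b3⟩ := h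
        obtain ⟨d1, d2⟩ := (a2.congr hG hF' e).prev
        obtain ⟨rfl, f2⟩ := ih hF' hF hne.symm hg.symm b3 (d1.congr (mem_symm b1)) (by omega)
        exact ⟨rfl, ⟨b0, d2.resolve_left (by omega)⟩, c3, b1, b2, f2⟩
      · exfalso
        have b : EP F K Tv s σ (m' + 1) t' t c := ⟨trivial, c2, a1, e, a2.tv⟩
        obtain ⟨g, d1, d2, -⟩ := b.altZ
        obtain ⟨j, f1, f2, f3⟩ := h.altZ' hF hF' d1
        exact hg _ _ _ (by omega) (by omega) d2 f3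

theorem EP.map {ι' : Type*} {K' : ι' → Subgroup G} {Gd' : ι' → G → Prop} (f : ι → ι')
    (h1 : K t = K' (f t)) (h2 : K t' = K' (f t')) (g1 : ∀ x, Gd t x → Gd' (f t) x)
    (g2 : ∀ x, Gd t' x → Gd' (f t') x) (h : EP F K Gd s σ m t t' c) :
    EP F K' Gd' (f s) σ m (f t) (f t') c := by
  induction m generalizing t t' c with
  | zero => exact ⟨congrArg f h.1, h2 ▸ h.2⟩
  | succ m ih =>
    obtain ⟨a, c', b1, b2, b3⟩ := h
    exact ⟨g2 _ a, c', h2 ▸ b1, b2, ih h2 h1 g2 g1 b3⟩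

theorem PP.map {ι' : Type*} {K' : ι' → Subgroup G} {Gd' : ι' → G → Prop} (f : ι → ι')
    (h1 : K t = K' (f t)) (h2 : K t' = K' (f t')) (g1 : ∀ x, Gd t x → Gd' (f t) x)
    (g2 : ∀ x, Gd t' x → Gd' (f t') x) (h : PP F K Gd s σ m t t' c) :
    PP F K' Gd' (f s) σ m (f t) (f t') c := by
  cases m with
  | zero => exact ⟨congrArg f h.1, h1 ▸ h.2⟩
  | succ m => obtain ⟨c', a, b⟩ := h; exact ⟨c', h1 ▸ a, b.map f h1 h2 g1 g2⟩

theorem EP.start (h : EP F K Gd s σ m t t' c) : s = t ∨ s = t' := by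
  obtain ⟨-, -, -, e⟩ := h.altZ
  split_ifs at e
  · exact Or.inr e
  · exact Or.inl e

theorem EP.mem {U : Subgroup G} (h1 : K t ≤ U) (h2 : K t' ≤ U) (h : EP F K Gd s σ m t t' c) :
    σ⁻¹ * c ∈ U := by
  induction m generalizing t t' c with
  | zero => exact h2 h.2
  | succ m ih => obtain ⟨-, c', b1, -, b3⟩ := h; exact mem_trans (ih h2 h1 b3) (h2 b1)

/-- reachable by a walk of length at most `n` -/
def RW (F : Subgroup G) (K : ι → Subgroup G) (Gd : ι → G → Prop) (s : ι) (σ : G) (y z : ι)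
    (n : ℕ) (t : ι) (τ : G) : Prop :=
  ∃ m ≤ n, (t = y ∧ PP F K Gd s σ m y z τ) ∨ (t = z ∧ PP F K Gd s σ m z y τ)

theorem RW.zero {y z : ι} (hs : s = y ∨ s = z) : RW F K Gd s σ y z 0 s σ := by
  rcases hs with rfl | rfl
  · exact ⟨0, le_rfl, Or.inl ⟨rfl, rfl, by simp⟩⟩
  · exact ⟨0, le_rfl, Or.inr ⟨rfl, rfl, by simp⟩⟩

theorem RW.mono {y z : ι} {n n' : ℕ} (h : RW F K Gd s σ y z n t τ) (hn : n ≤ n') :
    RW F K Gd s σ y z n' t τ := let ⟨m, a, b⟩ := h; ⟨m, a.trans hn, b⟩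

theorem RW.congr {y z : ι} {n : ℕ} {τ' : G} (h : RW F K Gd s σ y z n t τ) (e : τ⁻¹ * τ' ∈ K t) :
    RW F K Gd s σ y z n t τ' := by
  obtain ⟨m, a, ⟨rfl, b⟩ | ⟨rfl, b⟩⟩ := h
  · exact ⟨m, a, Or.inl ⟨rfl, b.congr e⟩⟩
  · exact ⟨m, a, Or.inr ⟨rfl, b.congr e⟩⟩

theorem RW.step {y z : ι} {n : ℕ} (hG : VInv K Gd) (hy : F ≤ K y) (hz : F ≤ K z)
    (h : RW F K Gd s σ y z n t τ) (hg : n = 0 ∨ Gd t τ) (ht : t' = y ∨ t' = z) :
    RW F K Gd s σ y z (n + 1) t' τ := by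
  obtain ⟨m, a, ⟨rfl, b⟩ | ⟨rfl, b⟩⟩ := h <;> rcases ht with rfl | rfl
  · exact ⟨m, by omega, Or.inl ⟨rfl, b⟩⟩
  · obtain ⟨m', c1, c2⟩ := b.ext hG hz (hg.imp_left (by omega))
    exact ⟨m', by omega, Or.inr ⟨rfl, c2⟩⟩
  · obtain ⟨m', c1, c2⟩ := b.ext hG hy (hg.imp_left (by omega))
    exact ⟨m', by omega, Or.inl ⟨rfl, c2⟩⟩
  · exact ⟨m, by omega, Or.inr ⟨rfl, b⟩⟩

theorem RW.pp {y z : ι} {n : ℕ} (hne : y ≠ z) (h : RW F K Gd s σ y z n y τ) :
    ∃ m ≤ n, PP F K Gd s σ m y z τ := by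
  obtain ⟨m, a, ⟨-, b⟩ | ⟨e, -⟩⟩ := h
  · exact ⟨m, a, b⟩
  · exact absurd e hne

theorem RW.symm {y z : ι} {n : ℕ} (h : RW F K Gd s σ y z n t τ) : RW F K Gd s σ z y n t τ :=
  let ⟨m, a, b⟩ := h; ⟨m, a, b.symm⟩

end Pool.Agent.H10
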