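import Pool.Agent.Lib.helper10.Tri5
import Pool.Agent.Lib.helper10.PathK

/-! Integer coordinates for the three Euclidean triangle groups. -/

set_option linter.unusedSectionVars false
set_option linter.unusedSimpArgs false
set_option linter.unnecessarySeqFocus false

namespace Pool.Agent.H10

open CoxeterSystem

/-- labels of the three Euclidean triangles -/
def gM : Fin 3 → Fin 3 → Fin 3 → ℕ :=
  ![![![1, 3, 3], ![3, 1, 3], ![3, 3, 1]], ![![1, 4, 2], ![4, 1, 4], ![2, 4, 1]],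
    ![![1, 2, 3], ![2, 1, 6], ![3, 6, 1]]]

/-- the Coxeter matrices -/
def gN (τ : Fin 3) : CoxeterMatrix (Fin 3) where
  M := Matrix.of (gM τ)
  isSymm := by revert τ; decide
  diagonal := by revert τ; decide
  off_diagonal := by revert τ; decide

theorem gN_apply (τ p q : Fin 3) : gN τ p q = gM τ p q := rfl

/-- Cartan integers -/
def gk : Fin 3 → Fin 3 → Fin 3 → ℕ :=
  ![![![0, 1, 1], ![1, 0, 1], ![1, 1, 0]], ![![0, 2, 0], ![1, 0, 1], ![0, 2, 0]],
    ![![0, 0, 1], ![0, 0, 1], ![1, 3, 0]]]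

/-- coefficients of the potentials -/
def gc : Fin 3 → Fin 3 → Fin 3 → ℤ :=
  ![![![-1, 0, 0], ![0, -1, 0], ![0, 0, -1]], ![![-1, 1, 1], ![0, 0, 0], ![1, 1, -1]],
    ![![-3, 3, 6], ![1, -1, 2], ![0, 0, 0]]]

/-- reflection in coordinates -/
def rf (τ p : Fin 3) (z : Fin 3 → ℤ) : Fin 3 → ℤ :=
  fun q => if q = p then -z p else z q + gk τ p q * z p

/-- level -/
def gS (τ : Fin 3) (z : Fin 3 → ℤ) : ℤ := z 0 + z 1 + (if τ = 2 then 2 else 1) * z 2

/-- squared distance to the vertex of type `r` -/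
def gQ (τ r : Fin 3) (z : Fin 3 → ℤ) : ℤ :=
  ![![z 1 ^ 2 + z 1 * z 2 + z 2 ^ 2, z 0 ^ 2 + z 0 * z 2 + z 2 ^ 2, z 0 ^ 2 + z 0 * z 1 + z 1 ^ 2],
    ![(z 1 + z 2) ^ 2 + z 2 ^ 2, z 0 ^ 2 + z 2 ^ 2, z 0 ^ 2 + (z 0 + z 1) ^ 2],
    ![3 * (z 1 + 2 * z 2) ^ 2 + z 1 ^ 2, 3 * z 0 ^ 2 + (z 0 + 2 * z 2) ^ 2,
      3 * z 0 ^ 2 + z 1 ^ 2]] τ r

/-- potential -/
def gl (τ r : Fin 3) (z : Fin 3 → ℤ) : ℤ := gc τ r 0 * z 0 + gc τ r 1 * z 1 + gc τ r 2 * z 2

/-- height difference along a panel -/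
def gD (τ r p : Fin 3) (z : Fin 3 → ℤ) : ℤ := gl τ r z - gl τ (th r p) z

/-- genericity of the base point -/
def gI (τ : Fin 3) (z : Fin 3 → ℤ) : Prop :=
  0 < gS τ z ∧ (τ = 1 → gS τ z % 2 = 1) ∧ (τ = 2 →
    (z 0 % 2 = 0 ∧ z 1 % 2 = 0 ∧ z 2 % 2 = 0 ∧ gS τ z % 4 = 2) ∨ (z 1 % 3 = 0 ∧ gS τ z % 3 ≠ 0))

/-- coordinates after an alternating word -/
def gA (τ : Fin 3) (z : Fin 3 → ℤ) : Fin 3 → Fin 3 → ℕ → Fin 3 → ℤ
  | _, _, 0 => z
  | p, p', i + 1 => rf τ p' (gA τ z p' p i)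

theorem f3 (r : Fin 3) : r = 0 ∨ r = 1 ∨ r = 2 := by revert r; decide

@[simp] theorem th01 : th 0 1 = 2 := rfl
@[simp] theorem th02 : th 0 2 = 1 := rfl
@[simp] theorem th10 : th 1 0 = 2 := rfl
@[simp] theorem th12 : th 1 2 = 0 := rfl
@[simp] theorem th20 : th 2 0 = 1 := rfl
@[simp] theorem th21 : th 2 1 = 0 := rfl

theorem mu_gN (τ r : Fin 3) : mu (gN τ) r = ![![3, 3, 3], ![4, 2, 4], ![6, 3, 2]] τ r := by
  revert τ r; decide

variable {τ r p q : Fin 3} {z : Fin 3 → ℤ}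

theorem gS_rf (τ p : Fin 3) (z : Fin 3 → ℤ) : gS τ (rf τ p z) = gS τ z := by
  rcases f3 τ with rfl | rfl | rfl <;> rcases f3 p with rfl | rfl | rfl <;>
    simp [gS, rf, gk] <;> ring

theorem gI_rf (p : Fin 3) (h : gI τ z) : gI τ (rf τ p z) := by
  unfold gI at h ⊢
  rw [gS_rf]
  rcases f3 τ with rfl | rfl | rfl <;> rcases f3 p with rfl | rfl | rfl <;>
    simp [gS, rf, gk] at h ⊢ <;> omega

theorem gQ_rf (hp : p ≠ r) (z : Fin 3 → ℤ) : gQ τ r (rf τ p z) = gQ τ r z := by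
  rcases f3 τ with rfl | rfl | rfl <;> rcases f3 p with rfl | rfl | rfl <;>
    rcases f3 r with rfl | rfl | rfl <;> simp [gQ, rf, gk] at hp ⊢ <;> ring

theorem gQ_sub (τ r t : Fin 3) (z : Fin 3 → ℤ) :
    gQ τ r z - gQ τ t z = gS τ z * (gl τ r z - gl τ t z) := by
  rcases f3 τ with rfl | rfl | rfl <;> rcases f3 t with rfl | rfl | rfl <;>
    rcases f3 r with rfl | rfl | rfl <;> simp [gQ, gS, gl, gc] <;> ring

theorem gQ_nonneg (τ r : Fin 3) (z : Fin 3 → ℤ) : 0 ≤ gQ τ r z := by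
  rcases f3 τ with rfl | rfl | rfl <;> rcases f3 r with rfl | rfl | rfl <;> simp [gQ] <;>
    nlinarith [sq_nonneg (z 0 + z 1), sq_nonneg (z 0 + z 2), sq_nonneg (z 1 + z 2),
      sq_nonneg (z 0), sq_nonneg (z 1), sq_nonneg (z 2), sq_nonneg (z 1 + 2 * z 2),
      sq_nonneg (z 0 + 2 * z 2)]

theorem gQ_eq_zero (h : gQ τ r z = 0) (hp : p ≠ r) : z p = 0 := by
  have key : ∀ a b : ℤ, a ^ 2 + a * b + b ^ 2 = 0 → a = 0 ∧ b = 0 := fun a b h =>
    ⟨by nlinarith [sq_nonneg (a + b), sq_nonneg a, sq_nonneg b, sq_nonneg (a + 2 * b)],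
      by nlinarith [sq_nonneg (a + b), sq_nonneg a, sq_nonneg b, sq_nonneg (2 * a + b)]⟩
  have key2 : ∀ a b : ℤ, a ^ 2 + b ^ 2 = 0 → a = 0 ∧ b = 0 := fun a b h =>
    ⟨by nlinarith [sq_nonneg a, sq_nonneg b], by nlinarith [sq_nonneg a, sq_nonneg b]⟩
  have key3 : ∀ a b : ℤ, 3 * a ^ 2 + b ^ 2 = 0 → a = 0 ∧ b = 0 := fun a b h =>
    ⟨by nlinarith [sq_nonneg a, sq_nonneg b], by nlinarith [sq_nonneg a, sq_nonneg b]⟩
  rcases f3 τ with rfl | rfl | rfl <;> rcases f3 r with rfl | rfl | rfl <;> simp [gQ] at h <;>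
    first
    | (have := key _ _ h; rcases f3 p with rfl | rfl | rfl <;> simp at hp <;> omega)
    | (have := key2 _ _ h; rcases f3 p with rfl | rfl | rfl <;> simp at hp <;> omega)
    | (have := key3 _ _ h; rcases f3 p with rfl | rfl | rfl <;> simp at hp <;> omega)

theorem gn1 (hI : gI τ z) (hp : p ≠ r) (h1 : 0 ≤ z p) (h2 : z (th r p) ≤ 0) (h3 : 0 ≤ gD τ r p z) :
    0 < gD τ r (th r p) z ∧ 0 < z p := by
  unfold gI at hI
  rcases f3 τ with rfl | rfl | rfl <;> rcases f3 p with rfl | rfl | rfl <;>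
    rcases f3 r with rfl | rfl | rfl <;> simp [gD, gl, gc, gS] at hp hI h1 h2 h3 ⊢ <;> omega

theorem gn4 (hI : gI τ z) (hp : p ≠ r) (h1 : z p ≤ 0) (h2 : z (th r p) ≤ 0) : gD τ r p z < 0 := by
  unfold gI at hI
  rcases f3 τ with rfl | rfl | rfl <;> rcases f3 p with rfl | rfl | rfl <;>
    rcases f3 r with rfl | rfl | rfl <;> simp [gD, gl, gc, gS] at hp hI h1 h2 ⊢ <;> omega

theorem gn5 (hI : gI τ z) (h1 : z r ≤ 0) (h2 : ∀ x, x ≠ r → 0 ≤ z x) :
    ∃ y, y ≠ r ∧ 0 < z (th r y) ∧ 0 < gD τ r y z := by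
  unfold gI at hI
  have a := h2 (r + 1) (succ_ne3 r)
  have n2 : ∀ r : Fin 3, r + 2 ≠ r := by decide
  have b := h2 (r + 2) (n2 r)
  have : (0 < z (th r (r + 1)) ∧ 0 < gD τ r (r + 1) z) ∨
      (0 < z (th r (r + 2)) ∧ 0 < gD τ r (r + 2) z) := by
    rcases f3 τ with rfl | rfl | rfl <;>
      rcases f3 r with rfl | rfl | rfl <;> simp [gD, gl, gc, gS] at hI h1 a b ⊢ <;> omega
  rcases this with h | h
  · exact ⟨_, succ_ne3 r, h⟩
  · exact ⟨_, n2 r, h⟩

theorem gn3 {i : ℕ} (hI : gI τ z) (hp : p ≠ r) (h1 : 0 ≤ z p) (h2 : 0 ≤ z (th r p))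
    (hi : i < mu (gN τ) r) (h3 : 0 ≤ gD τ r p (gA τ z p (th r p) i)) :
    2 * i < mu (gN τ) r ∧ (z (if Even i then th r p else p) = 0 →
      2 * (i + 1) < mu (gN τ) r ∧ 0 < gD τ r (if Even i then th r p else p) z ∧
        0 < z (if Even i then p else th r p)) := by
  unfold gI at hI
  rw [mu_gN] at hi ⊢
  rcases f3 τ with rfl | rfl | rfl <;> rcases f3 p with rfl | rfl | rfl <;>
    rcases f3 r with rfl | rfl | rfl <;> simp at hp hi <;> interval_cases i <;>
    simp (decide := true) [gD, gl, gc, gS, gA, rf, gk] at hI h1 h2 h3 ⊢ <;> omega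

theorem gn7 {i : ℕ} (hp : p ≠ r) (h1 : 0 ≤ z p) (h2 : 0 ≤ z (th r p))
    (hi : i < mu (gN τ) r) (h3 : 0 < gA τ z p (th r p) i p)
    (h4 : z (if Even i then th r p else p) = 0) :
    i + 1 < mu (gN τ) r ∧ 0 < z (if Even i then p else th r p) := by
  rw [mu_gN] at hi ⊢
  rcases f3 τ with rfl | rfl | rfl <;> rcases f3 p with rfl | rfl | rfl <;>
    rcases f3 r with rfl | rfl | rfl <;> simp at hp hi <;> interval_cases i <;>
    simp (decide := true) [gA, rf, gk] at h1 h2 h3 h4 ⊢ <;> omega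

theorem gn2 {i j : ℕ} (hI : gI τ z) (hp : p ≠ r) (hq : q ≠ r) (h1 : 0 ≤ z p) (h2 : 0 ≤ z (th r p))
    (hi : 2 * i < mu (gN τ) r) (hj : 2 * j < mu (gN τ) r)
    (h3 : 0 ≤ gD τ r p (gA τ z p (th r p) i)) (h4 : 0 ≤ gD τ r q (gA τ z q (th r q) j))
    (h5 : (if Even i then p else th r p) ≠ (if Even j then q else th r q)) :
    i + j + 1 < mu (gN τ) r := by
  unfold gI at hI
  rw [mu_gN] at hi hj ⊢
  have h6 : ∀ τ r : Fin 3, ![![3, 3, 3], ![4, 2, 4], ![6, 3, 2]] τ r ≤ 6 := by decide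
  have h7 := h6 τ r
  have hi' : i ≤ 2 := by omega
  have hj' : j ≤ 2 := by omega
  clear h6 h7
  rcases f3 τ with rfl | rfl | rfl <;> rcases f3 p with rfl | rfl | rfl <;>
    rcases f3 r with rfl | rfl | rfl <;> simp at hp <;> rcases f3 q with rfl | rfl | rfl <;>
    simp at hq <;> interval_cases i <;> interval_cases j <;>
    simp (decide := true) [gD, gl, gc, gS, gA, rf, gk] at hI hi hj h1 h2 h3 h4 h5 ⊢ <;> omega

/-- base point at the vertex of type `t` -/
def gB (τ t : Fin 3) : Fin 3 → ℤ :=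
  fun q => if q = t then (if τ = 2 ∧ t ≠ 2 then 2 else 1) else 0

/-- base point in the interior of the panel of type `c` -/
def gB' (τ c : Fin 3) : Fin 3 → ℤ :=
  ![![![0, 2, 1], ![1, 0, 2], ![2, 1, 0]], ![![0, 2, 1], ![1, 0, 2], ![2, 1, 0]],
    ![![0, 2, 2], ![2, 0, 2], ![4, 2, 0]]] τ c

/-- the end of the base panel close to the interior base point -/
def gT (τ c : Fin 3) : Fin 3 := if τ = 2 ∧ c = 0 then 2 else c + 1

/-- admissible base points -/
structure Base (τ c t : Fin 3) (z : Fin 3 → ℤ) : Prop where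
  ne : t ≠ c
  inv : gI τ z
  nonneg : ∀ q, 0 ≤ z q
  zero : z c = 0
  low : gD τ t c z < 0

theorem base_gB {c t : Fin 3} (h : t ≠ c) : Base τ c t (gB τ t) := by
  refine ⟨h, ?_, ?_, by simp [gB, h.symm], ?_⟩
  · unfold gI; revert τ t c; decide
  · revert τ t c; decide
  · revert τ t c; decide

theorem gB_th {c t : Fin 3} (h : t ≠ c) : gB τ t (th t c) = 0 := by simp [gB, th_ne_left h]

theorem gQ_gB (τ t : Fin 3) : gQ τ t (gB τ t) = 0 := by revert τ t; decide

theorem base_gB' (τ c : Fin 3) : Base τ c (gT τ c) (gB' τ c) := by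
  refine ⟨?_, ?_, ?_, ?_, ?_⟩
  · revert τ c; decide
  · unfold gI; revert τ c; decide
  · revert τ c; decide
  · revert τ c; decide
  · revert τ c; decide

theorem gB'_pos (τ c q : Fin 3) (h : q ≠ c) : 0 < gB' τ c q := by revert τ c q; decide

/-- orbit invariants for the triangle `(2,3,6)` -/
def gJ (t : Fin 3) (z : Fin 3 → ℤ) : Prop :=
  gS 2 z = 2 ∧ (t = 1 → z 0 % 2 = 0 ∧ z 1 % 2 = 0 ∧ z 2 % 2 = 0 ∧ z 1 % 3 ≠ 0) ∧
    (t = 2 → z 1 % 3 = 0 ∧ ¬ (z 0 % 2 = 0 ∧ z 1 % 2 = 0 ∧ z 2 % 2 = 0))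

theorem gJ_rf {t : Fin 3} (p : Fin 3) (h : gJ t z) : gJ t (rf 2 p z) := by
  unfold gJ at h ⊢
  rw [gS_rf]
  rcases f3 t with rfl | rfl | rfl <;> rcases f3 p with rfl | rfl | rfl <;>
    simp [gS, rf, gk] at h ⊢ <;> omega

theorem gJ_gB (t : Fin 3) (h : t ≠ 0) : gJ t (gB 2 t) := by unfold gJ; revert t; decide

theorem sq_bound {a : ℤ} {n : ℤ} (hn : 0 ≤ n) (h : a ^ 2 < (n + 1) ^ 2) : -n ≤ a ∧ a ≤ n :=
  ⟨by nlinarith, by nlinarith⟩

theorem gJ_far {t : Fin 3} (ht : t ≠ 0) (h : gJ t z) : (if t = 1 then 16 else 12) ≤ gQ 2 0 z := by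
  unfold gJ at h
  by_contra hc
  have a1 := sq_nonneg (z 1 + 2 * z 2)
  have a2 := sq_nonneg (z 1)
  have b1 : z 1 ^ 2 < (3 + 1) ^ 2 := by
    rcases f3 t with rfl | rfl | rfl <;> simp [gQ] at ht hc <;> omega
  have b2 : (z 1 + 2 * z 2) ^ 2 < (2 + 1) ^ 2 := by
    rcases f3 t with rfl | rfl | rfl <;> simp [gQ] at ht hc <;> omega
  obtain ⟨c1, c2⟩ := sq_bound (by omega) b1
  obtain ⟨c3, c4⟩ := sq_bound (by omega) b2
  simp only [gQ] at hc
  generalize he : z 1 + 2 * z 2 = e at *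
  generalize hf : z 1 = f at *
  rcases f3 t with rfl | rfl | rfl <;> simp [gS] at ht hc h <;> interval_cases e <;>
    interval_cases f <;> omega

theorem gJ_near {t : Fin 3} (ht : t ≠ 0) (h : gJ t z) (h4 : gQ 2 (th t 0) z = 4) :
    gQ 2 t z = 0 ∨ gQ 2 t z = if t = 1 then 16 else 12 := by
  unfold gJ at h
  have a1 := sq_nonneg (z 0 + 2 * z 2)
  have a2 := sq_nonneg (z 1)
  have a3 := sq_nonneg (z 0)
  rcases f3 t with rfl | rfl | rfl <;> simp [gQ, gS] at ht h h4 ⊢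
  · obtain ⟨c1, c2⟩ := sq_bound (a := z 0) (n := 1) (by omega) (by omega)
    obtain ⟨c3, c4⟩ := sq_bound (a := z 1) (n := 2) (by omega) (by omega)
    have e : z 0 + 2 * z 2 = 2 - z 1 := by omega
    rw [e]
    generalize z 0 = a at *
    generalize z 1 = b at *
    interval_cases a <;> interval_cases b <;> omega
  · obtain ⟨c1, c2⟩ := sq_bound (a := z 0) (n := 1) (by omega) (by omega)
    obtain ⟨c3, c4⟩ := sq_bound (a := z 0 + 2 * z 2) (n := 2) (by omega) (by omega)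
    have e : z 1 = 2 - (z 0 + 2 * z 2) := by omega
    rw [e] at h ⊢
    generalize he : z 0 + 2 * z 2 = b at *
    generalize z 0 = a at *
    interval_cases a <;> interval_cases b <;> omega

theorem gQ_gB_th (t : Fin 3) (ht : t ≠ 0) : gQ 2 (th t 0) (gB 2 t) = 4 := by revert t; decide

/-- scaling factors -/
noncomputable def gL (τ p : Fin 3) : ℝ :=
  if p = 1 then (if τ = 0 then 1 else if τ = 1 then Real.sqrt 2 else Real.sqrt 3) else 1

theorem gL_pos (τ p : Fin 3) : 0 < gL τ p := by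
  unfold gL; split_ifs <;> positivity

theorem gk_spec (τ : Fin 3) {p q : Fin 3} (h : q ≠ p) :
    (gk τ p q : ℝ) * gL τ p = 2 * kc (gN τ) p q * gL τ q := by
  have h2 := Real.mul_self_sqrt (show (0 : ℝ) ≤ 2 by norm_num)
  have h3 := Real.mul_self_sqrt (show (0 : ℝ) ≤ 3 by norm_num)
  rcases f3 τ with rfl | rfl | rfl <;> rcases f3 p with rfl | rfl | rfl <;>
    rcases f3 q with rfl | rfl | rfl <;> simp [gk, gL, kc, gN_apply, gM] at h ⊢ <;> linarith

/-- coordinates of a word -/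
def zw (τ : Fin 3) (z : Fin 3 → ℤ) (l : List (Fin 3)) : Fin 3 → ℤ := l.foldl (fun z p => rf τ p z) z

/-- real coordinates -/
noncomputable def zr (τ : Fin 3) (z : Fin 3 → ℤ) (w : (gN τ).Group) (p : Fin 3) : ℝ :=
  gL τ p * ∑ q, (z q / gL τ q) * rho (cx (gN τ)) w (ee p) q

theorem zw_cast (l : List (Fin 3)) (p : Fin 3) :
    (zw τ z l p : ℝ) = zr τ z ((cx (gN τ)).wordProd l) p := by
  induction l using List.reverseRecOn generalizing p with
  | nil =>
    have := (gL_pos τ p).ne'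
    simp [zw, zr, ee, Pi.single_apply]; field_simp
  | append_singleton l a ih =>
    have e : zw τ z (l ++ [a]) = rf τ a (zw τ z l) := by simp [zw]
    rw [e, wordProd_append, wordProd_singleton]
    unfold zr at ih ⊢
    rw [map_mul, Module.End.mul_apply, rho_simple]
    by_cases h : p = a
    · subst h
      simp [rf, ih, Finset.sum_neg_distrib]
    · have := gk_spec τ h
      rw [sref_ee]
      simp only [rf, if_neg h, Int.cast_add, Int.cast_mul, Int.cast_natCast, ih, map_add, map_smul,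
        Pi.add_apply, Pi.smul_apply, smul_eq_mul, mul_add, Finset.sum_add_distrib]
      rw [← mul_assoc, this, Finset.mul_sum, Finset.mul_sum, Finset.mul_sum]
      congr 1
      exact Finset.sum_congr rfl fun q _ => by ring

/-- coordinates of an element -/
noncomputable def zz (τ : Fin 3) (z : Fin 3 → ℤ) (w : (gN τ).Group) : Fin 3 → ℤ :=
  zw τ z ((cx (gN τ)).wordProd_surjective w).choose

theorem zz_cast (w : (gN τ).Group) (p : Fin 3) : (zz τ z w p : ℝ) = zr τ z w p := by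
  rw [zz, zw_cast, ((cx (gN τ)).wordProd_surjective w).choose_spec]

theorem zz_word (l : List (Fin 3)) : zz τ z ((cx (gN τ)).wordProd l) = zw τ z l := by
  funext p
  exact_mod_cast (zz_cast _ p).trans (zw_cast l p).symm

theorem zz_one : zz τ z 1 = z := by simpa [zw] using zz_word (τ := τ) (z := z) []

theorem zz_mul (w : (gN τ).Group) (p : Fin 3) :
    zz τ z (w * sg (gN τ) p) = rf τ p (zz τ z w) := by
  obtain ⟨l, rfl⟩ := (cx (gN τ)).wordProd_surjective w
  rw [sg, ← wordProd_singleton, ← wordProd_append, zz_word, zz_word]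
  simp [zw]

theorem zz_ind {P : (Fin 3 → ℤ) → Prop} (h0 : P z) (h : ∀ p z, P z → P (rf τ p z))
    (w : (gN τ).Group) : P (zz τ z w) := by
  obtain ⟨l, rfl⟩ := (cx (gN τ)).wordProd_surjective w
  induction l using List.reverseRecOn with
  | nil => simpa [zz_one] using h0
  | append_singleton l a ih => rw [wordProd_append, wordProd_singleton, zz_mul]; exact h _ _ ih

theorem zz_nonneg (hz : ∀ q, 0 ≤ z q) {w : (gN τ).Group} (h : ¬ RD (gN τ) w p) :
    0 ≤ zz τ z w p := by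
  have : (0 : ℝ) ≤ zz τ z w p := by
    rw [zz_cast]
    exact mul_nonneg (gL_pos _ _).le (Finset.sum_nonneg fun q _ => mul_nonneg
      (div_nonneg (by exact_mod_cast hz q) (gL_pos _ _).le) (rho_nonneg _ h q))
  exact_mod_cast this

theorem zz_nonpos (hz : ∀ q, 0 ≤ z q) {w : (gN τ).Group} (h : RD (gN τ) w p) :
    zz τ z w p ≤ 0 := by
  have := zz_nonneg hz ((cx (gN τ)).isRightDescent_iff_not_isRightDescent_mul.1 h)
  rw [zz_mul] at this
  simpa [rf] using this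

theorem zz_pos {c : Fin 3} (hz : ∀ q, 0 ≤ z q) (hz' : ∀ q, q ≠ c → 0 < z q) {w : (gN τ).Group}
    (h : ¬ RD (gN τ) w p) (hc : (cx (gN τ)).IsLeftDescent w c) : 0 < zz τ z w p := by
  refine lt_of_le_of_ne (zz_nonneg hz h) fun e => ?_
  have h1 := zz_cast (z := z) w p
  rw [← e, Int.cast_zero, zr, eq_comm, mul_eq_zero, or_iff_right (gL_pos _ _).ne',
    Finset.sum_eq_zero_iff_of_nonneg fun q _ => mul_nonneg
      (div_nonneg (by exact_mod_cast hz q) (gL_pos _ _).le) (rho_nonneg _ h q)] at h1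
  have h2 : rho (cx (gN τ)) w (ee p) = (rho (cx (gN τ)) w (ee p) c) • ee c := by
    funext q
    by_cases hq : q = c
    · simp [hq, ee]
    · have a := h1 q (Finset.mem_univ _)
      have b : (0 : ℝ) < z q / gL τ q := div_pos (by exact_mod_cast hz' q hq) (gL_pos _ _)
      rw [(mul_eq_zero.1 a).resolve_left b.ne']
      simp [ee, hq]
  have h3 := conj_eq_of_root _ h2
  apply h
  unfold RD IsRightDescent
  rw [mul_inv_eq_iff_eq_mul.1 h3]; exact hc

theorem zz_alt (w : (gN τ).Group) (p p' : Fin 3) (i : ℕ) :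
    zz τ z (w * (cx (gN τ)).wordProd (alternatingWord p p' i)) = gA τ (zz τ z w) p p' i := by
  induction i generalizing p p' with
  | zero => simp [alternatingWord, gA]
  | succ i ih => rw [alternatingWord_succ, wordProd_concat, ← mul_assoc, zz_mul, ih, gA]

theorem gQ_res {u w : (gN τ).Group} (h : u⁻¹ * w ∈ res (gN τ) r) :
    gQ τ r (zz τ z w) = gQ τ r (zz τ z u) := by
  have e : w = u * (u⁻¹ * w) := by simp
  rw [e]
  refine par_induction (cx (gN τ)) (P := fun v => gQ τ r (zz τ z (u * v)) = gQ τ r (zz τ z u)) h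
    (by simp) ?_
  intro v _ i hi ih
  rw [← mul_assoc, zz_mul, gQ_rf hi, ih]

theorem gN_ne (τ i j : Fin 3) : gN τ i j ≠ 0 := by revert τ i j; decide

theorem gN_no3 (τ : Fin 3) (w : (gN τ).Group) : ∃ x, ¬ RD (gN τ) w x := by
  by_contra hc
  push Not at hc
  refine not_finite_of_nsph (cx (gN τ)) (i := 0) (j := 1) (k := 2) (by decide) (by decide)
    (by decide) ?_ (finite_of_rdesc _ fun t _ => hc t)
  clear hc w
  unfold NSph; revert τ; decide

theorem res_word {N : CoxeterMatrix (Fin 3)} {w : N.Group} (hp : p ≠ r) (h : ¬ RD N w p) :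
    w = bas N r w * (cx N).wordProd (alternatingWord p (th r p) (loc N r w)) := by
  induction hk : loc N r w generalizing w p with
  | zero =>
    have := (cx N).length_eq_zero_iff.1 hk
    rw [inv_mul_eq_one] at this
    simpa [alternatingWord] using this.symm
  | succ k ih =>
    have hp' := th_ne_left hp.symm
    have hd : RD N w (th r p) := by
      by_contra hd
      have := loc_eq_zero (N := N) (r := r) (w := w) fun x hx => by
        rcases fin3_cases hp.symm x with rfl | rfl | rfl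
        · exact absurd rfl hx
        · exact h
        · exact hd
      omega
    have h1 := (cx N).isRightDescent_iff_not_isRightDescent_mul.1 hd
    have h2 := loc_mul hp' h1
    have e : w * sg N (th r p) * sg N (th r p) = w := (cx N).simple_mul_simple_cancel_right _
    rw [e] at h2
    have h3 := ih hp' h1 (by omega)
    rw [bas_mul (sg_mem_res hp'), th_th] at h3
    rw [alternatingWord_succ, wordProd_concat, ← mul_assoc, ← h3, e]

end Pool.Agent.H10
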