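import Pool.Agent.Lib.helper10.Geo1

/-! Heights in Euclidean triangles of groups. -/

set_option linter.unusedSectionVars false

namespace Pool.Agent.H10

open CoxeterSystem Function

universe u

variable {G : Type u} [Group G]

theorem ld_mul {N : CoxeterMatrix (Fin 3)} {u v : N.Group} {c : Fin 3}
    (h : (cx N).IsLeftDescent u c) (e : ln N (u * v) = ln N u + ln N v) :
    (cx N).IsLeftDescent (u * v) c := by
  have := (cx N).length_mul_le ((cx N).simple c * u) v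
  unfold IsLeftDescent at h ⊢
  unfold ln at e
  rw [← mul_assoc]; omega

theorem gD_anti (τ : Fin 3) {r p : Fin 3} (z : Fin 3 → ℤ) : gD τ (th r p) p z = -gD τ r p z := by
  simp [gD, th_th']

theorem rf_zero {τ p : Fin 3} {z : Fin 3 → ℤ} (h : z p = 0) : rf τ p z = z := by
  funext q; by_cases e : q = p <;> simp [rf, e, h]

theorem gQ_of_zero {τ r : Fin 3} {z : Fin 3 → ℤ} (h : ∀ p, p ≠ r → z p = 0) : gQ τ r z = 0 := by
  have a := h (r + 1) (succ_ne3 r)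
  have b := h (r + 2) (by clear a h; revert r; decide)
  rcases f3 τ with rfl | rfl | rfl <;> rcases f3 r with rfl | rfl | rfl <;> simp [gQ] at a b ⊢ <;>
    simp [a, b]

namespace Tri

variable {T : Tri G}

theorem Ch.inv2 {g : G} {w : T.N.Group} {α : Fin 3 → T.Nd} (h : T.Ch g w α) :
    (cx T.N).IsLeftDescent w T.c ∧ ∀ r, (cx T.N).IsLeftDescent (T.nu (α r)) T.c ∧
      (T.nk (α r) = none → RD T.N (T.nu (α r)) r) ∧
      ∀ p, T.nk (α r) = some p → α r = .root ∨ Top T.N (th r p) (T.nu (α r)) := by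
  have l0 : (cx T.N).IsLeftDescent (sg T.N T.c) T.c := by simp [IsLeftDescent, sg]
  induction h with
  | root h hh =>
    refine ⟨l0, fun r => ?_⟩
    by_cases hr : r = T.c
    · subst hr
      rw [update_self]
      exact ⟨l0, fun _ => rd_sg.2 rfl, fun p hp => by simp [nk] at hp⟩
    · rw [update_of_ne hr]
      exact ⟨l0, fun h => by simp [nk] at h, fun _ _ => Or.inl rfl⟩
  | pan g w α p g' a0 a1 a2 a3 a4 ih =>
    have l1 := ld_mul ih.1 (v := sg T.N p) (by rw [ln_mul a1]; simp [ln, sg])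
    refine ⟨l1, fun r => ?_⟩
    by_cases hr : r = p
    · subst hr
      rw [update_self]
      exact ⟨l1, fun _ => rd_mul_self a1, fun p hp => by simp [nk] at hp⟩
    · rw [update_of_ne hr]; exact ih.2 r
  | top g0 w0 α0 r0 g w α gs ws αs a0 a1 a2 a3 a4 a5 a6 a7 ih0 ihs =>
    have l1 : (cx T.N).IsLeftDescent w T.c := by
      have e1 := length_mul_max (cx T.N) (T := {x | x ≠ r0}) a3.2 (inv_mem a3.1)
      rw [show w * ((T.nu (α0 r0))⁻¹ * w)⁻¹ = T.nu (α0 r0) by group, (cx T.N).length_inv] at e1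
      have := ld_mul (ih0.2 r0).1 (v := (T.nu (α0 r0))⁻¹ * w) (by
        rw [mul_inv_cancel_left]; exact e1.symm)
      rwa [mul_inv_cancel_left] at this
    refine ⟨l1, fun r => ?_⟩
    by_cases hr : r = r0
    · rw [hr, a4]; exact ih0.2 r0
    · have hp : th r0 r ≠ r0 := th_ne_left (Ne.symm hr)
      by_cases hn : T.Near r0 (α0 r0) (th r0 r) g
      · have := (a6 _ hp hn).2.2.2
        rw [th_th] at this
        rw [this]; exact (ihs _ hp hn).2 r
      · have := a7 _ hp hn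
        rw [th_th] at this
        rw [this]
        refine ⟨l1, fun h => by simp [nk] at h, fun p hp => Or.inr ?_⟩
        simp only [nk, Option.some.injEq] at hp
        rw [← hp, th_th''']; exact a3.2

theorem RPath.in {r : Fin 3} {n : T.Nd} (hv : T.Valid r n) {g : G} {w : T.N.Group}
    (h : T.RPath r n g w) : T.In r n g := by
  induction h with
  | base g hg => exact hv.in_of_mem hg
  | step g w x h _ hx _ h1 _ ih => exact ih.mul (by simpa using T.HV _ _ hx h1)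

theorem RPath.conv' {r p : Fin 3} {n : T.Nd} (hv : T.Valid r n) {g : G} {w : T.N.Group}
    (h : T.RPath r n g w) (hp : p ≠ r) (hd : ¬ RD T.N w p) :
    ∃ g0 ∈ T.nK n, ∃ k, w = T.nu n * (cx T.N).wordProd (alternatingWord p (th r p) k) ∧
      ln T.N w = ln T.N (T.nu n) + k ∧ AltZ T.F k (T.H (th r p)) (T.H p) (g0⁻¹ * g) ∧
      ∀ q, T.nk n = some q → q = if Even k then th r p else p := by
  obtain ⟨g0, hg0, k, x, a1, a2, a3, a4, a5, a6⟩ := h.conv hv
  cases k with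
  | zero =>
    refine ⟨g0, hg0, 0, a2, a3, a5, fun q hq => ?_⟩
    simp only [alternatingWord, wordProd_nil, mul_one] at a2
    exact eq_th hp.symm (hv.2.2 q hq).1 fun e => hd (a2 ▸ e ▸ (hv.2.2 q hq).2.1)
  | succ k =>
    obtain rfl : x = th r p := eq_th hp.symm a1 fun e => hd (e ▸ a4 (by omega))
    rw [th_th] at a2 a5
    refine ⟨g0, hg0, k + 1, a2, a3, a5, fun q hq => ?_⟩
    have := a6 q hq
    split_ifs at this ⊢
    · exact this.symm
    · exact (th_inj this).symm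

open Classical in
/-- position and vertices of a chamber -/
noncomputable def pa (T : Tri G) (g : G) : T.N.Group × (Fin 3 → T.Nd) :=
  if h : g ∈ T.U then ((exists_ch h).choose, (exists_ch h).choose_spec.choose)
  else (1, fun _ => .root)

theorem ch_pa {g : G} (h : g ∈ T.U) : T.Ch g (T.pa g).1 (T.pa g).2 := by
  rw [pa, dif_pos h]; exact (exists_ch h).choose_spec.choose_spec

theorem Ch.pa_eq {g : G} {w : T.N.Group} {α : Fin 3 → T.Nd} (h : T.Ch g w α) :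
    T.pa g = (w, α) := Prod.ext ((ch_pa h.mem).func h).1 ((ch_pa h.mem).func h).2

theorem memU {g g' : G} {r : Fin 3} (h : g ∈ T.U) (e : g⁻¹ * g' ∈ T.V r) : g' ∈ T.U := by
  simpa using mul_mem h (T.VU r e)

theorem pa_same {g g' : G} {r : Fin 3} (h : g ∈ T.U) (e : g⁻¹ * g' ∈ T.V r) :
    (T.pa g').2 r = (T.pa g).2 r := (ch_pa h).same (ch_pa (memU h e)) e

theorem pa_valid {g : G} (h : g ∈ T.U) (r : Fin 3) : T.Valid r ((T.pa g).2 r) := ((ch_pa h).inv r).1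

theorem rp_spec {g κ : G} {r : Fin 3} {w : T.N.Group} (h : g ∈ T.U)
    (hp : T.RPath r ((T.pa g).2 r) κ w) : g⁻¹ * κ ∈ T.V r ∧ κ ∈ T.U ∧ (T.pa κ).1 = w := by
  obtain ⟨v, i, -⟩ := (ch_pa h).inv r
  have e := i.rel v (hp.in v)
  refine ⟨e, memU h e, ?_⟩
  have := ((ch_pa (memU h e)).inv r).2.2
  rw [pa_same h e] at this
  exact this.unique v (hp.pos v) (by simp)

theorem pa_one : T.pa 1 = (sg T.N T.c, update (fun _ => Node.root) T.c
    (Node.real (cos 1 T.F) (sg T.N T.c) .root .root)) := (Ch.root 1 (one_mem _)).pa_eq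

/-- coordinates on a triangle of groups -/
structure Geo (T : Tri G) where
  τ : Fin 3
  t : Fin 3
  Z : T.N.Group → Fin 3 → ℤ
  hmu : ∀ r, mu T.N r = mu (gN τ) r
  mul : ∀ w p, Z (w * sg T.N p) = rf τ p (Z w)
  base : Base τ T.c t (Z 1)
  nonneg : ∀ w p, ¬ RD T.N w p → 0 ≤ Z w p
  pos : (∀ q, q ≠ T.c → 0 < Z 1 q) → ∀ w p, ¬ RD T.N w p → (cx T.N).IsLeftDescent w T.c →
    0 < Z w p
  HH : ∀ p q, p ≠ q → ¬ T.H p ≤ T.H q

namespace Geo

variable (X : T.Geo)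

theorem ind {P : (Fin 3 → ℤ) → Prop} (h0 : P (X.Z 1)) (h : ∀ p z, P z → P (rf X.τ p z))
    (w : T.N.Group) : P (X.Z w) := by
  obtain ⟨l, rfl⟩ := (cx T.N).wordProd_surjective w
  induction l using List.reverseRecOn with
  | nil => simpa using h0
  | append_singleton l a ih => rw [wordProd_append, wordProd_singleton, X.mul]; exact h _ _ ih

theorem inv (w : T.N.Group) : gI X.τ (X.Z w) := X.ind X.base.inv (fun p _ => gI_rf p) w

theorem nonpos {w : T.N.Group} {p : Fin 3} (h : RD T.N w p) : X.Z w p ≤ 0 := by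
  have := X.nonneg _ _ ((cx T.N).isRightDescent_iff_not_isRightDescent_mul.1 h)
  rw [X.mul] at this
  simpa [rf] using this

theorem alt (w : T.N.Group) (p p' : Fin 3) (i : ℕ) :
    X.Z (w * (cx T.N).wordProd (alternatingWord p p' i)) = gA X.τ (X.Z w) p p' i := by
  induction i generalizing p p' with
  | zero => simp [alternatingWord, gA]
  | succ i ih => rw [alternatingWord_succ, wordProd_concat, ← mul_assoc, X.mul, ih, gA]

theorem Q_res {r : Fin 3} {u w : T.N.Group} (h : u⁻¹ * w ∈ res T.N r) :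
    gQ X.τ r (X.Z w) = gQ X.τ r (X.Z u) := by
  have e : w = u * (u⁻¹ * w) := by simp
  rw [e]
  refine par_induction (cx T.N) (P := fun v => gQ X.τ r (X.Z (u * v)) = gQ X.τ r (X.Z u)) h
    (by simp) ?_
  intro v _ i hi ih
  rw [← mul_assoc, X.mul, gQ_rf hi, ih]

theorem Z_c : X.Z (sg T.N T.c) = X.Z 1 := by
  have := X.mul 1 T.c
  rwa [one_mul, rf_zero X.base.zero] at this

/-- height of a vertex -/
noncomputable def ht (r : Fin 3) (g : G) : ℤ := gQ X.τ r (X.Z (T.pa g).1)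

/-- the far end of the panel is strictly lower -/
def Gd (r p : Fin 3) (g : G) : Prop := g ∈ T.U ∧ p ≠ r ∧ X.ht (th r p) g < X.ht r g

/-- the far end of the panel is not higher -/
def Lw (r p : Fin 3) (g : G) : Prop := g ∈ T.U ∧ p ≠ r ∧ X.ht (th r p) g ≤ X.ht r g

variable {X} {r p q : Fin 3} {g g' c : G}

theorem ht_nonneg : 0 ≤ X.ht r g := gQ_nonneg _ _ _

theorem ht_congr (h : g ∈ T.U) (e : g⁻¹ * g' ∈ T.V r) : X.ht r g' = X.ht r g := by
  have a := ((ch_pa h).inv r).2.2.mem_res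
  have b := ((ch_pa (memU h e)).inv r).2.2.mem_res
  rw [pa_same h e] at b
  exact (X.Q_res b).trans (X.Q_res a).symm

theorem Gd.lw (h : X.Gd r p g) : X.Lw r p g := ⟨h.1, h.2.1, h.2.2.le⟩

theorem Lw.congr (h : X.Lw r p g) (e : g⁻¹ * g' ∈ T.H p) : X.Lw r p g' := by
  have e1 := T.HV _ _ h.2.1 e
  have e2 := T.HV _ _ (th_ne_right h.2.1.symm).symm e
  exact ⟨memU h.1 e1, h.2.1, by rw [ht_congr h.1 e1, ht_congr h.1 e2]; exact h.2.2⟩

theorem vinv_gd (r : Fin 3) : VInv T.H (X.Gd r) := by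
  intro p g g' e h
  have e1 := T.HV _ _ h.2.1 e
  have e2 := T.HV _ _ (th_ne_right h.2.1.symm).symm e
  exact ⟨memU h.1 e1, h.2.1, by rw [ht_congr h.1 e1, ht_congr h.1 e2]; exact h.2.2⟩

theorem gd_iff (h : g ∈ T.U) (hp : p ≠ r) : X.Gd r p g ↔ 0 < gD X.τ r p (X.Z (T.pa g).1) := by
  have a := gQ_sub X.τ r (th r p) (X.Z (T.pa g).1)
  have b := (X.inv (T.pa g).1).1
  simp only [Gd, h, hp, ne_eq, not_false_iff, true_and, ht, gD]
  rw [← sub_pos, a, mul_pos_iff_of_pos_left b]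

theorem lw_iff (h : g ∈ T.U) (hp : p ≠ r) : X.Lw r p g ↔ 0 ≤ gD X.τ r p (X.Z (T.pa g).1) := by
  have a := gQ_sub X.τ r (th r p) (X.Z (T.pa g).1)
  have b := (X.inv (T.pa g).1).1
  simp only [Lw, h, hp, ne_eq, not_false_iff, true_and, ht, gD]
  rw [← sub_nonneg, a, mul_nonneg_iff_of_pos_left b]

theorem Lw.desc (h : X.Lw r p g) (h1 : ¬ RD T.N (T.pa g).1 p) (h2 : RD T.N (T.pa g).1 (th r p)) :
    X.Gd r (th r p) g ∧ 0 < X.Z (T.pa g).1 p := by
  have := gn1 (X.inv _) h.2.1 (X.nonneg _ _ h1) (X.nonpos h2) ((lw_iff h.1 h.2.1).1 h)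
  exact ⟨(gd_iff h.1 (th_ne_left h.2.1.symm)).2 this.1, this.2⟩

theorem Lw.cls (h : X.Lw r p c) : (T.nk ((T.pa c).2 r) = some p ∧ c ∈ T.nK ((T.pa c).2 r)) ∨
    ∃ κ w, κ⁻¹ * c ∈ T.H p ∧ T.RPath r ((T.pa c).2 r) κ w ∧ ¬ RD T.N w p := by
  obtain ⟨hv, -, hp⟩ := (ch_pa h.1).inv r
  rcases hp with hp | hp
  · by_cases hd : RD T.N (T.pa c).1 p
    swap
    · exact Or.inr ⟨c, _, by simp, hp.1, hd⟩
    generalize (T.pa c).1 = w at hp hd
    obtain ⟨h1, h2⟩ := hp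
    cases h1 with
    | base _ hg =>
      cases hn : T.nk ((T.pa c).2 r) with
      | none => exact absurd hd (hv.2.1 hn p h.2.1)
      | some p' =>
        exact Or.inl ⟨congrArg some (NT.desc_unique ⟨RPath.base _ hg, h2⟩ (hv.2.2 p' hn).1 h.2.1
          (hv.2.2 p' hn).2.1 hd), hg⟩
    | step g1 w1 x h1 a1 a2 a3 a4 a5 =>
      obtain rfl : x = p := NT.desc_unique ⟨RPath.step _ _ _ _ a1 a2 a3 a4 a5, h2⟩ a2 h.2.1
        (rd_mul_self a3) hd
      exact Or.inr ⟨g1, w1, by simpa using a4, a1, a3⟩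
  · have := gn4 (X.inv (T.pa c).1) h.2.1 (X.nonpos (hp.2.2 _ h.2.1))
      (X.nonpos (hp.2.2 _ (th_ne_left h.2.1.symm)))
    have := (lw_iff h.1 h.2.1).1 h
    omega

/-- walks in the link of a vertex -/
abbrev Wk (X : T.Geo) (r s : Fin 3) (σ : G) (n : ℕ) (p : Fin 3) (c : G) : Prop :=
  RW T.F T.H (X.Gd r) s σ (r + 1) (r + 2) n p c

theorem two_of_ne (h : p ≠ r) : p = r + 1 ∨ p = r + 2 := by revert p r; decide

theorem Wk.step {s : Fin 3} {σ : G} {n : ℕ} (h : X.Wk r s σ n p c) (hg : n = 0 ∨ X.Gd r p c)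
    (hq : q ≠ r) : X.Wk r s σ (n + 1) q c :=
  RW.step (vinv_gd r) (T.FH _) (T.FH _) h hg (two_of_ne hq)

theorem Wk.pp {s : Fin 3} {σ : G} {n : ℕ} (h : X.Wk r s σ n p c) :
    ∃ m ≤ n, PP T.F T.H (X.Gd r) s σ m p (th r p) c := by
  obtain ⟨m, a, ⟨rfl, b⟩ | ⟨rfl, b⟩⟩ := h
  · exact ⟨m, a, by rwa [show th r (r + 1) = r + 2 by clear b; revert r; decide]⟩
  · exact ⟨m, a, by rwa [show th r (r + 2) = r + 1 by clear b; revert r; decide]⟩

/-- two panels are joined by a monotone walk -/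
def Ln (X : T.Geo) (r y : Fin 3) (k : G) (d : ℕ) (p : Fin 3) (c : G) : Prop :=
  ((d = 0 ∧ y = p ∧ k⁻¹ * c ∈ T.H p) ∨ X.Gd r y k) ∧
  (∀ s σ n, X.Wk r s σ n p c → n = 0 ∨ X.Gd r p c → X.Wk r s σ (n + d) y k) ∧
  ∀ s σ n, X.Wk r s σ n y k → n = 0 ∨ X.Gd r y k → X.Wk r s σ (n + d) p c

theorem Ln.zero {k : G} (e : k⁻¹ * c ∈ T.H p) : X.Ln r p k 0 p c :=
  ⟨Or.inl ⟨rfl, rfl, e⟩, fun _ _ _ h _ => h.congr (mem_symm e), fun _ _ _ h _ => h.congr e⟩

theorem Ln.succ {k c' : G} {y : Fin 3} {d : ℕ} (h : X.Ln r y k d q c') (hg : X.Gd r q c')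
    (hp : p ≠ r) (e : c'⁻¹ * c ∈ T.H p) : X.Ln r y k (d + 1) p c := by
  obtain ⟨a1, a2, a3⟩ := h
  refine ⟨Or.inr ?_, fun s σ n h1 h2 => ?_, fun s σ n h1 h2 => ?_⟩
  · rcases a1 with ⟨-, rfl, b⟩ | b
    · exact vinv_gd r _ _ _ (mem_symm b) hg
    · exact b
  · have := a2 s σ _ (Wk.step (h1.congr (mem_symm e))
      (h2.imp_right (vinv_gd r _ _ _ (mem_symm e))) hg.2.1) (Or.inr hg)
    rwa [show n + 1 + d = n + (d + 1) by ring] at this
  · exact (Wk.step (a3 s σ n h1 h2) (Or.inr hg) hp).congr e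

theorem Ln.congr {k c' : G} {y : Fin 3} {d : ℕ} (h : X.Ln r y k d p c') (e : c'⁻¹ * c ∈ T.H p) :
    X.Ln r y k d p c :=
  ⟨h.1.imp_left fun a => ⟨a.1, a.2.1, mem_trans a.2.2 e⟩, fun s σ n h1 h2 => h.2.1 s σ n
    (h1.congr (mem_symm e)) (h2.imp_right (vinv_gd r _ _ _ (mem_symm e))),
    fun s σ n h1 h2 => (h.2.2 s σ n h1 h2).congr e⟩

theorem Ln.cons {k : G} {y y' : Fin 3} {d : ℕ} (h : X.Ln r y k d p c) (hl : X.Lw r p c)
    (hg : X.Gd r y' k) (hy : y ≠ r) : X.Ln r y' k (d + 1) p c := by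
  obtain ⟨a1, a2, a3⟩ := h
  refine ⟨Or.inr hg, fun s σ n h1 h2 => ?_, fun s σ n h1 h2 => ?_⟩
  · refine Wk.step (a2 s σ n h1 h2) ?_ hg.2.1
    rcases a1 with ⟨rfl, rfl, b⟩ | b
    · exact h2.imp_right (vinv_gd r _ _ _ (mem_symm b))
    · exact Or.inr b
  · rcases a1 with ⟨rfl, rfl, b⟩ | b
    · exact (Wk.step h1 h2 hl.2.1).congr b
    · have := a3 s σ _ (Wk.step h1 h2 hy) (Or.inr b)
      rwa [show n + 1 + d = n + (d + 1) by ring] at this

theorem line (hg : g ∈ T.U) {κ : G} {w : T.N.Group} (h : T.RPath r ((T.pa g).2 r) κ w)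
    (hd : ¬ RD T.N w p) (hl : X.Lw r p κ) : ∃ k ∈ T.nK ((T.pa g).2 r), ∃ d,
      ln T.N w = ln T.N (T.nu ((T.pa g).2 r)) + d ∧
      ¬ RD T.N (T.nu ((T.pa g).2 r)) (if Even d then p else th r p) ∧
      X.Ln r (if Even d then p else th r p) k d p κ := by
  induction h generalizing p with
  | base k hk => exact ⟨k, hk, 0, rfl, by simpa using hd, by simpa using Ln.zero (by simp)⟩
  | step κ w x h a1 a2 a3 a4 a5 ih =>
    obtain rfl : x = th r p := eq_th hl.2.1.symm a2 fun e => hd (e ▸ rd_mul_self a3)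
    have e := (rp_spec hg (RPath.step _ _ _ _ a1 a2 a3 a4 a5)).2.2
    have b := (hl.desc (e ▸ hd) (e ▸ rd_mul_self a3)).1
    obtain ⟨k, hk, d, c1, c2, c3⟩ := ih a3 (vinv_gd r _ _ _ (by simpa using a4) b).lw
    rw [th_th] at c2 c3
    have e2 : (if Even (d + 1) then p else th r p) = if Even d then th r p else p := by
      by_cases he : Even d <;> simp [he, Nat.even_add_one]
    exact ⟨k, hk, d + 1, by rw [ln_mul a3]; omega, e2 ▸ c2,
      e2 ▸ (c3.congr (by simpa using a4)).succ b hl.2.1 (by simp)⟩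

theorem anc_pa (hg : g ∈ T.U) {k : G} (hk : k ∈ T.nK ((T.pa g).2 r)) :
    g⁻¹ * k ∈ T.V r ∧ k ∈ T.U ∧ (T.pa k).1 = T.nu ((T.pa g).2 r) := rp_spec hg (RPath.base k hk)

theorem toAnchor (hg : g ∈ T.U) (e : g⁻¹ * c ∈ T.V r) (hl : X.Lw r p c) :
    ∃ k ∈ T.nK ((T.pa g).2 r), ∃ y d, y ≠ r ∧ X.Ln r y k d p c ∧ 2 * d < mu T.N r ∧
      (T.nk ((T.pa g).2 r) = some y ∨ (T.nk ((T.pa g).2 r) = none ∧
        y = (if Even d then p else th r p) ∧
        0 ≤ gD X.τ r p (gA X.τ (X.Z (T.nu ((T.pa g).2 r))) p (th r p) d))) := by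
  have hp := hl.2.1
  have hp' := th_ne_left hp.symm
  have hv := pa_valid hg r
  have m2 := two_le_mu T.hN r
  rcases hl.cls with ⟨a1, a2⟩ | ⟨κ, w, a1, a2, a3⟩
  · rw [pa_same hg e] at a1 a2
    exact ⟨c, a2, p, 0, hp, Ln.zero (by simp), by omega, Or.inl a1⟩
  rw [pa_same hg e] at a2
  have hl' := hl.congr (mem_symm a1)
  obtain ⟨k, hk, d, c1, c2, c3⟩ := line hg a2 a3 hl'
  have l1 := loc_add a2.mem_res
  have l4 := loc_spec T.hN r w
  have l5 : loc T.N r w < mu T.N r := lt_of_le_of_ne l4.1 (mt l4.2.2 fun h => a3 (h p hp))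
  have e1 := res_word hp a3
  have d1 := (lw_iff hl'.1 hp).1 hl'
  rw [(rp_spec hg a2).2.2, e1, X.alt] at d1
  have d2 := (gn3 (X.inv _) hp (X.nonneg _ _ ((bas_spec r w).2 _ hp))
    (X.nonneg _ _ ((bas_spec r w).2 _ hp')) (X.hmu r ▸ l5) d1).1
  rw [← X.hmu] at d2
  have hy : (if Even d then p else th r p) ≠ r := by split_ifs <;> assumption
  cases hn : T.nk ((T.pa g).2 r) with
  | none =>
    have l6 := loc_eq_zero (hv.2.1 hn)
    rw [bas_eq a2.mem_res (hv.2.1 hn), show loc T.N r w = d by omega] at d1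
    exact ⟨k, hk, _, d, hy, c3.congr a1, by omega, Or.inr ⟨rfl, rfl, d1⟩⟩
  | some q =>
    obtain ⟨b1, b2, -⟩ := hv.2.2 q hn
    have l6 := one_le_loc b1 b2
    have e2 : q = th r (if Even d then p else th r p) := eq_th hy.symm b1 fun e => c2 (e ▸ b2)
    have f := (anc_pa hg hk).2.2
    have lk : X.Lw r (if Even d then p else th r p) k := by
      rcases c3.1 with ⟨-, h1, h2⟩ | h
      · rw [h1]; exact hl'.congr (mem_symm h2)
      · exact h.lw
    have := (lk.desc (f ▸ c2) (f ▸ e2 ▸ b2)).1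
    exact ⟨k, hk, q, d + 1, b1, (c3.cons hl' (e2 ▸ this) hy).congr a1, by omega, Or.inl rfl⟩

theorem merge {c' : G} (h : X.Lw r p c) (h' : X.Lw r q c') (e : c⁻¹ * c' ∈ T.V r) :
    ∃ m < mu T.N r, PP T.F T.H (X.Gd r) q c' m p (th r p) c := by
  have hv := pa_valid h.1 r
  obtain ⟨k, hk, y, d, a1, a2, a3, a4⟩ := toAnchor h.1 (by simp) h
  obtain ⟨k', hk', y', d', b1, b2, b3, b4⟩ := toAnchor h.1 e h'
  have w1 := b2.2.1 q c' 0 (RW.zero (two_of_ne h'.2.1)) (Or.inl rfl)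
  rw [zero_add] at w1
  have g1 : d' = 0 ∨ X.Gd r y' k' := b2.1.imp_left fun a => a.1
  have hkk := (hv.mem_iff hk' _).1 hk
  by_cases hy : y = y'
  · subst hy
    have e1 : k'⁻¹ * k ∈ T.H y := by
      rcases a4 with a4 | a4
      · rwa [a4] at hkk
      · rw [a4.1] at hkk; exact T.FH _ hkk
    obtain ⟨m, m1, m2⟩ := (a2.2.2 q c' d' (w1.congr e1) (g1.imp_right (vinv_gd r _ _ _ e1))).pp
    exact ⟨m, by omega, m2⟩
  · obtain ⟨c1, c2, c3⟩ := a4.resolve_left fun h1 => b4.elim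
      (fun h2 => hy (Option.some.inj (h1.symm.trans h2))) fun h2 => by simp [h1] at h2
    obtain ⟨-, d2, d3⟩ := b4.resolve_left fun h1 => by simp [h1] at c1
    rw [c1] at hkk
    have := gn2 (X.inv _) h.2.1 h'.2.1 (X.nonneg _ _ (hv.2.1 c1 _ h.2.1))
      (X.nonneg _ _ (hv.2.1 c1 _ (th_ne_left h.2.1.symm))) (X.hmu r ▸ a3) (X.hmu r ▸ b3) c3 d3
      (c2 ▸ d2 ▸ hy)
    rw [← X.hmu] at this
    have w2 := (Wk.step w1 g1 a1).congr (T.FH _ hkk)
    rcases a2.1 with ⟨rfl, rfl, f⟩ | f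
    · obtain ⟨m, m1, m2⟩ := Wk.pp (w2.congr f)
      exact ⟨m, by omega, m2⟩
    · obtain ⟨m, m1, m2⟩ := (a2.2.2 q c' _ w2 (Or.inr f)).pp
      exact ⟨m, by omega, m2⟩

end Geo

end Tri

end Pool.Agent.H10
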