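import Pool.Agent.Lib.helper10.Geo2

/-! Locally convex subcomplexes of Euclidean triangles of groups. -/

set_option linter.unusedSectionVars false

namespace Pool.Agent.H10

open CoxeterSystem Function

universe u

variable {G : Type u} [Group G]

namespace Tri

variable {T : Tri G}

/-- local convexity of a set of panels -/
def LC (T : Tri G) (Lab : Fin 3 → G → Prop) : Prop :=
  ∀ r s σ m p c, c ∈ T.U → p ≠ r → EP T.F T.H Tv s σ m p (th r p) c → m + 1 < mu T.N r →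
    Lab s σ → Lab p c → Lab (th r p) c ∧ Lab r c

/-- vertices connected to `Zs` along labelled panels -/
inductive Rch (T : Tri G) (Lab Zs : Fin 3 → G → Prop) : Fin 3 → G → Prop
  | base (r : Fin 3) (g : G) : Zs r g → Rch T Lab Zs r g
  | congr (r : Fin 3) (g g' : G) : Rch T Lab Zs r g → g⁻¹ * g' ∈ T.V r → Rch T Lab Zs r g'
  | step (r p : Fin 3) (g : G) : Rch T Lab Zs r g → p ≠ r → Lab p g → Rch T Lab Zs (th r p) g

theorem Rch.mem {Lab Zs : Fin 3 → G → Prop} (hU : ∀ r g, Zs r g → g ∈ T.U) {r : Fin 3} {g : G}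
    (h : T.Rch Lab Zs r g) : g ∈ T.U := by
  induction h with
  | base r g h => exact hU r g h
  | congr r g g' _ e ih => exact memU ih e
  | step r p g _ _ _ ih => exact ih

namespace Geo

variable {X : T.Geo} {Lab Zs : Fin 3 → G → Prop} {r p q : Fin 3} {g g' c : G}

/-- essential panels of the anchor -/
def EssA (X : T.Geo) (r : Fin 3) (g : G) (y : Fin 3) (k : G) : Prop :=
  k ∈ T.nK ((T.pa g).2 r) ∧ y ≠ r ∧ (T.nk ((T.pa g).2 r) = some y ∨
    (T.nk ((T.pa g).2 r) = none ∧ 0 < X.Z (T.nu ((T.pa g).2 r)) (th r y)))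

/-- the essential panels of the anchor are labelled -/
def SS (X : T.Geo) (Lab : Fin 3 → G → Prop) (r : Fin 3) (g : G) : Prop :=
  (X.Z 1 (th X.t T.c) = 0 ∧ X.ht r g = 0) ∨ ∀ y k, X.EssA r g y k → Lab y k

theorem SS.congr (h : X.SS Lab r g) (hg : g ∈ T.U) (e : g⁻¹ * g' ∈ T.V r) : X.SS Lab r g' := by
  unfold SS EssA at h ⊢
  rwa [ht_congr hg e, pa_same hg e]

theorem lemG (hc : T.LC Lab) (hg : g ∈ T.U) (hp : p ≠ r)
    (hd : ¬ RD T.N (T.pa g).1 p) (hz : 0 < X.Z (T.pa g).1 p) (hl : Lab p g) (hs : X.SS Lab r g) :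
    Lab (th r p) g ∧ Lab r g := by
  have hp' := th_ne_left hp.symm
  rcases hs with hs | hs
  · have := gQ_eq_zero hs.2 hp; omega
  obtain ⟨hv, -, h1⟩ := (ch_pa hg).inv r
  obtain ⟨h2, h3⟩ := h1.nt hp hd
  obtain ⟨g0, hg0, k, a1, a2, a3, a4⟩ := h2.conv' hv hp hd
  have l1 := loc_add h2.mem_res
  have l4 := loc_spec T.hN r (T.pa g).1
  have l5 := lt_of_le_of_ne l4.1 (mt l4.2.2 h3)
  have hy : (if Even k then th r p else p) ≠ r := by split_ifs <;> assumption
  have key : k + 1 < mu T.N r → Lab (if Even k then th r p else p) g0 → Lab (th r p) g ∧ Lab r g :=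
    fun h1 h2 => hc r _ g0 k p g hg hp (ep_of_altZ (T.FH _) (T.FH _) a3 rfl (by simp)) h1 h2 hl
  cases hn : T.nk ((T.pa g).2 r) with
  | some q =>
    obtain ⟨b1, b2, -⟩ := hv.2.2 q hn
    have l6 := one_le_loc b1 b2
    exact key (by omega) (a4 q hn ▸ hs q g0 ⟨hg0, b1, Or.inl hn⟩)
  | none =>
    have l6 := loc_eq_zero (hv.2.1 hn)
    have n1 := X.nonneg _ _ (hv.2.1 hn _ hp)
    have n2 := X.nonneg _ _ (hv.2.1 hn _ hp')
    have n3 := X.nonneg _ _ (hv.2.1 hn _ hy)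
    have e1 : th r (if Even k then th r p else p) = if Even k then p else th r p := by
      split_ifs <;> simp [th_th]
    have m2 := two_le_mu T.hN r
    by_cases h0 : k = 0
    · subst h0
      simp only [alternatingWord, wordProd_nil, mul_one] at a1
      exact key (by omega) (hs _ g0 ⟨hg0, hy, Or.inr ⟨hn, by rw [e1, ← a1]; simpa using hz⟩⟩)
    rcases n3.eq_or_lt with h4 | h4
    · rw [a1, X.alt] at hz
      obtain ⟨c1, c2⟩ := gn7 hp n1 n2 (by rw [← X.hmu]; omega) hz h4.symm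
      exact key (X.hmu r ▸ c1) (hs _ g0 ⟨hg0, hy, Or.inr ⟨hn, e1 ▸ c2⟩⟩)
    · obtain ⟨k, rfl⟩ : ∃ j, k = j + 1 := ⟨k - 1, by omega⟩
      obtain ⟨κ, b1, -, b3⟩ := a3.uncons (T.FH _) (T.FH _)
      have hy' : (if Even k then th r p else p) ≠ r := by split_ifs <;> assumption
      refine hc r (if Even k then th r p else p) g0 k p g hg hp
        (ep_of_altZ (g := g0 * κ) (T.FH _) (T.FH _) (by simpa [mul_assoc] using b3) rfl ?_)
        (by omega) (hs _ g0 ⟨hg0, hy', Or.inr ⟨hn, ?_⟩⟩) hl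
      · split_ifs at b1 ⊢ <;> simpa using b1
      · by_cases he : Even k <;> simpa [he, Nat.even_add_one, th_th] using h4

/-- vertices with a descending labelled path to `Zs` -/
inductive Dsc (X : T.Geo) (Lab Zs : Fin 3 → G → Prop) : Fin 3 → G → Prop
  | base (r : Fin 3) (g : G) : Zs r g → Dsc X Lab Zs r g
  | step (r p : Fin 3) (g c : G) : Dsc X Lab Zs (th r p) c → Lab p c → X.Gd r p c →
      c⁻¹ * g ∈ T.V r → Dsc X Lab Zs r g

theorem Dsc.congr (hz : VInv T.V Zs) (h : X.Dsc Lab Zs r g) (e : g⁻¹ * g' ∈ T.V r) :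
    X.Dsc Lab Zs r g' := by
  cases h with
  | base _ _ h => exact Dsc.base _ _ (hz _ _ _ e h)
  | step _ p _ c a1 a2 a3 a4 => exact Dsc.step _ p _ c a1 a2 a3 (mem_trans a4 e)

theorem push (hc : T.LC Lab) (hi : VInv T.H Lab) (hz : VInv T.V Zs) (hU : ∀ r g, Zs r g → g ∈ T.U)
    (hst : ∀ r p c, Zs r c → Lab p c → X.Lw r p c →
      Zs (th r p) c ∨ ∃ y k, k⁻¹ * c ∈ T.V r ∧ Lab y k ∧ X.Gd r y k ∧ Zs (th r y) k)
    (h : T.Rch Lab Zs r g) : Zs r g ∨ ∃ p c, c⁻¹ * g ∈ T.V r ∧ Lab p c ∧ X.Gd r p c := by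
  have key : ∀ n : ℕ, ∀ r p c, c ∈ T.U → X.ht r c < n → X.Dsc Lab Zs r c → p ≠ r → Lab p c →
      X.Dsc Lab Zs (th r p) c := by
    intro n
    induction n with
    | zero => intro r p c _ h; have := ht_nonneg (X := X) (r := r) (g := c); omega
    | succ n ih =>
      intro r p c hcU hn hd hp hl
      by_cases hlt : X.ht r c < X.ht (th r p) c
      · exact Dsc.step _ p _ c (by rwa [th_th']) hl
          ⟨hcU, (th_ne_right hp.symm).symm, by rwa [th_th']⟩ (by simp)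
      have lw : X.Lw r p c := ⟨hcU, hp, by omega⟩
      have main : ∀ y k, k⁻¹ * c ∈ T.V r → Lab y k → X.Gd r y k → X.Dsc Lab Zs (th r y) k →
          X.Dsc Lab Zs (th r p) c := by
        intro y k a1 a2 a3 a4
        have chain : ∀ m p c', p ≠ r → k⁻¹ * c' ∈ T.V r → EP T.F T.H (X.Gd r) y k m p (th r p) c' →
            m + 1 < mu T.N r → Lab p c' → X.Dsc Lab Zs (th r p) c' := by
          intro m
          induction m with
          | zero =>
            intro p c' hp e h1 h2 h3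
            obtain ⟨b1, b2⟩ := hc r y k 0 p c' (memU a3.1 e) hp h1.tv h2 a2 h3
            obtain ⟨rfl, f⟩ := h1
            have g1 := vinv_gd r _ _ _ f a3
            rw [th_th] at a4
            have := ih p r c' g1.1 (by
              have := g1.2.2
              rw [th_th, ht_congr a3.1 e, ← ht_congr a3.1 a1] at this
              push_cast at hn; omega)
              (a4.congr hz (T.HV _ _ (th_ne_right hp.symm) f)) hp.symm b2
            rwa [th_comm] at this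
          | succ m ihm =>
            intro p c' hp e h1 h2 h3
            obtain ⟨b1, b2⟩ := hc r y k _ p c' (memU a3.1 e) hp h1.tv h2 a2 h3
            obtain ⟨g1, c'', f1, -, f3⟩ := h1
            have hp' := th_ne_left hp.symm
            have := ihm (th r p) c'' hp' (mem_trans e (mem_symm (T.HV _ _ hp' f1)))
              (by rwa [th_th]) (by omega) (hi _ _ _ (mem_symm f1) b1)
            rw [th_th] at this
            have := ih p r c' g1.1 (by
              have := g1.2.2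
              rw [th_th, ht_congr a3.1 e, ← ht_congr a3.1 a1] at this
              push_cast at hn; omega)
              (this.congr hz (T.HV _ _ (th_ne_right hp.symm) f1)) hp.symm b2
            rwa [th_comm] at this
        obtain ⟨m, m1, m2⟩ := merge lw a3.lw (mem_symm a1)
        cases m with
        | zero =>
          obtain ⟨rfl, f⟩ := m2
          exact a4.congr hz (T.HV _ _ (th_ne_right hp.symm).symm f)
        | succ m =>
          obtain ⟨c', f1, f2⟩ := m2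
          exact (chain m p c' hp (mem_trans a1 (mem_symm (T.HV _ _ hp f1))) f2 m1
            (hi _ _ _ (mem_symm f1) hl)).congr hz (T.HV _ _ (th_ne_right hp.symm).symm f1)
      cases hd with
      | base _ _ h =>
        rcases hst r p c h hl lw with h | ⟨y, k, a1, a2, a3, a4⟩
        · exact Dsc.base _ _ h
        · exact main y k a1 a2 a3 (Dsc.base _ _ a4)
      | step _ y _ k a1 a2 a3 a4 => exact main y k a4 a2 a3 a1
  have : X.Dsc Lab Zs r g := by
    induction h with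
    | base r g h => exact Dsc.base _ _ h
    | congr r g g' _ e ih => exact ih.congr hz e
    | step r p g h hp hl ih =>
      exact key ((X.ht r g).toNat + 1) r p g (h.mem hU) (by push_cast; omega) ih hp hl
  cases this with
  | base _ _ h => exact Or.inl h
  | step _ p _ c a1 a2 a3 a4 => exact Or.inr ⟨p, c, a4, a2, a3⟩

/-- the base vertex -/
def Z0 (X : T.Geo) (r : Fin 3) (g : G) : Prop := r = X.t ∧ g ∈ T.V X.t

theorem pa_root (hr : r ≠ T.c) (hg : g ∈ T.V r) : (T.pa g).2 r = .root := by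
  rw [pa_same (one_mem _) (by simpa using hg), pa_one]
  simp only [update_of_ne hr]

theorem ht_base (hg : g ∈ T.V r) : X.ht r g = gQ X.τ r (X.Z 1) := by
  rw [ht_congr (one_mem _) (by simpa using hg), ht, pa_one, X.Z_c]

theorem not_lw_base (h : X.Z0 r c) (hl : X.Lw r p c) : False := by
  obtain ⟨rfl, h⟩ := h
  obtain ⟨k, hk, y, d, a1, a2, -, a4⟩ := toAnchor hl.1 (by simp) hl
  have f := anc_pa hl.1 hk
  rw [pa_root X.base.ne h] at a4 f
  obtain rfl : T.c = y := by simpa [nk] using a4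
  have lk : X.Lw X.t T.c k := by
    rcases a2.1 with ⟨-, rfl, h2⟩ | h
    · exact hl.congr (mem_symm h2)
    · exact h.lw
  have := (lw_iff f.2.1 a1).1 lk
  rw [f.2.2, nu, X.Z_c] at this
  have := X.base.low
  omega

theorem ss_of_rch (hc : T.LC Lab) (hi : VInv T.H Lab) (hb : X.Z 1 (th X.t T.c) = 0 ∨ Lab T.c 1)
    (h : T.Rch Lab X.Z0 r g) : X.SS Lab r g := by
  have hU : ∀ r g, X.Z0 r g → g ∈ T.U := fun r g h => T.VU _ h.2
  have hz : VInv T.V X.Z0 := by
    rintro r g g' e ⟨rfl, h⟩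
    exact ⟨rfl, by simpa using mul_mem h e⟩
  induction hn : (X.ht r g).toNat using Nat.strong_induction_on generalizing r g with
  | _ n ih =>
  have hg := h.mem hU
  rcases push hc hi hz hU (fun r p c h _ hl => (not_lw_base h hl).elim) h with h0 | ⟨p, c, a1, a2, a3⟩
  · obtain ⟨rfl, h0⟩ := h0
    rcases hb with hb | hb
    · refine Or.inl ⟨hb, ?_⟩
      rw [ht_base h0]
      refine gQ_of_zero fun p hp => ?_
      rcases fin3_cases X.base.ne p with rfl | rfl | rfl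
      · exact absurd rfl hp
      · exact X.base.zero
      · exact hb
    · refine Or.inr fun y k ⟨b1, _, b3⟩ => ?_
      rw [pa_root X.base.ne h0] at b1 b3
      obtain rfl : T.c = y := by simpa [nk] using b3
      exact hi _ _ _ b1 hb
  have hv := pa_valid hg r
  have G1 : ∀ p k, g⁻¹ * k ∈ T.V r → Lab p k → X.Gd r p k → ¬ RD T.N (T.pa k).1 p →
      0 < X.Z (T.pa k).1 p → Lab (th r p) k := by
    intro p k e b1 b2 b3 b4
    have hp := b2.2.1
    have := lemG hc b2.1 (th_ne_right hp.symm).symm b3 b4 b1 (ih _ (by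
      have := b2.2.2
      have := ht_nonneg (X := X) (r := th r p) (g := k)
      rw [ht_congr hg e] at *; omega) (Rch.step _ _ _ (h.congr _ _ _ e) hp b1) rfl)
    exact this.2
  refine Or.inr ?_
  rcases a3.lw.cls with ⟨b1, b2⟩ | ⟨κ, w, b1, b2, b3⟩
  · rw [← pa_same a3.1 a1] at b1 b2
    rintro y k ⟨c1, -, c3⟩
    obtain rfl : p = y := by simpa [b1] using c3
    refine hi _ _ _ ?_ a2
    have := (hv.mem_iff b2 _).1 c1
    rwa [b1] at this
  rw [← pa_same a3.1 a1] at b2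
  have desc : ∀ κ w, T.RPath r ((T.pa g).2 r) κ w → ∀ p, ¬ RD T.N w p → X.Gd r p κ → Lab p κ →
      ∃ k ∈ T.nK ((T.pa g).2 r), ∃ y, ¬ RD T.N (T.nu ((T.pa g).2 r)) y ∧ X.Gd r y k ∧ Lab y k := by
    intro κ w h
    induction h with
    | base k hk => exact fun p a b c => ⟨k, hk, p, a, b, c⟩
    | step κ w x h a1 a2 a3 a4 a5 ih =>
      intro p hd hl hL
      obtain rfl : x = th r p := eq_th hl.2.1.symm a2 fun e => hd (e ▸ rd_mul_self a3)
      obtain ⟨e0, -, e⟩ := rp_spec hg (RPath.step _ _ _ _ a1 a2 a3 a4 a5)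
      obtain ⟨b1, b2⟩ := hl.lw.desc (e ▸ hd) (e ▸ rd_mul_self a3)
      exact ih _ a3 (vinv_gd r _ _ _ (by simpa using a4) b1)
        (hi _ _ _ (by simpa using a4) (G1 p _ e0 hL hl (e ▸ hd) b2))
  obtain ⟨k, hk, y, c1, c2, c3⟩ := desc κ w b2 p b3 (vinv_gd r _ _ _ (mem_symm b1) a3)
    (hi _ _ _ (mem_symm b1) a2)
  obtain ⟨f1, -, f3⟩ := anc_pa hg hk
  rintro y' k' ⟨d1, d2, d3 | ⟨d3, d4⟩⟩
  · obtain ⟨-, b2, -⟩ := hv.2.2 y' d3
    obtain rfl : y' = th r y := eq_th c2.2.1.symm d2 fun e => c1 (e ▸ b2)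
    refine hi _ _ _ ?_ (G1 y k f1 c3 c2 (f3 ▸ c1) (c2.lw.desc (f3 ▸ c1) (f3 ▸ b2)).2)
    have := (hv.mem_iff hk _).1 d1
    rwa [d3] at this
  · have e := (hv.mem_iff hk _).1 d1
    rw [d3] at e
    refine hi _ _ _ (T.FH _ e) ?_
    by_cases hy : y' = y
    · exact hy ▸ c3
    · obtain rfl : y' = th r y := eq_th c2.2.1.symm d2 hy
      rw [th_th] at d4
      exact G1 y k f1 c3 c2 (f3 ▸ c1) (f3 ▸ d4)

theorem corner (hs : X.SS Lab r c) (hl : X.Lw r p c) : ∃ y k m, c⁻¹ * k ∈ T.V r ∧ y ≠ r ∧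
    X.EssA r c y k ∧ Lab y k ∧ PP T.F T.H (X.Gd r) y k m p (th r p) c ∧ 2 * m < mu T.N r ∧
    (m = 0 ∨ X.Gd r y k) := by
  have hp := hl.2.1
  have hp' := th_ne_left hp.symm
  rcases hs with hs | hs
  · have := gn4 (X.inv (T.pa c).1) hp (gQ_eq_zero hs.2 hp).le (gQ_eq_zero hs.2 hp').le
    have := (lw_iff hl.1 hp).1 hl
    omega
  have hv := pa_valid hl.1 r
  obtain ⟨k, hk, y, d, a1, a2, a3, a4⟩ := toAnchor hl.1 (by simp) hl
  obtain ⟨f1, f2, f3⟩ := anc_pa hl.1 hk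
  have fin : ∀ y d, y ≠ r → X.Ln r y k d p c → 2 * d < mu T.N r → X.EssA r c y k →
      ∃ y k m, c⁻¹ * k ∈ T.V r ∧ y ≠ r ∧ X.EssA r c y k ∧ Lab y k ∧
        PP T.F T.H (X.Gd r) y k m p (th r p) c ∧ 2 * m < mu T.N r ∧ (m = 0 ∨ X.Gd r y k) := by
    intro y d a1 a2 a3 he
    obtain ⟨m, m1, m2⟩ := (a2.2.2 y k 0 (RW.zero (two_of_ne a1)) (Or.inl rfl)).pp
    exact ⟨y, k, m, f1, a1, he, hs y k he, m2, by omega, a2.1.imp_left fun a => by omega⟩
  rcases a4 with a4 | ⟨b1, b2, b3⟩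
  · exact fin y d a1 a2 a3 ⟨hk, a1, Or.inl a4⟩
  have e1 : th r y = if Even d then th r p else p := by rw [b2]; split_ifs <;> simp [th_th]
  rcases (X.nonneg _ _ (hv.2.1 b1 _ (th_ne_left a1.symm))).eq_or_lt with h4 | h4
  · obtain ⟨c1, c2, c3⟩ := (gn3 (X.inv _) hp (X.nonneg _ _ (hv.2.1 b1 _ hp))
      (X.nonneg _ _ (hv.2.1 b1 _ hp')) (by rw [← X.hmu]; omega) b3).2 (e1 ▸ h4.symm)
    rw [← e1, ← f3, ← gd_iff f2 (th_ne_left a1.symm)] at c2
    exact fin _ _ c2.2.1 (a2.cons hl c2 a1) (X.hmu r ▸ c1)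
      ⟨hk, c2.2.1, Or.inr ⟨b1, by rwa [th_th, b2]⟩⟩
  · exact fin y d a1 a2 a3 ⟨hk, a1, Or.inr ⟨b1, h4⟩⟩

theorem exists_low (hg : g ∈ T.U) : X.Z0 r g ∨ ∃ y k, X.EssA r g y k ∧ X.Gd r y k := by
  obtain ⟨hv, hin, -⟩ := (ch_pa hg).inv r
  obtain ⟨-, a1, a2⟩ := (ch_pa hg).inv2.2 r
  obtain ⟨k, hk⟩ := hv.nonempty
  obtain ⟨f1, f2, f3⟩ := anc_pa hg hk
  cases hn : T.nk ((T.pa g).2 r) with
  | none =>
    obtain ⟨y, b1, b2, b3⟩ := gn5 (X.inv _) (X.nonpos (a1 hn))
      fun x hx => X.nonneg _ _ (hv.2.1 hn x hx)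
    exact Or.inr ⟨y, k, ⟨hk, b1, Or.inr ⟨hn, b2⟩⟩, (gd_iff f2 b1).2 (f3 ▸ b3)⟩
  | some p =>
    have hp := (hv.2.2 p hn).1
    rcases a2 p hn with h | h
    · rw [h] at hn hin f3
      obtain rfl : T.c = p := by simpa [nk] using hn
      by_cases e : r = X.t
      · exact Or.inl ⟨e, e ▸ by simpa using hin 1 (mem_cos_self _ _)⟩
      · refine Or.inr ⟨T.c, k, ⟨hk, hp, Or.inl (by rw [h]; rfl)⟩, (gd_iff f2 hp).2 ?_⟩
        rw [f3, nu, X.Z_c, eq_th X.base.ne e hp.symm, gD_anti]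
        have := X.base.low; omega
    · refine Or.inr ⟨p, k, ⟨hk, hp, Or.inl hn⟩, (gd_iff f2 hp).2 ?_⟩
      have h1 := (th_ne_right hp.symm).symm
      have := gn4 (X.inv _) h1 (X.nonpos (h _ h1)) (X.nonpos (h _ (th_ne_left h1.symm)))
      rw [gD_anti] at this
      rw [f3]; omega

theorem SS.ess (hI : ∀ q, q ≠ T.c → 0 < X.Z 1 q) (hs : X.SS Lab r g) :
    ∀ y k, X.EssA r g y k → Lab y k :=
  hs.resolve_left fun h => by
    have := hI _ (th_ne_right X.base.ne)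
    omega

theorem essA_of_int (hI : ∀ q, q ≠ T.c → 0 < X.Z 1 q) (hg : g ∈ T.U) {y : Fin 3} {k : G}
    (hk : k ∈ T.nK ((T.pa g).2 r)) (hy : y ≠ r)
    (h : T.nk ((T.pa g).2 r) = none ∨ T.nk ((T.pa g).2 r) = some y) : X.EssA r g y k := by
  refine ⟨hk, hy, h.symm.imp_right fun h => ⟨h, ?_⟩⟩
  exact X.pos hI _ _ ((pa_valid hg r).2.1 h _ (th_ne_left hy.symm)) ((ch_pa hg).inv2.2 r).1

theorem lab_of_altZ (hI : ∀ q, q ≠ T.c → 0 < X.Z 1 q) (hi : VInv T.H Lab) {j : ℕ}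
    (hj : j < mu T.N T.c) (hr : r ≠ T.c) (hA : AltZ (T.H T.c) j (T.V (th T.c r)) (T.V r) g)
    (hs : X.SS Lab r g) : Lab T.c g := by
  have hg : g ∈ T.U := hA.pr.mem ((T.HV _ _ hr.symm).trans (T.VU _)) (T.VU _) (T.VU _)
  have an := anchor_of_altZ hj hr hA (ch_pa hg) (by simp)
  have hv := pa_valid hg r
  obtain ⟨k, hk⟩ := hv.nonempty
  refine hi _ _ _ (an k hk) (hs.ess hI _ _ (essA_of_int hI hg hk hr.symm ?_))
  cases hn : T.nk ((T.pa g).2 r) with
  | none => exact Or.inl rfl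
  | some p =>
    refine Or.inr (congrArg some ?_)
    by_contra hne
    refine X.HH _ _ hne fun h hh => ?_
    have := an (k * h) ((hv.mem_iff hk _).2 (by rw [hn]; simpa [sb] using hh))
    simpa using mem_trans (an k hk) (mem_symm this)

theorem low236 (h1 : X.τ = 2) (h2 : T.c = 0) (h3 : X.Z 1 = gB 2 X.t) (hg : g ∈ T.V (th X.t 0))
    (e : g⁻¹ * c ∈ T.V X.t) (hl : X.Gd X.t p c) : p = 0 ∧ g⁻¹ * c ∈ T.H 0 := by
  have ht0 : X.t ≠ 0 := h2 ▸ X.base.ne
  have hU := T.VU _ hg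
  have J : ∀ w, gJ X.t (X.Z w) := X.ind (h3 ▸ gJ_gB _ ht0) (fun p _ h => h1 ▸ gJ_rf p h)
  have a1 : X.ht (th X.t 0) g = 4 := by rw [ht_base hg, h1, h3, gQ_gB_th _ ht0]
  have a2 := gJ_near ht0 (J (T.pa g).1) (h1 ▸ a1)
  rw [← h1] at a2
  have a3 : ∀ c', g⁻¹ * c' ∈ T.V X.t → ¬ X.Gd X.t (th X.t 0) c' := by
    intro c' e' h
    have b1 := h.2.2
    have b2 := gJ_far ht0 (J (T.pa c').1)
    rw [th_th, ht_congr hU e'] at b1
    rw [← h1] at b2
    unfold ht at b1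
    split_ifs at a2 b2 <;> omega
  have a4 := hl.2.2
  have a5 := ht_nonneg (X := X) (r := th X.t p) (g := c)
  rw [ht_congr hU e] at a4
  obtain rfl : p = 0 := by
    rcases fin3_cases ht0 p with h | h | h
    · exact absurd h hl.2.1
    · exact h
    · exact absurd (h ▸ hl) (a3 c e)
  refine ⟨rfl, ?_⟩
  have lw : X.Lw X.t 0 g := ⟨hU, ht0.symm, by unfold ht at *; split_ifs at a2 <;> omega⟩
  obtain ⟨m, m1, m2⟩ := merge hl.lw lw (mem_symm e)
  have m3 : mu T.N X.t ≤ 3 := by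
    rw [X.hmu, h1, mu_gN]; revert ht0; generalize X.t = t; revert t; decide
  match m, m1, m2 with
  | 0, _, m2 => exact m2.2
  | 1, _, ⟨_, _, f, _⟩ => exact absurd f.symm (th_ne_right ht0)
  | 2, _, ⟨c', f1, f2, _⟩ =>
    exact absurd f2 (a3 c' (mem_trans e (mem_symm (T.HV _ _ ht0.symm f1))))
  | m + 3, m1, _ => omega

end Geo

end Tri

end Pool.Agent.H10
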