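import Pool.Agent.Lib.helper10.Vx

/-! The invariants of the induction. -/

set_option linter.unusedSectionVars false

namespace Pool.Agent.H10

variable {B : Type*} {M : CoxeterMatrix B} [Fintype B] [DecidableEq B] [Primcodable B]

/-- no triangle, and edges with label at least six are isolated -/
def TB (M : CoxeterMatrix B) (U : Set B) : Prop :=
  (∀ a ∈ U, ∀ b ∈ U, ∀ c ∈ U, Ge M 3 a b → Ge M 3 b c → ¬ Ge M 3 a c) ∧
    ∀ a ∈ U, ∀ b ∈ U, ∀ c ∈ U, Ge M 6 a b → Ge M 3 b c → c = a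

theorem TB.mono {U V : Set B} (h : TB M U) (hV : V ⊆ U) : TB M V :=
  ⟨fun a ha b hb c hc => h.1 a (hV ha) b (hV hb) c (hV hc),
    fun a ha b hb c hc => h.2 a (hV ha) b (hV hb) c (hV hc)⟩

/-- admissible weights of an edge -/
def Wt (M : CoxeterMatrix B) (U : Set B) (y z : B) (μ : ℕ) : Prop :=
  Ge M μ y z ∧ y ∈ U ∧ z ∈ U ∧ (μ = 3 ∨ μ = 6 ∨ (μ = 4 ∧ TB M U))

theorem Wt.symm {U : Set B} {y z : B} {μ : ℕ} (h : Wt M U y z μ) : Wt M U z y μ :=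
  ⟨h.1.symm, h.2.2.1, h.2.1, h.2.2.2⟩

theorem Wt.ge3 {U : Set B} {y z : B} {μ : ℕ} (h : Wt M U y z μ) : Ge M 3 y z :=
  h.1.mono (by have := h.2.2.2; omega)

/-- corners at adjacent types -/
def CV (M : CoxeterMatrix B) (U : Set B) (y z : B) (k : ℕ) : Prop :=
  ∀ u v : Vx M, (u.1 = v.1 ∨ Ge M 3 u.1 v.1) → Mt U u v → OS U y z k u v v

/-- arbitrary corners -/
def GC (M : CoxeterMatrix B) (U : Set B) (y z : B) (k : ℕ) : Prop :=
  ∀ u v : Vx M, Mt U u v → OS U y z k u v v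

/-- reduced path of length two along an edge -/
def TPc (U : Set B) (w0 w1 w2 : Vx M) : Prop :=
  w0.1 = w2.1 ∧ Ge M 3 w0.1 w1.1 ∧ Mt U w0 w1 ∧ Mt U w1 w2 ∧ ¬ Mt U w0 w2

theorem TPc.symm {U : Set B} {w0 w1 w2 : Vx M} (h : TPc U w0 w1 w2) : TPc U w2 w1 w0 :=
  ⟨h.1.symm, h.1 ▸ h.2.1, h.2.2.2.1.symm, h.2.2.1.symm, fun e => h.2.2.2.2 e.symm⟩

theorem TPc.tr {U : Set B} {w0 w1 w2 : Vx M} (h : TPc U w0 w1 w2) (k : Artin M) :
    TPc U (tr k w0) (tr k w1) (tr k w2) :=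
  ⟨h.1, h.2.1, h.2.2.1.tr k, h.2.2.2.1.tr k, fun e => h.2.2.2.2 ((mt_tr k).1 e)⟩

/-- triple points -/
def TP (M : CoxeterMatrix B) (U : Set B) (y z : B) (k : ℕ) : Prop :=
  ∀ w0 w1 w2 : Vx M, TPc U w0 w1 w2 → OS U y z k w2 w0 w1

/-- the invariants -/
structure Inv (M : CoxeterMatrix B) (U : Set B) : Prop where
  wp : WP M U
  ag : ∀ y z μ, Wt M U y z μ → AGP M U y z μ ∧ CV M U y z (μ - 1)
  six : ∀ y z, Wt M U y z 6 → GC M U y z 2 ∧ TP M U y z 2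

variable {U : Set B}

theorem g3_of (h : ∀ y ∈ U, ∀ z ∈ U, Ge M 3 y z → AG M U y z 3) : G3 M U := by
  intro a b hab
  by_cases ha : a ∈ U
  · by_cases hb : b ∈ U
    · exact h a ha b hb hab
    · exact (ag_notMem hb 3).symm
  · exact ag_notMem ha 3

theorem Inv.g3 (h : Inv M U) : G3 M U :=
  g3_of fun y hy z hz hab => (h.ag y z 3 ⟨hab, hy, hz, Or.inl rfl⟩).1.1

theorem G3.tpc (hG : G3 M U) {w0 w1 w2 p : Vx M} (h : TPc U w0 w1 w2) (h0 : Mt U w0 p)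
    (h2 : Mt U w2 p) : Mt U w1 p :=
  (hG.P h.1 h.2.1 h.2.2.1 h.2.2.2.1.symm h0 h2).resolve_left h.2.2.2.2

theorem WP.agp3_notMem (h : WP M U) {a b : B} (ha : a ∉ U) : AGP M U a b 3 := by
  refine ⟨ag_notMem ha 3, fun k hk => ?_⟩
  by_cases hk2 : k ≤ 2
  · exact ⟨h.re_pr a b hk2, by rw [Set.pair_comm]; exact h.re_pr b a hk2⟩
  obtain rfl : k = 3 := by omega
  have e : apar M U ≤ apar M (U \ {a}) := apar_mono (sub_diff ha subset_rfl)
  constructor <;> refine (Sig.const False).of_eq fun w => ⟨False.elim, fun ⟨h1, h2⟩ => h2 ?_⟩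
  · exact (pr_three (fa_le U a b) (fb_le U a b)).2 ⟨1, one_mem _, 1, one_mem _, by simpa using e h1⟩
  · exact (pr_three (fb_le U a b) (fa_le U a b)).2 ⟨1, one_mem _, _, e h1, by simp⟩

theorem Inv.agp3 (h : Inv M U) {a b : B} (hab : Ge M 3 a b) : AGP M U a b 3 := by
  by_cases ha : a ∈ U
  · by_cases hb : b ∈ U
    · exact (h.ag a b 3 ⟨hab, ha, hb, Or.inl rfl⟩).1
    · exact (h.wp.agp3_notMem hb).symm
  · exact h.wp.agp3_notMem ha

theorem cv3_of (h : ∀ y ∈ U, ∀ z ∈ U, Ge M 3 y z → CV M U y z 2) (hG : G3 M U) {a b : B}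
    (hab : Ge M 3 a b) : CV M U a b 2 := by
  intro u v huv hm s σ m c e hk h1 h2
  by_cases hb : b ∈ U
  swap
  · exact Or.inr (mt_univ hb h2.co)
  by_cases ha : a ∈ U
  · exact h a ha b hb hab u v huv hm s σ m c e hk h1 h2
  · exact Or.inl (mt_univ ha (mem_trans h2.co hm.co))

theorem tp_one (h : ∀ a b, Ge M 3 a b → CV M U a b 2) {y z : B} (hyz : Ge M 3 y z) :
    TP M U y z 1 := by
  rintro w0 w1 w2 ⟨a1, a2, ⟨x1, a3, a3'⟩, ⟨x2, a4, a4'⟩, a5⟩ s σ m c e hk h1 h2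
  obtain rfl : m = 0 := by omega
  obtain ⟨rfl, e⟩ := e
  have := h _ _ a2 (y, c) (s, c) (Or.inr hyz) (mt_same _ _ _) w0.1 w0.2 1 x2
    (ep_one a3 (a3'.div a4) fun h => a5 (a4'.mt_iff.1 (a1 ▸ h.symm)).symm) le_rfl
    (h1.cg e).symm (a1 ▸ a4'.mt_iff.2 h2.symm)
  rcases this with h | h
  · exact Or.inr (a4'.mt_iff.1 (a1 ▸ h)).symm
  · exact Or.inl (a4.mt_iff.1 h).symm

theorem os_zero {y z : B} {u v w : Vx M} : OS U y z 0 u v w := fun _ _ _ _ _ h => by omega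

/-- what is needed about an edge of a triangle in the link of the opposite vertex -/
def LinkOK (M : CoxeterMatrix B) (V : Set B) (y z : B) (μ : ℕ) : Prop :=
  AGP M V y z μ ∧ Ge M μ y z ∧ CV M V y z (μ - 1) ∧
    ∀ k, 2 * k < μ → GC M V y z k ∧ TP M V y z k

theorem Inv.linkOK (h : Inv M U) {y z : B} {μ : ℕ} (hw : (μ = 2 ∧ y ≠ z) ∨ Wt M U y z μ) :
    LinkOK M U y z μ := by
  rcases hw with ⟨rfl, hne⟩ | hw
  · refine ⟨h.wp.agp2 y z, ⟨hne, ?_⟩, fun u v a b => h.g3.os_one (Or.inr a) b, fun k hk => ?_⟩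
    · have := M.off_diagonal y z hne; omega
    · obtain rfl : k = 0 := by omega
      exact ⟨fun _ _ _ => os_zero, fun _ _ _ _ => os_zero⟩
  · refine ⟨(h.ag y z μ hw).1, hw.1, (h.ag y z μ hw).2, fun k hk => ?_⟩
    by_cases h1 : k ≤ 1
    · exact ⟨fun u v b => (h.g3.os_one (Or.inl hw.ge3) b).mono h1, fun _ _ _ a =>
        (tp_one (fun a b => cv3_of (fun y hy z hz hab =>
          (h.ag y z 3 ⟨hab, hy, hz, Or.inl rfl⟩).2) h.g3) hw.ge3 _ _ _ a).mono h1⟩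
    · obtain rfl : μ = 6 := by have := hw.2.2.2; omega
      obtain rfl : k = 2 := by omega
      exact h.six y z hw

end Pool.Agent.H10
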