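import Pool.Agent.Lib.helper10.Dih

/-! Invariants for dihedral groups and for direct products. -/

set_option linter.unusedSectionVars false

namespace Pool.Agent.H10

variable {B : Type*} {M : CoxeterMatrix B} [Fintype B] [DecidableEq B] [Primcodable B]
variable {U K K' : Set B} {y z : B} {u v w : Vx M}

theorem RW.mt {Gd : B → Artin M → Prop} {s t : B} {σ τ : Artin M} {n : ℕ}
    (hG : VInv (Kv M U) Gd) (h : RW (Fv M U y z) (Kv M U) Gd s σ y z n t τ) (hg : n = 0 ∨ Gd t τ)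
    (hu : u.1 = y ∨ u.1 = z) (e : Mt U (t, τ) u) :
    RW (Fv M U y z) (Kv M U) Gd s σ y z (n + 1) u.1 u.2 :=
  let ⟨_, a, b⟩ := e
  RW.congr ((RW.congr h a).step hG (fa_le U y z) (fb_le U y z) (hg.imp_right (hG _ _ _ a)) hu)
    (mem_symm b)

theorem os_walk {μ k : ℕ} (hG : G3 M U) (hyz : Ge M 3 y z) (hg : AG M U y z μ)
    (hk : k + 3 < 2 * μ) (hu : u.1 = y ∨ u.1 = z) (hv : v.1 = y ∨ v.1 = z) (huv : Mt U u v) :
    OS U y z k u v v := by
  intro s σ m c e hm h1 h2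
  cases m with
  | zero => exact hG.os_one (Or.inl hyz) huv s σ 0 c e le_rfl h1 h2
  | succ m =>
    obtain ⟨m', a, b⟩ := ((((RW.zero e.start).mt (vinv_mt u) (Or.inl rfl) hv h1).mt (vinv_mt u)
      (Or.inr huv.symm) hu huv.symm).mt (u := (y, c)) (vinv_mt u) (Or.inr (Mt.refl u))
      (Or.inl rfl) h2.symm).pp hyz.1
    exact Or.inr (e.uniq (vinv_mt u) (fa_le U y z) (fb_le U y z) hyz.1 hg b (by omega)).2.1.2

theorem os_out (hu : u.1 ∉ U ∨ w.1 ∉ U) (huw : Mt U u w) (k : ℕ) : OS U y z k u v w := by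
  intro s σ m c _ _ _ h2
  rcases hu with h | h
  · exact Or.inr (mt_univ (q := (z, c)) h h2.symm.co).symm
  · exact Or.inl (mt_univ h (mem_trans huw.symm.co h2.symm.co)).symm

theorem dih_inv {a b : B} (h : Ge M 6 a b) (hw : WP M {a, b}) : Inv M {a, b} := by
  have k : ∀ y z, y ∈ ({a, b} : Set B) → z ∈ ({a, b} : Set B) → y ≠ z →
      AGP M {a, b} y z 6 ∧ Ge M 3 y z ∧ ∀ s ∈ ({a, b} : Set B), s = y ∨ s = z := by
    rintro y z (rfl | rfl) (rfl | rfl) hne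
    · exact absurd rfl hne
    · exact ⟨dih_agp h hw, h.mono (by omega), fun _ => id⟩
    · exact ⟨(dih_agp h hw).symm, h.symm.mono (by omega), fun _ => Or.symm⟩
    · exact absurd rfl hne
  have hG : G3 M {a, b} := g3_of fun y hy z hz e => (k y z hy hz e.1).1.1.mono (by omega)
  have gc : ∀ y z, y ∈ ({a, b} : Set B) → z ∈ ({a, b} : Set B) → y ≠ z →
      GC M {a, b} y z 5 := by
    intro y z hy hz hne u v huv
    obtain ⟨a1, a2, a3⟩ := k y z hy hz hne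
    by_cases hu : u.1 ∈ ({a, b} : Set B) ∧ v.1 ∈ ({a, b} : Set B)
    · exact os_walk hG a2 a1.1 (by omega) (a3 _ hu.1) (a3 _ hu.2) huv
    · exact os_out (not_and_or.1 hu) huv _
  have w6 : ∀ {y z μ}, Wt M {a, b} y z μ → μ ≤ 6 := fun h => by have := h.2.2.2; omega
  refine ⟨hw, fun y z μ e => ⟨(k y z e.2.1 e.2.2.1 e.1.1).1.mono (w6 e),
    fun u v _ huv => (gc y z e.2.1 e.2.2.1 e.1.1 u v huv).mono (by have := w6 e; omega)⟩,
    fun y z e => ⟨fun u v huv => (gc y z e.2.1 e.2.2.1 e.1.1 u v huv).mono (by omega), ?_⟩⟩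
  intro w0 w1 w2 ht
  obtain ⟨a1, a2, a3⟩ := k y z e.2.1 e.2.2.1 e.1.1
  by_cases hu : w2.1 ∈ ({a, b} : Set B) ∧ w1.1 ∈ ({a, b} : Set B)
  swap
  · exact os_out (not_and_or.1 hu) ht.2.2.2.1.symm _
  intro s σ m c ep hm h1 h2
  obtain rfl | rfl : m = 0 ∨ m = 1 := by omega
  · exact tp_one (fun y z => cv3_of (fun y hy z hz e u v _ huv =>
      (gc y z hy hz e.1 u v huv).mono (by omega)) hG) a2 _ _ _ ht s σ 0 c ep le_rfl h1 h2
  have hv : VInv (Kv M {a, b}) fun t c => Mt {a, b} (t, c) w2 ∨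
      (t = w0.1 ∧ Mt {a, b} (t, c) w0) := fun _ _ _ e h => h.imp (·.cg e) (And.imp_right (·.cg e))
  obtain ⟨m', b1, b2⟩ := (((((RW.zero ep.start).mt hv (Or.inl rfl) (a3 _ (ht.1 ▸ hu.1)) h1).mt hv
    (Or.inr (Or.inr ⟨rfl, Mt.refl _⟩)) (a3 _ hu.2) ht.2.2.1).mt hv (Or.inr (Or.inl ht.2.2.2.1))
    (a3 _ hu.1) ht.2.2.2.1).mt (u := (y, c)) hv (Or.inr (Or.inl (Mt.refl _)))
    (Or.inl rfl) h2.symm).pp a2.1
  rcases (ep.uniq hv (fa_le _ y z) (fb_le _ y z) a2.1 a1.1 b2 (by omega)).2.1.2 with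
    d | ⟨d1, d2⟩
  · exact Or.inr d
  · exact Or.inl (hG.tpc ht (d2.trans_eq d1 (mt_same _ _ _)) h2.symm).symm

section prod

/-- direct product decomposition -/
structure Dec (M : CoxeterMatrix B) (U K K' : Set B) : Prop where
  com : Com M K K'
  cov : U ⊆ K ∪ K'
  s1 : K ⊆ U
  s2 : K' ⊆ U
  dis : ∀ s ∈ K, s ∉ K'

theorem Dec.symm (h : Dec M U K K') : Dec M U K' K :=
  ⟨h.com.symm, fun _ e => (h.cov e).symm, h.s2, h.s1, fun s a b => h.dis s b a⟩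

variable (h : Dec M U K K') {g g' x0 : Artin M}
include h

theorem Dec.rest (hg : g ∈ apar M U) : (retr K g)⁻¹ * g ∈ apar M K' :=
  mem_mul_iff_retr.1 (h.com.split h.cov hg)

theorem Dec.retr_one (hg : g ∈ apar M K') : retr K g = 1 := by
  have := retr_mem (T := K) hg
  rw [show K ∩ K' = ∅ from Set.eq_empty_of_forall_notMem fun s e => h.dis s e.1 e.2] at this
  simpa [apar] using this

theorem Dec.retr_mul (hg : g ∈ apar M U) (hg' : g' ∈ apar M U) :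
    retr K (g * g') = retr K g * retr K g' := by
  have a := h.rest hg
  have e : g * g' = (retr K g * retr K g') * (((retr K g)⁻¹ * g) * ((retr K g')⁻¹ * g')) := by
    rw [mul_assoc, ← mul_assoc (retr K g'), (h.com.commute (retr_mem' K g') a).eq]; group
  rw [e, H10.retr_mul (mul_mem (retr_mem' _ _) (retr_mem' _ _)),
    h.retr_one (mul_mem a (h.rest hg')), mul_one]

theorem Dec.rt_div (hg : x0⁻¹ * g ∈ apar M U) (e : g⁻¹ * g' ∈ apar M U) :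
    (rt K x0 g)⁻¹ * rt K x0 g' = retr K (g⁻¹ * g') := by
  have : x0⁻¹ * g' = x0⁻¹ * g * (g⁻¹ * g') := by group
  rw [rt, rt, this, h.retr_mul hg e]; group

theorem Dec.mem_iff {S : Set B} (hS : ∀ s ∈ S, s ∉ K') (hg : g ∈ apar M U) :
    retr K g ∈ apar M (K \ S) ↔ g ∈ apar M (U \ S) := by
  have a0 : K ∩ (U \ S) ⊆ K \ S := fun c hc => ⟨hc.1, hc.2.2⟩
  refine ⟨fun e => ?_, fun e => apar_mono a0 (retr_mem e)⟩
  have a1 : K \ S ⊆ U \ S := Set.sdiff_subset_sdiff_left h.s1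
  have a2 : K' ⊆ U \ S := fun s e => ⟨h.s2 e, fun e' => hS s e' e⟩
  simpa using mul_mem (apar_mono a1 e) (apar_mono a2 (h.rest hg))

theorem Dec.rt_in {p : Vx M} (hp : x0⁻¹ * p.2 ∈ apar M U) (e : In U p g) :
    In K (p.1, rt K x0 p.2) (rt K x0 g) := by
  have : K ∩ (U \ {p.1}) ⊆ K \ {p.1} := fun c hc => ⟨hc.1, hc.2.2⟩
  rw [In, h.rt_div hp (kv_le _ _ e)]; exact apar_mono this (retr_mem e)

theorem Dec.fwd {p q : Vx M} (hp : x0⁻¹ * p.2 ∈ apar M U) (e : Mt U p q) :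
    Mt K (p.1, rt K x0 p.2) (q.1, rt K x0 q.2) :=
  let ⟨_, a, b⟩ := id e; ⟨_, h.rt_in hp a, h.rt_in (mem_trans hp e.co) b⟩

theorem Dec.bwd {p q : Vx M} (hp : x0⁻¹ * p.2 ∈ apar M U) (hq : x0⁻¹ * q.2 ∈ apar M U)
    (h1 : p.1 ∉ K') (e : Mt K (p.1, rt K x0 p.2) (q.1, rt K x0 q.2)) : Mt U p q := by
  have k : ∀ g, x0⁻¹ * g ∈ apar M U → (rt K x0 g)⁻¹ * g ∈ apar M K' := fun g hg => by
    simpa [rt, mul_assoc] using h.rest hg
  obtain ⟨x, a, b⟩ := e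
  have s := apar_mono (M := M) (sub_diff h1 h.s2)
  refine ⟨x * ((rt K x0 q.2)⁻¹ * q.2), ?_, ?_⟩
  · have := mul_mem (mul_mem (s (inv_mem (k _ hp))) (kv_mono h.s1 _ a)) (s (k _ hq))
    simpa [In, mul_assoc] using this
  · have := (h.com.commute (kv_le _ _ b) (k _ hq)).eq
    have e : q.2⁻¹ * (x * ((rt K x0 q.2)⁻¹ * q.2)) = ((rt K x0 q.2)⁻¹ * q.2)⁻¹ *
      ((rt K x0 q.2)⁻¹ * x * ((rt K x0 q.2)⁻¹ * q.2)) := by group
    rw [In, e, this, inv_mul_cancel_left]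
    exact kv_mono h.s1 _ b

theorem Dec.ep {s : B} {σ c : Artin M} {m : ℕ} (hy : y ∈ K) (hz : z ∈ K)
    (hσ : x0⁻¹ * σ ∈ apar M U) (e : EP (Fv M U y z) (Kv M U) Tv s σ m y z c) :
    EP (Fv M K y z) (Kv M K) Tv s (rt K x0 σ) m y z (rt K x0 c) := by
  induction m generalizing y z c with
  | zero => exact ⟨e.1, h.rt_in (p := (z, σ)) hσ e.2⟩
  | succ m ih =>
    obtain ⟨-, c', a1, a2, a3⟩ := e
    have b := mem_trans hσ (a3.mem (kv_le _ _) (kv_le _ _))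
    refine ⟨trivial, rt K x0 c', h.rt_in (p := (z, c')) b a1, fun k => a2 ?_, ?_⟩
    · rw [h.rt_div b (kv_le _ _ a1)] at k
      exact (h.mem_iff (by rintro _ (rfl | rfl); exacts [h.dis _ hy, h.dis _ hz])
        (kv_le _ _ a1)).1 k
    · rw [fv_comm] at a3 ⊢; exact ih hz hy a3

theorem Dec.os {k : ℕ} (hy : y ∈ K) (hz : z ∈ K) (huv : u.2⁻¹ * v.2 ∈ apar M U)
    (huw : u.2⁻¹ * w.2 ∈ apar M U) (e : OS K y z k (u.1, rt K u.2 u.2) (v.1, rt K u.2 v.2)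
      (w.1, rt K u.2 w.2)) : OS U y z k u v w := by
  intro s σ m c ep hm h1 h2
  have a1 : u.2⁻¹ * σ ∈ apar M U := mem_trans huv h1.symm.co
  have a2 : u.2⁻¹ * c ∈ apar M U := h2.symm.co
  exact (e s _ m _ (h.ep hy hz a1 ep) hm (h.fwd (p := (s, σ)) a1 h1)
    (h.fwd (p := (y, c)) a2 h2)).imp
    (h.bwd (p := (y, c)) a2 huw (h.dis _ hy)) (h.bwd (p := (z, c)) a2 (by simp) (h.dis _ hz))

theorem Dec.pr {S T T' : Set B} (hS : ∀ s ∈ S, s ∉ K') (hT : ∀ s ∈ T, s ∉ K')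
    (hT' : ∀ s ∈ T', s ∉ K') {k : ℕ} (hg : g ∈ apar M U) :
    (Pr (apar M (K \ S)) k (apar M (K \ T)) (apar M (K \ T')) (retr K g) ↔
      Pr (apar M (U \ S)) k (apar M (U \ T)) (apar M (U \ T')) g) ∧
    (AltZ (apar M (U \ S)) k (apar M (U \ T)) (apar M (U \ T')) g →
      AltZ (apar M (K \ S)) k (apar M (K \ T)) (apar M (K \ T')) (retr K g)) := by
  induction k generalizing T T' g with
  | zero => exact ⟨h.mem_iff hS hg, (h.mem_iff hS hg).2⟩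
  | succ k ih =>
    have e : ∀ x ∈ apar M (U \ T), retr K (g * x⁻¹) = retr K g * (retr K x)⁻¹ := fun x hx => by
      have hx' := apar_mono Set.sdiff_subset hx
      rw [eq_mul_inv_iff_mul_eq, ← h.retr_mul (mul_mem hg (inv_mem hx')) hx', inv_mul_cancel_right]
    have m : ∀ x ∈ apar M (U \ T), g * x⁻¹ ∈ apar M U := fun x hx =>
      mul_mem hg (inv_mem (apar_mono Set.sdiff_subset hx))
    refine ⟨⟨fun ⟨x, a, b⟩ => ?_, fun ⟨x, a, b⟩ => ⟨_, (h.mem_iff hT (apar_mono Set.sdiff_subset a)).2 a,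
      e x a ▸ (ih hT' hT (m x a)).1.2 b⟩⟩, fun ⟨x, a, a', b⟩ =>
      ⟨_, (h.mem_iff hT (apar_mono Set.sdiff_subset a)).2 a,
        mt (h.mem_iff hS (apar_mono Set.sdiff_subset a)).1 a', e x a ▸ (ih hT' hT (m x a)).2 b⟩⟩
    have a' := apar_mono (Set.sdiff_subset_sdiff_left h.s1) a
    refine ⟨x, a', (ih hT' hT (m x a')).1.1 ?_⟩
    rwa [e x a', retr_of_mem (apar_mono Set.sdiff_subset a)]

attribute [local irreducible] effA

theorem Dec.agp {μ : ℕ} (hy : y ∈ K) (hz : z ∈ K) (e : AGP M K y z μ) : AGP M U y z μ := by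
  have h1 : ∀ s ∈ ({y} : Set B), s ∉ K' := by rintro _ rfl; exact h.dis _ hy
  have h2 : ∀ s ∈ ({z} : Set B), s ∉ K' := by rintro _ rfl; exact h.dis _ hz
  have h3 : ∀ s ∈ ({y, z} : Set B), s ∉ K' := by
    rintro _ (rfl | rfl); exacts [h.dis _ hy, h.dis _ hz]
  have k : ∀ {T T' : Set B} {k}, (∀ s ∈ T, s ∉ K') → (∀ s ∈ T', s ∉ K') → (RE (effA M) fun g =>
      g ∈ apar M K ∧ ¬ Pr (apar M (K \ {y, z})) k (apar M (K \ T)) (apar M (K \ T')) g) →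
      RE (effA M) fun g => g ∈ apar M U ∧
        ¬ Pr (apar M (U \ {y, z})) k (apar M (U \ T)) (apar M (U \ T')) g := fun a b c =>
    (Sig.and (re_apar U) (sig_retr K (φ := (effA M).ev) (by fun_prop) (p := fun _ r =>
      r ∈ apar M K ∧ ¬ Pr (apar M (K \ {y, z})) _ (apar M (K \ _)) (apar M (K \ _)) r)
      (c.sig (by fun_prop)))).of_eq fun w => and_congr_right fun hw => by
        rw [(h.pr h3 a b hw).1, and_iff_right (retr_mem' _ _)]
  refine ⟨fun i j g a b c d => ?_, fun j hj => ⟨k h1 h2 (e.2 j hj).1, k h2 h1 (e.2 j hj).2⟩⟩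
  have hg := c.pr.mem (apar_mono Set.sdiff_subset) (kv_le U y) (kv_le U z)
  exact e.1 i j _ a b ((h.pr h3 h1 h2 hg).2 c) ((h.pr h3 h2 h1 hg).2 d)

theorem Dec.wp (e : WP M K) (e' : WP M K') : WP M U := by
  refine (Sig.and (re_apar U) (Sig.or (sig_retr K (φ := (effA M).ev) (by fun_prop)
    (p := fun _ r => r ∈ apar M K ∧ r ≠ 1) (RE.sig e (by fun_prop))) e')).of_eq
    fun w => and_congr_right fun hw => ⟨?_, fun a => ?_⟩
  · rintro (⟨-, a⟩ | ⟨-, a⟩)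
    · exact fun k => a (by rw [k]; exact retr_of_mem (one_mem _))
    · exact a
  · by_cases b : retr K ((effA M).ev w) = 1
    · exact Or.inr ⟨by simpa [b] using h.rest hw, a⟩
    · exact Or.inl ⟨retr_mem' _ _, b⟩

theorem Dec.half (e : Inv M K) {μ : ℕ} (hy : y ∈ K) (hw : Wt M U y z μ) :
    (AGP M U y z μ ∧ CV M U y z (μ - 1)) ∧ (μ = 6 → GC M U y z 2 ∧ TP M U y z 2) := by
  have hz : z ∈ K := (h.cov hw.2.2.1).resolve_right fun k => by
    have := hw.ge3.2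
    rw [h.com y hy z k] at this; omega
  have w' : Wt M K y z μ := ⟨hw.1, hy, hz, hw.2.2.2.imp_right (Or.imp_right
    (And.imp_right (·.mono h.s1)))⟩
  refine ⟨⟨h.agp hy hz (e.ag y z μ w').1, fun u v a b => h.os hy hz b.co b.co
    ((e.ag y z μ w').2 _ _ a (h.fwd (by simp) b))⟩, ?_⟩
  rintro rfl
  refine ⟨fun u v b => h.os hy hz b.co b.co ((e.six y z w').1 _ _ (h.fwd (by simp) b)),
    fun w0 w1 w2 t => ?_⟩
  have a1 := t.2.2.2.1.symm.co
  have a2 := mem_trans a1 t.2.2.1.symm.co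
  by_cases k : w0.1 ∈ K'
  · exact fun s σ m c _ _ _ h2 => Or.inr (mt_of_com h.com.symm h.symm.cov (p := (z, c))
      (h.dis _ hz) (t.1 ▸ h.symm.dis _ k) h2.co)
  · exact h.os hy hz a2 a1 ((e.six y z w').2 _ _ _ ⟨t.1, t.2.1, h.fwd a2 t.2.2.1,
      h.fwd a1 t.2.2.2.1, fun b => t.2.2.2.2 (h.bwd a2 (by simp) k b)⟩)

theorem Dec.inv (e : Inv M K) (e' : Inv M K') : Inv M U :=
  ⟨h.wp e.wp e'.wp, fun _ _ _ hw => (h.cov hw.2.1).elim (fun a => (h.half e a hw).1)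
    fun a => (h.symm.half e' a hw).1, fun _ _ hw => (h.cov hw.2.1).elim
    (fun a => (h.half e a hw).2 rfl) fun a => (h.symm.half e' a hw).2 rfl⟩

end prod

end Pool.Agent.H10
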