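import Pool.Agent.Lib.helper10.EffCox

/-! Rank three Coxeter groups: local position in a rank two residue. -/

set_option linter.unusedSectionVars false

namespace Pool.Agent.H10

open CoxeterSystem

/-- the third element of `Fin 3` -/
def th (a b : Fin 3) : Fin 3 := -(a + b)

theorem th_comm (a b : Fin 3) : th a b = th b a := by revert a b; decide
theorem th_ne_left {a b : Fin 3} (h : a ≠ b) : th a b ≠ a := by revert a b; decide
theorem th_ne_right {a b : Fin 3} (h : a ≠ b) : th a b ≠ b := by revert a b; decide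
theorem th_th (a b : Fin 3) : th a (th a b) = b := by revert a b; decide
theorem th_th' (a b : Fin 3) : th (th a b) b = a := by revert a b; decide
theorem th_th'' (a b : Fin 3) : th (th a b) a = b := by revert a b; decide
theorem th_th''' (a b : Fin 3) : th b (th a b) = a := by revert a b; decide
theorem eq_th {a b c : Fin 3} (h : a ≠ b) (h1 : c ≠ a) (h2 : c ≠ b) : c = th a b := by
  revert a b c; decide
theorem succ_ne3 (r : Fin 3) : r + 1 ≠ r := by revert r; decide
theorem th_inj {a b c : Fin 3} (h : th a b = th a c) : b = c := by revert a b c; decide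
theorem fin3_cases {a b : Fin 3} (h : a ≠ b) (c : Fin 3) : c = a ∨ c = b ∨ c = th a b := by
  revert a b c; decide

variable (N : CoxeterMatrix (Fin 3))

/-- right descent -/
abbrev RD (w : N.Group) (x : Fin 3) : Prop := (cx N).IsRightDescent w x

/-- simple reflection -/
abbrev sg (x : Fin 3) : N.Group := (cx N).simple x

/-- length -/
noncomputable abbrev ln (w : N.Group) : ℕ := (cx N).length w

/-- weight of the vertex of type `r` -/
def mu (r : Fin 3) : ℕ := N (r + 1) (r + 2)

theorem mu_eq {r p q : Fin 3} (hp : p ≠ r) (hq : q ≠ r) (hpq : p ≠ q) : N p q = mu N r := by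
  have : (p = r + 1 ∧ q = r + 2) ∨ (p = r + 2 ∧ q = r + 1) := by
    revert r p q; decide
  rcases this with ⟨rfl, rfl⟩ | ⟨rfl, rfl⟩
  · rfl
  · exact N.symmetric _ _

/-- the rank two parabolic subgroup -/
def res (r : Fin 3) : Subgroup N.Group := par (cx N) {x | x ≠ r}

/-- both letters of the residue are descents -/
def Top (r : Fin 3) (w : N.Group) : Prop := ∀ x, x ≠ r → RD N w x

/-- `w` is the longest element of the residue of `u` -/
def IsTop (r : Fin 3) (u w : N.Group) : Prop := u⁻¹ * w ∈ res N r ∧ Top N r w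

/-- minimal element of the residue -/
noncomputable def bas (r : Fin 3) (w : N.Group) : N.Group :=
  (exists_min_right (cx N) {x | x ≠ r} w).choose

/-- height in the residue -/
noncomputable def loc (r : Fin 3) (w : N.Group) : ℕ := ln N ((bas N r w)⁻¹ * w)

variable {N}

theorem sg_mem_res {r x : Fin 3} (h : x ≠ r) : sg N x ∈ res N r := simple_mem_par _ h

theorem bas_spec (r : Fin 3) (w : N.Group) :
    (bas N r w)⁻¹ * w ∈ res N r ∧ ∀ x, x ≠ r → ¬ RD N (bas N r w) x := by
  obtain ⟨v, h1, h2, h3⟩ := (exists_min_right (cx N) {x | x ≠ r} w).choose_spec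
  refine ⟨?_, h2⟩
  have : (bas N r w)⁻¹ * w = v := by rw [inv_mul_eq_iff_eq_mul]; exact h3
  rw [this]; exact h1

theorem bas_eq {r : Fin 3} {u w : N.Group} (h1 : u⁻¹ * w ∈ res N r)
    (h2 : ∀ x, x ≠ r → ¬ RD N u x) : bas N r w = u := by
  obtain ⟨a1, a2⟩ := bas_spec r w
  have := min_unique_right (cx N) (T := {x | x ≠ r}) (v := u⁻¹ * w * ((bas N r w)⁻¹ * w)⁻¹) h2 a2
    (mul_mem h1 (inv_mem a1)) (by group)
  rw [show u⁻¹ * w * ((bas N r w)⁻¹ * w)⁻¹ = u⁻¹ * bas N r w by group, inv_mul_eq_one] at this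
  exact this.symm

theorem bas_mul {r : Fin 3} {w v : N.Group} (hv : v ∈ res N r) : bas N r (w * v) = bas N r w :=
  bas_eq (by rw [← mul_assoc]; exact mul_mem (bas_spec r w).1 hv) (bas_spec r w).2

theorem ln_eq (r : Fin 3) (w : N.Group) : ln N w = ln N (bas N r w) + loc N r w := by
  have := length_mul_min (cx N) (T := {x | x ≠ r}) (bas_spec r w).2 (bas_spec r w).1
  rwa [mul_inv_cancel_left] at this

theorem loc_add {r : Fin 3} {u w : N.Group} (h : u⁻¹ * w ∈ res N r) :
    loc N r w + ln N u = loc N r u + ln N w := by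
  have h1 := ln_eq r w
  have h2 := ln_eq r u
  have h3 := bas_mul (w := u) h
  rw [mul_inv_cancel_left] at h3
  rw [h3] at h1
  omega

theorem rd_bas {r x : Fin 3} (w : N.Group) (hx : x ≠ r) :
    RD N w x ↔ RD N ((bas N r w)⁻¹ * w) x := by
  have := rdesc_mul_iff (cx N) (T := {x | x ≠ r}) (bas_spec r w).2 (bas_spec r w).1 hx
  rwa [mul_inv_cancel_left] at this

theorem one_le_loc {r x : Fin 3} {w : N.Group} (hx : x ≠ r) (h : RD N w x) : 1 ≤ loc N r w := by
  have := (rd_bas w hx).1 h
  unfold RD IsRightDescent at this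
  unfold loc ln
  omega

theorem loc_eq_zero {r : Fin 3} {w : N.Group} (h : ∀ x, x ≠ r → ¬ RD N w x) : loc N r w = 0 := by
  rw [loc, bas_eq (u := w) (by simp) h]; simp

theorem two_le_mu (hN : ∀ i j, N i j ≠ 0) (r : Fin 3) : 2 ≤ mu N r :=
  two_le_M N (by revert r; decide) (hN _ _)

theorem loc_spec (hN : ∀ i j, N i j ≠ 0) (r : Fin 3) (w : N.Group) :
    loc N r w ≤ mu N r ∧ (Top N r w ↔ loc N r w = mu N r) := by
  have h2 := two_le_mu hN r
  obtain ⟨a1, a2⟩ := bas_spec r w
  set v := (bas N r w)⁻¹ * w with hv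
  have hloc : loc N r w = ln N v := rfl
  have one_of : ∀ v' ∈ res N r, ∀ i j : Fin 3, i ≠ r → j ≠ r → i ≠ j → ¬ RD N v' i → ¬ RD N v' j →
      v' = 1 := by
    intro v' hv' i j hi hj hij h1 h2
    by_contra hne
    obtain ⟨x, hx⟩ := (cx N).exists_rightDescent_of_ne_one hne
    have hxr : x ≠ r := rdesc_mem_par (cx N) hv' hx
    rcases fin3_cases hij x with rfl | rfl | rfl
    · exact h1 hx
    · exact h2 hx
    · exact hxr (eq_th hij hi.symm hj.symm).symm
  by_cases h1 : v = 1
  · rw [hloc, h1]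
    refine ⟨by simp, fun h => ?_, fun h => by simp at h; omega⟩
    have := (rd_bas w (succ_ne3 r)).1 (h _ (succ_ne3 r))
    rw [← hv, h1] at this
    exact absurd this ((cx N).not_isRightDescent_one _)
  obtain ⟨j, hj⟩ := (cx N).exists_rightDescent_of_ne_one h1
  have hjr : j ≠ r := rdesc_mem_par (cx N) a1 hj
  have hir : th r j ≠ r := th_ne_left hjr.symm
  have hij : th r j ≠ j := th_ne_right hjr.symm
  have hm := mu_eq N hir hjr hij
  have hmem : ∀ n, (cx N).wordProd (alternatingWord (th r j) j n) ∈ res N r := by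
    intro n
    refine wordProd_mem_par _ fun c hc => ?_
    rw [← List.mem_reverse, ← alt_eq_reverse] at hc
    rcases mem_alt hc with rfl | rfl
    · exact hjr
    · exact hir
  obtain ⟨n, v', hn, b1, b2, b3, b4⟩ := dihedral_decomp (cx N) (th r j) hj
  have hv' : v' = 1 := by
    refine one_of v' ?_ _ _ hir hjr hij b3 b4
    have := mul_mem a1 (inv_mem (hmem n))
    rwa [b1, mul_inv_cancel_right] at this
  have hred : (cx N).IsReduced (alternatingWord (th r j) j n) :=
    red_left (cx N) (v := v') (by rw [← b1, b2, length_alternatingWord])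
  have hle := (le_M_of_red (cx N) hred).resolve_left (hN _ _)
  have hl : ln N v = n := by rw [hv'] at b2; simpa using b2
  refine ⟨by omega, fun h => ?_, fun h x hx => ?_⟩
  · obtain ⟨-, v'', c1, c2, -, -⟩ := both_right (cx N) hij ((rd_bas w hir).1 (h _ hir)) hj
    rw [← hv] at c2
    unfold ln at hl hloc
    omega
  · rw [rd_bas w hx]
    rcases fin3_cases hjr.symm x with rfl | rfl | rfl
    · exact absurd rfl hx
    · exact hj
    · have e : n = N (th r j) j := by omega
      exact descent_of_braid (cx N) (hN _ _) (e ▸ b1) (e ▸ b2)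

theorem loc_mul {r x : Fin 3} {w : N.Group} (hx : x ≠ r) (h : ¬ RD N w x) :
    loc N r (w * sg N x) = loc N r w + 1 := by
  have h1 := loc_add (r := r) (u := w) (w := w * sg N x) (by simpa using sg_mem_res hx)
  have h2 := (cx N).not_isRightDescent_iff.1 h
  unfold ln at h1
  unfold sg at *
  omega

theorem IsTop.unique {r : Fin 3} {u w w' : N.Group} (h : IsTop N r u w) (h' : IsTop N r u w') :
    w = w' := by
  have hv : w⁻¹ * w' ∈ res N r := by
    have := mul_mem (inv_mem h.1) h'.1
    rwa [show (u⁻¹ * w)⁻¹ * (u⁻¹ * w') = w⁻¹ * w' by group] at this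
  have h1 := length_mul_max (cx N) (T := {x | x ≠ r}) h.2 hv
  have h2 := length_mul_max (cx N) (T := {x | x ≠ r}) h'.2 (inv_mem hv)
  rw [mul_inv_cancel_left] at h1
  rw [show w' * (w⁻¹ * w')⁻¹ = w by group, (cx N).length_inv] at h2
  have := (cx N).length_eq_zero_iff.1 (show (cx N).length (w⁻¹ * w') = 0 by omega)
  exact inv_mul_eq_one.1 this

theorem exists_isTop (hN : ∀ i j, N i j ≠ 0) (r : Fin 3) (u : N.Group) : ∃ w, IsTop N r u w := by
  induction h : mu N r - loc N r u using Nat.strong_induction_on generalizing u with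
  | _ k ih =>
    by_cases ht : Top N r u
    · exact ⟨u, by simp, ht⟩
    · have h1 := loc_spec hN r u
      simp only [Top, not_forall] at ht
      obtain ⟨x, hx, hd⟩ := ht
      have h2 := loc_mul hx hd
      have h3 := (loc_spec hN r (u * sg N x)).1
      obtain ⟨w, a1, a2⟩ := ih _ (by omega) (u * sg N x) rfl
      refine ⟨w, ?_, a2⟩
      have := mul_mem (sg_mem_res (N := N) hx) a1
      rwa [show sg N x * ((u * sg N x)⁻¹ * w) = u⁻¹ * w by group] at this

theorem rd_mul_self {w : N.Group} {x : Fin 3} (h : ¬ RD N w x) : RD N (w * sg N x) x := by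
  by_contra hc
  exact h ((cx N).isRightDescent_iff_not_isRightDescent_mul.2 hc)

theorem ln_mul {w : N.Group} {x : Fin 3} (h : ¬ RD N w x) : ln N (w * sg N x) = ln N w + 1 :=
  (cx N).not_isRightDescent_iff.1 h

theorem rd_sg {x y : Fin 3} : RD N (sg N x) y ↔ y = x := by
  constructor
  · intro h
    exact rdesc_mem_par (cx N) (T := {x}) (simple_mem_par _ rfl) h
  · rintro rfl
    simpa using rd_mul_self (N := N) ((cx N).not_isRightDescent_one y)

section eff
variable {β : Type*} [Primcodable β]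

@[fun_prop] theorem pr_th {f g : β → Fin 3} (hf : Primrec f) (hg : Primrec g) :
    Primrec fun x => th (f x) (g x) :=
  (Primrec.dom_finite (fun p : Fin 3 × Fin 3 => th p.1 p.2)).comp (hf.pair hg)

@[fun_prop] theorem pr_mu {f : β → Fin 3} (hf : Primrec f) : Primrec fun x => mu N (f x) :=
  (Primrec.dom_finite (mu N)).comp hf

theorem sig_res {φ : β → N.Group} {r : β → Fin 3} (h : EC (effW N) φ) (hr : Primrec r) :
    Sig fun x => φ x ∈ res N (r x) := by
  have : Sig fun x => ∃ l : List (Fin 3), BAll l (fun c => c ≠ r x) ∧ φ x = (cx N).wordProd l :=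
    Sig.ex (Sig.and (by fun_prop) (EC.sig_eq (E := effW N) (by fun_prop) (by fun_prop)))
  refine this.of_eq fun x => ⟨?_, fun h => ?_⟩
  · rintro ⟨l, h1, h2⟩
    rw [h2]; exact wordProd_mem_par _ h1
  · obtain ⟨l, h1, -, h2⟩ := exists_red_par _ h
    exact ⟨l, h1, h2⟩

theorem sig_isTop {φ ψ : β → N.Group} {r : β → Fin 3} (h : EC (effW N) φ) (h' : EC (effW N) ψ)
    (hr : Primrec r) : Sig fun x => IsTop N (r x) (φ x) (ψ x) := by
  have : Sig fun x => (φ x)⁻¹ * ψ x ∈ res N (r x) ∧ ∀ y, y = r x ∨ RD N (ψ x) y :=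
    Sig.and (sig_res (by fun_prop) hr)
      (Sig.all_fin (Sig.or (by fun_prop) (sig_rd (by fun_prop) (by fun_prop))))
  refine this.of_eq fun x => and_congr_right fun _ => forall_congr' fun y => ?_
  tauto

theorem sig_loc {φ : β → N.Group} {r : β → Fin 3} {j : β → ℕ} (h : EC (effW N) φ)
    (hr : Primrec r) (hj : Primrec j) : Sig fun x => loc N (r x) (φ x) = j x := by
  have : Sig fun x => ∃ u, u⁻¹ * φ x ∈ res N (r x) ∧ (∀ y, y = r x ∨ ¬ RD N u y) ∧
      ln N (u⁻¹ * φ x) = j x :=
    Sig.exG (effW N) (Sig.and (sig_res (by fun_prop) (by fun_prop)) (Sig.and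
      (Sig.all_fin (Sig.or (by fun_prop) (sig_nrd (by fun_prop) (by fun_prop))))
      (sig_length (by fun_prop) (by fun_prop))))
  refine this.of_eq fun x => ⟨?_, fun h => ?_⟩
  · rintro ⟨u, h1, h2, h3⟩
    rw [loc, bas_eq h1 fun y hy => (h2 y).resolve_left hy, h3]
  · refine ⟨_, (bas_spec _ _).1, fun y => ?_, h⟩
    by_cases hy : y = r x
    · exact Or.inl hy
    · exact Or.inr ((bas_spec _ _).2 y hy)

end eff

end Pool.Agent.H10
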