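import Pool.Agent.Lib.helper10.Tri2

/-! Non-positively curved triangles of groups: the universal cover. -/

set_option linter.unusedSectionVars false

namespace Pool.Agent.H10

open CoxeterSystem Function

universe u

variable {G : Type u} [Group G]

namespace Tri

variable (T : Tri G)

/-- chambers of the universal cover with their positions and vertices -/
inductive Ch : G → T.N.Group → (Fin 3 → T.Nd) → Prop
  | root (h : G) : h ∈ T.H T.c → Ch h (sg T.N T.c)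
      (update (fun _ => Node.root) T.c (Node.real (cos h T.F) (sg T.N T.c) .root .root))
  | pan (g : G) (w : T.N.Group) (α : Fin 3 → T.Nd) (p : Fin 3) (g' : G) : Ch g w α →
      ¬ RD T.N w p → g⁻¹ * g' ∈ T.H p → g⁻¹ * g' ∉ T.F → (∀ x, x ≠ p → ¬ RD T.N (w * sg T.N p) x) →
      Ch g' (w * sg T.N p)
        (update α p (Node.real (cos g' T.F) (w * sg T.N p) (α (p + 1)) (α (p + 2))))
  | top (g0 : G) (w0 : T.N.Group) (α0 : Fin 3 → T.Nd) (r : Fin 3) (g : G) (w : T.N.Group)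
      (α : Fin 3 → T.Nd) (gs : Fin 3 → G) (ws : Fin 3 → T.N.Group) (αs : Fin 3 → Fin 3 → T.Nd) :
      Ch g0 w0 α0 → g0⁻¹ * g ∈ T.V r → T.Term r (α0 r) g → IsTop T.N r (T.nu (α0 r)) w →
      α r = α0 r → (∀ p, p ≠ r → T.Near r (α0 r) p g → Ch (gs p) (ws p) (αs p)) →
      (∀ p, p ≠ r → T.Near r (α0 r) p g → αs p r = α0 r ∧ ¬ RD T.N (ws p) p ∧
        (gs p)⁻¹ * g ∈ T.H p ∧ α (th r p) = αs p (th r p)) →
      (∀ p, p ≠ r → ¬ T.Near r (α0 r) p g →
        α (th r p) = Node.virt (cos g (T.H p)) p w (α0 r)) → Ch g w α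

variable {T}

theorem valid_real {r : Fin 3} {g : G} {w : T.N.Group} (a b : T.Nd)
    (h : ∀ x, x ≠ r → ¬ RD T.N w x) :
    T.Valid r (Node.real (cos g T.F) w a b) ∧ T.In r (Node.real (cos g T.F) w a b) g ∧
      T.Pos r (Node.real (cos g T.F) w a b) g w := by
  have hv : T.Valid r (Node.real (cos g T.F) w a b) :=
    ⟨⟨g, rfl⟩, fun _ => h, fun p hp => by simp [nk] at hp⟩
  exact ⟨hv, hv.in_of_mem (mem_cos_self _ _), (RPath.base g (mem_cos_self _ _)).pos hv⟩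

theorem valid_root {r : Fin 3} (hr : r ≠ T.c) : T.Valid r .root := by
  refine ⟨⟨1, rfl⟩, fun h => by simp [nk] at h, fun p hp => ?_⟩
  simp only [nk, Option.some.injEq] at hp
  subst hp
  refine ⟨hr.symm, rd_sg.2 rfl, fun ht => ?_⟩
  exact th_ne_right hr (rd_sg.1 (ht _ (th_ne_left hr)))

theorem valid_virt {r p : Fin 3} (hp : p ≠ r) (g : G) {w : T.N.Group} (m : T.Nd)
    (h : Top T.N r w) : T.Valid (th r p) (Node.virt (cos g (T.H p)) p w m) := by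
  refine ⟨⟨g, rfl⟩, fun h => by simp [nk] at h, fun q hq => ?_⟩
  simp only [nk, Option.some.injEq] at hq
  subst hq
  exact ⟨(th_ne_right hp.symm).symm, h _ hp,
    fun ht => top_not_third h (ht _ (th_ne_left hp.symm).symm)⟩

theorem Ch.inv {g : G} {w : T.N.Group} {α : Fin 3 → T.Nd} (h : T.Ch g w α) (r : Fin 3) :
    T.Valid r (α r) ∧ T.In r (α r) g ∧ T.Pos r (α r) g w := by
  induction h generalizing r with
  | root h hh =>
    by_cases hr : r = T.c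
    · subst hr
      rw [update_self]
      exact valid_real _ _ fun x hx hd => hx (rd_sg.1 hd)
    · rw [update_of_ne hr]
      have hv := valid_root hr
      have hm : h ∈ T.nK .root := by simpa [nK, cos] using hh
      exact ⟨hv, hv.in_of_mem hm, (RPath.base h hm).pos hv⟩
  | pan g w α p g' _ a1 a2 a3 a4 ih =>
    by_cases hr : r = p
    · subst hr
      rw [update_self]
      exact valid_real _ _ a4
    · rw [update_of_ne hr]
      obtain ⟨b1, b2, b3⟩ := ih r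
      exact ⟨b1, b2.mul (T.HV _ _ (Ne.symm hr) a2), b3.ext b1 (Ne.symm hr) a1 a2 a3⟩
  | top g0 w0 α0 r0 g w α gs ws αs _ a1 a2 a3 a4 _ a6 a7 ih0 ihs =>
    obtain ⟨b1, b2, -⟩ := ih0 r0
    by_cases hr : r = r0
    · subst hr
      rw [a4]
      exact ⟨b1, b2.mul a1, Or.inr ⟨a2, a3⟩⟩
    · have hp : th r0 r ≠ r0 := th_ne_left (Ne.symm hr)
      have hp' : th r0 r ≠ r := th_ne_right (Ne.symm hr)
      by_cases hn : T.Near r0 (α0 r0) (th r0 r) g
      · obtain ⟨c1, c2, c3, c4⟩ := a6 _ hp hn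
        rw [th_th] at c4
        obtain ⟨d1, d2, d3⟩ := ihs _ hp hn r
        obtain ⟨-, -, e3⟩ := ihs _ hp hn r0
        rw [c1] at e3
        obtain ⟨f1, f2⟩ := near_spec b1 hp a2 a3 e3 c2 c3
        rw [c4, f2]
        exact ⟨d1, d2.mul (T.HV _ _ hp' c3), d3.ext d1 hp' c2 c3 f1⟩
      · have c := a7 _ hp hn
        have hv := valid_virt hp g (α0 r0) a3.2
        rw [th_th] at c hv
        rw [c]
        exact ⟨hv, hv.in_of_mem (mem_cos_self _ _), (RPath.base g (mem_cos_self _ _)).pos hv⟩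

theorem Ch.mul_F {g g' : G} {w : T.N.Group} {α : Fin 3 → T.Nd} (h : T.Ch g w α)
    (hg : g⁻¹ * g' ∈ T.F) : T.Ch g' w α := by
  cases h with
  | root h hh =>
    rw [cos_eq hg]
    refine Ch.root g' ?_
    simpa using mul_mem hh (T.FH _ hg)
  | pan g0 w α p g a0 a1 a2 a3 a4 =>
    rw [cos_eq hg]
    exact Ch.pan g0 w α p g' a0 a1 (mem_trans a2 (T.FH _ hg))
      (fun hc => a3 (mem_trans hc (mem_symm hg))) a4
  | top g0 w0 α0 r g w α gs ws αs a0 a1 a2 a3 a4 a5 a6 a7 =>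
    have hv := (a0.inv r).1
    refine Ch.top g0 w0 α0 r g' w α gs ws αs a0 (mem_trans a1 (FV r hg)) (a2.mul_F hv hg) a3 a4
      (fun p hp hn => a5 p hp ((Near.congr (T.FH _ hg)).2 hn)) (fun p hp hn => ?_)
      (fun p hp hn => ?_)
    · obtain ⟨c1, c2, c3, c4⟩ := a6 p hp ((Near.congr (T.FH _ hg)).2 hn)
      exact ⟨c1, c2, mem_trans c3 (T.FH _ hg), c4⟩
    · rw [← cos_eq (T.FH _ hg)]
      exact a7 p hp (mt (Near.congr (T.FH _ hg)).1 hn)

theorem Ch.one_le {g : G} {w : T.N.Group} {α : Fin 3 → T.Nd} (h : T.Ch g w α) : 1 ≤ ln T.N w := by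
  cases h with
  | root h hh => simp [ln, sg]
  | pan g0 w α p g a0 a1 a2 a3 a4 => rw [ln_mul a1]; omega
  | top g0 w0 α0 r g w α gs ws αs a0 a1 a2 a3 a4 a5 a6 a7 =>
    have := a3.2 _ (succ_ne3 r)
    unfold RD IsRightDescent at this
    unfold ln; omega

theorem Ch.ne_sg {g : G} {w : T.N.Group} {α : Fin 3 → T.Nd} (h : T.Ch g w α) {p : Fin 3}
    (hd : ¬ RD T.N w p) : w * sg T.N p ≠ sg T.N T.c := by
  intro e
  have h1 := ln_mul hd
  have h2 := h.one_le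
  have h3 : ln T.N (sg T.N T.c) = 1 := (cx T.N).length_simple _
  rw [e] at h1
  omega

theorem not_top_of_single {w : T.N.Group} {p r : Fin 3} (h : ∀ x, x ≠ p → ¬ RD T.N w x) :
    ¬ Top T.N r w := by
  intro ht
  by_cases hr : r = p
  · subst hr; exact h _ (succ_ne3 r) (ht _ (succ_ne3 r))
  · exact h _ (th_ne_right hr) (ht _ (th_ne_left hr))

/-- inversion -/
theorem Ch.cases {g : G} {w : T.N.Group} {α : Fin 3 → T.Nd} (h : T.Ch g w α) :
    (w = sg T.N T.c ∧ g ∈ T.H T.c ∧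
      α = update (fun _ => Node.root) T.c (Node.real (cos g T.F) (sg T.N T.c) .root .root)) ∨
    (∃ g0 w0 α0 p, T.Ch g0 w0 α0 ∧ ¬ RD T.N w0 p ∧ g0⁻¹ * g ∈ T.H p ∧ g0⁻¹ * g ∉ T.F ∧
      (∀ x, x ≠ p → ¬ RD T.N w x) ∧ w = w0 * sg T.N p ∧
      α = update α0 p (Node.real (cos g T.F) w (α0 (p + 1)) (α0 (p + 2)))) ∨
    (∃ r, T.Term r (α r) g ∧ IsTop T.N r (T.nu (α r)) w ∧
      (∀ p, p ≠ r → T.Near r (α r) p g → ∃ g' w' α', T.Ch g' w' α' ∧ α' r = α r ∧ ¬ RD T.N w' p ∧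
        g'⁻¹ * g ∈ T.H p ∧ α (th r p) = α' (th r p) ∧ w = w' * sg T.N p) ∧
      (∀ p, p ≠ r → ¬ T.Near r (α r) p g → α (th r p) = Node.virt (cos g (T.H p)) p w (α r))) := by
  cases h with
  | root h hh => exact Or.inl ⟨rfl, hh, rfl⟩
  | pan g0 w α p g a0 a1 a2 a3 a4 =>
    exact Or.inr (Or.inl ⟨g0, w, α, p, a0, a1, a2, a3, a4, rfl, rfl⟩)
  | top g0 w0 α0 r g w α gs ws αs a0 a1 a2 a3 a4 a5 a6 a7 =>
    rw [← a4] at a2 a3 a5 a6 a7
    refine Or.inr (Or.inr ⟨r, a2, a3, fun p hp hn => ?_, a7⟩)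
    obtain ⟨c1, c2, c3, c4⟩ := a6 p hp hn
    obtain ⟨d1, -, d3⟩ := (a5 p hp hn).inv r
    rw [c1] at d1 d3
    exact ⟨_, _, _, a5 p hp hn, c1, c2, c3, c4, (near_spec d1 hp a2 a3 d3 c2 c3).2⟩

theorem Ch.uq {g g' : G} {w w' : T.N.Group} {α α' : Fin 3 → T.Nd} (h : T.Ch g w α)
    (h' : T.Ch g' w' α') {r : Fin 3} (hr : α r = α' r) (hg : g⁻¹ * g' ∈ T.F) :
    w = w' ∧ α = α' := by
  induction hk : ln T.N w using Nat.strong_induction_on generalizing g g' w w' α α' r with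
  | _ k ih =>
    replace h := h.mul_F hg
    clear hg g
    obtain ⟨v1, -, p1⟩ := h.inv r
    obtain ⟨-, -, p2⟩ := h'.inv r
    rw [← hr] at p2
    obtain rfl := p1.unique v1 p2 (by simp)
    refine ⟨rfl, ?_⟩
    have gate : ∀ (g1 g2 : G) w1 w2 α1 α2 p s, p ≠ s → T.Ch g1 w1 α1 → T.Ch g2 w2 α2 →
        α1 s = α2 s → ¬ RD T.N w1 p → ¬ RD T.N w2 p → g1⁻¹ * g' ∈ T.H p → g2⁻¹ * g' ∈ T.H p →
        w = w1 * sg T.N p → α1 = α2 := by
      intro g1 g2 w1 w2 α1 α2 p s hp c1 c2 e d1 d2 m1 m2 ew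
      obtain ⟨v, -, q1⟩ := c1.inv s
      obtain ⟨-, -, q2⟩ := c2.inv s
      rw [← e] at q2
      have := ln_mul d1
      rw [← ew] at this
      exact (ih _ (by omega) c1 c2 e
        (q1.gate v q2 hp d1 d2 (mem_trans m1 (mem_symm m2))) rfl).2
    rcases h.cases with ⟨a1, -, a3⟩ | ⟨g0, w0, α0, p, a0, a1, a2, -, a4, a5, a6⟩ |
      ⟨r0, a1, a2, a3, a4⟩ <;>
    rcases h'.cases with ⟨b1, -, b3⟩ | ⟨g1, w1, α1, q, b0, b1, b2, -, b4, b5, b6⟩ |
      ⟨r1, b1, b2, b3, b4⟩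
    · rw [a3, b3]
    · exact absurd (b5.symm.trans a1) (b0.ne_sg b1)
    · exact absurd b2.2 (not_top_of_single (p := T.c) fun x hx hd => hx (rd_sg.1 (a1 ▸ hd)))
    · exact absurd (a5.symm.trans b1) (a0.ne_sg a1)
    · obtain rfl : p = q := by
        by_contra hne
        exact b4 p hne (a5 ▸ rd_mul_self a1)
      have e : α0 = α1 := by
        by_cases hrp : r = p
        · subst hrp
          rw [a6, b6, update_self, update_self] at hr
          simp only [Node.real.injEq, true_and] at hr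
          exact gate _ _ _ _ _ _ r (r + 1) (succ_ne3 r).symm a0 b0 hr.1 a1 b1 a2 b2 a5
        · rw [a6, b6, update_of_ne hrp, update_of_ne hrp] at hr
          exact gate _ _ _ _ _ _ p r (Ne.symm hrp) a0 b0 hr a1 b1 a2 b2 a5
      rw [a6, b6, e]
    · exact absurd b2.2 (not_top_of_single a4)
    · exact absurd a2.2 (not_top_of_single (p := T.c) fun x hx hd => hx (rd_sg.1 (b1 ▸ hd)))
    · exact absurd a2.2 (not_top_of_single b4)
    · obtain rfl := top_unique a2.2 b2.2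
      have far_near : ∀ (β β' : Fin 3 → T.Nd) (p : Fin 3) (g1 : G) w1 α1, p ≠ r0 →
          β (th r0 p) = β' (th r0 p) →
          β (th r0 p) = Node.virt (cos g' (T.H p)) p w (β r0) → T.Ch g1 w1 α1 →
          ¬ RD T.N w1 p → g1⁻¹ * g' ∈ T.H p → β' (th r0 p) = α1 (th r0 p) → False := by
        intro β β' p g1 w1 α1 hp e1 e2 c1 d1 m1 e3
        obtain ⟨v, -, q1⟩ := c1.inv (th r0 p)
        rw [← e3, ← e1, e2] at v q1
        have := q1.unique v ((RPath.base (n := Node.virt (cos g' (T.H p)) p w (β r0)) g1 (mem_symm m1)).pos v) (by simp)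
        exact d1 (this ▸ a2.2 p hp)
      have e0 : α r0 = α' r0 := by
        by_cases hrr : r = r0
        · exact hrr ▸ hr
        · have hp : th r0 r ≠ r0 := th_ne_left (Ne.symm hrr)
          have hp' : th r0 r ≠ r := th_ne_right (Ne.symm hrr)
          have hr' : α (th r0 (th r0 r)) = α' (th r0 (th r0 r)) := by rwa [th_th]
          by_cases n1 : T.Near r0 (α r0) (th r0 r) g' <;>
          by_cases n2 : T.Near r0 (α' r0) (th r0 r) g'
          · obtain ⟨g1, w1, α1, c1, c2, c3, c4, c5, c6⟩ := a3 _ hp n1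
            obtain ⟨g2, w2, α2, d1, d2, d3, d4, d5, -⟩ := b3 _ hp n2
            rw [th_th] at c5 d5
            rw [← c2, ← d2, gate _ _ _ _ _ _ _ r hp' c1 d1 (by rw [← c5, ← d5, hr]) c3 d3 c4 d4 c6]
          · obtain ⟨g1, w1, α1, c1, -, c3, c4, c5, -⟩ := a3 _ hp n1
            exact (far_near α' α _ g1 w1 α1 hp hr'.symm (b4 _ hp n2) c1 c3 c4 c5).elim
          · obtain ⟨g1, w1, α1, c1, -, c3, c4, c5, -⟩ := b3 _ hp n2
            exact (far_near α α' _ g1 w1 α1 hp hr' (a4 _ hp n1) c1 c3 c4 c5).elim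
          · rw [a4 _ hp n1, b4 _ hp n2] at hr'
            simpa using hr'
      funext s
      by_cases hs : s = r0
      · rw [hs, e0]
      · have hp : th r0 s ≠ r0 := th_ne_left (Ne.symm hs)
        rw [← th_th r0 s]
        by_cases n1 : T.Near r0 (α r0) (th r0 s) g'
        · obtain ⟨g1, w1, α1, c1, c2, c3, c4, c5, c6⟩ := a3 _ hp n1
          obtain ⟨g2, w2, α2, d1, d2, d3, d4, d5, -⟩ := b3 _ hp (e0 ▸ n1)
          rw [c5, d5, gate _ _ _ _ _ _ _ r0 hp c1 d1 (by rw [c2, d2, e0]) c3 d3 c4 d4 c6]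
        · rw [a4 _ hp n1, b4 _ hp (e0 ▸ n1), e0]

theorem mkTop {g0 g : G} {w0 w : T.N.Group} {α0 : Fin 3 → T.Nd} {r : Fin 3} (h0 : T.Ch g0 w0 α0)
    (h1 : g0⁻¹ * g ∈ T.V r) (h2 : T.Term r (α0 r) g) (h3 : IsTop T.N r (T.nu (α0 r)) w)
    (h4 : ∀ g' w', ln T.N w' < ln T.N w → g0⁻¹ * g' ∈ T.V r → T.Pos r (α0 r) g' w' →
      ∃ α', T.Ch g' w' α' ∧ α' r = α0 r) :
    ∃ α, T.Ch g w α ∧ α r = α0 r ∧
      (∀ p, p ≠ r → ∀ g1 w1 α1, T.Ch g1 w1 α1 → α1 r = α0 r → ¬ RD T.N w1 p → g1⁻¹ * g ∈ T.H p →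
        α (th r p) = α1 (th r p)) ∧
      (∀ p, p ≠ r → ¬ T.Near r (α0 r) p g →
        α (th r p) = Node.virt (cos g (T.H p)) p w (α0 r)) := by
  classical
  have hv := (h0.inv r).1
  have : ∀ p, ∃ g' w' α', p ≠ r → T.Near r (α0 r) p g →
      T.Ch g' w' α' ∧ α' r = α0 r ∧ ¬ RD T.N w' p ∧ g'⁻¹ * g ∈ T.H p := by
    intro p
    by_cases hp : p ≠ r ∧ T.Near r (α0 r) p g
    · obtain ⟨hp, g', w', a1, a2, a3⟩ := hp
      have e := (near_spec hv hp h2 h3 (Or.inl a1) a2 a3).2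
      have := ln_mul a2
      obtain ⟨α', b1, b2⟩ := h4 g' w' (by rw [e]; omega)
        (mem_trans h1 (mem_symm (T.HV _ _ hp a3))) (Or.inl a1)
      exact ⟨g', w', α', fun _ _ => ⟨b1, b2, a2, a3⟩⟩
    · exact ⟨g, w, α0, fun a b => absurd ⟨a, b⟩ hp⟩
  choose gs ws αs hs using this
  let α : Fin 3 → T.Nd := fun x => if x = r then α0 r else
    if T.Near r (α0 r) (th r x) g then αs (th r x) x
    else Node.virt (cos g (T.H (th r x))) (th r x) w (α0 r)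
  have e1 : ∀ p, p ≠ r → T.Near r (α0 r) p g → α (th r p) = αs p (th r p) := by
    intro p hp hn
    simp only [α, if_neg (th_ne_left hp.symm), th_th, if_pos hn]
  have e2 : ∀ p, p ≠ r → ¬ T.Near r (α0 r) p g →
      α (th r p) = Node.virt (cos g (T.H p)) p w (α0 r) := by
    intro p hp hn
    simp only [α, if_neg (th_ne_left hp.symm), th_th, if_neg hn]
  refine ⟨α, Ch.top g0 w0 α0 r g w α gs ws αs h0 h1 h2 h3 (by simp [α])
    (fun p hp hn => (hs p hp hn).1) (fun p hp hn => ?_) e2, by simp [α], ?_, e2⟩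
  · obtain ⟨-, b2, b3, b4⟩ := hs p hp hn
    exact ⟨b2, b3, b4, e1 p hp hn⟩
  · intro p hp g1 w1 α1 c1 c2 c3 c4
    have q1 := (c1.inv r).2.2
    rw [c2] at q1
    have hn : T.Near r (α0 r) p g := ⟨g1, w1, q1.nt hp c3, c3, c4⟩
    obtain ⟨b1, b2, b3, b4⟩ := hs p hp hn
    have q2 := (b1.inv r).2.2
    rw [b2] at q2
    rw [e1 p hp hn, (b1.uq c1 (b2.trans c2.symm)
      (q2.gate hv q1 hp b3 c3 (mem_trans b4 (mem_symm c4)))).2]

/-- how a node was created -/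
def Cr (T : Tri G) (r : Fin 3) (n : T.Nd) : Prop :=
  (n = .root ∧ r ≠ T.c) ∨ (∃ g α, T.Ch g (T.nu n) α ∧ α r = n ∧ T.nK n = cos g T.F) ∨
  ∃ g w α r0 p, T.Ch g w α ∧ p ≠ r0 ∧ r = th r0 p ∧ T.Term r0 (α r0) g ∧
    IsTop T.N r0 (T.nu (α r0)) w ∧ ¬ T.Near r0 (α r0) p g ∧
    n = Node.virt (cos g (T.H p)) p w (α r0)

theorem Ch.cr {g : G} {w : T.N.Group} {α : Fin 3 → T.Nd} (h : T.Ch g w α) (r : Fin 3) :
    T.Cr r (α r) := by
  induction h generalizing r with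
  | root h hh =>
    by_cases hr : r = T.c
    · subst hr
      refine Or.inr (Or.inl ⟨h, _, ?_, rfl, by simp [nK]⟩)
      simpa [nu] using Ch.root h hh
    · exact Or.inl ⟨update_of_ne hr _ _, hr⟩
  | pan g w α p g' a0 a1 a2 a3 a4 ih =>
    by_cases hr : r = p
    · subst hr
      refine Or.inr (Or.inl ⟨g', _, ?_, rfl, by simp [nK]⟩)
      simpa [nu] using Ch.pan g w α r g' a0 a1 a2 a3 a4
    · rw [update_of_ne hr]; exact ih r
  | top g0 w0 α0 r0 g w α gs ws αs a0 a1 a2 a3 a4 a5 a6 a7 ih0 ihs =>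
    by_cases hr : r = r0
    · rw [hr, a4]; exact ih0 r0
    · have hp : th r0 r ≠ r0 := th_ne_left (Ne.symm hr)
      by_cases hn : T.Near r0 (α0 r0) (th r0 r) g
      · have := (a6 _ hp hn).2.2.2
        rw [th_th] at this
        rw [this]; exact ihs _ hp hn r
      · have := a7 _ hp hn
        rw [th_th] at this
        exact Or.inr (Or.inr ⟨g, w, α, r0, th r0 r,
          Ch.top g0 w0 α0 r0 g w α gs ws αs a0 a1 a2 a3 a4 a5 a6 a7, hp, (th_th _ _).symm,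
          a4 ▸ a2, a4 ▸ a3, a4 ▸ hn, a4 ▸ this⟩)

/-- the statement of existence below a given length -/
def EXlt (T : Tri G) (k : ℕ) : Prop :=
  ∀ g0 w0 α0 r g w, ln T.N w < k → T.Ch g0 w0 α0 → g0⁻¹ * g ∈ T.V r → T.Pos r (α0 r) g w →
    ∃ α, T.Ch g w α ∧ α r = α0 r

theorem up_step {g g' : G} {w : T.N.Group} {α : Fin 3 → T.Nd} {p : Fin 3} (h : T.Ch g w α)
    (hd : ¬ RD T.N w p) (h1 : g⁻¹ * g' ∈ T.H p) (h2 : g⁻¹ * g' ∉ T.F)
    (ih : T.EXlt (ln T.N (w * sg T.N p))) :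
    ∃ α', T.Ch g' (w * sg T.N p) α' ∧ ∀ q, q ≠ p → α' q = α q := by
  by_cases hs : ∀ x, x ≠ p → ¬ RD T.N (w * sg T.N p) x
  · exact ⟨_, Ch.pan g w α p g' h hd h1 h2 hs, fun q hq => update_of_ne hq _ _⟩
  · push Not at hs
    obtain ⟨x, hx, hdx⟩ := hs
    have hp : p ≠ th p x := (th_ne_left hx.symm).symm
    have ht : Top T.N (th p x) (w * sg T.N p) := by
      intro y hy
      rcases fin3_cases hx.symm y with rfl | rfl | rfl
      · exact rd_mul_self hd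
      · exact hdx
      · exact absurd rfl hy
    obtain ⟨v, -, q1⟩ := h.inv (th p x)
    have q2 := (q1.ext v hp hd h1 h2).resolve_left fun hn => hn.2 ht
    obtain ⟨α', b1, b2, b3, -⟩ := mkTop h (T.HV _ _ hp h1) q2.1 q2.2
      (fun g' w' c1 c2 c3 => ih _ _ _ _ _ _ c1 h c2 c3)
    refine ⟨α', b1, fun q hq => ?_⟩
    rcases fin3_cases hx.symm q with rfl | rfl | rfl
    · exact absurd rfl hq
    · have := b3 p hp g w α h rfl hd h1
      rwa [th_th''] at this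
    · exact b2

theorem exlt (k : ℕ) : T.EXlt k := by
  induction k with
  | zero => intro _ _ _ _ _ _ h; omega
  | succ k ih =>
    intro g0 w0 α0 r g w hk h0 h1 h2
    have ih' : T.EXlt (ln T.N w) := fun a b c d e f h => ih a b c d e f (by omega)
    have hv := (h0.inv r).1
    rcases h2 with ⟨h2, h3⟩ | ⟨h2, h3⟩
    · generalize hn : α0 r = n at h2 hv ⊢
      cases h2 with
      | base g hg =>
        rcases hn ▸ h0.cr r with ⟨rfl, hr⟩ | ⟨g1, α1, a1, a2, a3⟩ |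
          ⟨g1, w1, α1, r0, p, a1, a2, rfl, a4, a5, a6, rfl⟩
        · exact ⟨_, Ch.root g (by simpa [nK, cos] using hg), update_of_ne hr _ _⟩
        · rw [a3] at hg
          exact ⟨α1, a1.mul_F hg, a2⟩
        · have hg' : g1⁻¹ * g ∈ T.H p := hg
          obtain ⟨α, b1, -, -, b4⟩ := mkTop a1 (T.HV _ _ a2 hg')
            (far_term (a1.inv r0).1 a2 a4 a6 hg') a5
            (fun g' w' c1 c2 c3 => ih' _ _ _ _ _ _ c1 a1 c2 c3)
          refine ⟨α, b1, ?_⟩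
          rw [b4 p a2 (mt (Near.congr hg').2 a6), cos_eq hg']
      | step g1 w1 x h a1 a2 a3 a4 a5 =>
        have hl := ln_mul a3
        have m : g1⁻¹ * (g1 * h) ∈ T.H x := by simpa using a4
        obtain ⟨α1, b1, b2⟩ := ih' g0 w0 α0 r g1 w1 (by omega) h0
          (mem_trans h1 (mem_symm (T.HV _ _ a2 m))) (hn ▸ a1.pos hv)
        obtain ⟨α', c1, c2⟩ := up_step b1 a3 m (by simpa using a5) ih'
        exact ⟨α', c1, by rw [c2 r a2.symm, b2, hn]⟩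
    · obtain ⟨α, b1, b2, -⟩ := mkTop h0 h1 h2 h3
        (fun g' w' c1 c2 c3 => ih' _ _ _ _ _ _ c1 h0 c2 c3)
      exact ⟨α, b1, b2⟩

theorem Ch.ex {g g' : G} {w : T.N.Group} {α : Fin 3 → T.Nd} (h : T.Ch g w α) {r : Fin 3}
    (hg : g⁻¹ * g' ∈ T.V r) : ∃ w' α', T.Ch g' w' α' ∧ α' r = α r := by
  obtain ⟨w', hw'⟩ := exists_pos r (α r) g'
  obtain ⟨α', h1⟩ := exlt _ g w α r g' w' (Nat.lt_succ_self _) h hg hw'
  exact ⟨w', α', h1⟩

theorem Ch.panel {g g' : G} {w : T.N.Group} {α : Fin 3 → T.Nd} (h : T.Ch g w α) {p : Fin 3}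
    (hg : g⁻¹ * g' ∈ T.H p) : ∃ w' α', T.Ch g' w' α' ∧ ∀ q, q ≠ p → α' q = α q := by
  have up : ∀ g w α, T.Ch g w α → g⁻¹ * g' ∈ T.H p → ¬ RD T.N w p →
      ∃ w' α', T.Ch g' w' α' ∧ ∀ q, q ≠ p → α' q = α q := by
    intro g w α h hg hd
    by_cases hF : g⁻¹ * g' ∈ T.F
    · exact ⟨w, α, h.mul_F hF, fun _ _ => rfl⟩
    · obtain ⟨α', h1⟩ := up_step h hd hg hF (exlt _)
      exact ⟨_, α', h1⟩
  by_cases hd : RD T.N w p
  swap
  · exact up g w α h hg hd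
  rcases h.cases with ⟨a1, a2, a3⟩ | ⟨g0, w0, α0, q, a0, a1, a2, -, a4, a5, a6⟩ |
    ⟨r0, a1, a2, a3, a4⟩
  · obtain rfl : p = T.c := rd_sg.1 (a1 ▸ hd)
    refine ⟨_, _, Ch.root g' (by simpa using mul_mem a2 hg), fun q hq => ?_⟩
    rw [a3, update_of_ne hq, update_of_ne hq]
  · obtain rfl : p = q := by
      by_contra hne; exact a4 p hne hd
    obtain ⟨w', α', b1, b2⟩ := up g0 w0 α0 a0 (mem_trans a2 hg) a1
    exact ⟨w', α', b1, fun q hq => by rw [b2 q hq, a6, update_of_ne hq]⟩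
  · have hp : p ≠ r0 := fun e => top_not_third a2.2 (e ▸ hd)
    by_cases hn : T.Near r0 (α r0) p g
    · obtain ⟨g1, w1, α1, c1, c2, c3, c4, c5, -⟩ := a3 p hp hn
      obtain ⟨w', α', b1, b2⟩ := up g1 w1 α1 c1 (mem_trans c4 hg) c3
      refine ⟨w', α', b1, fun q hq => ?_⟩
      rw [b2 q hq]
      rcases fin3_cases hp.symm q with rfl | rfl | rfl
      · exact c2
      · exact absurd rfl hq
      · exact c5.symm
    · obtain ⟨α', b1, b2, -, b4⟩ := mkTop h (T.HV _ _ hp hg)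
        (far_term (h.inv r0).1 hp a1 hn hg) a2
        (fun g' w' c1 c2 c3 => exlt _ _ _ _ _ _ _ c1 h c2 c3)
      refine ⟨w, α', b1, fun q hq => ?_⟩
      rcases fin3_cases hp.symm q with rfl | rfl | rfl
      · exact b2
      · exact absurd rfl hq
      · rw [b4 p hp (mt (Near.congr hg).2 hn), a4 p hp hn, cos_eq hg]

/-- chambers of the universal cover -/
abbrev Om (T : Tri G) := {x : G × T.N.Group × (Fin 3 → T.Nd) // T.Ch x.1 x.2.1 x.2.2}

theorem Om.ext' {x y : T.Om} {r : Fin 3} (h1 : x.1.1 = y.1.1) (h2 : x.1.2.2 r = y.1.2.2 r) :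
    x = y := by
  obtain ⟨a, b⟩ := x.2.uq y.2 h2 (by simp [h1])
  exact Subtype.ext (Prod.ext h1 (Prod.ext a b))

theorem exists_next (r : Fin 3) (v : T.V r) (x : T.Om) :
    ∃ y : T.Om, y.1.1 = x.1.1 * (v : G)⁻¹ ∧ y.1.2.2 r = x.1.2.2 r := by
  obtain ⟨w', α', h1, h2⟩ := x.2.ex (r := r) (g' := x.1.1 * (v : G)⁻¹) (by simp)
  exact ⟨⟨(_, w', α'), h1⟩, rfl, h2⟩

/-- action of a vertex group -/
noncomputable def nx (r : Fin 3) (v : T.V r) (x : T.Om) : T.Om := (exists_next r v x).choose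

theorem nx_spec (r : Fin 3) (v : T.V r) (x : T.Om) :
    (nx r v x).1.1 = x.1.1 * (v : G)⁻¹ ∧ (nx r v x).1.2.2 r = x.1.2.2 r :=
  (exists_next r v x).choose_spec

theorem nx_one (r : Fin 3) (x : T.Om) : nx r 1 x = x :=
  Om.ext' (by simp [nx_spec]) (nx_spec r 1 x).2

theorem nx_mul (r : Fin 3) (v v' : T.V r) (x : T.Om) : nx r (v * v') x = nx r v (nx r v' x) :=
  Om.ext' (by simp [nx_spec, mul_assoc]) (by simp [nx_spec] : _ = (nx r v (nx r v' x)).1.2.2 r)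

/-- action of a vertex group by permutations -/
noncomputable def rhoV (r : Fin 3) : T.V r →* Equiv.Perm T.Om where
  toFun v := ⟨nx r v, nx r v⁻¹, fun x => by rw [← nx_mul]; simp [nx_one],
    fun x => by rw [← nx_mul]; simp [nx_one]⟩
  map_one' := Equiv.ext (nx_one r)
  map_mul' v v' := Equiv.ext (nx_mul r v v')

theorem Ch.func {g : G} {w w' : T.N.Group} {α α' : Fin 3 → T.Nd} (h : T.Ch g w α)
    (h' : T.Ch g w' α') : w = w' ∧ α = α' := by
  obtain ⟨Φ, hΦ⟩ := T.univ T.Om rhoV (by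
    intro p q s hq hs h hh
    refine Equiv.ext fun x => ?_
    obtain ⟨w', α', a1, a2⟩ := x.2.panel (p := p) (g' := x.1.1 * h⁻¹) (by simpa using hh)
    have : ∀ q (hq : p ≠ q), nx q ⟨h, T.HV p q hq hh⟩ x = ⟨(_, w', α'), a1⟩ := fun q hq =>
      Om.ext' (r := q) (nx_spec _ _ _).1 ((nx_spec _ _ _).2.trans (a2 q hq.symm).symm)
    exact (this q hq).trans (this s hs).symm)
  let x0 : T.Om := ⟨(1, sg T.N T.c, update (fun _ => Node.root) T.c
    (Node.real (cos 1 T.F) (sg T.N T.c) .root .root)), Ch.root 1 (one_mem _)⟩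
  have move : ∀ (x y : T.Om) r, x.1.1⁻¹ * y.1.1 ∈ T.V r → y.1.2.2 r = x.1.2.2 r →
      (∃ hx : x.1.1 ∈ T.U, x = Φ ⟨x.1.1⁻¹, inv_mem hx⟩ x0) →
      ∃ hy : y.1.1 ∈ T.U, y = Φ ⟨y.1.1⁻¹, inv_mem hy⟩ x0 := by
    rintro x y r h1 h2 ⟨hx, e⟩
    have hy : y.1.1 ∈ T.U := by simpa using mul_mem hx (T.VU r h1)
    refine ⟨hy, ?_⟩
    have : (⟨y.1.1⁻¹, inv_mem hy⟩ : T.U) =
        ⟨_, T.VU r (inv_mem h1)⟩ * ⟨x.1.1⁻¹, inv_mem hx⟩ := Subtype.ext (by simp)
    rw [this, map_mul, Equiv.Perm.mul_apply, ← e, hΦ r ⟨_, inv_mem h1⟩]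
    exact Om.ext' (r := r) (by
      have := (nx_spec r ⟨_, inv_mem h1⟩ x).1
      simp only [inv_inv, mul_inv_cancel_left] at this
      exact this.symm) (h2.trans (nx_spec _ _ _).2.symm)
  have conn : ∀ g w α (h : T.Ch g w α),
      ∃ hg : g ∈ T.U, (⟨(g, w, α), h⟩ : T.Om) = Φ ⟨g⁻¹, inv_mem hg⟩ x0 := by
    intro g w α h
    induction h with
    | root h hh =>
      refine move x0 ⟨(h, sg T.N T.c, update (fun _ => Node.root) T.c
        (Node.real (cos h T.F) (sg T.N T.c) .root .root)), Ch.root h hh⟩ (T.c + 1)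
        (by simpa [x0] using T.HV _ _ (succ_ne3 _).symm hh) ?_ ⟨one_mem _, ?_⟩
      · simp only [x0, update_of_ne (succ_ne3 _)]
      · have : (⟨x0.1.1⁻¹, inv_mem (one_mem _)⟩ : T.U) = 1 := Subtype.ext (by simp [x0])
        rw [this, map_one]; rfl
    | pan g w α p g' a0 a1 a2 a3 a4 ih =>
      exact move ⟨(g, w, α), a0⟩ ⟨(g', w * sg T.N p, update α p
        (Node.real (cos g' T.F) (w * sg T.N p) (α (p + 1)) (α (p + 2)))),
        Ch.pan g w α p g' a0 a1 a2 a3 a4⟩ (p + 1)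
        (T.HV _ _ (succ_ne3 _).symm a2) (update_of_ne (succ_ne3 _) _ _) ih
    | top g0 w0 α0 r0 g w α gs ws αs a0 a1 a2 a3 a4 a5 a6 a7 ih0 _ =>
      exact move ⟨(g0, w0, α0), a0⟩
        ⟨(g, w, α), Ch.top g0 w0 α0 r0 g w α gs ws αs a0 a1 a2 a3 a4 a5 a6 a7⟩ r0 a1 a4 ih0
  obtain ⟨_, e1⟩ := conn g w α h
  obtain ⟨_, e2⟩ := conn g w' α' h'
  have := congrArg Subtype.val (e1.trans e2.symm)
  simpa using this

theorem Ch.mem {g : G} {w : T.N.Group} {α : Fin 3 → T.Nd} (h : T.Ch g w α) : g ∈ T.U := by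
  induction h with
  | root h hh => exact T.VU _ (T.HV _ _ (succ_ne3 _).symm hh)
  | pan g w α p g' a0 a1 a2 a3 a4 ih =>
    simpa using mul_mem ih (T.VU _ (T.HV _ _ (succ_ne3 _).symm a2))
  | top g0 w0 α0 r0 g w α gs ws αs a0 a1 a2 a3 a4 a5 a6 a7 ih0 _ =>
    simpa using mul_mem ih0 (T.VU _ a1)

theorem exists_ch {g : G} (hg : g ∈ T.U) : ∃ w α, T.Ch g w α := by
  have := T.gen hg
  clear hg
  induction this using Subgroup.closure_induction_right with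
  | one => exact ⟨_, _, Ch.root 1 (one_mem _)⟩
  | mul_right x _ y hy ih =>
    obtain ⟨w, α, h⟩ := ih
    obtain ⟨r, hr⟩ := Set.mem_iUnion.1 hy
    obtain ⟨w', α', h', -⟩ := h.ex (r := r) (g' := x * y) (by simpa using hr)
    exact ⟨w', α', h'⟩
  | mul_inv_cancel x _ y hy ih =>
    obtain ⟨w, α, h⟩ := ih
    obtain ⟨r, hr⟩ := Set.mem_iUnion.1 hy
    obtain ⟨w', α', h', -⟩ := h.ex (r := r) (g' := x * y⁻¹) (by simpa using hr)
    exact ⟨w', α', h'⟩

theorem Ch.same {g g' : G} {w w' : T.N.Group} {α α' : Fin 3 → T.Nd} (h : T.Ch g w α)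
    (h' : T.Ch g' w' α') {r : Fin 3} (hg : g⁻¹ * g' ∈ T.V r) : α' r = α r := by
  obtain ⟨w'', α'', h1, h2⟩ := h.ex hg
  rw [(h'.func h1).2, h2]

theorem Ch.mem_base_iff {g : G} {w : T.N.Group} {α : Fin 3 → T.Nd} (h : T.Ch g w α) :
    g ∈ T.H T.c ↔ w = sg T.N T.c := by
  refine ⟨fun hg => (h.func (Ch.root g hg)).1, fun hw => ?_⟩
  rcases h.cases with ⟨-, a2, -⟩ | ⟨g0, w0, α0, q, a0, a1, -, -, -, a5, -⟩ | ⟨r0, -, a2, -, -⟩
  · exact a2
  · exact absurd (a5.symm.trans hw) (a0.ne_sg a1)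
  · exact absurd a2.2 (not_top_of_single (p := T.c) fun x hx hd => hx (rd_sg.1 (hw ▸ hd)))

end Tri

end Pool.Agent.H10
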