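import Pool.Agent.Lib.helper10.Tri3
import Pool.Agent.Lib.helper10.Pattern

/-! Non-positively curved triangles of groups: girth of the graph of two vertex groups. -/

set_option linter.unusedSectionVars false

namespace Pool.Agent.H10

open CoxeterSystem Function

universe u

variable {G : Type u} [Group G]

namespace Tri

variable {T : Tri G}

theorem Pos.mem_res {r : Fin 3} {n : T.Nd} {g : G} {w : T.N.Group} (h : T.Pos r n g w) :
    (T.nu n)⁻¹ * w ∈ res T.N r := h.elim (fun h => h.1.mem_res) fun h => h.2.1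

theorem anchor_sub {r c : Fin 3} {n : T.Nd} {g : G} {w u : T.N.Group} (hv : T.Valid r n)
    (h : T.Pos r n g w) (hc : c ≠ r) (hw : w = u ∨ w = u * sg T.N c) (h1 : ¬ RD T.N u c)
    (h2 : ¬ RD T.N u (th r c)) : ∀ k ∈ T.nK n, k⁻¹ * g ∈ T.H c := by
  have hy := th_ne_left hc.symm
  have hu : ∀ x, x ≠ r → ¬ RD T.N u x := by
    intro x hx
    rcases fin3_cases hc.symm x with rfl | rfl | rfl
    · exact absurd rfl hx
    · exact h1
    · exact h2
  have hw' : ∀ x, x ≠ r → RD T.N w x → x = c ∧ w = u * sg T.N c := by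
    intro x hx hd
    rcases hw with rfl | rfl
    · exact absurd hd (hu x hx)
    · exact ⟨rd_sg.1 ((rdesc_mul_iff (cx T.N) (T := {x | x ≠ r}) hu (sg_mem_res hc) hx).1 hd), rfl⟩
  obtain ⟨a, -⟩ := h.nt hy fun hd => th_ne_right hc.symm (hw' _ hy hd).1
  have base : ∀ g, g ∈ T.nK n → (∀ x, x ≠ r → RD T.N (T.nu n) x → x = c) →
      ∀ k ∈ T.nK n, k⁻¹ * g ∈ T.H c := by
    intro g hg hx k hk
    have := (hv.mem_iff hk _).1 hg
    cases hn : T.nk n with
    | none => rw [hn] at this; exact T.FH _ this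
    | some p =>
      rw [hn] at this
      rw [← hx p (hv.2.2 p hn).1 (hv.2.2 p hn).2.1]; exact this
  cases a with
  | base g hg => exact base g hg fun x hx hd => (hw' x hx hd).1
  | step g1 w1 x h1 a1 a2 a3 a4 a5 =>
    obtain ⟨rfl, e⟩ := hw' x a2 (rd_mul_self a3)
    obtain rfl := mul_right_cancel e
    intro k hk
    refine mem_trans (b := g1) ?_ (by simpa using a4)
    cases a1 with
    | base g hg => exact base g1 hg (fun x hx hd => absurd hd (hu x hx)) k hk
    | step g2 w2 y h2 b1 b2 b3 b4 b5 => exact absurd (rd_mul_self b3) (hu y b2)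

/-- invariant of reduced alternating products of two vertex groups -/
def JJ (T : Tri G) (i : ℕ) (t : Fin 3) (w : T.N.Group) : Prop :=
  ∃ l, (cx T.N).IsReduced l ∧ (w = (cx T.N).wordProd l ∨ w = (cx T.N).wordProd l * sg T.N T.c) ∧
    ¬ RD T.N ((cx T.N).wordProd l) T.c ∧ ¬ RD T.N ((cx T.N).wordProd l) t ∧
    ¬ HasAlt t (th T.c t) (i + 1) l

theorem JJ.anchor {i : ℕ} {t : Fin 3} (ht : t ≠ T.c) {g : G} {w : T.N.Group} {α : Fin 3 → T.Nd}
    (hJ : T.JJ i t w) (h : T.Ch g w α) : ∀ k ∈ T.nK (α (th T.c t)), k⁻¹ * g ∈ T.H T.c := by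
  obtain ⟨l, -, a2, a3, a4, -⟩ := hJ
  obtain ⟨v, -, p⟩ := h.inv (th T.c t)
  exact anchor_sub v p (th_ne_left ht.symm).symm a2 a3 (by rwa [th_th''])

theorem jj_of_altZ {i : ℕ} (hi : i < mu T.N T.c) {t : Fin 3} (ht : t ≠ T.c) {g : G}
    (hA : AltZ (T.H T.c) i (T.V t) (T.V (th T.c t)) g) {w : T.N.Group} {α : Fin 3 → T.Nd}
    (h : T.Ch g w α) : T.JJ i t w := by
  induction i generalizing t g w α with
  | zero =>
    refine ⟨[], by simp [CoxeterSystem.IsReduced], Or.inr (by simpa using h.mem_base_iff.1 hA),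
      by simpa using (cx T.N).not_isRightDescent_one _,
      by simpa using (cx T.N).not_isRightDescent_one _, by simp [HasAlt, alt]⟩
  | succ i ih =>
    obtain ⟨v, a1, a2, a3⟩ := hA
    have ht' : th T.c t ≠ T.c := th_ne_left ht.symm
    have htt : th T.c t ≠ t := th_ne_right ht.symm
    obtain ⟨w', α', h', e⟩ := h.ex (r := t) (g' := g * v⁻¹) (by simpa using a1)
    have hJ := ih (by omega) ht' (by rwa [th_th]) h'
    have an' := hJ.anchor ht' h'
    rw [th_th, e] at an'
    obtain ⟨l', b1, b2, b3, b4, b5⟩ := hJ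
    rw [th_th] at b5
    have hmin : ∀ x, x ≠ t → ¬ RD T.N ((cx T.N).wordProd l') x := by
      intro x hx
      rcases fin3_cases ht.symm x with rfl | rfl | rfl
      · exact b3
      · exact absurd rfl hx
      · exact b4
    obtain ⟨hv, -, p1⟩ := h.inv t
    have p2 := (h'.inv t).2.2
    rw [e] at p2
    have hu : ((cx T.N).wordProd l')⁻¹ * w ∈ res T.N t := by
      refine mem_trans (b := w') ?_ (mem_trans (mem_symm p2.mem_res) p1.mem_res)
      rcases b2 with rfl | rfl
      · simp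
      · simpa using sg_mem_res ht.symm
    obtain ⟨u, u1, u2, u3⟩ : ∃ u ∈ res T.N t, ¬ RD T.N u T.c ∧
        (w = (cx T.N).wordProd l' * u ∨ w = (cx T.N).wordProd l' * u * sg T.N T.c) := by
      by_cases hd : RD T.N (((cx T.N).wordProd l')⁻¹ * w) T.c
      · exact ⟨_, mul_mem hu (sg_mem_res ht.symm),
          (cx T.N).isRightDescent_iff_not_isRightDescent_mul.1 hd, Or.inr (by simp [← mul_assoc])⟩
      · exact ⟨_, hu, hd, Or.inl (by simp)⟩
    have hne : u ≠ 1 := by
      rintro rfl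
      have an := anchor_sub hv p1 ht.symm (by simpa using u3) b3 (by rwa [th_comm])
      obtain ⟨k, hk⟩ := hv.nonempty
      exact a2 (by simpa using mem_trans (mem_symm (an' k hk)) (an k hk))
    obtain ⟨x, hx⟩ := (cx T.N).exists_rightDescent_of_ne_one hne
    have hxt : x ≠ t := rdesc_mem_par _ u1 hx
    obtain rfl : x = th T.c t := eq_th ht.symm (fun e => u2 (e ▸ hx)) hxt
    obtain ⟨m, m1, m2, rfl⟩ := exists_red_par _ u1
    have hred : (cx T.N).IsReduced (l' ++ m) :=
      red_append _ (by rw [length_mul_min (cx T.N) (T := {x | x ≠ t}) hmin u1, b1.eq, m2.eq])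
    have hna : ¬ HasAlt t (th T.c t) (i + 1 + 1) (l' ++ m) :=
      not_hasAlt_append htt.symm (fun hc => b5 hc.symm) fun hc => m1 t hc rfl
    refine ⟨l' ++ m, hred, by rwa [wordProd_append], ?_, fun hd => hna ?_, hna⟩
    · rw [wordProd_append]
      exact mt (rdesc_mul_iff (cx T.N) (T := {x | x ≠ t}) hmin u1 ht.symm).1 u2
    · have hd' : RD T.N ((cx T.N).wordProd (l' ++ m)) (th T.c t) := by
        rw [wordProd_append]
        exact (rdesc_mul_iff (cx T.N) (T := {x | x ≠ t}) hmin u1 hxt).2 hx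
      obtain ⟨-, z, c1, c2, -, -⟩ := both_right (cx T.N) htt.symm hd hd'
      obtain ⟨ν, hν, rfl⟩ := (cx T.N).exists_isReduced z
      have r2 : (cx T.N).IsReduced (ν ++ alternatingWord t (th T.c t) (T.N t (th T.c t))) :=
        red_append _ (by rw [← c1, c2, hν.eq]; simp)
      have be := matsumoto (cx T.N) r2 hred (by rw [c1, wordProd_append])
      have : HasAlt t (th T.c t) (T.N t (th T.c t))
          (ν ++ alternatingWord t (th T.c t) (T.N t (th T.c t))) := by
        rw [← List.reverse_reverse (alternatingWord _ _ _), ← alt_eq_reverse, reverse_alt]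
        split_ifs
        · exact Or.inl (List.sublist_append_right _ _)
        · exact Or.inr (List.sublist_append_right _ _)
      exact (be.hasAlt htt.symm this).mono (by rw [mu_eq T.N ht ht' htt.symm]; omega)

theorem anchor_of_altZ {i : ℕ} (hi : i < mu T.N T.c) {t : Fin 3} (ht : t ≠ T.c) {g g' : G}
    (hA : AltZ (T.H T.c) i (T.V (th T.c t)) (T.V t) g') {w : T.N.Group} {α : Fin 3 → T.Nd}
    (h : T.Ch g w α) (hg : g⁻¹ * g' ∈ T.V t) : ∀ k ∈ T.nK (α t), k⁻¹ * g' ∈ T.H T.c := by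
  obtain ⟨w', α', h', e⟩ := h.ex hg
  have ht' : th T.c t ≠ T.c := th_ne_left ht.symm
  have := (jj_of_altZ hi ht' (by rwa [th_th]) h').anchor ht' h'
  rwa [th_th, e] at this

theorem girth_out {t : Fin 3} (ht : t ≠ T.c) :
    Girth (T.H T.c) (T.V t) (T.V (th T.c t)) (mu T.N T.c) := by
  have key : ∀ t, t ≠ T.c → ∀ k g, 1 ≤ k → k < 2 * mu T.N T.c →
      AltZ (T.H T.c) (k - k / 2) (T.V t) (T.V (th T.c t)) g →
      AltZ (T.H T.c) (k / 2) (T.V (th T.c t)) (T.V t) g → False := by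
    intro t ht k g h1 h2 h3 h4
    obtain ⟨w, α, h⟩ := exists_ch (h4.pr.mem ((T.HV _ _ ht.symm).trans (T.VU _)) (T.VU _) (T.VU _))
    obtain ⟨i, hi⟩ : ∃ i, k - k / 2 = i + 1 := ⟨k - k / 2 - 1, by omega⟩
    rw [hi] at h3
    obtain ⟨v, a1, a2, a3⟩ := h3
    have b1 := anchor_of_altZ (by omega) ht h4 h (by simp)
    have b2 := anchor_of_altZ (by omega) ht a3 h (by simpa using a1)
    obtain ⟨k, hk⟩ := (h.inv t).1.nonempty
    exact a2 (by simpa using mem_trans (mem_symm (b2 k hk)) (b1 k hk))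
  refine girth_of_split (· / 2) (fun k => Nat.div_le_self _ _) fun k g h1 h2 =>
    ⟨key t ht k g h1 h2, ?_⟩
  have := key _ (th_ne_left ht.symm) k g h1 h2
  rwa [th_th] at this

theorem pr_succ_iff {j : ℕ} (hj : j < mu T.N T.c) {t : Fin 3} (ht : t ≠ T.c) {g k : G}
    {w : T.N.Group} {α : Fin 3 → T.Nd} (h : T.Ch g w α) (hk : k ∈ T.nK (α t)) :
    Pr (T.H T.c) (j + 1) (T.V t) (T.V (th T.c t)) g ↔
      Pr (T.H T.c) j (T.V (th T.c t)) (T.V t) k := by
  have ht' : th T.c t ≠ T.c := th_ne_left ht.symm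
  have l1 := T.HV _ _ ht.symm
  have l2 := T.HV _ _ ht'.symm
  constructor
  · rintro ⟨v, a1, a2⟩
    obtain ⟨g', i, hi, b1, b2⟩ : ∃ g' i, i ≤ j ∧ g⁻¹ * g' ∈ T.V t ∧
        AltZ (T.H T.c) i (T.V (th T.c t)) (T.V t) g' := by
      rcases a2.red l2 l1 with ⟨i, hi, b⟩ | ⟨i, hi, b⟩
      · exact ⟨_, i, hi, by simpa using a1, b⟩
      · cases i with
        | zero => exact ⟨_, 0, by omega, by simpa using a1, b⟩
        | succ i =>
          obtain ⟨v', c1, -, c3⟩ := b
          refine ⟨_, i, by omega, ?_, c3⟩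
          simpa [mul_assoc] using mul_mem (inv_mem a1) (inv_mem c1)
    have := (b2.pr.mono l2 l1 hi).mul_right' l2
      (mem_symm (anchor_of_altZ (by omega) ht b2 h b1 k hk))
    simpa using this
  · intro hp
    exact ⟨k⁻¹ * g, (h.inv t).2.1 k hk, by simpa using hp⟩

end Tri

end Pool.Agent.H10
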