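import Pool.Agent.Lib.helper10.Tri4

/-! Non-positively curved triangles of groups: effectivity. -/

set_option linter.unusedSectionVars false

namespace Pool.Agent.H10

open CoxeterSystem Function

universe u

theorem Sig.famNat {α : Type*} [Primcodable α] {p : ℕ → α → Prop} (N : ℕ)
    (hp : ∀ k ≤ N, Sig (p k)) : Sig fun x : α × ℕ => x.2 ≤ N ∧ p x.2 x.1 := by
  induction N with
  | zero =>
    have := hp 0 le_rfl
    refine (show Sig fun x : α × ℕ => x.2 = 0 ∧ p 0 x.1 by fun_prop).of_eq ?_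
    rintro ⟨a, k⟩
    simp only [nonpos_iff_eq_zero]
    exact and_congr_right fun h => by rw [h]
  | succ N ih =>
    have h1 := hp (N + 1) le_rfl
    have h2 : Sig fun x : α × ℕ => x.2 = N + 1 ∧ p (N + 1) x.1 := by fun_prop
    refine (h2.or (ih fun k hk => hp k (by omega))).of_eq ?_
    rintro ⟨a, k⟩
    constructor
    · rintro (⟨h, h'⟩ | ⟨h, h'⟩)
      · simp only at h h' ⊢; subst h; exact ⟨le_rfl, h'⟩
      · exact ⟨by simp only at h ⊢; omega, h'⟩
    · rintro ⟨h, h'⟩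
      by_cases e : k = N + 1
      · subst e; exact Or.inl ⟨rfl, h'⟩
      · exact Or.inr ⟨by simp only at h ⊢; omega, h'⟩

/-- application -/
def app3 {σ : Type*} (f : Fin 3 → σ) (i : Fin 3) : σ := f i

@[fun_prop] theorem pr_app {β σ : Type*} [Primcodable β] [Primcodable σ] {f : β → Fin 3 → σ}
    {g : β → Fin 3} (hf : Primrec f) (hg : Primrec g) : Primrec fun x => app3 (f x) (g x) :=
  Primrec.fin_app.comp hf hg

variable {G : Type u} [Group G]

namespace Tri

variable {T : Tri G}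

/-- shapes of the maximal non-terminal paths -/
def Fam (T : Tri G) (r : Fin 3) (kd : Option (Fin 3)) (u : T.N.Group) (x : Fin 3) (k : ℕ) : Prop :=
  x ≠ r ∧ ((kd = none ∧ k = mu T.N r - 1) ∨
    ∃ p, kd = some p ∧ k = mu T.N r - loc T.N r u ∧ x = if Even k then th r p else p)

variable {r : Fin 3} {n : T.Nd}

theorem RPath.close (hv : T.Valid r n) {g h : G} {w : T.N.Group} (hp : T.RPath r n g w)
    (ht : loc T.N r w < mu T.N r) {x : Fin 3} (hx : x ≠ r) (hh : h ∈ T.H x) :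
    ∃ w', T.RPath r n (g * h) w' ∧ loc T.N r w' ≤ loc T.N r w + 1 := by
  have hnt : T.NT r n g w := ⟨hp, fun h => by have := (loc_spec T.hN r w).2.1 h; omega⟩
  by_cases hd : RD T.N w x
  · cases hp with
    | base g hg =>
      cases hn : T.nk n with
      | none => exact absurd hd (hv.2.1 hn x hx)
      | some p =>
        obtain rfl : p = x := hnt.desc_unique (hv.2.2 p hn).1 hx (hv.2.2 p hn).2.1 hd
        exact ⟨_, RPath.base _ ((hv.mem_iff hg _).2 (by rw [hn]; simpa [sb] using hh)), by omega⟩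
    | step g1 w1 z h1 a1 a2 a3 a4 a5 =>
      obtain rfl : z = x := hnt.desc_unique a2 hx (rd_mul_self a3) hd
      rw [mul_assoc]
      by_cases hF : h1 * h ∈ T.F
      · exact ⟨w1, a1.mul_F hv hF, by rw [loc_mul a2 a3]; omega⟩
      · exact ⟨_, RPath.step _ _ _ _ a1 a2 a3 (mul_mem a4 hh) hF, by omega⟩
  · by_cases hF : h ∈ T.F
    · exact ⟨w, hp.mul_F hv hF, by omega⟩
    · exact ⟨_, RPath.step _ _ _ _ hp hx hd hh hF, (loc_mul hx hd).le⟩

theorem nt_iff (hv : T.Valid r n) {k0 g : G} (hk0 : k0 ∈ T.nK n) :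
    (∃ w, T.NT r n g w) ↔ ∃ x k, T.Fam r (T.nk n) (T.nu n) x k ∧
      Pr T.F k (T.H x) (T.H (th r x)) (k0⁻¹ * g) := by
  have m2 := two_le_mu T.hN r
  have l0 : loc T.N r (T.nu n) < mu T.N r :=
    lt_of_le_of_ne (loc_spec T.hN r _).1 (mt (loc_spec T.hN r _).2.2 hv.not_top)
  constructor
  · rintro ⟨w, h1, h2⟩
    obtain ⟨g0, hg0, k, x, a1, -, a3, -, a5, a6⟩ := h1.conv hv
    have l1 := loc_add h1.mem_res
    have l5 : loc T.N r w < mu T.N r :=
      lt_of_le_of_ne (loc_spec T.hN r _).1 (mt (loc_spec T.hN r _).2.2 h2)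
    have hκ := (hv.mem_iff hk0 _).1 hg0
    have e : k0⁻¹ * g = k0⁻¹ * g0 * (g0⁻¹ * g) := by group
    cases hn : T.nk n with
    | none =>
      rw [hn] at hκ
      exact ⟨x, _, ⟨a1, Or.inl ⟨rfl, rfl⟩⟩,
        e ▸ (a5.pr.mul_left' hκ).mono (T.FH _) (T.FH _) (by omega)⟩
    | some p =>
      rw [hn] at hκ
      have hp := (hv.2.2 p hn).1
      have b1 : Pr T.F (k + 1) (T.H x) (T.H (th r x)) (k0⁻¹ * g) := by
        rw [e]
        refine (a5.pr.succ (T.FH _) (T.FH _)).mul_left ?_ (T.FH _) (T.FH _)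
        rw [a6 p hn]
        by_cases he : Even k <;> simpa [he, th_th, sb] using hκ
      have b2 : ∀ m, k + 1 ≤ m → Pr T.F m (T.H (if Even m then th r p else p))
          (T.H (th r (if Even m then th r p else p))) (k0⁻¹ * g) := by
        intro m hm
        induction hm with
        | refl =>
          rw [a6 p hn] at b1
          by_cases he : Even k <;> simpa [he, Nat.even_add_one] using b1
        | @step m _ ih =>
          have := ih.succ_swap
          by_cases he : Even m <;> simpa [he, Nat.even_add_one, th_th] using this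
      refine ⟨_, _, ⟨?_, Or.inr ⟨p, rfl, rfl, rfl⟩⟩, b2 _ (by omega)⟩
      split_ifs
      · exact th_ne_left hp.symm
      · exact hp
  · rintro ⟨x, k, ⟨hx, ⟨hn, hk⟩ | ⟨p, hn, hk, hxp⟩⟩, hP⟩
    · have l1 := loc_eq_zero (hv.2.1 hn)
      have : ∀ k x g, x ≠ r → k < mu T.N r → Pr T.F k (T.H x) (T.H (th r x)) (k0⁻¹ * g) →
          ∃ w, T.RPath r n g w ∧ loc T.N r w ≤ k := by
        intro k
        induction k with
        | zero =>
          intro x g _ _ hP
          exact ⟨_, RPath.base _ ((hv.mem_iff hk0 _).2 (F_le_sb _ hP)), by omega⟩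
        | succ k ih =>
          rintro x g hx hk ⟨h, a1, a2⟩
          obtain ⟨w, b1, b2⟩ := ih (th r x) (g * h⁻¹) (th_ne_left hx.symm) (by omega)
            (by rwa [th_th, ← mul_assoc])
          obtain ⟨w', c1, c2⟩ := b1.close hv (by omega) hx a1
          exact ⟨w', by simpa using c1, by omega⟩
      obtain ⟨w, b1, b2⟩ := this k x g hx (by omega) hP
      exact ⟨w, b1, fun h => by have := (loc_spec T.hN r w).2.1 h; omega⟩
    · have hp := (hv.2.2 p hn).1
      have : ∀ k x g, (x = if Even k then p else th r p) → loc T.N r (T.nu n) + k < mu T.N r →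
          Pr T.F (k + 1) (T.H x) (T.H (th r x)) (k0⁻¹ * g) →
          ∃ w, T.RPath r n g w ∧ loc T.N r w ≤ loc T.N r (T.nu n) + k := by
        intro k
        induction k with
        | zero =>
          rintro x g hx _ ⟨h, a1, a2⟩
          simp only [Even.zero, if_true] at hx
          subst hx
          refine ⟨_, RPath.base _ ((hv.mem_iff hk0 _).2 ?_), by omega⟩
          rw [hn]
          simpa [sb] using mul_mem (T.FH x a2) a1
        | succ k ih =>
          rintro x g hx hk ⟨h, a1, a2⟩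
          have hxr : x ≠ r := by
            rw [hx]; split_ifs
            · exact hp
            · exact th_ne_left hp.symm
          obtain ⟨w, b1, b2⟩ := ih (th r x) (g * h⁻¹) (by
            rw [hx]; by_cases he : Even k <;> simp [he, Nat.even_add_one, th_th]) (by omega)
            (by rwa [th_th, ← mul_assoc])
          obtain ⟨w', c1, c2⟩ := b1.close hv (by omega) hxr a1
          exact ⟨w', by simpa using c1, by omega⟩
      obtain ⟨k, rfl⟩ : ∃ k', k = k' + 1 := ⟨k - 1, by omega⟩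
      obtain ⟨w, b1, b2⟩ := this k x g (by
        rw [hxp]; by_cases he : Even k <;> simp [he, Nat.even_add_one]) (by omega) hP
      exact ⟨w, b1, fun h => by have := (loc_spec T.hN r w).2.1 h; omega⟩

theorem Fam.bound (hv : T.Valid r n) {x : Fin 3} {k : ℕ} (h : T.Fam r (T.nk n) (T.nu n) x k) :
    1 ≤ k ∧ k + 1 ≤ mu T.N r := by
  have m2 := two_le_mu T.hN r
  have l0 : loc T.N r (T.nu n) < mu T.N r :=
    lt_of_le_of_ne (loc_spec T.hN r _).1 (mt (loc_spec T.hN r _).2.2 hv.not_top)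
  rcases h.2 with ⟨-, rfl⟩ | ⟨p, hn, rfl, -⟩
  · omega
  · have := one_le_loc (hv.2.2 p hn).1 (hv.2.2 p hn).2.1
    omega

/-- not a product of `k` factors -/
def NP (T : Tri G) (r x : Fin 3) (k : ℕ) (g : G) : Prop :=
  x ≠ r ∧ k ≤ mu T.N r ∧ g ∈ T.V r ∧ ¬ Pr T.F k (T.H x) (T.H (th r x)) g

theorem term_iff (hv : T.Valid r n) {k0 g : G} (hk0 : k0 ∈ T.nK n) (hg : T.In r n g) :
    T.Term r n g ↔ ∀ x k, T.Fam r (T.nk n) (T.nu n) x k → T.NP r x k (k0⁻¹ * g) := by
  rw [Term, nt_iff hv hk0]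
  constructor
  · intro h x k hF
    exact ⟨hF.1, by have := hF.bound hv; omega, hg _ hk0, fun hP => h ⟨x, k, hF, hP⟩⟩
  · rintro h ⟨x, k, hF, hP⟩
    exact (h x k hF).2.2.2 hP

theorem far_iff (hv : T.Valid r n) {k0 g : G} (hk0 : k0 ∈ T.nK n) (hg : T.In r n g) {p : Fin 3}
    (hp : p ≠ r) (ht : T.Term r n g) : ¬ T.Near r n p g ↔
      ∀ x k, T.Fam r (T.nk n) (T.nu n) x k → x = p ∨ T.NP r (th r x) (k + 1) (k0⁻¹ * g) := by
  constructor
  · intro h x k hF
    by_cases hx : x = p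
    · exact Or.inl hx
    · refine Or.inr ⟨th_ne_left hF.1.symm, (hF.bound hv).2, hg _ hk0, ?_⟩
      rintro ⟨a, a1, a2⟩
      rw [th_th, mul_assoc] at a2
      rw [← eq_th hF.1.symm hp (Ne.symm hx)] at a1
      exact far_term hv hp ht h (g' := g * a⁻¹) (by simpa using a1)
        ((nt_iff hv hk0).2 ⟨x, k, hF, a2⟩)
  · rintro h ⟨g', w', a1, -, a3⟩
    obtain ⟨x, k, hF, hP⟩ := (nt_iff hv hk0).1 ⟨w', a1⟩
    rcases h x k hF with rfl | h
    · obtain ⟨k, rfl⟩ : ∃ k', k = k' + 1 := ⟨k - 1, by have := hF.bound hv; omega⟩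
      refine ht ((nt_iff hv hk0).2 ⟨x, _, hF, ?_⟩)
      simpa [mul_assoc] using hP.mul_right a3
    · by_cases hx : x = p
      · subst hx
        obtain ⟨k, rfl⟩ : ∃ k', k = k' + 1 := ⟨k - 1, by have := hF.bound hv; omega⟩
        refine ht ((nt_iff hv hk0).2 ⟨x, _, hF, ?_⟩)
        simpa [mul_assoc] using hP.mul_right a3
      · refine h.2.2.2 ⟨g'⁻¹ * g, ?_, ?_⟩
        · rwa [← eq_th hF.1.symm hp (Ne.symm hx)]
        · rw [th_th]; simpa [mul_assoc] using hP

variable {α : Type*} [Primcodable α] (E : Eff G α)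

/-- codes of anchors -/
abbrev AC (α : Type*) := α × Option (Fin 3) × List (Fin 3)

/-- codes of judgements -/
abbrev JC (α : Type*) := α × List (Fin 3) × (Fin 3 → AC α)

variable (T)

/-- the rule generating the codes of chambers -/
def TRule (prem : List (JC α)) (j : JC α) : Prop :=
  (E.ev j.1 ∈ T.H T.c ∧ (cx T.N).wordProd j.2.1 = sg T.N T.c ∧
    ∀ r, (r = T.c ∧ app3 j.2.2 r = (j.1, none, j.2.1)) ∨
      (r ≠ T.c ∧ app3 j.2.2 r = (j.1, some T.c, j.2.1))) ∨
  (∃ (j0 : JC α) (p : Fin 3), j0 ∈ prem ∧ ¬ RD T.N ((cx T.N).wordProd j0.2.1) p ∧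
    (E.ev j0.1)⁻¹ * E.ev j.1 ∈ T.H p ∧ T.NP (p + 1) p 0 ((E.ev j0.1)⁻¹ * E.ev j.1) ∧
    (cx T.N).wordProd j.2.1 = (cx T.N).wordProd j0.2.1 * sg T.N p ∧
    (∀ x, x = p ∨ ¬ RD T.N ((cx T.N).wordProd j.2.1) x) ∧
    ∀ r, (r = p ∧ app3 j.2.2 r = (j.1, none, j.2.1)) ∨ (r ≠ p ∧ app3 j.2.2 r = app3 j0.2.2 r)) ∨
  (∃ (j0 : JC α) (r : Fin 3) (a : AC α), j0 ∈ prem ∧ app3 j0.2.2 r = a ∧ app3 j.2.2 r = a ∧
    (E.ev j0.1)⁻¹ * E.ev j.1 ∈ T.V r ∧
    (∀ x k, T.Fam r a.2.1 ((cx T.N).wordProd a.2.2) x k →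
      T.NP r x k ((E.ev a.1)⁻¹ * E.ev j.1)) ∧
    IsTop T.N r ((cx T.N).wordProd a.2.2) ((cx T.N).wordProd j.2.1) ∧
    ∀ p, p = r ∨ (∃ j1 : JC α, j1 ∈ prem ∧ ¬ RD T.N ((cx T.N).wordProd j1.2.1) p ∧
        (E.ev j1.1)⁻¹ * E.ev j.1 ∈ T.H p ∧ app3 j.2.2 (th r p) = app3 j1.2.2 (th r p)) ∨
      ((∀ x k, T.Fam r a.2.1 ((cx T.N).wordProd a.2.2) x k →
        x = p ∨ T.NP r (th r x) (k + 1) ((E.ev a.1)⁻¹ * E.ev j.1)) ∧
        app3 j.2.2 (th r p) = (j.1, some p, j.2.1)))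

/-- a code describes a node -/
def Match (a : AC α) (n : T.Nd) : Prop :=
  E.ev a.1 ∈ T.nK n ∧ a.2.1 = T.nk n ∧ (cx T.N).wordProd a.2.2 = T.nu n

/-- meaning of a judgement -/
def Sem (j : JC α) : Prop :=
  ∃ β, T.Ch (E.ev j.1) ((cx T.N).wordProd j.2.1) β ∧ ∀ r, T.Match E (j.2.2 r) (β r)

variable {T E}

theorem trule_sound {j : JC α} (h : Gen (T.TRule E) j) : T.Sem E j := by
  induction h with
  | mk l j _ hR ih =>
    rcases hR with ⟨a1, a2, a3⟩ | ⟨j0, p, a0, a1, a2, a3, a4, a5, a6⟩ |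
      ⟨j0, r, a, a0, a1, a2, a3, a4, a5, a6⟩
    · refine ⟨_, a2 ▸ Ch.root _ a1, fun r => ?_⟩
      rcases a3 r with ⟨rfl, e⟩ | ⟨hr, e⟩ <;> rw [app3] at e <;> rw [e]
      · rw [update_self]; exact ⟨mem_cos_self _ _, rfl, rfl⟩
      · rw [update_of_ne hr]; exact ⟨by simpa [nK, cos] using a1, rfl, a2⟩
    · obtain ⟨β, b1, b2⟩ := ih j0 a0
      refine ⟨_, a4 ▸ Ch.pan _ _ β p _ b1 a1 a2 a3.2.2.2
        (fun x hx => a4 ▸ (a5 x).resolve_left hx), fun r => ?_⟩
      rcases a6 r with ⟨rfl, e⟩ | ⟨hr, e⟩ <;> simp only [app3] at e <;> rw [e]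
      · rw [update_self]; exact ⟨mem_cos_self _ _, rfl, rfl⟩
      · rw [update_of_ne hr]; exact b2 r
    · obtain ⟨β, b1, b2⟩ := ih j0 a0
      simp only [app3] at a1 a2 a6
      obtain ⟨m1, m2, m3⟩ := a1 ▸ b2 r
      obtain ⟨hv, hin, -⟩ := b1.inv r
      rw [m2, m3] at a4 a6
      rw [m3] at a5
      have ht := (term_iff hv m1 (hin.mul a3)).2 a4
      obtain ⟨β', c1, c2, c3, c4⟩ := mkTop b1 a3 ht a5
        (fun g' w' c1 c2 c3 => exlt _ _ _ _ _ _ _ c1 b1 c2 c3)
      refine ⟨β', c1, fun s => ?_⟩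
      by_cases hs : s = r
      · rw [hs, a2, c2]; exact ⟨m1, m2, m3⟩
      · have hp : th r s ≠ r := th_ne_left (Ne.symm hs)
        rcases (a6 (th r s)).resolve_left hp with ⟨j1, d0, d1, d2, d3⟩ | ⟨d1, d2⟩
        · obtain ⟨β1, e1, e2⟩ := ih j1 d0
          have := c3 _ hp _ _ β1 e1
            (b1.same e1 (mem_trans a3 (mem_symm (T.HV _ _ hp d2)))) d1 d2
          rw [th_th] at this d3
          rw [this, d3]; exact e2 s
        · have := c4 _ hp ((far_iff hv m1 (hin.mul a3) hp ht).2 d1)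
          rw [th_th] at this d2
          rw [this, d2]; exact ⟨mem_cos_self _ _, rfl, rfl⟩

theorem trule_complete {g : G} {w : T.N.Group} {β : Fin 3 → T.Nd} (h : T.Ch g w β) :
    ∃ j : JC α, E.ev j.1 = g ∧ Gen (T.TRule E) j := by
  classical
  obtain ⟨a, rfl⟩ := E.surj g
  obtain ⟨l, rfl⟩ := (cx T.N).wordProd_surjective w
  generalize hg : E.ev a = g at h
  generalize hw : (cx T.N).wordProd l = w at h
  have data : ∀ {g w β}, T.Ch g w β → ∀ j : JC α, E.ev j.1 = g → Gen (T.TRule E) j →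
      (cx T.N).wordProd j.2.1 = w ∧ ∀ r, T.Match E (j.2.2 r) (β r) := by
    intro g w β h j e hj
    obtain ⟨β', b1, b2⟩ := trule_sound hj
    obtain ⟨c1, c2⟩ := (e ▸ b1).func h
    exact ⟨c1, c2 ▸ b2⟩
  induction h generalizing a l with
  | root h hh =>
    refine ⟨(a, l, fun r => if r = T.c then (a, none, l) else (a, some T.c, l)), hg,
      Gen.mk [] _ (by simp) (Or.inl ⟨hg ▸ hh, hw, fun r => ?_⟩)⟩
    by_cases hr : r = T.c <;> simp [hr, app3]
  | pan g w β p g' a0 a1 a2 a3 a4 ih =>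
    obtain ⟨a', ha'⟩ := E.surj g
    obtain ⟨l', hl'⟩ := (cx T.N).wordProd_surjective w
    obtain ⟨j0, e0, h0⟩ := ih a' l' ha' hl'
    obtain ⟨d1, -⟩ := data a0 j0 e0 h0
    refine ⟨(a, l, fun r => if r = p then (a, none, l) else j0.2.2 r), hg,
      Gen.mk [j0] _ (by simpa using h0) (Or.inr (Or.inl ⟨j0, p, by simp, d1 ▸ a1, ?_, ?_,
        by rw [d1, hw], fun x => ?_, fun r => ?_⟩))⟩
    · simpa only [e0, hg] using a2
    · simp only [e0, hg]
      exact ⟨(succ_ne3 p).symm, by omega, T.HV _ _ (succ_ne3 p).symm a2, a3⟩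
    · by_cases hx : x = p
      · exact Or.inl hx
      · exact Or.inr (hw ▸ a4 x hx)
    · by_cases hr : r = p <;> simp [hr, app3]
  | top g0 w0 β0 r g w β gs ws βs a0 a1 a2 a3 a4 a5 a6 a7 ih0 ihs =>
    obtain ⟨a', ha'⟩ := E.surj g0
    obtain ⟨l', hl'⟩ := (cx T.N).wordProd_surjective w0
    obtain ⟨j0, e0, h0⟩ := ih0 a' l' ha' hl'
    obtain ⟨-, d2⟩ := data a0 j0 e0 h0
    obtain ⟨m1, m2, m3⟩ := d2 r
    obtain ⟨hv, hin, -⟩ := a0.inv r
    have : ∀ p, ∃ j1 : JC α, Gen (T.TRule E) j1 ∧ (p ≠ r → T.Near r (β0 r) p g →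
        E.ev j1.1 = gs p ∧ (cx T.N).wordProd j1.2.1 = ws p) := by
      intro p
      by_cases hp : p ≠ r ∧ T.Near r (β0 r) p g
      · obtain ⟨a'', ha''⟩ := E.surj (gs p)
        obtain ⟨l'', hl''⟩ := (cx T.N).wordProd_surjective (ws p)
        obtain ⟨j1, e1, h1⟩ := ihs p hp.1 hp.2 a'' l'' ha'' hl''
        exact ⟨j1, h1, fun _ _ => ⟨e1, (data (a5 p hp.1 hp.2) j1 e1 h1).1⟩⟩
      · exact ⟨j0, h0, fun a b => absurd ⟨a, b⟩ hp⟩
    choose js hjs hjs' using this
    refine ⟨(a, l, fun x => if x = r then j0.2.2 r else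
      if T.Near r (β0 r) (th r x) g then (js (th r x)).2.2 x else (a, some (th r x), l)), hg,
      Gen.mk [j0, js 0, js 1, js 2] _ ?_ (Or.inr (Or.inr ⟨j0, r, j0.2.2 r, by simp, rfl, by simp [app3],
        by simpa only [e0, hg] using a1, ?_, by rwa [m3, hw], fun p => ?_⟩))⟩
    · intro i hi
      simp only [List.mem_cons, List.not_mem_nil, or_false] at hi
      rcases hi with rfl | rfl | rfl | rfl
      · exact h0
      · exact hjs _
      · exact hjs _
      · exact hjs _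
    · simp only [m2, m3, hg]
      exact (term_iff hv m1 (hin.mul a1)).1 a2
    · by_cases hp : p = r
      · exact Or.inl hp
      right
      by_cases hn : T.Near r (β0 r) p g
      · obtain ⟨c1, c2⟩ := hjs' p hp hn
        obtain ⟨-, f2, f3, -⟩ := a6 p hp hn
        refine Or.inl ⟨js p, by fin_cases p <;> simp, c2 ▸ f2, by simpa only [c1, hg] using f3, ?_⟩
        simp only [app3, if_neg (th_ne_left (Ne.symm hp)), th_th, if_pos hn]
      · refine Or.inr ⟨?_, by simp only [app3, if_neg (th_ne_left (Ne.symm hp)), th_th, if_neg hn]⟩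
        simp only [m2, m3, hg]
        exact (far_iff hv m1 (hin.mul a1) hp a2).1 hn

section sig
variable {γ : Type*} [Primcodable γ]

theorem sig_np (hGP : ∀ p r, p ≠ r → GP E (T.V r) T.F (T.H p) (T.H (th r p)) (mu T.N r))
    {r x : γ → Fin 3} {k : γ → ℕ} {φ : γ → G} (hr : Primrec r) (hx : Primrec x) (hk : Primrec k)
    (hφ : EC E φ) : Sig fun y => T.NP (r y) (x y) (k y) (φ y) := by
  obtain ⟨f, hf, e⟩ := hφ
  have h1 : ∀ c : Fin 3 × Fin 3, Sig fun y : α × ℕ => T.NP c.1 c.2 y.2 (E.ev y.1) := by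
    rintro ⟨r, x⟩
    by_cases hx : x = r
    · exact (Sig.const False).of_eq fun y => by simp [NP, hx]
    · exact (Sig.famNat (p := fun k a => E.ev a ∈ T.V r ∧
        ¬ Pr T.F k (T.H x) (T.H (th r x)) (E.ev a)) (mu T.N r)
        fun k hk => ((hGP x r hx).2 k hk).1).of_eq fun y => by simp [NP, hx]
  exact ((Sig.fam h1).comp (f := fun y => ((f y, k y), (r y, x y))) (by fun_prop)).of_eq
    fun y => by simp [e]

theorem sig_allFam {r : γ → Fin 3} {kd : γ → Option (Fin 3)} {u : γ → T.N.Group}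
    {Q : γ → Fin 3 → ℕ → Prop} (hr : Primrec r) (hkd : Primrec kd) (hu : EC (effW T.N) u)
    (hQ : Sig fun y : γ × Fin 3 × ℕ => Q y.1 y.2.1 y.2.2) :
    Sig fun y => ∀ x k, T.Fam (r y) (kd y) (u y) x k → Q y x k := by
  have : Sig fun y => (kd y = none ∧ ∀ x, x = r y ∨ Q y x (mu T.N (r y) - 1)) ∨
      ∃ p j x, kd y = some p ∧ loc T.N (r y) (u y) = j ∧
        x = (bif (mu T.N (r y) - j).bodd then p else th (r y) p) ∧
        (x = r y ∨ Q y x (mu T.N (r y) - j)) :=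
    Sig.or (Sig.and (by fun_prop) (Sig.all_fin (Sig.or (by fun_prop)
      (hQ.comp (f := fun z : γ × Fin 3 => (z.1, z.2, mu T.N (r z.1) - 1)) (by fun_prop)))))
      (Sig.ex (Sig.ex (Sig.ex (Sig.and (by fun_prop) (Sig.and
        (sig_loc (by fun_prop) (by fun_prop) (by fun_prop)) (Sig.and (by fun_prop)
        (Sig.or (by fun_prop) (hQ.comp
          (f := fun z : ((γ × Fin 3) × ℕ) × Fin 3 => (z.1.1.1, z.2, mu T.N (r z.1.1.1) - z.1.2))
          (by fun_prop)))))))))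
  have bo : ∀ (m : ℕ) (a b : Fin 3), (bif m.bodd then a else b) = if Even m then b else a := by
    intro m a b
    have h2 := Nat.mod_two_of_bodd m
    by_cases h : Even m
    · have : m.bodd = false := by
        rw [Nat.even_iff] at h; revert h2; cases m.bodd <;> simp; omega
      simp [h, this]
    · have : m.bodd = true := by
        rw [Nat.even_iff] at h; revert h2; cases m.bodd <;> simp; omega
      simp [h, this]
  refine this.of_eq fun y => ⟨?_, fun h => ?_⟩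
  · rintro (⟨h1, h2⟩ | ⟨p, j, x, h1, rfl, rfl, h4⟩) x k ⟨a1, ⟨a2, rfl⟩ | ⟨q, a2, rfl, a4⟩⟩
    · exact (h2 x).resolve_left a1
    · simp [h1] at a2
    · simp [h1] at a2
    · obtain rfl : p = q := by simpa [h1] using a2
      rw [bo, ← a4] at h4
      exact h4.resolve_left a1
  · cases hk : kd y with
    | none =>
      refine Or.inl ⟨rfl, fun x => ?_⟩
      by_cases hx : x = r y
      · exact Or.inl hx
      · exact Or.inr (h _ _ ⟨hx, Or.inl ⟨hk, rfl⟩⟩)
    | some p =>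
      refine Or.inr ⟨p, _, _, rfl, rfl, rfl, ?_⟩
      rw [or_iff_not_imp_left]
      exact fun hx => h _ _ ⟨hx, Or.inr ⟨p, hk, rfl, bo _ _ _⟩⟩

end sig

theorem sig_trule (hH : ∀ p, RE E (· ∈ T.H p)) (hV : ∀ p, RE E (· ∈ T.V p))
    (hGP : ∀ p r, p ≠ r → GP E (T.V r) T.F (T.H p) (T.H (th r p)) (mu T.N r)) :
    Sig (Gen (T.TRule E)) := by
  have s1 : Primrec fun p : Fin 3 => p + 1 := Primrec.dom_finite _
  refine Sig.gen (Sig.or (Sig.and ((hH _).sig (by fun_prop)) (Sig.and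
    (EC.sig_eq (E := effW T.N) (by fun_prop) (by fun_prop)) (Sig.all_fin (by fun_prop))))
    (Sig.or (Sig.ex (Sig.ex ?_)) (Sig.ex (Sig.ex (Sig.ex ?_)))))
  · exact Sig.and (by fun_prop) (Sig.and (sig_nrd (by fun_prop) (by fun_prop))
      (Sig.and (RE.fam hH (by fun_prop) (by fun_prop))
      (Sig.and (sig_np hGP (s1.comp Primrec.snd) (by fun_prop) (by fun_prop) (by fun_prop))
      (Sig.and (EC.sig_eq (E := effW T.N) (by fun_prop) (by fun_prop))
      (Sig.and (Sig.all_fin (Sig.or (by fun_prop) (sig_nrd (by fun_prop) (by fun_prop))))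
      (Sig.all_fin (by fun_prop)))))))
  · refine Sig.and (by fun_prop) (Sig.and (by fun_prop) (Sig.and (by fun_prop)
      (Sig.and (RE.fam hV (by fun_prop) (by fun_prop))
      (Sig.and (sig_allFam (by fun_prop) (by fun_prop) (by fun_prop)
        (sig_np hGP (by fun_prop) (by fun_prop) (by fun_prop) (by fun_prop)))
      (Sig.and (sig_isTop (by fun_prop) (by fun_prop) (by fun_prop))
      (Sig.all_fin (Sig.or (by fun_prop) (Sig.or (Sig.ex ?_) ?_))))))))
    · exact Sig.and (by fun_prop) (Sig.and (sig_nrd (by fun_prop) (by fun_prop))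
        (Sig.and (RE.fam hH (by fun_prop) (by fun_prop)) (by fun_prop)))
    · exact Sig.and (sig_allFam (by fun_prop) (by fun_prop) (by fun_prop) (Sig.or (by fun_prop)
        (sig_np hGP (by fun_prop) (by fun_prop) (by fun_prop) (by fun_prop)))) (by fun_prop)

/-- The triangle theorem. -/
theorem gp_out (hH : ∀ p, RE E (· ∈ T.H p)) (hV : ∀ p, RE E (· ∈ T.V p))
    (hGP : ∀ p r, p ≠ r → GP E (T.V r) T.F (T.H p) (T.H (th r p)) (mu T.N r))
    {t : Fin 3} (ht : t ≠ T.c) :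
    GP E T.U (T.H T.c) (T.V t) (T.V (th T.c t)) (mu T.N T.c) := by
  have hS := sig_trule hH hV hGP
  have key : ∀ k ≤ mu T.N T.c, ∀ t, t ≠ T.c →
      RE E fun g => g ∈ T.U ∧ ¬ Pr (T.H T.c) k (T.V t) (T.V (th T.c t)) g := by
    intro k
    induction k with
    | zero =>
      intro _ t _
      have : Sig fun a : α => ∃ j : JC α, Gen (T.TRule E) j ∧ E.ev j.1 = E.ev a ∧
          (cx T.N).wordProd j.2.1 ≠ sg T.N T.c :=
        Sig.ex (Sig.and (hS.comp (by fun_prop)) (Sig.and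
          (EC.sig_eq (E := E) (by fun_prop) (by fun_prop)) (sig_neW (by fun_prop) (by fun_prop))))
      refine this.of_eq fun a => ⟨?_, ?_⟩
      · rintro ⟨j, h1, h2, h3⟩
        obtain ⟨β, b1, -⟩ := trule_sound h1
        rw [h2] at b1
        exact ⟨b1.mem, mt b1.mem_base_iff.1 h3⟩
      · rintro ⟨h1, h2⟩
        obtain ⟨w, β, h⟩ := exists_ch h1
        obtain ⟨j, e, hj⟩ := trule_complete (E := E) h
        obtain ⟨β', b1, -⟩ := trule_sound hj
        rw [e] at b1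
        exact ⟨j, hj, e, mt b1.mem_base_iff.2 h2⟩
    | succ k ih =>
      intro hk t ht
      have ht' : th T.c t ≠ T.c := th_ne_left ht.symm
      have h0 := ih (by omega) _ ht'
      rw [th_th] at h0
      have : Sig fun a : α => ∃ j : JC α, Gen (T.TRule E) j ∧ E.ev j.1 = E.ev a ∧
          (E.ev (app3 j.2.2 t).1 ∈ T.U ∧
            ¬ Pr (T.H T.c) k (T.V (th T.c t)) (T.V t) (E.ev (app3 j.2.2 t).1)) :=
        Sig.ex (Sig.and (hS.comp (by fun_prop)) (Sig.and
          (EC.sig_eq (E := E) (by fun_prop) (by fun_prop)) (h0.sig (by fun_prop))))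
      refine this.of_eq fun a => ⟨?_, ?_⟩
      · rintro ⟨j, h1, h2, -, h3⟩
        obtain ⟨β, b1, b2⟩ := trule_sound h1
        rw [h2] at b1
        exact ⟨b1.mem, mt (pr_succ_iff (by omega) ht b1 (b2 t).1).1 h3⟩
      · rintro ⟨h1, h2⟩
        obtain ⟨w, β, h⟩ := exists_ch h1
        obtain ⟨j, e, hj⟩ := trule_complete (E := E) h
        obtain ⟨β', b1, b2⟩ := trule_sound hj
        rw [e] at b1
        refine ⟨j, hj, e, ?_, mt (pr_succ_iff (by omega) ht b1 (b2 t).1).2 h2⟩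
        have := mul_mem h1 (inv_mem (T.VU _ ((b1.inv t).2.1 _ (b2 t).1)))
        simpa [app3] using this
  refine ⟨girth_out ht, fun k hk => ⟨key k hk t ht, ?_⟩⟩
  have := key k hk _ (th_ne_left ht.symm)
  rwa [th_th] at this

end Tri

end Pool.Agent.H10
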