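import Pool.Agent.Lib.helper10.InvD
import Pool.Agent.Lib.helper10.Geo3

/-! The triangle of groups attached to a non-spherical triple of generators. -/

set_option linter.unusedSectionVars false

namespace Pool.Agent.H10

universe u

variable {B : Type u} {M : CoxeterMatrix B} [Fintype B] [DecidableEq B] [Primcodable B]

/-- a triple of generators whose links are under control -/
structure TC (M : CoxeterMatrix B) (U : Set B) where
  τ : Fin 3
  x : Fin 3 → B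
  inj : Function.Injective x
  mem : ∀ r, x r ∈ U
  lk : ∀ r p, p ≠ r → LinkOK M (U \ {x r}) (x (th r p)) (x p) (mu (gN τ) r)
  inv : ∀ r, Inv M (U \ {x r})

namespace TC

variable {U : Set B} (C : TC M U)

/-- edge groups -/
def H (p : Fin 3) : Subgroup (Artin M) := apar M (U \ C.x '' {q | q ≠ p})

/-- face group -/
def F : Subgroup (Artin M) := apar M (U \ C.x '' Set.univ)

variable {C} {r p : Fin 3}

theorem H_eq' (h : p ≠ r) : C.H p = Fv M U (C.x r) (C.x (th r p)) := by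
  have : {q | q ≠ p} = {r, th r p} := by ext q; revert q h; revert r p; decide
  rw [H, this, Set.image_pair]

theorem H_eq (h : p ≠ r) : C.H p = Kv M (U \ {C.x r}) (C.x (th r p)) := by
  rw [H_eq' h]; exact congrArg (apar M) (by ext s; simp [not_or, and_assoc])

theorem F_eq (h : p ≠ r) : C.F = Fv M (U \ {C.x r}) (C.x (th r p)) (C.x p) := by
  have : (Set.univ : Set (Fin 3)) = {r, th r p, p} := by ext q; revert q h; revert r p; decide
  rw [F, this, Set.image_insert_eq, Set.image_pair]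
  exact congrArg (apar M) (by ext s; simp [not_or, and_assoc])

theorem HV (h : p ≠ r) : C.H p ≤ Kv M U (C.x r) := by rw [H_eq' h]; exact fa_le _ _ _

theorem exists_ne (C : TC M U) (i j : B) : ∃ r, i ≠ C.x r ∧ j ≠ C.x r := by
  by_contra hn
  have k : ∀ r, i = C.x r ∨ j = C.x r := fun r => by
    by_contra h; exact hn ⟨r, fun e => h (Or.inl e), fun e => h (Or.inr e)⟩
  have e : ∀ {s : B} {a b : Fin 3}, s = C.x a → s = C.x b → a = b :=
    fun h h' => C.inj (h.symm.trans h')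
  rcases k 0 with h0 | h0 <;> rcases k 1 with h1 | h1 <;> rcases k 2 with h2 | h2 <;>
    first
    | exact absurd (e h0 h1) (by decide)
    | exact absurd (e h0 h2) (by decide)
    | exact absurd (e h1 h2) (by decide)

theorem univ (C : TC M U) (Ω : Type u) (ρ : ∀ r, Kv M U (C.x r) →* Equiv.Perm Ω)
    (hρ : ∀ p q s (hq : p ≠ q) (hs : p ≠ s) h (hh : h ∈ C.H p),
      ρ q ⟨h, HV hq hh⟩ = ρ s ⟨h, HV hs hh⟩) :
    ∃ Φ : apar M U →* Equiv.Perm Ω, ∀ r (v : Kv M U (C.x r)),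
      Φ ⟨v, kv_le _ _ v.2⟩ = ρ r v := by
  classical
  choose f hf _ using fun s => C.exists_ne s s
  let φ : B → Equiv.Perm Ω := fun s => if h : s ∈ U then
    ρ (f s) ⟨gen M s, gen_mem_apar ⟨h, hf s⟩⟩ else 1
  have k : ∀ r s (hs : s ∈ U \ {C.x r}), ρ r ⟨gen M s, gen_mem_apar hs⟩ = φ s := by
    intro r s hs
    simp only [φ, dif_pos hs.1]
    by_cases e : r = f s
    · subst e; rfl
    refine hρ (th r (f s)) r (f s) (th_ne_left e) (th_ne_right e) _ ?_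
    rw [H_eq' (th_ne_left e), th_th]
    exact gen_mem_apar ⟨hs.1, by rintro (h | h); exacts [hs.2 h, hf s h]⟩
  have hφ : BrOn M U φ := by
    intro i hi j hj
    obtain ⟨r, a1, a2⟩ := C.exists_ne i j
    have e : ∀ l : List B, ∀ hl : ∀ c ∈ l, c ∈ U \ {C.x r},
        (l.map φ).prod = ρ r ⟨pos M l, pos_mem_apar hl⟩ := by
      intro l
      induction l with
      | nil => intro _; exact (map_one _).symm
      | cons a l ih =>
        intro hl
        rw [List.map_cons, List.prod_cons, ih fun c hc => hl c (by simp [hc]),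
          ← k r a (hl a (by simp)), ← map_mul]
        congr 1
    have m : ∀ {a b c : B} {n : ℕ}, a ∈ U \ {C.x r} → b ∈ U \ {C.x r} → c ∈ alt a b n →
        c ∈ U \ {C.x r} := fun ha hb hc => by rcases mem_alt hc with rfl | rfl <;> assumption
    rw [e _ fun c => m ⟨hi, a1⟩ ⟨hj, a2⟩, e _ fun c => m ⟨hj, a2⟩ ⟨hi, a1⟩]
    congr 2
    exact (BE.braid i j).pos_eq
  exact ⟨parLift hφ, fun r v => rext_eq_hom hφ Set.sdiff_subset (ρ r) (k r) v⟩

/-- the triangle of groups -/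
def tri (C : TC M U) (c : Fin 3) : Tri (Artin M) where
  N := gN C.τ
  hN := gN_ne _
  no3 := gN_no3 _
  F := C.F
  H := C.H
  V r := Kv M U (C.x r)
  U := apar M U
  c := c
  FH _ := apar_mono (Set.sdiff_subset_sdiff_right (Set.image_mono (Set.subset_univ _)))
  HV _ _ := HV
  VU _ := kv_le _ _
  gen := by
    refine (Subgroup.closure_le _).2 ?_
    rintro _ ⟨s, hs, rfl⟩
    obtain ⟨r, h, -⟩ := C.exists_ne s s
    exact Subgroup.subset_closure (Set.mem_iUnion.2 ⟨r, gen_mem_apar ⟨hs, h⟩⟩)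
  girth p r h := by
    have := (C.lk r p h).1.1
    rwa [H_eq h, H_eq (th_ne_left h.symm), th_th, F_eq h]
  univ := C.univ

theorem gp (C : TC M U) (c : Fin 3) (p r : Fin 3) (h : p ≠ r) : GP (effA M) ((C.tri c).V r)
    (C.tri c).F ((C.tri c).H p) ((C.tri c).H (th r p)) (mu (C.tri c).N r) := by
  have := (C.lk r p h).1
  change GP _ _ C.F (C.H p) (C.H _) _
  rwa [H_eq h, H_eq (th_ne_left h.symm), th_th, F_eq h]

theorem agp (C : TC M U) (h : p ≠ r) : AGP M U (C.x p) (C.x (th r p)) (mu (gN C.τ) r) := by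
  have := Tri.gp_out (T := C.tri r) (fun _ => re_apar _) (fun _ => re_apar _) (C.gp r) h
  change GP _ _ (C.H r) _ _ _ at this
  rw [H_eq' h.symm, th_comm] at this
  exact this

theorem wp (C : TC M U) : WP M U := by
  have h1 := ((C.agp (p := 1) (r := 0) (by decide)).2 0 (Nat.zero_le _)).1
  refine (Sig.or h1 (C.inv 1).wp).of_eq fun w => ⟨?_, fun ⟨a, b⟩ => ?_⟩
  · rintro (⟨a, b⟩ | ⟨a, b⟩)
    · exact ⟨a, fun e => b (by rw [e]; exact one_mem _)⟩
    · exact ⟨kv_le _ _ a, b⟩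
  · by_cases h : (effA M).ev w ∈ Kv M U (C.x 1)
    · exact Or.inr ⟨h, b⟩
    · exact Or.inl ⟨a, fun e => h (fa_le _ _ _ e)⟩

/-- heights -/
noncomputable def geo (C : TC M U) {c t : Fin 3} {z : Fin 3 → ℤ} (hb : Base C.τ c t z) :
    (C.tri c).Geo where
  τ := C.τ
  t := t
  Z := zz C.τ z
  hmu _ := rfl
  mul := zz_mul
  base := (zz_one (τ := C.τ) (z := z)).symm ▸ hb
  nonneg _ _ := zz_nonneg hb.nonneg
  pos h _ _ := zz_pos hb.nonneg fun q hq => (zz_one (τ := C.τ) (z := z)) ▸ h q hq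
  HH p q h e := by
    have : gen M (C.x p) ∈ C.H p := gen_mem_apar ⟨C.mem p, fun ⟨_, a, b⟩ => a (C.inj b)⟩
    exact (mem_of_gen_mem (e this)).2 ⟨p, h, rfl⟩

theorem geo_Z {c t : Fin 3} {z : Fin 3 → ℤ} (hb : Base C.τ c t z) : (C.geo hb).Z 1 = z := zz_one

/-- a panel meets a vertex -/
def Lb (C : TC M U) (u : Vx M) (p : Fin 3) (g : Artin M) : Prop :=
  ∃ h, g⁻¹ * h ∈ C.H p ∧ In U u h

variable {u v w : Vx M} {g g' c : Artin M}

theorem vinv_lb (u : Vx M) : VInv C.H (C.Lb u) :=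
  fun _ _ _ e ⟨h, a, b⟩ => ⟨h, mem_trans (mem_symm e) a, b⟩

theorem Lb.mt (h : C.Lb u p g) (hr : p ≠ r) : Mt U (C.x r, g) u :=
  let ⟨z, a, b⟩ := h; ⟨z, HV hr a, b⟩

theorem lb_of (hr : p ≠ r) (h1 : Mt U (C.x r, g) u) (h2 : Mt U (C.x (th r p), g) u) :
    C.Lb u p g := by
  obtain ⟨z, a, b, d⟩ := flag3 (mt_same (C.x r) (C.x (th r p)) g) h1 h2
  exact ⟨z, by rw [H_eq' hr]; exact mem_fab a b, d⟩

theorem lb_in (h : In U u g) (p : Fin 3) : C.Lb u p g := ⟨g, by simp, h⟩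

/-- passage to the link -/
theorem Lb.loc (h : C.Lb u p g) (hr : p ≠ r) {y : Artin M} (h1 : In U u y)
    (h2 : g⁻¹ * y ∈ Kv M U (C.x r)) : Mt (U \ {C.x r}) (C.x (th r p), g) (u.1, y) :=
  Mt.loc (u := (C.x (th r p), g)) (h.mt (th_ne_right hr.symm).symm) (In.self _) h1 h2

theorem lb_glob (hr : p ≠ r) {y : Artin M} (h1 : In U u y)
    (h : Mt (U \ {C.x r}) (C.x (th r p), g) (u.1, y)) : C.Lb u p g :=
  lb_of hr ⟨y, h.co, h1⟩ (h.glob' Set.sdiff_subset h1)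

theorem ep_loc {Gd : Fin 3 → Artin M → Prop} {s : Fin 3} {σ : Artin M} {m : ℕ} (hr : p ≠ r)
    (h : EP C.F C.H Gd s σ m p (th r p) c) : EP (Fv M (U \ {C.x r}) (C.x (th r p)) (C.x p))
      (Kv M (U \ {C.x r})) Tv (C.x (th r s)) σ m (C.x (th r p)) (C.x p) c := by
  have := h.map (K' := Kv M (U \ {C.x r})) (Gd' := Tv) (fun a => C.x (th r a)) (H_eq hr)
    (H_eq (th_ne_left hr.symm)) (fun _ _ => trivial) (fun _ _ => trivial)
  rwa [F_eq hr, th_th] at this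

theorem pp_loc {Gd : Fin 3 → Artin M → Prop} {s : Fin 3} {σ : Artin M} {m : ℕ} (hr : p ≠ r)
    (h : PP C.F C.H Gd s σ m p (th r p) c) : PP (Fv M (U \ {C.x r}) (C.x (th r p)) (C.x p))
      (Kv M (U \ {C.x r})) (fun b x => ∃ a, a ≠ r ∧ b = C.x (th r a) ∧ Gd a x)
      (C.x (th r s)) σ m (C.x (th r p)) (C.x p) c := by
  have := h.map (K' := Kv M (U \ {C.x r}))
    (Gd' := fun b x => ∃ a, a ≠ r ∧ b = C.x (th r a) ∧ Gd a x) (fun a => C.x (th r a)) (H_eq hr)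
    (H_eq (th_ne_left hr.symm)) (fun _ h => ⟨_, hr, rfl, h⟩)
    (fun _ h => ⟨_, th_ne_left hr.symm, rfl, h⟩)
  rwa [F_eq hr, th_th] at this

theorem loc2 {s : B} (h1 : Mt U (s, c) u) (h2 : Mt U (s, c) v) (h : Mt U u v) :
    ∃ y, c⁻¹ * y ∈ Kv M U s ∧ In U u y ∧ In U v y := by
  obtain ⟨y, a, b, d⟩ := flag3 h1 h2 h
  exact ⟨y, a, b, d⟩

theorem lc_aux (huv : Mt U u v) (ht : u.1 = v.1 ∨ Ge M 3 u.1 v.1) {s : Fin 3} {σ : Artin M} {m : ℕ}
    (hr : p ≠ r) (h : EP C.F C.H Tv s σ m p (th r p) c) (hm : m + 1 < mu (gN C.τ) r)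
    (h1 : C.Lb v s σ) (h2 : C.Lb u p c) :
    (C.Lb u (th r p) c ∧ C.Lb u r c) ∨ (C.Lb v (th r p) c ∧ C.Lb v r c) := by
  have hs : s ≠ r := by rcases h.start with rfl | rfl; exacts [hr, th_ne_left hr.symm]
  have e : σ⁻¹ * c ∈ Kv M U (C.x r) := h.mem (HV hr) (HV (th_ne_left hr.symm))
  obtain ⟨y, a1, a2, a3⟩ := loc2 (h2.mt hr) ((h1.mt hs).cg e) huv
  obtain ⟨b1, b2, b3, -⟩ := C.lk r p hr
  have fin : ∀ {u : Vx M}, In U u y → Mt (U \ {C.x r}) (C.x (th r p), c) (u.1, y) →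
      Mt (U \ {C.x r}) (C.x p, c) (u.1, y) → C.Lb u (th r p) c ∧ C.Lb u r c := by
    intro u k1 k2 k3
    refine ⟨lb_glob (th_ne_left hr.symm) k1 (by rwa [th_th]), lb_of hr.symm
      (k3.glob' Set.sdiff_subset k1) ?_⟩
    rw [th_comm]; exact k2.glob' Set.sdiff_subset k1
  have l1 := h1.loc hs a3 (mem_trans e a1)
  have l2 := h2.loc hr a2 a1
  rcases b3 (u.1, y) (v.1, y) ht (mt_same _ _ _) _ _ _ _ (ep_loc hr h) (by omega) l1 l2 with k | k
  · exact Or.inr (fin a3 k (conv b2 b1.1 (ep_loc hr h) hm l1 k))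
  · exact Or.inl (fin a2 l2 k)

theorem lc (c0 : Fin 3) (huv : Mt U u v) (ht : u.1 = v.1 ∨ Ge M 3 u.1 v.1) :
    (C.tri c0).LC fun p g => C.Lb u p g ∨ C.Lb v p g := by
  intro r s σ m p c _ hr h hm h1 h2
  have k : ∀ {a b : Prop} {a' b' : Prop}, (a ∧ a') ∨ (b ∧ b') → (a ∨ b) ∧ (a' ∨ b') := by tauto
  rcases h1 with h1 | h1 <;> rcases h2 with h2 | h2
  · exact k (Or.inl ((lc_aux (Mt.refl u) (Or.inl rfl) hr h hm h1 h2).elim id id))
  · exact k (lc_aux huv.symm (ht.imp Eq.symm Ge.symm) hr h hm h1 h2).symm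
  · exact k (lc_aux huv ht hr h hm h1 h2)
  · exact k (Or.inr ((lc_aux (Mt.refl v) (Or.inl rfl) hr h hm h1 h2).elim id id))

theorem rch_of {c0 : Fin 3} {Lab Zs : Fin 3 → Artin M → Prop} (hL : ∀ p g, C.Lb u p g → Lab p g)
    {y : Artin M} {r0 : Fin 3} (h1 : In U u y) (h2 : (C.tri c0).Rch Lab Zs r0 y)
    (h : Mt U (C.x r, g) u) : (C.tri c0).Rch Lab Zs r g := by
  have k : ∀ y r0, In U u y → (C.tri c0).Rch Lab Zs r0 y → ∀ r, (C.tri c0).Rch Lab Zs r y := by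
    intro y r0 a b r
    by_cases e : r0 = r
    · exact e ▸ b
    have := b.step r0 (th r0 r) y (th_ne_left e) (hL _ _ (lb_in a _))
    rwa [th_th] at this
  have st : ∀ a ∈ Kv M U u.1, ∀ b ∈ Kv M U u.1, ∀ r1, b ∈ Kv M U (C.x r1) →
      (∀ r, (C.tri c0).Rch Lab Zs r (y * a)) → ∀ r, (C.tri c0).Rch Lab Zs r (y * (a * b)) :=
    fun a ha b hb r1 hb' ih => k _ r1 (h1.mul (by simpa using mul_mem ha hb))
      ((ih r1).congr _ _ _ (show _ ∈ Kv M U _ by simpa [mul_assoc] using hb'))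
  obtain ⟨z, a, b⟩ := h
  have := apar_induction (P := fun a => ∀ r, (C.tri c0).Rch Lab Zs r (y * a)) (h1.div b)
    (by simpa using k y r0 h1 h2) (fun a ha i hi => by
      obtain ⟨r1, e, -⟩ := C.exists_ne i i
      exact st a ha _ (gen_mem_apar hi) r1 (gen_mem_apar ⟨hi.1, e⟩)) (fun a ha i hi => by
      obtain ⟨r1, e, -⟩ := C.exists_ne i i
      exact st a ha _ (inv_mem (gen_mem_apar hi)) r1 (inv_mem (gen_mem_apar ⟨hi.1, e⟩)))
  exact (this r).congr _ _ _ (show _ ∈ Kv M U _ by simpa using mem_symm a)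

/-- anchors of vertices in the union of two shadows -/
theorem su {c0 : Fin 3} (X : (C.tri c0).Geo) (huv : Mt U u v) (ht : u.1 = v.1 ∨ Ge M 3 u.1 v.1)
    (h0 : Mt U (C.x X.t, 1) u) (hb : X.Z 1 (th X.t c0) = 0 ∨ C.Lb u c0 1)
    (h : Mt U (C.x r, g) u ∨ Mt U (C.x r, g) v) :
    X.SS (fun p g => C.Lb u p g ∨ C.Lb v p g) r g := by
  refine Tri.Geo.ss_of_rch (lc c0 huv ht) (fun _ _ _ e h => h.imp (vinv_lb _ _ _ _ e)
    (vinv_lb _ _ _ _ e)) (hb.imp id Or.inl) ?_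
  obtain ⟨y, a, b⟩ := h0
  have k : ∀ {r g}, Mt U (C.x r, g) u →
      (C.tri c0).Rch (fun p g => C.Lb u p g ∨ C.Lb v p g) X.Z0 r g :=
    rch_of (fun _ _ => Or.inl) b (.base _ _ ⟨rfl, show _ ∈ Kv M U _ by simpa [In] using a⟩)
  rcases h with h | h
  · exact k h
  · obtain ⟨z, a', b'⟩ := huv
    exact rch_of (fun _ _ => Or.inr) b' (k (a'.mt (C.x 0))) h

end TC

end Pool.Agent.H10
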