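import Pool.Agent.Lib.helper10.TriA

/-! Short cycles in the coset complex of a group containing a non-spherical triple. -/

set_option linter.unusedSectionVars false

namespace Pool.Agent.H10

universe u

variable {B : Type u} {M : CoxeterMatrix B} [Fintype B] [DecidableEq B] [Primcodable B]
variable {U : Set B} {u v w u1 u2 e0 e1 e2 : Vx M}

theorem unloc {Y : Set B} (hY : Y ⊆ U) {y y' : Artin M} (h1 : In U u y) (h2 : In U v y')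
    (h : Mt Y (u.1, y) (v.1, y')) : Mt U u v := h1.mt_iff.1 (h.glob' hY h2)

theorem TPc.loc (h : TPc U u1 v u2) {Y : Set B} (hY : Y ⊆ U) {y1 y0 y2 : Artin M}
    (a1 : In U u1 y1) (a0 : In U v y0) (a2 : In U u2 y2) (e : y1⁻¹ * y0 ∈ apar M Y)
    (e' : y0⁻¹ * y2 ∈ apar M Y) : TPc Y (u1.1, y1) (v.1, y0) (u2.1, y2) :=
  ⟨h.1, h.2.1, h.2.2.1.loc a1 a0 e, h.2.2.2.1.loc a0 a2 e', fun k => h.2.2.2.2 (unloc hY a1 a2 k)⟩

theorem mt_tr' {s : B} {g : Artin M} (k : Artin M) :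
    Mt U (s, k⁻¹ * g) (tr k⁻¹ u) ↔ Mt U (s, g) u := mt_tr (p := (s, g)) k⁻¹

theorem mt_tr1 {s : B} {k : Artin M} : Mt U (s, 1) (tr k⁻¹ u) ↔ Mt U (s, k) u := by
  rw [← mt_tr' (g := k) k, inv_mul_cancel]

theorem Mt.memU {s : B} (h : Mt U (s, 1) u) : u.2 ∈ apar M U := by simpa using h.co

theorem Mt.memU' (h : Mt U u v) (hu : u.2 ∈ apar M U) : v.2 ∈ apar M U := by
  simpa using mul_mem hu h.co

/-- pentagons have chords -/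
def Five (M : CoxeterMatrix B) (U : Set B) : Prop :=
  ∀ e0 e1 e2 u v : Vx M, TPc U e0 e1 e2 → Mt U u v → Ge M 3 u.1 v.1 → Mt U e0 v → Mt U e2 u →
    Mt U e2 v ∨ Mt U e1 u

theorem Inv.five (h : Inv M U) : Five M U := by
  rintro e0 e1 e2 u v ⟨a1, a2, ⟨x1, a3, a3'⟩, ⟨x2, a4, a4'⟩, a5⟩ huv hge h0 h2
  rcases cv3_of (fun y hy z hz hab => (h.ag y z 3 ⟨hab, hy, hz, Or.inl rfl⟩).2) h.g3 a2 u v
    (Or.inr hge) huv e0.1 e0.2 1 x2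
    (ep_one a3 (a3'.div a4) fun h => a5 (a4'.mt_iff.1 (a1 ▸ h.symm)).symm) le_rfl h0
    (a1 ▸ a4'.mt_iff.2 h2) with k | k
  · exact Or.inl (a4'.mt_iff.1 (a1 ▸ k))
  · exact Or.inr (a4.mt_iff.1 k)

theorem tpc_of_ep {a b s : B} {σ c : Artin M} (hab : Ge M 3 a b)
    (e : EP (Fv M U a b) (Kv M U) Tv s σ 1 a b c) : s = a ∧ TPc U (a, σ) (b, c) (a, c) := by
  obtain ⟨-, c', b1, b2, rfl, b3⟩ := e
  refine ⟨rfl, rfl, hab, ⟨c', b3, mem_symm b1⟩, mt_same _ _ _, fun h => b2 (mem_fab ?_ b1)⟩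
  exact mem_symm (h.in_of rfl b3)

theorem Five.cv (hG : G3 M U) (h : Five M U) {a b : B} (hab : Ge M 3 a b) : CV M U a b 2 := by
  intro u v huv hm s σ m c e hk h1 h2
  rcases huv with huv | huv
  · exact Or.inl (hm.trans_eq huv h2.symm).symm
  obtain rfl | rfl : m = 0 ∨ m = 1 := by omega
  · exact hG.os_one (Or.inl hab) hm s σ 0 c e le_rfl h1 h2
  · obtain ⟨rfl, k⟩ := tpc_of_ep hab e
    exact h _ _ _ _ _ k hm huv h1 h2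

namespace TC

variable {C : TC M U} {c0 r p t : Fin 3} {g c : Artin M} {X : (C.tri c0).Geo}
  {L L' : Fin 3 → Artin M → Prop}

theorem tpc_lb (h : TPc U u1 v u2) (hp : p ≠ r) (hv : Mt U (C.x r, g) v) (h1 : C.Lb u1 p g)
    (h2 : C.Lb u2 p g) : C.Lb v p g := by
  obtain ⟨y1, a1, b1⟩ := h1.mt hp
  obtain ⟨y2, a2, b2⟩ := h2.mt hp
  obtain ⟨y0, a0, b0⟩ := hv
  exact lb_glob hp b0 ((C.inv r).g3.tpc (h.loc Set.sdiff_subset b1 b0 b2 (a1.div a0) (a0.div a2))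
    (h1.loc hp b1 a1).symm (h2.loc hp b2 a2).symm).symm

/-- analysis of a corner -/
theorem sc (huv : Mt U u v) (hL : ∀ y k, c⁻¹ * k ∈ Kv M U (C.x r) → y ≠ r → L y k →
      C.Lb v y k ∨ (C.Lb u1 y k ∧ TPc U u1 v u)) (hs : X.SS L r c) (hv : Mt U (C.x r, c) v)
    (hu : C.Lb u p c) (hl : X.Lw r p c) : C.Lb v p c ∨
      ∃ y k, k⁻¹ * c ∈ Kv M U (C.x r) ∧ C.Lb u y k ∧ C.Lb v y k ∧ X.Gd r y k := by
  obtain ⟨y, k, m, a1, a2, -, a4, a5, a6, a7⟩ := Tri.Geo.corner hs hl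
  replace a1 : c⁻¹ * k ∈ Kv M U (C.x r) := a1
  have hr : p ≠ r := hl.2.1
  obtain ⟨y0, b1, b2, b3⟩ := loc2 (hu.mt hr) hv huv
  have c1 := (C.lk r p hr).2.2.2 m a6
  have c2 := (C.lk r _ (th_ne_left hr.symm)).2.2.2 m a6
  rw [th_th] at c2
  have l2 := hu.loc hr b2 b1
  have e0 := mem_trans (mem_symm a1) b1
  have key : (C.Lb u y k ∧ C.Lb v y k) ∨ Mt (U \ {C.x r}) (C.x (th r p), c) (v.1, y0) ∨
      ∃ t c', (∃ a, a ≠ r ∧ t = C.x (th r a) ∧ X.Gd r a c') ∧ Mt (U \ {C.x r}) (t, c') (u.1, y0) ∧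
        Mt (U \ {C.x r}) (t, c') (v.1, y0) := by
    rcases hL y k a1 a2 a4 with d | ⟨d, d'⟩
    · exact (os_ex (c1.1 _ _ (mt_same _ _ _)) (c2.1 _ _ (mt_same _ _ _)) (pp_loc hr a5) le_rfl
        (d.loc a2 b3 e0) l2).imp_left fun h => ⟨lb_glob a2 b2 h, d⟩
    · obtain ⟨y1, f1, f2⟩ := d.mt a2
      have f3 := d'.loc (Y := U \ {C.x r}) Set.sdiff_subset f2 b3 b2 (mem_trans (mem_symm f1) e0)
        (by simp)
      exact (os_ex (c1.2 _ _ _ f3) (c2.2 _ _ _ f3) (pp_loc hr a5) le_rfl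
        (d.loc a2 f2 f1) l2).imp_left fun h =>
          ⟨lb_glob a2 b2 h, tpc_lb d' a2 (hv.cg a1) d (lb_glob a2 b2 h)⟩
  rcases key with ⟨d1, d2⟩ | d | ⟨_, c', ⟨a, d1, rfl, d2⟩, d3, d4⟩
  · rcases a7 with rfl | a7
    · obtain ⟨rfl, e⟩ := a5
      exact Or.inl (vinv_lb _ _ _ _ e d2)
    · exact Or.inr ⟨y, k, mem_symm a1, d1, d2, a7⟩
  · exact Or.inl (lb_glob hr b3 d)
  · exact Or.inr ⟨a, c', mem_trans d3.co (mem_symm b1), lb_glob d1 b2 d3, lb_glob d1 b3 d4, d2⟩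

theorem mg (huv : Mt U u v) (hL : ∀ y k, L y k → C.Lb v y k ∨ (C.Lb u1 y k ∧ TPc U u1 v u))
    (hs : ∀ r c, Mt U (C.x r, c) v → X.SS L r c) (hU : v.2 ∈ apar M U) (h : Mt U (C.x r, g) u) :
    Mt U (C.x r, g) v ∨ ∃ p c, c⁻¹ * g ∈ Kv M U (C.x r) ∧ C.Lb u p c ∧ X.Gd r p c := by
  have hc : (C.tri c0).LC (C.Lb u) := by
    simpa only [or_self] using lc (C := C) c0 (Mt.refl u) (Or.inl rfl)
  obtain ⟨y, a, b⟩ := id huv
  refine (Tri.Geo.push (X := X) (Zs := fun r c => Mt U (C.x r, c) u ∧ Mt U (C.x r, c) v) hc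
    (vinv_lb u) (fun _ _ _ e h => ⟨h.1.cg e, h.2.cg e⟩) (fun _ _ h => h.2.symm.memU' hU) ?_
    (rch_of (r0 := 0) (fun _ _ => id) a (.base _ _ ⟨a.mt _, b.mt _⟩) h)).imp_left And.right
  intro r p c h1 h2 h3
  have hp := (th_ne_right h3.2.1.symm).symm
  rcases sc huv (fun y k _ _ => hL y k) (hs r c h1.2) h1.2 h2 h3 with d | ⟨y, k, d1, d2, d3, d4⟩
  · exact Or.inl ⟨h2.mt hp, d.mt hp⟩
  · have hy := (th_ne_right d4.2.1.symm).symm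
    exact Or.inr ⟨y, k, d1, d2, d4, d2.mt hy, d3.mt hy⟩

theorem mg1 (huv : Mt U u v) (h0 : Mt U (C.x X.t, 1) v)
    (hb : X.Z 1 (th X.t c0) = 0 ∨ C.Lb v c0 1) (h : Mt U (C.x r, g) u) :
    Mt U (C.x r, g) v ∨ ∃ p c, c⁻¹ * g ∈ Kv M U (C.x r) ∧ C.Lb u p c ∧ X.Gd r p c :=
  mg (u1 := u) huv (fun _ _ h => Or.inl (h.elim id id))
    (fun _ _ k => su X (Mt.refl v) (Or.inl rfl) h0 hb (Or.inl k)) h0.memU h

theorem mg2 (ht : TPc U u1 v u) (h0 : Mt U (C.x X.t, 1) u1)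
    (hb : X.Z 1 (th X.t c0) = 0 ∨ C.Lb u1 c0 1) (h : Mt U (C.x r, g) u) :
    Mt U (C.x r, g) v ∨ ∃ p c, c⁻¹ * g ∈ Kv M U (C.x r) ∧ C.Lb u p c ∧ X.Gd r p c :=
  mg ht.2.2.2.1.symm (fun _ _ h => h.symm.imp_right (⟨·, ht⟩))
    (fun _ _ k => su X ht.2.2.1 (Or.inr ht.2.1) h0 hb (Or.inr k)) (ht.2.2.1.memU' h0.memU) h

theorem exists_min (X : (C.tri c0).Geo) {P : Fin 3 → Artin M → Prop} (h : ∃ r g, P r g) :
    ∃ r g, P r g ∧ ∀ r' g', P r' g' → X.ht r g ≤ X.ht r' g' := by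
  obtain ⟨_, ⟨r, g, a, rfl⟩, b⟩ := Int.exists_least_of_bdd (P := fun n => ∃ r g, P r g ∧
    X.ht r g = n) ⟨0, by rintro _ ⟨r, g, -, rfl⟩; exact Tri.Geo.ht_nonneg⟩
    (let ⟨r, g, a⟩ := h; ⟨_, r, g, a, rfl⟩)
  exact ⟨r, g, a, fun r' g' e => b _ ⟨r', g', e, rfl⟩⟩

theorem low (X : (C.tri c0).Geo) (huv : Mt U u v) (hU : u.2 ∈ apar M U) :
    ∃ r g, g ∈ apar M U ∧ Mt U (C.x r, g) u ∧ Mt U (C.x r, g) v ∧ ∀ y k,
      g⁻¹ * k ∈ Kv M U (C.x r) → X.Gd r y k → Mt U (C.x (th r y), k) u →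
        ¬ Mt U (C.x (th r y), k) v := by
  obtain ⟨r, g, ⟨a1, a2⟩, b⟩ := exists_min X
    (P := fun r g => Mt U (C.x r, g) u ∧ Mt U (C.x r, g) v)
    (let ⟨y, a, b⟩ := huv; ⟨0, y, a.mt _, b.mt _⟩)
  have hg := a1.symm.memU' hU
  refine ⟨r, g, hg, a1, a2, fun y k e h1 h2 h3 => (b _ _ ⟨h2, h3⟩).not_gt ?_⟩
  rw [← Tri.Geo.ht_congr (X := X) hg e]; exact h1.2.2

theorem low_ss (hg : g ∈ apar M U) (h1 : X.SS L r g) (h2 : X.SS L' r g) :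
    (∀ u, Mt U (C.x X.t, 1) u → Mt U (C.x r, g) u) ∨
      ∃ y k, g⁻¹ * k ∈ Kv M U (C.x r) ∧ X.Gd r y k ∧ L y k ∧ L' y k := by
  rcases Tri.Geo.exists_low (X := X) (r := r) hg with ⟨rfl, h⟩ | ⟨y, k, a, b⟩
  · exact Or.inl fun u k => k.cg (by simpa using show g ∈ Kv M U _ from h)
  have e := (Tri.Geo.anc_pa hg a.1).1
  have k1 : ∀ {L}, X.SS L r g → L y k := fun h => h.elim (fun h => by
    have h1 := b.2.2
    rw [Tri.Geo.ht_congr (X := X) hg e, h.2] at h1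
    exact absurd Tri.Geo.ht_nonneg h1.not_ge) fun h => h y k a
  exact Or.inr ⟨y, k, e, b, k1 h1, k1 h2⟩

theorem Lb.back {y : Fin 3} {k : Artin M} (h : C.Lb u y k) (e : g⁻¹ * k ∈ Kv M U (C.x r))
    (b : X.Gd r y k) : Mt U (C.x r, g) u := (h.mt b.2.1).cg (mem_symm e)

theorem Lb.down {y : Fin 3} {k : Artin M} (h : C.Lb u y k) (b : X.Gd r y k) :
    Mt U (C.x (th r y), k) u := h.mt (th_ne_right b.2.1.symm).symm

/-- heights based at a vertex -/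
noncomputable def gv (C : TC M U) (h : t ≠ c0) : (C.tri c0).Geo := C.geo (base_gB h)

theorem gv_Z (h : t ≠ c0) {P : Prop} : (C.gv h).Z 1 (th (C.gv h).t c0) = 0 ∨ P :=
  Or.inl ((congrFun (geo_Z _) _).trans (gB_th h))

theorem tpc' (h : TPc U u1 v u2) (h1 : Mt U (C.x t, g) u1) (h2 : Mt U (C.x t, g) u2) :
    Mt U (C.x t, g) v := by
  rw [← mt_tr1] at h1 h2 ⊢
  have ht := (succ_ne3 t).symm
  rcases mg2 (X := C.gv ht) (h.tr g⁻¹) h1 (gv_Z ht) h2 with d | ⟨p, c, d1, -, d3⟩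
  · exact d
  · exact (Tri.Geo.not_lw_base ⟨rfl, show _ ∈ Kv M U (C.x t) by simpa using inv_mem d1⟩
      d3.lw).elim

theorem four (C : TC M U) {v1 v2 : Vx M} (e1 : u1.1 = u2.1) (e2 : v1.1 = v2.1)
    (hge : Ge M 3 u1.1 v1.1) (h11 : Mt U u1 v1) (h12 : Mt U u1 v2) (h21 : Mt U u2 v1)
    (h22 : Mt U u2 v2) : Mt U u1 u2 ∨ Mt U v1 v2 := by
  obtain ⟨x, x1, x2⟩ := id h11
  rw [← mt_tr x⁻¹] at h11 h12 h21 h22
  rw [← mt_tr x⁻¹, ← mt_tr (p := v1) x⁻¹]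
  have z1 := mt_tr1.2 (x1.mt (C.x 0))
  have z2 := mt_tr1.2 (x2.mt (C.x 0))
  rw [← tr_fst x⁻¹ u1, ← tr_fst x⁻¹ v1] at hge
  rw [← tr_fst x⁻¹ u1, ← tr_fst x⁻¹ u2] at e1
  rw [← tr_fst x⁻¹ v1, ← tr_fst x⁻¹ v2] at e2
  generalize tr x⁻¹ u1 = u1, tr x⁻¹ u2 = u2, tr x⁻¹ v1 = v1, tr x⁻¹ v2 = v2 at *
  by_contra hn
  rw [not_or] at hn
  have t1 : TPc U u1 v1 u2 := ⟨e1, hge, h11, h21.symm, hn.1⟩
  have t2 : TPc U v1 u1 v2 := ⟨e2, hge.symm, h11.symm, h12, hn.2⟩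
  have ht : (0 : Fin 3) ≠ 1 := by decide
  obtain ⟨r, q, hq, a1, a2, a3⟩ := low (C.gv ht) h22 (h21.symm.memU' z2.memU)
  have : Mt U (C.x r, q) u1 ∧ Mt U (C.x r, q) v1 := by
    rcases low_ss hq (su (C.gv ht) h21.symm (Or.inr (e1 ▸ hge).symm) z2 (gv_Z ht) (Or.inr a1))
      (su (C.gv ht) h12 (Or.inr (e2 ▸ hge)) z1 (gv_Z ht) (Or.inr a2)) with
      b | ⟨y, k, b1, b2, b3 | b3, b4 | b4⟩
    · exact ⟨b _ z1, b _ z2⟩
    · exact ⟨b4.back b1 b2, b3.back b1 b2⟩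
    · exact ⟨tpc' t2 (b3.back b1 b2) a2, b3.back b1 b2⟩
    · exact ⟨b4.back b1 b2, tpc' t1 (b4.back b1 b2) a1⟩
    · exact absurd (b4.down b2) (a3 y k b1 b2 (b3.down b2))
  obtain ⟨⟨y1, c1, d1⟩, ⟨w1, f1, g1⟩⟩ := this
  obtain ⟨y2, c2, d2⟩ := a1
  obtain ⟨w2, f2, g2⟩ := a2
  rcases (C.inv r).g3.P (c1 := (u1.1, y1)) (c2 := (u2.1, y2)) (w := (v1.1, w1)) (w' := (v2.1, w2))
    e1 hge (h11.loc d1 g1 (c1.div f1)) (h21.loc d2 g1 (c2.div f1)) (h12.loc d1 g2 (c1.div f2))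
    (h22.loc d2 g2 (c2.div f2)) with k | k
  · exact hn.1 (unloc Set.sdiff_subset d1 d2 k)
  · exact hn.2 (unloc Set.sdiff_subset g1 g2 k)

theorem g3 (C : TC M U) : G3 M U := by
  have k : ∀ a b, Ge M 3 a b → ∀ x11 x12 x21 x22 : Artin M, Rl M (U \ {a}) x11 x12 →
      Rl M (U \ {a}) x21 x22 → Rl M (U \ {b}) x11 x21 → Rl M (U \ {b}) x12 x22 →
      Rl M (U \ {a}) x11 x21 ∨ Rl M (U \ {b}) x11 x12 := fun a b h x11 x12 x21 x22 h1 h2 h3 h4 =>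
    (C.four (u1 := (a, x11)) (u2 := (a, x21)) (v1 := (b, x11)) (v2 := (b, x12)) rfl rfl h
      (mt_same _ _ _) ⟨x12, h1, In.self _⟩ ⟨x21, In.self _, h3⟩ ⟨x22, h2, h4⟩).imp
      (fun h => h.symm.in_of rfl (In.self _)) (fun h => h.symm.in_of rfl (In.self _))
  intro a b h
  refine girth_of_star (fa_le U a b) (fb_le U a b) fun i g h1 h2 => ?_
  interval_cases i
  · exact ⟨star_one, by rw [Set.pair_comm]; exact star_one⟩
  · exact ⟨star_two (k a b h), by rw [Set.pair_comm]; exact star_two (k b a h.symm)⟩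

theorem lemY (ht : TPc U e0 e1 e2) (h0 : Mt U e0 v) (a : Mt U (C.x t, 1) e2)
    (b : Mt U (C.x t, 1) v) : Mt U e1 v ∨ ∃ r q, Mt U (C.x r, q) v ∧ Mt U (C.x r, q) e0 ∧
      Mt U (C.x r, q) e1 ∧ Mt U (C.x r, q) e2 := by
  have hc := (succ_ne3 t).symm
  obtain ⟨r, q, hq, a1, a2, a3⟩ := low (C.gv hc) ht.2.2.1 (h0.symm.memU' b.memU)
  have s1 := fun {r q} h => su (r := r) (g := q) (C.gv hc) ht.2.2.2.1.symm
    (Or.inr ht.symm.2.1) a (gv_Z hc) (Or.inr h)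
  rcases mg1 (X := C.gv hc) h0 b (gv_Z hc) a1 with d | ⟨p, c, d1, d2, d3⟩
  · rcases low_ss hq (su (C.gv hc) (Mt.refl v) (Or.inl rfl) b (gv_Z hc) (Or.inl d)) (s1 a2) with
      b | ⟨y, k, b1, b2, b3, b4 | b4⟩
    · exact Or.inr ⟨r, q, d, a1, a2, b _ a⟩
    · exact Or.inr ⟨r, q, d, a1, a2, b4.back b1 b2⟩
    · exact Or.inl ((C.g3.Q (s := e1) (t := e0) ht.2.1.symm ((b3.elim id id).down b2) h0.symm
        ht.2.2.1 (b4.down b2).symm).resolve_right fun h => a3 y k b1 b2 h.symm (b4.down b2))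
  · have a4 := a2.cg (mem_symm d1)
    rcases sc ht.2.2.1 (fun y k _ _ h => h.symm.imp_right (⟨·, ht.symm⟩)) (s1 a4) a4 d2 d3.lw with
      f | ⟨y, k, f1, f2, f3, f4⟩
    · exact absurd (f.down d3) (a3 p c (mem_symm d1) d3 (d2.down d3))
    · exact absurd (f3.down f4) (a3 y k (mem_symm (mem_trans f1 d1)) f4 (f2.down f4))

theorem lemX (ht : TPc U e0 e1 e2) (huv : Mt U u v) (hge : Ge M 3 u.1 v.1) (h0 : Mt U e0 v)
    (h2 : Mt U e2 u) (a : Mt U (C.x t, 1) e0) (b : Mt U (C.x t, 1) v) (n1 : ¬ Mt U e1 u)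
    (n2 : ¬ Mt U e0 u) : ∃ r q, Mt U (C.x r, q) e2 ∧ Mt U (C.x r, q) v := by
  have hc := (succ_ne3 t).symm
  obtain ⟨r, q, hq, a1, a2, a3⟩ := low (C.gv hc) h2 (h2.symm.memU' (huv.symm.memU' b.memU))
  refine ⟨r, q, a1, ?_⟩
  by_contra hn
  have s1 := fun {r q} h => su (r := r) (g := q) (C.gv hc) huv.symm
    (Or.inr hge.symm) b (gv_Z hc) (Or.inr h)
  rcases mg2 (X := C.gv hc) ht a (gv_Z hc) a1 with d | ⟨p, c, d1, d2, d3⟩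
  · rcases low_ss hq (su (C.gv hc) ht.2.2.1 (Or.inr ht.2.1) a (gv_Z hc) (Or.inr d)) (s1 a2) with
      b' | ⟨y, k, b1, b2, b3, b4 | b4⟩
    · exact hn (b' _ b)
    · exact hn (b4.back b1 b2)
    rcases b3 with b3 | b3
    · rcases C.g3.Q (s := u) (t := v) hge (b3.back b1 b2) h0 huv.symm a2.symm with f | f
      · exact n2 f.symm
      · exact hn f.symm
    · rcases C.g3.Q (s := e1) (t := e2) ht.symm.2.1.symm (b4.down b2) h2.symm ht.2.2.2.1.symm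
        (b3.down b2).symm with f | f
      · exact n1 f
      · exact a3 y k b1 b2 f.symm (b4.down b2)
  · have a4 := a2.cg (mem_symm d1)
    rcases sc (u1 := u) h2 (fun y k e hy h => Or.inl (h.resolve_left fun f =>
      hn ((f.mt hy).cg (mem_trans (mem_symm e) d1)))) (s1 a4) a4 d2 d3.lw with
      f | ⟨y, k, f1, f2, f3, f4⟩
    · exact a3 p c (mem_symm d1) d3 (d2.down d3) (f.down d3)
    · exact a3 y k (mem_symm (mem_trans f1 d1)) f4 (f2.down f4) (f3.down f4)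

theorem five (C : TC M U) : Five M U := by
  intro e0 e1 e2 u v ht huv hge h0 h2
  by_contra hn
  rw [not_or] at hn
  have n2 : ¬ Mt U e0 u := fun h => hn.2 (C.g3.tpc ht h h2)
  have n3 : ¬ Mt U e1 v := fun h => (C.g3.Q (s := v) (t := u) hge.symm ht.2.2.2.1 h2 huv
    h.symm).elim (fun k => hn.1 k.symm) fun k => hn.2 k.symm
  obtain ⟨x, x1, x2⟩ := id h0
  obtain ⟨t, g, a1, a2⟩ := lemX (C := C) (t := 0) (ht.tr x⁻¹) (huv.tr _) hge (h0.tr _) (h2.tr _)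
    (mt_tr1.2 (x1.mt _)) (mt_tr1.2 (x2.mt _)) (mt (mt_tr _).1 hn.2) (mt (mt_tr _).1 n2)
  rw [← inv_mul_cancel_left x g, mt_tr'] at a1 a2
  rcases lemY (ht.tr (x * g)⁻¹) (h0.tr _) (mt_tr1.2 a1) (mt_tr1.2 a2) with
    b | ⟨r, q, b1, b2, b3, b4⟩
  · exact n3 ((mt_tr _).1 b)
  rw [← inv_mul_cancel_left (x * g) q, mt_tr'] at b1 b2 b3 b4
  generalize x * g * q = q at *
  obtain ⟨y5, c5, d5⟩ := ((C.g3.Q (s := v) (t := u) hge.symm b4 h2 huv b1.symm).resolve_left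
    fun k => hn.1 k.symm).symm
  obtain ⟨y1, c1, d1⟩ := b1
  obtain ⟨y2, c2, d2⟩ := b2
  obtain ⟨y3, c3, d3⟩ := b3
  obtain ⟨y4, c4, d4⟩ := b4
  rcases (C.inv r).five _ _ _ (u.1, y5) (v.1, y1)
    (ht.loc Set.sdiff_subset d2 d3 d4 (c2.div c3) (c3.div c4)) (huv.loc d5 d1 (c5.div c1)) hge
    (h0.loc d2 d1 (c2.div c1)) (h2.loc d4 d5 (c4.div c5)) with k | k
  · exact hn.1 (unloc Set.sdiff_subset d4 d1 k)
  · exact hn.2 (unloc Set.sdiff_subset d3 d5 k)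

theorem cv (C : TC M U) (h : p ≠ r) :
    CV M U (C.x p) (C.x (th r p)) (mu (gN C.τ) r - 1) := by
  intro u v ht huv s σ m c e hm h1 h2
  obtain ⟨x, a1, a2⟩ := h1
  obtain ⟨j, -, b1, b2⟩ := e.altZ' (K := Kv M U) (fa_le _ _ _) (fb_le _ _ _) a1
  have k := mt_tr1 (s := C.x (gT C.τ r)).2 (a2.mt _)
  have b3 : AltZ (C.H r) j (Kv M U (C.x (th r p))) (Kv M U (C.x p)) (x⁻¹ * c) := by
    rwa [H_eq' h.symm, th_comm p]
  have := Tri.Geo.lab_of_altZ (X := C.geo (base_gB' C.τ r))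
    (fun q hq => (geo_Z (base_gB' C.τ r)).symm ▸ gB'_pos _ _ _ hq)
    (fun _ _ _ e h => Or.imp (vinv_lb _ _ _ _ e) (vinv_lb _ _ _ _ e) h)
    (show j < mu (gN C.τ) r by omega) h b3
    (su (C.geo (base_gB' C.τ r)) (huv.symm.tr x⁻¹) (ht.imp Eq.symm Ge.symm) k
      (Or.inr (lb_in (by simpa [In, tr] using mem_symm (mem_symm a2)) _))
      (Or.inr ((mt_tr' x).2 h2)))
  exact this.imp (fun k => (mt_tr' x).1 (k.mt h.symm))
    fun k => (mt_tr' x).1 (k.mt (th_ne_left h.symm).symm)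

theorem six (C : TC M U) (h : C.τ = 2) (ht : t ≠ 0) :
    GC M U (C.x t) (C.x (th 0 t)) 2 ∧ TP M U (C.x t) (C.x (th 0 t)) 2 := by
  have hge : Ge M 3 (C.x t) (C.x (th 0 t)) := (C.lk 0 t ht).2.1.symm.mono (by rw [h]; decide)
  have key : ∀ {u w : Vx M} {s σ c}, EP (Fv M U (C.x t) (C.x (th 0 t))) (Kv M U) Tv s σ 1 (C.x t)
      (C.x (th 0 t)) c → (∀ k, σ⁻¹ * k ∈ Kv M U s → s = C.x t →
        Mt U (C.x t, k⁻¹ * c) (tr k⁻¹ w) ∨ ∃ p c1, c1⁻¹ * (k⁻¹ * c) ∈ Kv M U (C.x t) ∧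
        C.Lb (tr k⁻¹ u) p c1 ∧ (C.gv ht).Gd t p c1) →
      Mt U (C.x t, c) w ∨ Mt U (C.x (th 0 t), c) u := by
    rintro u w s σ c ⟨-, c', b1, -, b2, b3⟩ hk
    rcases hk c' (b2 ▸ b3) b2 with d | ⟨p, c1, d1, d2, d3⟩
    · exact Or.inl ((mt_tr' _).1 d)
    obtain ⟨rfl, d4⟩ := Tri.Geo.low236 (X := C.gv ht) h rfl
      ((geo_Z (base_gB ht)).trans (by rw [h]; rfl))
      (show c'⁻¹ * c ∈ Kv M U (C.x (th t 0)) by rwa [th_comm]) (mem_symm d1) d3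
    exact Or.inr ((mt_tr' _).1 ((vinv_lb _ _ _ _ (mem_symm d4) d2).mt (th_ne_left ht.symm).symm))
  refine ⟨fun u v huv s σ m c e hm h1 h2 => ?_, fun w0 w1 w2 hw s σ m c e hm h1 h2 => ?_⟩ <;>
    obtain rfl | rfl : m = 0 ∨ m = 1 := by omega
  · exact C.g3.os_one (Or.inl hge) huv s σ 0 c e le_rfl h1 h2
  · exact key e fun k a b => mg1 (X := C.gv ht) (huv.tr _) (mt_tr1.2 (b ▸ h1.cg a)) (gv_Z ht)
      ((mt_tr' _).2 h2)
  · exact tp_one (fun a b => C.five.cv C.g3) hge _ _ _ hw s σ 0 c e le_rfl h1 h2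
  · exact key e fun k a b => mg2 (X := C.gv ht) (hw.tr _) (mt_tr1.2 (b ▸ h1.cg a)) (gv_Z ht)
      ((mt_tr' _).2 h2)

end TC

end Pool.Agent.H10
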