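import Pool.Agent.Lib.helper10.PathK

/-! Cosets of maximal standard parabolic subgroups: retraction, convexity. -/

set_option linter.unusedSectionVars false

namespace Pool.Agent.H10

open CoxeterSystem List

variable {B : Type*} {M : CoxeterMatrix B}

theorem BE.hasAlt' {a b : B} (hab : a ≠ b) {k : ℕ} (hk : M a b = 0 ∨ k ≤ M a b) {l l' : List B}
    (h : BE M l l') (hl : HasAlt a b k l) : HasAlt a b k l' := by
  refine h.inv (P := HasAlt a b k) ?_ hl
  have key : ∀ a b : B, a ≠ b → (M a b = 0 ∨ k ≤ M a b) → ∀ x y i j,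
      alt a b k <+ x ++ alt i j (M i j) ++ y → HasAlt a b k (x ++ alt j i (M i j) ++ y) := by
    intro a b hab hk x y i j h
    obtain ⟨s1, s2, s3, e, h1, h2, h3⟩ := sublist_split h
    by_cases hs : s2.length ≤ 1
    · exact Or.inl (e ▸ (h1.append (short_sublist h2 hs)).append h3)
    · have hc : s2.IsChain (· ≠ ·) := (e ▸ isChain_alt hab k).left_of_append.right_of_append
      match s2, hs, hc, e, h2 with
      | [], hs, _, _, _ => simp at hs
      | [_], hs, _, _, _ => simp at hs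
      | u :: v :: s, _, hc, e, h2 =>
        have huv : u ≠ v := (isChain_cons_cons.1 hc).1
        have a1 : u = a ∨ u = b := mem_alt (n := k) (by rw [e]; simp)
        have a2 : v = a ∨ v = b := mem_alt (n := k) (by rw [e]; simp)
        have sub : alt j i (M i j) <+ x ++ alt j i (M i j) ++ y :=
          (sublist_append_right _ _).trans (sublist_append_left _ _)
        have hl := h2.length_le
        simp only [length_cons, length_alt] at hl
        have : (i = a ∧ j = b) ∨ (i = b ∧ j = a) := by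
          rcases pair_of_sublist h2 huv with ⟨rfl, rfl⟩ | ⟨rfl, rfl⟩ <;>
          rcases a1 with rfl | rfl <;> rcases a2 with rfl | rfl <;> simp_all
        rcases this with ⟨rfl, rfl⟩ | ⟨rfl, rfl⟩
        · exact HasAlt.mono (Or.inr sub) (by omega)
        · rw [M.symmetric j i] at hk; exact HasAlt.mono (Or.inl sub) (by omega)
  intro x y i j h
  rcases h with h | h
  · exact key a b hab hk x y i j h
  · exact (key b a hab.symm (M.symmetric a b ▸ hk) x y i j h).symm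

variable [Fintype B] [DecidableEq B]

theorem red_mul_par {P : Set B} {l : List B} (hl : (cx M).IsReduced l) {ω : M.Group}
    (h : ω ∈ par (cx M) P) : ∃ l1 m1, l1 <+ l ∧ (∀ c ∈ m1, c ∈ P) ∧ (cx M).IsReduced (l1 ++ m1) ∧
      (cx M).wordProd (l1 ++ m1) = (cx M).wordProd l * ω := by
  refine par_induction (cx M) (P := fun ω => ∃ l1 m1, l1 <+ l ∧ (∀ c ∈ m1, c ∈ P) ∧
    (cx M).IsReduced (l1 ++ m1) ∧ (cx M).wordProd (l1 ++ m1) = (cx M).wordProd l * ω) h
    ⟨l, [], Sublist.refl _, by simp, by simpa using hl, by simp⟩ ?_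
  rintro ω - i hi ⟨l1, m1, a1, a2, a3, a4⟩
  by_cases hd : (cx M).IsRightDescent ((cx M).wordProd (l1 ++ m1)) i
  · obtain ⟨x, y, z, e1, e2⟩ := exchange_right _ hd
    have e3 : (cx M).wordProd (x ++ z) = (cx M).wordProd (l1 ++ m1) * (cx M).simple i := by
      rw [e1, wordProd_append, wordProd_append, wordProd_cons, e2]; simp [mul_assoc]
    have e4 := (cx M).isRightDescent_iff.1 hd
    have s : x ++ z <+ l1 ++ m1 := e1 ▸ (Sublist.refl x).append (sublist_cons_self _ _)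
    obtain ⟨l2, m2, e5, b1, b2⟩ := sublist_append_iff.1 s
    refine ⟨l2, m2, b1.trans a1, fun c hc => a2 c (b2.subset hc), ?_, by
      rw [← e5, e3, a4, mul_assoc]⟩
    rw [← e5]
    unfold CoxeterSystem.IsReduced
    rw [a3.eq, e1] at e4
    rw [e3, e1]
    simp at e4 ⊢; omega
  · refine ⟨l1, m1 ++ [i], a1, ?_, ?_, ?_⟩
    · intro c hc
      rcases List.mem_append.1 hc with hc | hc
      · exact a2 c hc
      · rw [List.mem_singleton.1 hc]; exact hi
    · rw [← List.append_assoc]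
      exact red_append _ (by simp [(cx M).not_isRightDescent_iff.1 hd, a3.eq])
    · rw [← List.append_assoc, wordProd_append, a4]; simp [mul_assoc]

theorem red_of_pr {F P Q : Set B} {t t' : B} (hne : t ≠ t') (h1 : t ∉ F) (h2 : t' ∉ F) (h3 : t ∉ P)
    (h4 : t' ∉ Q) {n : ℕ} {u : M.Group} (h : Pr (par (cx M) F) n (par (cx M) P) (par (cx M) Q) u) :
    ∃ l, (cx M).IsReduced l ∧ (cx M).wordProd l = u ∧ ¬ HasAlt t t' (n + 1) l := by
  induction n generalizing P Q t t' u with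
  | zero =>
    obtain ⟨l, a1, a2, a3⟩ := exists_red_par _ h
    refine ⟨l, a2, a3.symm, ?_⟩
    rintro (h | h)
    · exact h1 (a1 _ (h.subset (by simp [alt])))
    · exact h2 (a1 _ (h.subset (by simp [alt])))
  | succ n ih =>
    obtain ⟨ω, a1, a2⟩ := h
    obtain ⟨l, b1, b2, b3⟩ := ih hne.symm h2 h1 h4 h3 a2
    obtain ⟨l1, m1, c1, c2, c3, c4⟩ := red_mul_par b1 a1
    refine ⟨_, c3, by rw [c4, b2]; simp, not_hasAlt_append hne (fun h => b3 ?_)
      fun h => h3 (c2 _ h)⟩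
    exact (h.imp (·.trans c1) (·.trans c1)).symm

theorem ract_sub {Y Q : Set B} (x : RSt M Y (Artin M)) {h : Artin M} (hh : h ∈ apar M Q) :
    x.1⁻¹ * (ract (brOn_gen' Y) x h).1 ∈
        apar M {t | t ∈ Y ∧ x.2.1⁻¹ * (cx M).simple t * x.2.1 ∈ par (cx M) Q} ∧
      x.2.1⁻¹ * (ract (brOn_gen' Y) x h).2.1 ∈ par (cx M) Q := by
  set D := {t | t ∈ Y ∧ x.2.1⁻¹ * (cx M).simple t * x.2.1 ∈ par (cx M) Q} with hD
  have key : ∀ (ψ : B → Artin M) (_ : ∀ t ∈ D, ψ t ∈ apar M D) (y : RSt M Y (Artin M))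
      (s : B), s ∈ Q → x.1⁻¹ * y.1 ∈ apar M D ∧ x.2.1⁻¹ * y.2.1 ∈ par (cx M) Q →
      x.1⁻¹ * (rstep M Y ψ s y).1 ∈ apar M D ∧ x.2.1⁻¹ * (rstep M Y ψ s y).2.1 ∈ par (cx M) Q := by
    rintro ψ hψ y s hs ⟨h1, h2⟩
    by_cases h : ∃ t, Em M Y y.2.1 s t
    · obtain ⟨t, ht⟩ := h
      rw [rstep_em ht, ← mul_assoc]
      refine ⟨mul_mem h1 (hψ t ⟨ht.1, ?_⟩), h2⟩
      have : (cx M).simple t = y.2.1 * (cx M).simple s * y.2.1⁻¹ := by rw [ht.2]; simp
      have e := mul_mem (mul_mem h2 (simple_mem_par _ hs)) (inv_mem h2)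
      rw [this]
      rwa [show x.2.1⁻¹ * y.2.1 * (cx M).simple s * (x.2.1⁻¹ * y.2.1)⁻¹ =
        x.2.1⁻¹ * (y.2.1 * (cx M).simple s * y.2.1⁻¹) * x.2.1 by group] at e
    · rw [rstep_not h, ← mul_assoc]
      exact ⟨h1, mul_mem h2 (simple_mem_par _ hs)⟩
  refine apar_induction (P := fun g => x.1⁻¹ * (ract (brOn_gen' Y) x g).1 ∈ apar M D ∧
    x.2.1⁻¹ * (ract (brOn_gen' Y) x g).2.1 ∈ par (cx M) Q) hh (by simp) ?_ ?_
  · intro g _ i hi ih
    rw [ract_mul, ract_gen]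
    exact key _ (fun t ht => gen_mem_apar ht) _ _ hi ih
  · intro g _ i hi ih
    rw [ract_mul, ract_gen_inv]
    exact key _ (fun t ht => inv_mem (gen_mem_apar ht)) _ _ hi ih

theorem ract_pr {Y F P Q : Set B} {n : ℕ} {g : Artin M}
    (h : Pr (apar M F) n (apar M P) (apar M Q) g) :
    Pr (par (cx M) F) n (par (cx M) P) (par (cx M) Q) (ract (brOn_gen' Y) rinit g).2.1 := by
  induction n generalizing P Q g with
  | zero => simpa [rinit, Pr] using (ract_sub (Y := Y) rinit h).2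
  | succ n ih =>
    obtain ⟨k, a1, a2⟩ := h
    have := (ract_sub (ract (brOn_gen' Y) rinit (g * k⁻¹)) a1).2
    rw [← ract_mul, inv_mul_cancel_right] at this
    exact ⟨_, this, by simpa using ih a2⟩

/-- labels at least `n` -/
def Ge (M : CoxeterMatrix B) (n : ℕ) (s t : B) : Prop := s ≠ t ∧ (M s t = 0 ∨ n ≤ M s t)

omit [Fintype B] [DecidableEq B] in
theorem Ge.symm {n : ℕ} {s t : B} (h : Ge M n s t) : Ge M n t s :=
  ⟨h.1.symm, M.symmetric s t ▸ h.2⟩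

omit [Fintype B] [DecidableEq B] in
theorem Ge.mono {n n' : ℕ} {s t : B} (h : Ge M n s t) (hn : n' ≤ n) : Ge M n' s t :=
  ⟨h.1, h.2.imp_right hn.trans⟩

theorem retr_pr_aux {Y F P Q : Set B} {t t' : B} {n : ℕ} (hge : Ge M (n + 2) t t') (h1 : t ∉ F)
    (h2 : t' ∉ F) (h3 : t ∉ P) (h4 : t' ∉ Q) (u : {u : M.Group // LMin M Y u})
    (b : Pr (par (cx M) F) n (par (cx M) P) (par (cx M) Q) u.1) {k : Artin M}
    (a : k ∈ apar M {t | t ∈ Y ∧ u.1⁻¹ * (cx M).simple t * u.1 ∈ par (cx M) Q}) :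
    k ∈ apar M {t}ᶜ ∨ k ∈ apar M {t'}ᶜ := by
  by_contra hc
  rw [not_or] at hc
  have key : ∀ s, k ∉ apar M {s}ᶜ → s ∈ Y ∧ u.1⁻¹ * (cx M).simple s * u.1 ∈ par (cx M) Q := by
    intro s hs
    by_contra hn
    have : {t | t ∈ Y ∧ u.1⁻¹ * (cx M).simple t * u.1 ∈ par (cx M) Q} ⊆ {s}ᶜ := by
      rintro c hc rfl
      exact hn hc
    exact hs (apar_mono this a)
  obtain ⟨c1, c2⟩ := key t hc.1
  obtain ⟨c3, c4⟩ := key t' hc.2
  have m : ∀ l : List B, (∀ c ∈ l, c = t ∨ c = t') →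
      u.1⁻¹ * (cx M).wordProd l * u.1 ∈ par (cx M) Q := by
    intro l
    induction l with
    | nil => simp
    | cons a l ih =>
      intro hl
      have e : u.1⁻¹ * (cx M).wordProd (a :: l) * u.1 =
          (u.1⁻¹ * (cx M).simple a * u.1) * (u.1⁻¹ * (cx M).wordProd l * u.1) := by
        rw [wordProd_cons]; group
      rw [e]
      refine mul_mem ?_ (ih fun c hc => hl c (by simp [hc]))
      rcases hl a (by simp) with rfl | rfl <;> assumption
  have d : Pr (par (cx M) F) (n + 1) (par (cx M) Q) (par (cx M) P)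
      ((cx M).wordProd (alt t t' (n + 2)) * u.1) :=
    ⟨_, m (alt t t' (n + 2)) fun c hc => mem_alt hc, by
      rwa [show (cx M).wordProd (alt t t' (n + 2)) * u.1 *
        (u.1⁻¹ * (cx M).wordProd (alt t t' (n + 2)) * u.1)⁻¹ = u.1 by group]⟩
  obtain ⟨l, f1, f2, f3⟩ := red_of_pr hge.1.symm h2 h1 h4 h3 d
  obtain ⟨ν, hν, e⟩ := (cx M).exists_isReduced u.1
  have r := red_alt (cx M) hge.1 hge.2
  have r2 : (cx M).IsReduced (alt t t' (n + 2) ++ ν) := red_append _ (by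
    rw [← e, length_mul_min_left (cx M) u.2 (wordProd_mem_par _ fun c hc => by
      rcases mem_alt hc with rfl | rfl <;> assumption), r.eq, e, hν.eq])
  exact f3 ((matsumoto _ r2 f1 (by rw [f2, wordProd_append, e])).hasAlt' hge.1 hge.2
    (Or.inl (sublist_append_left _ _))).symm

/-- the retraction lemma -/
theorem retr_pr {Y F P Q : Set B} {t t' : B} {n : ℕ} (hge : Ge M (n + 2) t t') (h1 : t ∉ F)
    (h2 : t' ∉ F) (h3 : t ∉ P) (h4 : t' ∉ Q) {g h : Artin M}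
    (hg : Pr (apar M F) n (apar M P) (apar M Q) g) (hh : h ∈ apar M Q) :
    (retr Y g)⁻¹ * retr Y (g * h) ∈ apar M {t}ᶜ ∨ (retr Y g)⁻¹ * retr Y (g * h) ∈ apar M {t'}ᶜ := by
  have a0 := (ract_sub (ract (brOn_gen' Y) rinit g) hh).1
  rw [← ract_mul] at a0
  exact retr_pr_aux hge h1 h2 h3 h4 _ (ract_pr hg) a0

/-- vertices -/
abbrev Vx (M : CoxeterMatrix B) := B × Artin M

/-- maximal standard parabolic subgroups -/
abbrev Kv (M : CoxeterMatrix B) (U : Set B) (s : B) : Subgroup (Artin M) := apar M (U \ {s})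

/-- corank two standard parabolic subgroups -/
abbrev Fv (M : CoxeterMatrix B) (U : Set B) (y z : B) : Subgroup (Artin M) := apar M (U \ {y, z})

/-- a chamber contains a vertex -/
def In (U : Set B) (p : Vx M) (x : Artin M) : Prop := p.2⁻¹ * x ∈ Kv M U p.1

/-- adjacent or equal vertices -/
def Mt (U : Set B) (p q : Vx M) : Prop := ∃ x, In U p x ∧ In U q x

variable {U : Set B} {p q u v w : Vx M} {x y z : Artin M}

theorem fv_comm (U : Set B) (y z : B) : Fv M U y z = Fv M U z y := by rw [Fv, Set.pair_comm]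

theorem In.self (p : Vx M) : In U p p.2 := by simp [In]
theorem Mt.refl (p : Vx M) : Mt U p p := ⟨_, In.self p, In.self p⟩
theorem Mt.symm (h : Mt U p q) : Mt U q p := let ⟨x, a, b⟩ := h; ⟨x, b, a⟩
theorem In.div (h : In U p x) (h' : In U p y) : x⁻¹ * y ∈ Kv M U p.1 := mem_trans (mem_symm h) h'
theorem In.mul (h : In U p x) (h' : x⁻¹ * y ∈ Kv M U p.1) : In U p y := mem_trans h h'
theorem Mt.in_of (h : Mt U p q) (e : p.1 = q.1) (hx : In U p x) : In U q x :=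
  let ⟨_, a, b⟩ := h; b.mul (e ▸ a.div hx)
theorem Mt.trans_eq (h : Mt U p q) (e : p.1 = q.1) (h' : Mt U p u) : Mt U q u :=
  let ⟨x, a, b⟩ := h'; ⟨x, h.in_of e a, b⟩
theorem In.mt (h : In U p x) (t : B) : Mt U (t, x) p := ⟨x, In.self _, h⟩
theorem Mt.cg {s : B} (h : Mt U (s, x) p) (e : x⁻¹ * y ∈ Kv M U s) : Mt U (s, y) p :=
  Mt.trans_eq (p := (s, x)) ⟨y, e, In.self _⟩ rfl h
theorem In.mt_iff (h : In U p x) : Mt U (p.1, x) q ↔ Mt U p q :=
  ⟨fun h' => h'.cg (mem_symm h), fun h' => Mt.cg (s := p.1) (x := p.2) h' h⟩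
theorem mt_same (s t : B) (x : Artin M) : Mt U (s, x) (t, x) := ⟨x, In.self _, In.self _⟩

/-- retraction onto the coset `x A_Y` -/
noncomputable def rt (Y : Set B) (x z : Artin M) : Artin M := x * retr Y (x⁻¹ * z)

theorem rt_mem (Y : Set B) (x z : Artin M) : x⁻¹ * rt Y x z ∈ apar M Y := by
  simpa [rt] using retr_mem' Y _

theorem rt_eq {Y : Set B} (h : x⁻¹ * y ∈ apar M Y) (z : Artin M) : rt Y x z = rt Y y z := by
  have : x⁻¹ * z = (x⁻¹ * y) * (y⁻¹ * z) := by group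
  rw [rt, rt, this, retr_mul h]; group

theorem rt_mem' {Y Q : Set B} (h : x⁻¹ * z ∈ apar M Q) : x⁻¹ * rt Y x z ∈ apar M Q := by
  simpa [rt] using apar_mono Set.inter_subset_right (retr_mem (T := Y) h)

theorem rt_in {Y : Set B} (h : In U u x) (hz : In U u z) : In U u (rt Y x z) :=
  h.mul (rt_mem' (h.div hz))

theorem ret_in (p : Vx M) (z : Artin M) : In U p (rt (U \ {p.1}) p.2 z) := rt_mem _ _ _

theorem ret_in' (h : Mt U p u) (hz : In U u z) : In U u (rt (U \ {p.1}) p.2 z) := by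
  obtain ⟨x, a, b⟩ := h
  rw [rt_eq a]; exact rt_in b hz

theorem flag3 (h1 : Mt U p u) (h2 : Mt U p v) (h3 : Mt U u v) :
    ∃ z, In U p z ∧ In U u z ∧ In U v z :=
  let ⟨z, a, b⟩ := h3; ⟨_, ret_in p z, ret_in' h1 a, ret_in' h2 b⟩

theorem mt_iff (u v : Vx M) : Mt U u v ↔ In U v (rt (U \ {u.1}) u.2 v.2) :=
  ⟨fun h => ret_in' h (In.self _), fun h => ⟨_, ret_in _ _, h⟩⟩

theorem Mt.loc {Y : Set B} (h : Mt U u v) (h1 : In U u x) (h2 : In U v y)
    (e : x⁻¹ * y ∈ apar M Y) : Mt Y (u.1, x) (v.1, y) := by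
  obtain ⟨z, a, b⟩ := h
  have k : ∀ s, Y ∩ (U \ {s}) ⊆ Y \ {s} := fun s c hc => ⟨hc.1, hc.2.2⟩
  refine ⟨rt Y x z, apar_mono (k _) (mem_apar_inter (rt_mem _ _ _) (h1.div (rt_in h1 a))), ?_⟩
  rw [rt_eq e]
  exact apar_mono (k _) (mem_apar_inter (rt_mem _ _ _) (h2.div (rt_in h2 b)))

theorem kv_mono {Y : Set B} (h : Y ⊆ U) (s : B) : Kv M Y s ≤ Kv M U s :=
  apar_mono (Set.sdiff_subset_sdiff_left h)

theorem kv_le (U : Set B) (s : B) : Kv M U s ≤ apar M U := apar_mono Set.sdiff_subset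

theorem Mt.glob {Y : Set B} (hY : Y ⊆ U) (h : Mt Y p q) : Mt U p q :=
  let ⟨z, a, b⟩ := h; ⟨z, kv_mono hY _ a, kv_mono hY _ b⟩

theorem Mt.glob' {Y : Set B} (hY : Y ⊆ U) (h : Mt Y p (u.1, x)) (hu : In U u x) : Mt U p u :=
  (hu.mt_iff.1 (h.glob hY).symm).symm

theorem Mt.co (h : Mt U p q) : p.2⁻¹ * q.2 ∈ apar M U :=
  let ⟨_, a, b⟩ := h; mem_trans (kv_le _ _ a) (mem_symm (kv_le _ _ b))

omit [Fintype B] [DecidableEq B] in
theorem sub_diff {K : Set B} {s : B} (h : s ∉ K) (hU : K ⊆ U) : K ⊆ U \ {s} :=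
  fun _ hc => ⟨hU hc, fun e => h (Set.mem_singleton_iff.1 e ▸ hc)⟩

theorem mt_univ (h : p.1 ∉ U) (e : p.2⁻¹ * q.2 ∈ apar M U) : Mt U p q :=
  ⟨q.2, apar_mono (sub_diff h subset_rfl) e, In.self _⟩

theorem rt_pr {Y : Set B} {y z : B} {n : ℕ} (hge : Ge M (n + 2) y z) {x c c' : Artin M}
    (h : Pr (Fv M U y z) n (Kv M U y) (Kv M U z) (x⁻¹ * c')) (h' : c'⁻¹ * c ∈ Kv M U z) :
    (rt Y x c')⁻¹ * rt Y x c ∈ Kv M U y ∨ (rt Y x c')⁻¹ * rt Y x c ∈ Kv M U z := by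
  have a := retr_pr (Y := Y) hge (by simp) (by simp) (by simp) (by simp) h h'
  have m1 : x⁻¹ * c' ∈ apar M U := h.mem (apar_mono Set.sdiff_subset) (kv_le _ _) (kv_le _ _)
  have m2 := mem_trans (mem_symm (rt_mem' (Y := Y) m1))
    (rt_mem' (Y := Y) (mem_trans m1 (kv_le _ _ h')))
  have e : (rt Y x c')⁻¹ * rt Y x c = (retr Y (x⁻¹ * c'))⁻¹ * retr Y (x⁻¹ * c' * (c'⁻¹ * c)) := by
    simp [rt, mul_assoc]
  rw [← e] at a
  exact a.imp (mem_apar_inter m2) (mem_apar_inter m2)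

theorem vinv_mt (u : Vx M) : VInv (Kv M U) fun s c => Mt U (s, c) u := fun _ _ _ e h => h.cg e

theorem EP.pr {G ι : Type*} [Group G] {F : Subgroup G} {K : ι → Subgroup G} {Gd : ι → G → Prop}
    {s t t' : ι} {σ c x : G} {m : ℕ} (hF : F ≤ K t) (hF' : F ≤ K t') (h : EP F K Gd s σ m t t' c)
    (hx : σ⁻¹ * x ∈ K s) : Pr F (m + 1) (K t') (K t) (x⁻¹ * c) := by
  obtain ⟨j, -, a2, a3⟩ := h.altZ' hF hF' hx
  exact a3.pr.mono hF' hF a2

/-- the retraction of a path is a walk -/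
theorem rt_walk {y z s t t' : B} {σ c : Artin M} {m : ℕ} {Gd : B → Artin M → Prop}
    (hge : Ge M (m + 2) y z) (ht : (t = y ∧ t' = z) ∨ (t = z ∧ t' = y))
    (h : EP (Fv M U y z) (Kv M U) Gd s σ m t t' c) (h1 : In U (s, σ) x) (h2 : In U u x) :
    ∃ a, RW (Fv M U y z) (Kv M U) (fun s c => Mt U (s, c) u) s σ y z m a (rt (U \ {u.1}) x c) := by
  induction m generalizing t t' c with
  | zero =>
    obtain ⟨rfl, b⟩ := h
    have e : In U (s, σ) (rt (U \ {u.1}) x c) := rt_in h1 b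
    exact ⟨s, RW.congr (RW.zero (ht.symm.imp And.right And.right)) e⟩
  | succ m ih =>
    obtain ⟨-, c', b1, -, b3⟩ := h
    obtain ⟨a, ha⟩ := ih (hge.mono (by omega)) (ht.symm.imp And.symm And.symm) b3
    have k := (h2.mul (rt_mem _ x c')).mt a
    have st := fun a' ha' => RW.step (t' := a') (vinv_mt u) (fa_le U y z) (fb_le U y z) ha
      (Or.inr k) ha'
    rcases ht with ⟨rfl, rfl⟩ | ⟨rfl, rfl⟩
    · rcases rt_pr (Y := U \ {u.1}) hge (b3.pr (fb_le U _ _) (fa_le U _ _) h1) b1 with e | e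
      · exact ⟨_, (st _ (Or.inl rfl)).congr e⟩
      · exact ⟨_, (st _ (Or.inr rfl)).congr e⟩
    · have b4 := EP.pr (K := Kv M U) (fa_le U t' t) (fb_le U t' t) b3 h1
      rw [Set.pair_comm] at b4
      rcases rt_pr (Y := U \ {u.1}) hge.symm b4 b1 with e | e
      · exact ⟨_, (st _ (Or.inr rfl)).congr e⟩
      · exact ⟨_, (st _ (Or.inl rfl)).congr e⟩

/-- girth of the coset graph of an edge -/
abbrev AG (M : CoxeterMatrix B) (U : Set B) (y z : B) (μ : ℕ) : Prop :=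
  Girth (Fv M U y z) (Kv M U y) (Kv M U z) μ

theorem AG.symm {y z : B} {μ : ℕ} (h : AG M U y z μ) : AG M U z y μ := by
  unfold AG; rw [fv_comm]; exact Girth.symm h

/-- local convexity -/
theorem conv {y z s : B} {σ c : Artin M} {m μ : ℕ} {Gd : B → Artin M → Prop} (hge : Ge M μ y z)
    (hg : AG M U y z μ) (h : EP (Fv M U y z) (Kv M U) Gd s σ m y z c) (hm : m + 1 < μ)
    (h1 : Mt U (s, σ) u) (h2 : Mt U (y, c) u) : Mt U (z, c) u := by
  obtain ⟨x, a1, a2⟩ := id h1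
  obtain ⟨a, ha⟩ := rt_walk (hge.mono (by omega)) (Or.inl ⟨rfl, rfl⟩) h a1 a2
  have k := (a2.mul (rt_mem _ x c)).mt a
  have e : In U (y, c) (rt (U \ {u.1}) x c) := by
    rw [← rt_eq a2]; exact ret_in' h2.symm (In.self _)
  obtain ⟨m', b1, b2⟩ := ((RW.step (vinv_mt u) (fa_le U y z) (fb_le U y z) ha (Or.inr k)
    (Or.inl rfl)).congr (mem_symm e)).pp hge.1
  obtain ⟨-, d⟩ := h.uniq (vinv_mt u) (fa_le U y z) (fb_le U y z) hge.1 hg b2 (by omega)
  cases m with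
  | zero => obtain ⟨rfl, e⟩ := d; exact h1.cg e
  | succ m => exact d.1.2

/-- girth six for all edges -/
def G3 (M : CoxeterMatrix B) (U : Set B) : Prop := ∀ a b, Ge M 3 a b → AG M U a b 3

theorem ep_one {a b : B} {σ x1 x2 : Artin M} (h1 : σ⁻¹ * x1 ∈ Kv M U a) (h2 : x1⁻¹ * x2 ∈ Kv M U b)
    (h3 : ¬ Mt U (a, σ) (a, x2)) : EP (Fv M U a b) (Kv M U) Tv a σ 1 a b x2 :=
  ⟨trivial, x1, h2, fun e => h3 ⟨x2, mem_trans h1 (fa_le U a b e), In.self _⟩, rfl, h1⟩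

theorem G3.P (hG : G3 M U) {c1 c2 w w' : Vx M} (e : c1.1 = c2.1) (ha : Ge M 3 c1.1 w.1)
    (h1 : Mt U c1 w) (h2 : Mt U c2 w) (h3 : Mt U c1 w') (h4 : Mt U c2 w') :
    Mt U c1 c2 ∨ Mt U w w' := by
  rw [or_iff_not_imp_left]
  intro hn
  obtain ⟨x1, a1, a2⟩ := h1
  obtain ⟨x2, b1, b2⟩ := h2
  exact b2.mt_iff.1 (conv ha (hG _ _ ha) (ep_one a1 (a2.div b2)
    fun h => hn (b1.mt_iff.1 (e ▸ h.symm)).symm) (by omega) h3 (e ▸ b1.mt_iff.2 h4))

theorem G3.Q (hG : G3 M U) {b c t s : Vx M} (ha : Ge M 3 s.1 t.1) (h1 : Mt U b c) (h2 : Mt U c t)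
    (h3 : Mt U t s) (h4 : Mt U s b) : Mt U s c ∨ Mt U t b := by
  obtain ⟨h, a, b'⟩ := id h3
  obtain ⟨z, a', b''⟩ := id h2
  obtain ⟨x, x1, x2⟩ := id h4
  have k1 : In U s (rt (U \ {b.1}) x h) := rt_in x1 b'
  have k2 : In U c (rt (U \ {b.1}) x z) := by rw [← rt_eq x2]; exact ret_in' h1 a'
  rcases rt_pr (Y := U \ {b.1}) (n := 1) ha ((pr_one (fa_le U _ _)).2 (x1.div b')) (a.div b'')
    with k | k
  · exact Or.inl ⟨_, k1.mul k, k2⟩
  · rcases hG.P (c1 := t) (c2 := (t.1, rt (U \ {b.1}) x h)) rfl ha.symm h3 (k1.mt _) h2.symm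
      ⟨_, k, k2⟩ with k' | k'
    · exact Or.inr ⟨_, k'.symm.in_of rfl (In.self _), x2.mul (rt_mem _ _ _)⟩
    · exact Or.inl k'

theorem ag_notMem {a b : B} (ha : a ∉ U) (μ : ℕ) : AG M U a b μ := by
  have e : Kv M U b ≤ Fv M U a b := apar_mono fun c hc => ⟨hc.1, by
    rintro (rfl | h)
    · exact ha hc.1
    · exact hc.2 h⟩
  have k1 : ∀ i g, ¬ AltZ (Fv M U a b) (i + 1) (Kv M U b) (Kv M U a) g :=
    fun i g ⟨_, h1, h2, _⟩ => h2 (e h1)
  intro i j g h1 _ h3 h4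
  match i, j, h3, h4 with
  | _, j + 1, _, h4 => exact k1 _ _ h4
  | 1, 0, h3, h4 => exact ((altZ_one (fa_le U a b)).1 h3).2 h4
  | i + 2, 0, ⟨_, _, _, h⟩, _ => exact k1 _ _ h
  | 0, 0, _, _ => omega

/-- commuting sets of generators -/
def Com (M : CoxeterMatrix B) (K K' : Set B) : Prop := ∀ s ∈ K, ∀ t ∈ K', M s t = 2

omit [Fintype B] [DecidableEq B] in
theorem Com.symm {K K' : Set B} (h : Com M K K') : Com M K' K :=
  fun s hs t ht => M.symmetric s t ▸ h t ht s hs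

theorem Com.commute {K K' : Set B} (h : Com M K K') {g g' : Artin M} (hg : g ∈ apar M K)
    (hg' : g' ∈ apar M K') : Commute g g' := by
  have k : ∀ s ∈ K, ∀ t ∈ K', Commute (gen M s) (gen M t) := by
    intro s hs t ht
    have := (BE.braid (M := M) s t).pos_eq
    rw [h s hs t ht] at this
    simpa [alt, pos_cons, Commute, SemiconjBy] using this
  refine apar_induction (P := fun g => Commute g g') hg (Commute.one_left _) ?_ ?_ <;>
    intro g _ i hi ih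
  all_goals
    have : Commute (gen M i) g' := apar_induction (P := fun g' => Commute (gen M i) g') hg'
      (Commute.one_right _) (fun _ _ j hj ih => ih.mul_right (k i hi j hj))
      (fun _ _ j hj ih => ih.mul_right (k i hi j hj).inv_right)
  · exact ih.mul_left this
  · exact ih.mul_left this.inv_left

theorem Com.split {K K' : Set B} (h : Com M K K') (hU : U ⊆ K ∪ K') {g : Artin M}
    (hg : g ∈ apar M U) : ∃ k ∈ apar M K, k⁻¹ * g ∈ apar M K' := by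
  have st : ∀ (g a : Artin M), (a ∈ apar M K ∨ a ∈ apar M K') →
      (∃ k ∈ apar M K, k⁻¹ * g ∈ apar M K') → ∃ k ∈ apar M K, k⁻¹ * (g * a) ∈ apar M K' := by
    rintro g a (ha | ha) ⟨k, h1, h2⟩
    · refine ⟨k * a, mul_mem h1 ha, ?_⟩
      have := (h.commute ha h2).eq
      rwa [show (k * a)⁻¹ * (g * a) = a⁻¹ * (k⁻¹ * g * a) by group, ← this, inv_mul_cancel_left]
    · exact ⟨k, h1, by rw [← mul_assoc]; exact mul_mem h2 ha⟩
  exact apar_induction (P := fun g => ∃ k ∈ apar M K, k⁻¹ * g ∈ apar M K') hg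
    ⟨1, one_mem _, by simp⟩
    (fun g _ i hi => st g _ ((hU hi).imp gen_mem_apar gen_mem_apar))
    (fun g _ i hi => st g _ ((hU hi).imp (inv_mem <| gen_mem_apar ·) (inv_mem <| gen_mem_apar ·)))

theorem mt_of_com {K K' : Set B} (h : Com M K K') (hU : U ⊆ K ∪ K') (h1 : p.1 ∉ K) (h2 : q.1 ∉ K')
    (e : p.2⁻¹ * q.2 ∈ apar M U) : Mt U p q := by
  have h' : Com M (K ∩ U) (K' ∩ U) := fun s hs t ht => h s hs.1 t ht.1
  obtain ⟨k, a1, a2⟩ := h'.split (fun c hc => (hU hc).imp (⟨·, hc⟩) (⟨·, hc⟩)) e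
  refine ⟨p.2 * k, ?_, mem_symm ?_⟩
  · simpa [In] using apar_mono (sub_diff (fun h => h1 h.1) Set.inter_subset_right) a1
  · simpa [mul_assoc] using apar_mono (sub_diff (fun h => h2 h.1) Set.inter_subset_right) a2

theorem mt_sep {K K' : Set B} (h : Com M K K') (hU : U \ {u.1} ⊆ K ∪ K') (h1 : p.1 ∉ K)
    (h2 : q.1 ∉ K') (a : Mt U p u) (b : Mt U q u) : Mt U p q := by
  obtain ⟨x, a1, a2⟩ := a
  obtain ⟨y, b1, b2⟩ := b
  exact a1.mt_iff.1 (Mt.glob' Set.sdiff_subset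
    (mt_of_com (p := (p.1, x)) (q := (q.1, y)) h hU h1 h2 (a2.div b2)) b1)

/-- translation -/
def tr (k : Artin M) (p : Vx M) : Vx M := (p.1, k * p.2)

@[simp] theorem tr_fst (k : Artin M) (p : Vx M) : (tr k p).1 = p.1 := rfl

theorem Mt.tr (k : Artin M) (h : Mt U p q) : Mt U (tr k p) (tr k q) :=
  let ⟨x, a, b⟩ := h
  ⟨k * x, by simpa [In, H10.tr, mul_assoc] using a, by simpa [In, H10.tr, mul_assoc] using b⟩

theorem mt_tr (k : Artin M) : Mt U (tr k p) (tr k q) ↔ Mt U p q :=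
  ⟨fun h => by simpa [tr] using h.tr k⁻¹, Mt.tr k⟩

theorem EP.tr {G ι : Type*} [Group G] {F : Subgroup G} {K : ι → Subgroup G} {s t t' : ι} {σ c : G}
    {m : ℕ} (k : G) (h : EP F K Tv s σ m t t' c) : EP F K Tv s (k * σ) m t t' (k * c) := by
  induction m generalizing t t' c with
  | zero => exact ⟨h.1, by simpa [mul_assoc] using h.2⟩
  | succ m ih =>
    obtain ⟨-, c', b1, b2, b3⟩ := h
    exact ⟨trivial, k * c', by simpa [mul_assoc] using b1, by simpa [mul_assoc] using b2, ih b3⟩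

/-- the one step property -/
def OS (U : Set B) (y z : B) (k : ℕ) (u v w : Vx M) : Prop :=
  ∀ s σ m c, EP (Fv M U y z) (Kv M U) Tv s σ m y z c → m + 1 ≤ k → Mt U (s, σ) v →
    Mt U (y, c) u → Mt U (y, c) w ∨ Mt U (z, c) u

theorem OS.mono {y z : B} {k k' : ℕ} (h : OS U y z k u v w) (hk : k' ≤ k) : OS U y z k' u v w :=
  fun s σ m c a b => h s σ m c a (b.trans hk)

theorem os_ex {y z s : B} {k m : ℕ} {Gd : B → Artin M → Prop} {σ τ : Artin M}
    (h1 : OS U y z k u v w) (h2 : OS U z y k u v w) (h : PP (Fv M U y z) (Kv M U) Gd s σ m y z τ)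
    (hm : m ≤ k) (a : Mt U (s, σ) v) (b : Mt U (y, τ) u) :
    Mt U (s, σ) u ∨ Mt U (y, τ) w ∨ ∃ t c, Gd t c ∧ Mt U (t, c) u ∧ Mt U (t, c) w := by
  induction m generalizing y z τ with
  | zero => obtain ⟨rfl, e⟩ := h; exact Or.inl (b.cg (mem_symm e))
  | succ m ih =>
    obtain ⟨c, e, h⟩ := h
    rcases h1 s σ m c h.tv hm a (b.cg (mem_symm e)) with d | d
    · exact Or.inr (Or.inl (d.cg e))
    obtain ⟨f1, f2⟩ := h.prev
    rcases ih h2 h1 (fv_comm U y z ▸ f1) (by omega) d with g | g | g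
    · exact Or.inl g
    · rcases f2 with rfl | f2
      · obtain ⟨rfl, e⟩ := f1; exact Or.inl (d.cg (mem_symm e))
      · exact Or.inr (Or.inr ⟨z, c, f2, d, g⟩)
    · exact Or.inr (Or.inr g)

theorem G3.os_one (hG : G3 M U) {y z : B} (h : Ge M 3 y z ∨ u.1 = v.1 ∨ Ge M 3 u.1 v.1)
    (huv : Mt U u v) : OS U y z 1 u v v := by
  intro s σ m c a hm b1 b2
  obtain rfl : m = 0 := by omega
  obtain ⟨rfl, e⟩ := a
  have b3 := b1.cg e
  rcases h with h | h | h
  · exact (hG.Q (s := (y, c)) (t := (s, c)) h huv b3.symm (mt_same _ _ _) b2)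
  · exact Or.inl (huv.trans_eq h b2.symm).symm
  · exact (hG.Q (s := u) (t := v) h (mt_same y s c) b3 huv.symm b2.symm).symm.imp Mt.symm Mt.symm

end Pool.Agent.H10
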